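import Pool.Agent.Lib.MP_d4c4f0_nt.ZS.A03

section

/-!
# B02: basic properties of `IsSol`

* `IsSol.sq`: `S^2 - (1 + a T^2 + b T^4)` has derivative `2 S S' - (2a T + 4b T^3) T' = 0` and constant term `0`
  (`PowerSeries.derivative.ext`).
* `IsSol.of_sq`: differentiate `S^2 = 1 + a T^2 + b T^4`: `2 S S' = (2aT + 4bT^3) mu om S`, cancel `2 S` (`S ≠ 0`).
* `IsSol.uniq`: induction on `n`: the coefficients of `T, T'` and `S, S'` agree up to `n`. `(n+1) T_{n+1}` is the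
  coefficient of `mu om S` at `n`, which depends only on `S_0, ..., S_n`; `(n+1) S_{n+1}` depends only on `T_0, ..., T_n`.
* `IsSol.neg`: clear.
-/

set_option autoImplicit false

namespace Pool.Agent.Lib.MP_d4c4f0_nt

open PowerSeries

variable {K : Type*} [Field K] [CharZero K] {om : K⟦X⟧} {a b mu : K} {T S : K⟦X⟧}

omit [CharZero K] in
private theorem b02_dsq (T : K⟦X⟧) (n : ℕ) : d⁄dX K (T ^ n) = n * T ^ (n - 1) * d⁄dX K T := by
  rw [Derivation.leibniz_pow]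
  simp [smul_eq_mul, nsmul_eq_mul, mul_assoc]

omit [CharZero K] in
private theorem b02_drhs (a b : K) (T : K⟦X⟧) :
    d⁄dX K (1 + C a * T ^ 2 + C b * T ^ 4) =
      2 * (C a * T + C (2 * b) * T ^ 3) * d⁄dX K T := by
  rw [map_add, map_add, Derivation.map_one_eq_zero, Derivation.leibniz, Derivation.leibniz,
    derivative_C, derivative_C, b02_dsq, b02_dsq, map_mul]
  simp only [smul_eq_mul, map_ofNat]
  push_cast
  ring

theorem IsSol.sq (h : IsSol om a b mu T S) : S ^ 2 = 1 + C a * T ^ 2 + C b * T ^ 4 := by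
  refine derivative.ext ?_ ?_
  · rw [b02_drhs, b02_dsq, h.dT, h.dS]
    push_cast
    ring
  · simp [h.T0, h.S0]

omit [CharZero K] in
private theorem b02_S0 (hS : constantCoeff S = 1) : S ≠ 0 := by
  rintro rfl
  rw [map_zero] at hS
  exact zero_ne_one hS

private theorem b02_two : (2 : K⟦X⟧) ≠ 0 := by
  intro h
  have h3 := congrArg (constantCoeff (R := K)) h
  rw [map_ofNat, map_zero] at h3
  exact two_ne_zero h3

omit [CharZero K] in
private theorem b02_cancel (hS0 : S ≠ 0) (h2 : (2 : K⟦X⟧) ≠ 0) {A B : K⟦X⟧}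
    (h : 2 * S * A = 2 * S * B) : A = B :=
  mul_left_cancel₀ (mul_ne_zero h2 hS0) h

theorem IsSol.of_sq (hT : constantCoeff T = 0) (hS : constantCoeff S = 1)
    (hd : d⁄dX K T = C mu * om * S) (hsq : S ^ 2 = 1 + C a * T ^ 2 + C b * T ^ 4) :
    IsSol om a b mu T S := by
  refine ⟨hT, hS, hd, ?_⟩
  have h1 : d⁄dX K (S ^ 2) = d⁄dX K (1 + C a * T ^ 2 + C b * T ^ 4) := by rw [hsq]
  rw [b02_drhs, b02_dsq, hd, Nat.cast_ofNat, Nat.add_one_sub_one, pow_one] at h1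
  refine b02_cancel (b02_S0 hS) b02_two ?_
  rw [h1]
  ring

omit [CharZero K] in
private theorem b02_coeff_mul {α s : K⟦X⟧} {n : ℕ} (h : ∀ k ≤ n, coeff k s = 0) :
    coeff n (α * s) = 0 := by
  rw [coeff_mul]
  refine Finset.sum_eq_zero fun x hx => ?_
  rw [h x.2 (by have := Finset.HasAntidiagonal.mem_antidiagonal.1 hx; omega), mul_zero]

private theorem b02_zero {α β t s : K⟦X⟧} (ht : d⁄dX K t = α * s) (hs : d⁄dX K s = β * t)
    (t0 : constantCoeff t = 0) (s0 : constantCoeff s = 0) : t = 0 ∧ s = 0 := by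
  have key : ∀ n, ∀ k ≤ n, coeff k t = 0 ∧ coeff k s = 0 := by
    intro n
    induction n with
    | zero =>
      intro k hk
      have : k = 0 := by omega
      subst this
      rw [coeff_zero_eq_constantCoeff_apply, coeff_zero_eq_constantCoeff_apply]
      exact ⟨t0, s0⟩
    | succ n ih =>
      intro k hk
      rcases Nat.lt_or_ge k (n + 1) with h | h
      · exact ih k (by omega)
      · have hk' : k = n + 1 := by omega
        subst hk'
        have hn : ((n : K) + 1) ≠ 0 := by exact_mod_cast Nat.succ_ne_zero n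
        constructor
        · have h1 := congrArg (coeff n) ht
          rw [coeff_derivative, b02_coeff_mul fun k hk => (ih k hk).2] at h1
          exact (mul_eq_zero.1 h1).resolve_right hn
        · have h1 := congrArg (coeff n) hs
          rw [coeff_derivative, b02_coeff_mul fun k hk => (ih k hk).1] at h1
          exact (mul_eq_zero.1 h1).resolve_right hn
  exact ⟨PowerSeries.ext fun n => by rw [(key n n le_rfl).1, map_zero],
    PowerSeries.ext fun n => by rw [(key n n le_rfl).2, map_zero]⟩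

theorem IsSol.uniq {T' S' : K⟦X⟧} (h : IsSol om a b mu T S) (h' : IsSol om a b mu T' S') :
    T = T' ∧ S = S' := by
  have h1 := b02_zero (t := T - T') (s := S - S') (α := C mu * om)
    (β := C mu * om * (C a + C (2 * b) * (T ^ 2 + T * T' + T' ^ 2)))
    (by rw [map_sub, h.dT, h'.dT]; ring)
    (by rw [map_sub, h.dS, h'.dS]; ring)
    (by rw [map_sub, h.T0, h'.T0, sub_self]) (by rw [map_sub, h.S0, h'.S0, sub_self])
  exact ⟨sub_eq_zero.1 h1.1, sub_eq_zero.1 h1.2⟩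

theorem IsSol.neg (h : IsSol om a b mu T S) : IsSol om a b (-mu) (-T) S where
  T0 := by rw [map_neg, h.T0, neg_zero]
  S0 := h.S0
  dT := by rw [map_neg, h.dT, map_neg]; ring
  dS := by rw [h.dS, map_neg]; ring

end Pool.Agent.Lib.MP_d4c4f0_nt
end

section

/-!
# B14: integrality

`K` a nonarchimedean normed field. `Intg y`: all coefficients have norm `≤ 1`.
* closure properties: `coeff` of a product is a finite sum of products, `IsUltrametricDist` (`norm_sum_le_of_forall_le..`).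
* `Intg.of_mul`: if `u` is integral with constant term `1` and `u y` is integral, so is `y` (strong induction on the degree:
  `y_n = (uy)_n - ∑_{0<i≤n} u_i y_{n-i}`).
* `Intg.of_sq`: if `S(0) = 1`, `‖2‖ = 1` and `S^2` integral then `S` integral: `2 S_n = (S^2)_n - ∑_{0<i<n} S_i S_{n-i}`.
* `intg_omS`: `tn` is a polynomial in `A, B` with natural number coefficients (`‖(n:K)‖ ≤ 1`).
* `tn_prime`: `p ∣ C(p,2k)` for `0 < 2k < p`, the term `k = 0` is `A^p` (`2k = p` is impossible for odd `p`).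
-/

set_option autoImplicit false

namespace Pool.Agent.Lib.MP_d4c4f0_nt

open PowerSeries

variable {K : Type*} [NormedField K] [IsUltrametricDist K]

/-- Power series with integral coefficients. -/
def Intg (y : K⟦X⟧) : Prop := ∀ n, ‖coeff n y‖ ≤ 1

/-- There is an integral solution of multiplier `mu`. -/
def IntSol (om : K⟦X⟧) (a b mu : K) : Prop := ∃ T S : K⟦X⟧, IsSol om a b mu T S ∧ Intg T ∧ Intg S

private theorem nsum {ι : Type*} (s : Finset ι) (f : ι → K) {c : ℝ} (hc : 0 ≤ c)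
    (h : ∀ i ∈ s, ‖f i‖ ≤ c) : ‖∑ i ∈ s, f i‖ ≤ c :=
  IsUltrametricDist.norm_sum_le_of_forall_le_of_nonneg hc h

private theorem nsub {x y : K} {c : ℝ} (hx : ‖x‖ ≤ c) (hy : ‖y‖ ≤ c) : ‖x - y‖ ≤ c := by
  rw [sub_eq_add_neg]
  refine (IsUltrametricDist.norm_add_le_max x (-y)).trans (max_le hx ?_)
  rwa [norm_neg]

private theorem nmul {x y : K} (hx : ‖x‖ ≤ 1) (hy : ‖y‖ ≤ 1) : ‖x * y‖ ≤ 1 := by
  rw [norm_mul]
  exact mul_le_one₀ hx (norm_nonneg y) hy

theorem Intg.add {y z : K⟦X⟧} (hy : Intg y) (hz : Intg z) : Intg (y + z) := by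
  intro n
  rw [map_add]
  exact (IsUltrametricDist.norm_add_le_max _ _).trans (max_le (hy n) (hz n))

theorem Intg.mul {y z : K⟦X⟧} (hy : Intg y) (hz : Intg z) : Intg (y * z) := by
  intro n
  rw [coeff_mul]
  exact nsum _ _ zero_le_one fun i _ => nmul (hy _) (hz _)

theorem Intg.neg {y : K⟦X⟧} (hy : Intg y) : Intg (-y) := by
  intro n
  rw [map_neg, norm_neg]
  exact hy n

theorem Intg.const {a : K} (ha : ‖a‖ ≤ 1) : Intg (C a : K⟦X⟧) := by
  intro n
  rw [coeff_C]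
  split_ifs
  · exact ha
  · simp

theorem Intg.pow {y : K⟦X⟧} (hy : Intg y) (n : ℕ) : Intg (y ^ n) := by
  induction n with
  | zero =>
    rw [pow_zero]
    have : (1 : K⟦X⟧) = C (1 : K) := by simp
    rw [this]
    exact Intg.const (by simp)
  | succ n ih =>
    rw [pow_succ]
    exact ih.mul hy

theorem Intg.X : Intg (PowerSeries.X : K⟦X⟧) := by
  intro n
  rw [coeff_X]
  split_ifs <;> simp

theorem Intg.of_mul {u y : K⟦X⟧} (hu : Intg u) (h1 : constantCoeff u = 1) (h : Intg (u * y)) :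
    Intg y := by
  intro n
  induction n using Nat.strong_induction_on with
  | _ n ih =>
    have h2 := coeff_mul n u y
    have hm : ((0, n) : ℕ × ℕ) ∈ Finset.HasAntidiagonal.antidiagonal n := by simp
    rw [← Finset.add_sum_erase _ _ hm] at h2
    simp only [coeff_zero_eq_constantCoeff, h1, one_mul] at h2
    have h3 : coeff n y = coeff n (u * y) -
        ∑ q ∈ (Finset.HasAntidiagonal.antidiagonal n).erase (0, n), coeff q.1 u * coeff q.2 y := by
      rw [h2]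
      ring
    rw [h3]
    refine nsub (h n) (nsum _ _ zero_le_one fun q hq => nmul (hu _) (ih _ ?_))
    rw [Finset.mem_erase, Finset.HasAntidiagonal.mem_antidiagonal] at hq
    obtain ⟨hq1, hq2⟩ := hq
    have h5 : q.1 ≠ 0 := by
      intro h0
      apply hq1
      ext
      · exact h0
      · simp only
        omega
    omega

theorem Intg.of_sq {S : K⟦X⟧} (h2 : ‖(2 : K)‖ = 1) (h1 : constantCoeff S = 1)
    (h : Intg (S ^ 2)) : Intg S := by
  intro n
  induction n using Nat.strong_induction_on with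
  | _ n ih =>
    rcases Nat.eq_zero_or_pos n with rfl | hn
    · rw [coeff_zero_eq_constantCoeff, h1, norm_one]
    have h3 := coeff_mul n S S
    rw [← sq] at h3
    have hm : ((0, n) : ℕ × ℕ) ∈ Finset.HasAntidiagonal.antidiagonal n := by simp
    have hm' : ((n, 0) : ℕ × ℕ) ∈ (Finset.HasAntidiagonal.antidiagonal n).erase (0, n) := by
      rw [Finset.mem_erase]
      refine ⟨?_, by simp⟩
      intro h0
      have := congrArg Prod.fst h0
      simp only at this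
      omega
    rw [← Finset.add_sum_erase _ _ hm, ← Finset.add_sum_erase _ _ hm'] at h3
    simp only [coeff_zero_eq_constantCoeff, h1, one_mul, mul_one] at h3
    have h4 : (2 : K) * coeff n S = coeff n (S ^ 2) -
        ∑ q ∈ ((Finset.HasAntidiagonal.antidiagonal n).erase (0, n)).erase (n, 0), coeff q.1 S * coeff q.2 S := by
      rw [h3]
      ring
    have h5 : ‖coeff n S‖ = ‖(2 : K) * coeff n S‖ := by rw [norm_mul, h2, one_mul]
    rw [h5, h4]
    refine nsub (h n) (nsum _ _ zero_le_one fun q hq => nmul (ih _ ?_) (ih _ ?_))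
    all_goals
      rw [Finset.mem_erase, Finset.mem_erase, Finset.HasAntidiagonal.mem_antidiagonal] at hq
      obtain ⟨hq0, hq1, hq2⟩ := hq
    · have h6 : q.2 ≠ 0 := by
        intro h0
        apply hq0
        ext
        · simp only
          omega
        · exact h0
      omega
    · have h6 : q.1 ≠ 0 := by
        intro h0
        apply hq1
        ext
        · exact h0
        · simp only
          omega
      omega

theorem norm_natCast_le (n : ℕ) : ‖(n : K)‖ ≤ 1 := by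
  exact IsUltrametricDist.norm_natCast_le_one K n

private theorem term_le {A B : K} (hA : ‖A‖ ≤ 1) (hB : ‖B‖ ≤ 1) (m i j : ℕ) :
    ‖(m : K) * A ^ i * B ^ j‖ ≤ ‖(m : K)‖ := by
  rw [norm_mul, norm_mul, norm_pow, norm_pow]
  have h1 : ‖A‖ ^ i ≤ 1 := pow_le_one₀ (norm_nonneg A) hA
  have h2 : ‖B‖ ^ j ≤ 1 := pow_le_one₀ (norm_nonneg B) hB
  calc ‖(m : K)‖ * ‖A‖ ^ i * ‖B‖ ^ j ≤ ‖(m : K)‖ * 1 * 1 := by gcongr
    _ = ‖(m : K)‖ := by ring

theorem intg_omS {A B : K} (hA : ‖A‖ ≤ 1) (hB : ‖B‖ ≤ 1) : Intg (omS A B) := by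
  intro n
  unfold omS
  rw [coeff_mk]
  split_ifs
  · unfold tn
    exact nsum _ _ zero_le_one fun k _ => (term_le hA hB _ _ _).trans (norm_natCast_le _)
  · simp

theorem tn_prime {p : ℕ} (hp : p.Prime) (h2 : p ≠ 2) {A B : K} (hA : ‖A‖ ≤ 1) (hB : ‖B‖ ≤ 1) :
    ‖tn p A B - A ^ p‖ ≤ ‖(p : K)‖ := by
  have hodd : p % 2 = 1 := (hp.eq_two_or_odd.resolve_left h2)
  unfold tn
  rw [Finset.sum_range_succ']
  have h0 : ((p.choose (2 * 0) * (2 * 0).choose 0 : ℕ) : K) * A ^ (p - 2 * 0) * B ^ 0 = A ^ p := by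
    simp
  rw [h0, add_sub_cancel_right]
  refine nsum _ _ (norm_nonneg _) fun k hk => ?_
  rw [Finset.mem_range] at hk
  refine (term_le hA hB _ _ _).trans ?_
  have h3 : p ∣ p.choose (2 * (k + 1)) := hp.dvd_choose_self (by omega) (by omega)
  obtain ⟨c, hc⟩ := h3
  rw [hc, mul_assoc]
  push_cast
  rw [norm_mul]
  have h4 : ‖(c : K) * (((2 * (k + 1)).choose (k + 1) : ℕ) : K)‖ ≤ 1 :=
    nmul (norm_natCast_le _) (norm_natCast_le _)
  calc ‖(p : K)‖ * ‖(c : K) * (((2 * (k + 1)).choose (k + 1) : ℕ) : K)‖ ≤ ‖(p : K)‖ * 1 := by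
        gcongr
    _ = ‖(p : K)‖ := mul_one _

end Pool.Agent.Lib.MP_d4c4f0_nt
end

section

/-!
# A04: the reversed truncated sum modulo `p^2`

`R` a commutative ring with `p^2 = 0`.
* `L2_FB`: `B = FH p (-C w) X`, `B_k = f_n (-w)^n` with `k = p-1-n`. Put `Θ = θ - p`. With `8 w = 1`:
  `al Θ^2 B + be Θ B + ga B = 0` (coefficient of `X^k`, `k - p = -(n+1)`:
  `(n+1)^2 B_k - (7 (n+2)^2 - 7 (n+2) + 2) B_{k-1} - 8 (n+2)^2 B_{k-2} + ...` in detail: the coefficient of `y_{k-1}` in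
  `al Θ^2 y + be Θ y + ga y` is `-(7 κ^2 + 7 κ + 2)` with `κ = k-1-p = -(n+2)`, and `7κ^2+7κ+2 = 7(n+1)^2+7(n+1)+2`; the
  coefficient of `y_{k-2}` is `-8 (κ'+1)^2` with `κ' = k-2-p = -(n+3)`, i.e. `-8 (n+2)^2`;
  `B_{k-1} = f_{n+1} (-w)^(n+1)`, `B_{k-2} = f_{n+2} (-w)^(n+2)`; multiply by `64 (-8)^n`, `(-8)(-w) = 1`:
  it is `64 (n+1)^2 f_n + 8 (7(n+1)^2+7(n+1)+2) f_{n+1} - 8 (n+2)^2 f_{n+2} = 0`, which is `8 * fr_rec`.
  Boundary terms: `k = p` (`n = -1`): `-2 B_{p-1} - 8 B_{p-2} = -2 f_0 + 8 w f_1 = -2 + f_1 = 0`;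
  `k = p+1`: `-8 (k-1-p)^2 B_{p-1} = 0`; `k = 0` (`n = p-1`): `p^2 B_0 = 0`; `k = 1` (`n = p-2`):
  `(p-1)^2 B_1 - (7(p-1)^2+7(p-1)+2) B_0`, multiple of `fr_rec` with the term `p^2 f_p` dropped).
  Expanding `Θ` and `p^2 = 0` gives `L2 B = p (2 al θB + be B)`.
  (You may use `coeff_L2` for `L2 B` and `coeff_th`, comparing coefficients directly: the coefficient of `X^(k+2)` of
  `2 al θB + be B` is `2 (k+2) B_{k+2} - (14 (k+1) + 7) B_{k+1} - 16 (k+1) B_k`.)
-/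

set_option autoImplicit false

open Finset PowerSeries

namespace Pool.Agent.Lib.MP_d4c4f0_nt

variable {R : Type*} [CommRing R]

theorem coeff_FB (p k : ℕ) (w : R) : coeff k (FH p (-(C w)) (X : R⟦X⟧)) =
    if k < p then (fr (p - 1 - k) : R) * (-w) ^ (p - 1 - k) else 0 := by
  unfold FH
  rw [map_sum]
  have h : ∀ n : ℕ, coeff k (((fr n : ℕ) : R⟦X⟧) * (-(C w)) ^ n * X ^ (p - 1 - n)) =
      if k = p - 1 - n then (fr n : R) * (-w) ^ n else 0 := by
    intro n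
    have h1 : ((fr n : ℕ) : R⟦X⟧) * (-(C w)) ^ n = C (((fr n : ℕ) : R) * (-w) ^ n) := by
      rw [map_mul, map_pow, map_neg, map_natCast]
    rw [h1, coeff_C_mul, coeff_X_pow]
    split_ifs <;> ring
  rw [sum_congr rfl fun n _ => h n]
  by_cases hk : k < p
  · rw [if_pos hk, sum_eq_single (p - 1 - k)]
    · rw [if_pos (by omega)]
    · intro n hn hne
      rw [mem_range] at hn
      rw [if_neg (by omega)]
    · intro hn
      rw [mem_range] at hn
      omega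
  · rw [if_neg hk]
    refine sum_eq_zero fun n hn => ?_
    rw [mem_range] at hn
    rw [if_neg (by omega)]

theorem L2_FB {p : ℕ} (hp : 2 ≤ p) (h2 : (p : R) ^ 2 = 0) {w : R} (hw : 8 * w = 1) :
    L2 (FH p (-(C w)) (X : R⟦X⟧)) =
      (p : R⟦X⟧) * (2 * al * th (FH p (-(C w)) (X : R⟦X⟧)) + be * FH p (-(C w)) (X : R⟦X⟧)) := by
  set B : R⟦X⟧ := FH p (-(C w)) (X : R⟦X⟧) with hB
  have hpC : ∀ (f : R⟦X⟧) (k : ℕ), coeff k ((p : R⟦X⟧) * f) = (p : R) * coeff k f := by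
    intro f k
    have h1 : ((p : ℕ) : R⟦X⟧) = C ((p : ℕ) : R) := by simp
    rw [h1, coeff_C_mul]
  have hcB : ∀ k, coeff k B = if k < p then (fr (p - 1 - k) : R) * (-w) ^ (p - 1 - k) else 0 :=
    fun k => coeff_FB p k w
  ext k
  rw [hpC, map_add, mul_assoc, coeff_ofNat_mul]
  rcases k with _ | _ | k
  · have h1 : ∀ f : R⟦X⟧, coeff 0 (X * f) = 0 := fun f => by simp
    have h3 : ∀ f : R⟦X⟧, coeff 0 (X ^ 2 * f) = 0 := fun f => by simp
    rw [coeff_L2_zero, al_mul, be_mul]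
    simp only [map_sub, map_neg, coeff_ofNat_mul, h1, h3, coeff_th]
    push_cast
    ring
  · rw [zero_add, coeff_L2_one, coeff_one_al_mul, coeff_one_be_mul, coeff_th, coeff_th, hcB, hcB,
      if_pos (by omega), if_pos (by omega)]
    obtain ⟨n, rfl⟩ : ∃ n, p = n + 2 := ⟨p - 2, by omega⟩
    have hrec := fr_recR (R := R) n
    have e1 : n + 2 - 1 - 1 = n := by omega
    have e2 : n + 2 - 1 - 0 = n + 1 := by omega
    rw [e1, e2]
    push_cast at h2 ⊢
    rw [h2] at hrec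
    linear_combination (-(w * (-w) ^ n)) * hrec -
      w * (-w) ^ n * (7 * (fr (n + 1) : R) + 8 * (fr n : R)) * h2 -
      (-w) ^ n * (fr n : R) * (1 - 2 * ((n : R) + 2)) * hw
  · rw [show k + 1 + 1 = k + 2 from rfl, coeff_L2, coeff_al_mul, coeff_be_mul]
    simp only [coeff_th, hcB]
    rcases lt_trichotomy (k + 2) p with h | h | h
    · obtain ⟨n, rfl⟩ : ∃ n, p = n + k + 3 := ⟨p - k - 3, by omega⟩
      have hrec := fr_recR (R := R) n
      rw [if_pos h, if_pos (by omega), if_pos (by omega)]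
      have e1 : n + k + 3 - 1 - (k + 2) = n := by omega
      have e2 : n + k + 3 - 1 - (k + 1) = n + 1 := by omega
      have e3 : n + k + 3 - 1 - k = n + 2 := by omega
      rw [e1, e2, e3]
      push_cast at h2 ⊢
      linear_combination (-(8 * w ^ 2 * (-w) ^ n)) * hrec -
        ((fr n : R) * (-w) ^ n + 7 * (w * (fr (n + 1) : R) * (-w) ^ n) -
          8 * (w ^ 2 * (fr (n + 2) : R) * (-w) ^ n)) * h2 -
        ((1 + 8 * w) * ((n : R) + 1) ^ 2 * (fr n : R) * (-w) ^ n +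
          w * (7 * ((n : R) + 1) ^ 2 + 7 * ((n : R) + 1) + 2) * (fr (n + 1) : R) * (-w) ^ n) * hw
    · subst h
      rw [if_neg (by omega), if_pos (by omega), if_pos (by omega)]
      have e2 : k + 2 - 1 - (k + 1) = 0 := by omega
      have e3 : k + 2 - 1 - k = 1 := by omega
      rw [e2, e3, fr_zero, fr_one]
      push_cast at h2 ⊢
      linear_combination 2 * hw + (7 - 16 * w) * h2
    · by_cases hk : k < p
      · have hkp : k + 1 = p := by omega
        subst hkp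
        rw [if_neg (by omega), if_neg (by omega), if_pos hk]
        have e3 : k + 1 - 1 - k = 0 := by omega
        rw [e3, fr_zero]
        push_cast at h2 ⊢
        linear_combination (-8 + 16) * h2
      · rw [if_neg (by omega), if_neg (by omega), if_neg hk]
        ring

end Pool.Agent.Lib.MP_d4c4f0_nt
end

section

/-!
# A06: the differential equation of `(1-8x)^(p-1) FA p (w3 x)`

`A3 = FH p (-(1+X)) (1-8X) = ∑_{n<p} f_n (-1)^n (1+X)^n (1-8X)^(p-1-n)`. Claim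
`L2 A3 = - 8 p X ((1+2X) A3 + 2 (1+X) θ A3)` if `p^2 = 0` in `R`.
Proof. Let `i8 = (1-8X)⁻¹`, `i1 = (1+X)⁻¹` (power series), `z = -(1+X) i8`, `y_n = (1-8X)^m z^n` with `m = p-1` (any
`n ≥ 0`). `θ z / z = 9 X i1 i8`, `θ (1-8X) = -8X`. Computation (identity of rational functions, `n`, `m` arbitrary):
`(1+X) (L2 y_n + 8 (m+1) X ((1+2X) y_n + 2 (1+X) θ y_n))`
`  = -X (1-8X) (n^2 y_n - (7n^2+7n+2) y_{n+1} - 8 (n+1)^2 y_{n+2}) - 64 (m+1)^2 X^2 (1+X)^2 i8 y_n`.
(Both sides are `y_n` times a rational function: `θ y_n = κ y_n`, `κ = 9 n X i1 i8 - 8 m X i8`,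
`θ^2 y_n = (κ^2 + θκ) y_n`, `θ i1 = -X i1^2`, `θ i8 = 8 X i8^2`; multiply by `(1+X)^a (1-8X)^b` and use `ring`.)
Multiply by `f_n` and sum over `n < p`: the middle terms telescope by `fr_rec` to
`-X (1-8X) (-p^2 f_p y_p - 8 p^2 f_{p-1} y_{p+1}) = 0`, and `(m+1)^2 = p^2 = 0`. Finally `1+X` is a unit.
-/

set_option autoImplicit false

open Finset PowerSeries

namespace Pool.Agent.Lib.MP_d4c4f0_nt

variable {R : Type*} [CommRing R]

theorem a06_th_sum (s : Finset ℕ) (c : ℕ → ℕ) (y : ℕ → R⟦X⟧) :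
    th (∑ n ∈ s, (c n : R⟦X⟧) * y n) = ∑ n ∈ s, (c n : R⟦X⟧) * th (y n) := by
  rw [map_sum]
  refine Finset.sum_congr rfl fun n _ => ?_
  rw [th_mul, th_natCast]
  ring

theorem a06_th_pow {f g : R⟦X⟧} (h : th f = g * f) (n : ℕ) :
    th (f ^ n) = (n : R⟦X⟧) * g * f ^ n := by
  induction n with
  | zero => simp
  | succ n ih =>
    rw [pow_succ, th_mul, ih, h]
    push_cast
    ring

theorem a06_tel (y : ℕ → R⟦X⟧) (q : ℕ) :
    ∑ n ∈ range (q + 1), (fr n : R⟦X⟧) * ((n : R⟦X⟧) ^ 2 * y n -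
      (7 * (n : R⟦X⟧) ^ 2 + 7 * (n : R⟦X⟧) + 2) * y (n + 1) -
      8 * ((n : R⟦X⟧) + 1) ^ 2 * y (n + 2)) =
    -((q : R⟦X⟧) + 1) ^ 2 * ((fr (q + 1) : R⟦X⟧) * y (q + 1) + 8 * (fr q : R⟦X⟧) * y (q + 2)) := by
  induction q with
  | zero =>
    have h0 := fr_zero
    have h1 := fr_one
    simp [h0, h1]
    ring
  | succ q ih =>
    rw [Finset.sum_range_succ, ih]
    have h := congrArg (fun t : ℤ => (t : R⟦X⟧)) (fr_rec q)
    push_cast at h ⊢
    linear_combination (y (q + 2)) * h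

theorem a06_key (n m : ℕ) (u v : R⟦X⟧) (h8 : (1 - 8 * X) * u = 1) (h1 : (1 + X) * v = 1) :
    (1 + X) * (L2 ((1 - 8 * X) ^ m * (-(1 + X) * u) ^ n) +
      8 * ((m : R⟦X⟧) + 1) * X * ((1 + 2 * X) * ((1 - 8 * X) ^ m * (-(1 + X) * u) ^ n) +
        2 * (1 + X) * th ((1 - 8 * X) ^ m * (-(1 + X) * u) ^ n))) =
    -X * (1 - 8 * X) * ((n : R⟦X⟧) ^ 2 * ((1 - 8 * X) ^ m * (-(1 + X) * u) ^ n) -
      (7 * (n : R⟦X⟧) ^ 2 + 7 * (n : R⟦X⟧) + 2) * ((1 - 8 * X) ^ m * (-(1 + X) * u) ^ (n + 1)) -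
      8 * ((n : R⟦X⟧) + 1) ^ 2 * ((1 - 8 * X) ^ m * (-(1 + X) * u) ^ (n + 2))) -
    64 * ((m : R⟦X⟧) + 1) ^ 2 * (X ^ 2 * (1 + X) ^ 2 * u * ((1 - 8 * X) ^ m * (-(1 + X) * u) ^ n)) := by
  have hX : th (X : R⟦X⟧) = X := th_X
  have t8 : th (1 - 8 * X : R⟦X⟧) = -8 * X := by
    rw [map_sub, th_one, th_mul, th_ofNat, hX]; ring
  have t1 : th (1 + X : R⟦X⟧) = X := by
    rw [map_add, th_one, hX]; ring
  have tu : th u = u ^ 2 - u := by
    have h := congrArg (fun t => th t) h8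
    simp only [th_mul, th_one, t8] at h
    linear_combination u * h - (th u + u) * h8
  have tv : th v = v ^ 2 - v := by
    have h := congrArg (fun t => th t) h1
    simp only [th_mul, th_one, t1] at h
    linear_combination v * h - (th v + v) * h1
  have tz : th (-(1 + X) * u) = (u - v) * (-(1 + X) * u) := by
    rw [th_mul, map_neg, t1, tu]
    linear_combination (-u) * h1
  have t8' : th (1 - 8 * X : R⟦X⟧) = (1 - u) * (1 - 8 * X) := by
    rw [t8]
    linear_combination h8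
  set N : R⟦X⟧ := (n : R⟦X⟧) with hN
  set M : R⟦X⟧ := (m : R⟦X⟧) with hM
  set Y : R⟦X⟧ := (1 - 8 * X) ^ m * (-(1 + X) * u) ^ n with hY
  have e1 : (1 - 8 * X) ^ m * (-(1 + X) * u) ^ (n + 1) = -(1 + X) * u * Y := by
    rw [hY]; ring
  have e2 : (1 - 8 * X) ^ m * (-(1 + X) * u) ^ (n + 2) = (1 + X) ^ 2 * u ^ 2 * Y := by
    rw [hY]; ring
  have tY : th Y = (N * (u - v) + M * (1 - u)) * Y := by
    rw [hY, th_mul, a06_th_pow tz, a06_th_pow t8']
    ring
  have tN : th N = 0 := by rw [hN]; exact th_natCast n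
  have tM : th M = 0 := by rw [hM]; exact th_natCast m
  have tk : th (N * (u - v) + M * (1 - u)) = N * (u ^ 2 - u - v ^ 2 + v) + M * (u - u ^ 2) := by
    rw [map_add, th_mul, th_mul, tN, tM, map_sub, map_sub, th_one, tu, tv]
    ring
  have tYY : th (th Y) = (N * (u ^ 2 - u - v ^ 2 + v) + M * (u - u ^ 2) +
      (N * (u - v) + M * (1 - u)) ^ 2) * Y := by
    rw [tY, th_mul, tk, tY]
    ring
  rw [e1, e2]
  unfold L2
  rw [tYY, tY]
  unfold al be ga
  have key : (1 + X) * (((1 - 7 * X - 8 * X ^ 2) * (N * (u ^ 2 - u - v ^ 2 + v) + M * (u - u ^ 2) +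
      (N * (u - v) + M * (1 - u)) ^ 2) + (-7 * X - 16 * X ^ 2) * (N * (u - v) + M * (1 - u)) +
      (-2 * X - 8 * X ^ 2)) + 8 * (M + 1) * X * ((1 + 2 * X) +
        2 * (1 + X) * (N * (u - v) + M * (1 - u)))) +
      X * (1 - 8 * X) * (N ^ 2 + (7 * N ^ 2 + 7 * N + 2) * (1 + X) * u -
        8 * (N + 1) ^ 2 * (1 + X) ^ 2 * u ^ 2) + 64 * (M + 1) ^ 2 * (X ^ 2 * (1 + X) ^ 2 * u) =
      (0 : R⟦X⟧) := by
    linear_combination
      N ^ 2 * ((1 + X) ^ 2 * u * h8 - 2 * (1 + X) * ((1 + X) * v * h8 + h1) +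
        (1 - 8 * X) * ((1 + X) * v + 1) * h1) +
      2 * N * M * ((1 + X) ^ 2 * h8 - (1 + X) * (1 - 8 * X) * h1 - (1 + X) ^ 2 * u * h8 +
        (1 + X) * ((1 + X) * v * h8 + h1)) +
      M ^ 2 * (-2 * (1 + X) ^ 2 * h8 + (1 + X) ^ 2 * u * h8) +
      N * ((1 + X) ^ 2 * u * h8 - (1 + X) ^ 2 * h8 - (1 - 8 * X) * ((1 + X) * v + 1) * h1 +
        (1 + X) * (1 - 8 * X) * h1) +
      M * ((1 + X) ^ 2 * h8 - (1 + X) ^ 2 * u * h8) -
      N * (-7 * X - 16 * X ^ 2) * h1 - 16 * (M + 1) * X * (1 + X) * N * h1 +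
      X * (7 * N ^ 2 + 7 * N + 2) * (1 + X) * h8 - 8 * X * (N + 1) ^ 2 * (1 + X) ^ 2 * u * h8 -
      (N ^ 2 * (-2 * (1 + X) + (1 - 8 * X)) +
        2 * N * M * ((1 + X) ^ 2 - (1 + X) * (1 - 8 * X) + (1 + X)) +
        M ^ 2 * ((1 + X) * ((1 + X) * (1 - 8 * X)) - 2 * (1 + X) ^ 2) +
        N * (-(1 + X) ^ 2 - (1 - 8 * X) + (1 + X) * (1 - 8 * X)) + M * (1 + X) ^ 2 +
        (-7 * X - 16 * X ^ 2) * (-N + (1 + X) * M) + (1 + X) * (-2 * X - 8 * X ^ 2) +
        8 * (M + 1) * X * (1 + 2 * X) * (1 + X) +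
        16 * (M + 1) * X * (1 + X) * (-N + (1 + X) * M) + X * (1 - 8 * X) * N ^ 2 +
        X * (7 * N ^ 2 + 7 * N + 2) * (1 + X)) * h8
  linear_combination Y * key

theorem L2_A3 {p : ℕ} (hp : 2 ≤ p) (h2 : (p : R) ^ 2 = 0) :
    L2 (FH p (-(1 + X)) (1 - 8 * X : R⟦X⟧)) =
      -8 * (p : R⟦X⟧) * X * ((1 + 2 * X) * FH p (-(1 + X)) (1 - 8 * X : R⟦X⟧) +
        2 * (1 + X) * th (FH p (-(1 + X)) (1 - 8 * X : R⟦X⟧))) := by
  obtain ⟨q, rfl⟩ : ∃ q, p = q + 1 := ⟨p - 1, by omega⟩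
  have c8 : IsUnit (1 - 8 * X : R⟦X⟧) := by
    rw [PowerSeries.isUnit_iff_constantCoeff]
    simp
  have c1 : IsUnit (1 + X : R⟦X⟧) := by
    rw [PowerSeries.isUnit_iff_constantCoeff]
    simp
  obtain ⟨u, h8⟩ := c8.exists_right_inv
  obtain ⟨v, h1⟩ := c1.exists_right_inv
  set y : ℕ → R⟦X⟧ := fun n => (1 - 8 * X) ^ q * (-(1 + X) * u) ^ n with hy
  have hF : FH (q + 1) (-(1 + X)) (1 - 8 * X : R⟦X⟧) = ∑ n ∈ range (q + 1), (fr n : R⟦X⟧) * y n := by
    unfold FH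
    refine Finset.sum_congr rfl fun n hn => ?_
    have hn' : n ≤ q := by
      have := Finset.mem_range.mp hn
      omega
    have e : (1 - 8 * X : R⟦X⟧) ^ q = (1 - 8 * X) ^ (q - n) * (1 - 8 * X) ^ n := by
      rw [← pow_add]; congr 1; omega
    have e' : ((1 - 8 * X : R⟦X⟧) * u) ^ n = 1 := by rw [h8, one_pow]
    rw [mul_pow] at e'
    simp only [hy]
    rw [e, mul_pow, show q + 1 - 1 - n = q - n by omega]
    linear_combination (-(fr n : R⟦X⟧) * (-(1 + X)) ^ n * (1 - 8 * X) ^ (q - n)) * e'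
  have hp2 : ((q : R⟦X⟧) + 1) ^ 2 = 0 := by
    have h := congrArg (fun t : R => PowerSeries.C t) h2
    simp only [map_pow, map_natCast, map_zero] at h
    push_cast at h
    exact h
  have hL : L2 (∑ n ∈ range (q + 1), (fr n : R⟦X⟧) * y n) =
      ∑ n ∈ range (q + 1), (fr n : R⟦X⟧) * L2 (y n) := by
    unfold L2
    rw [a06_th_sum, a06_th_sum, Finset.mul_sum, Finset.mul_sum, Finset.mul_sum,
      ← Finset.sum_add_distrib, ← Finset.sum_add_distrib]
    refine Finset.sum_congr rfl fun n _ => ?_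
    ring
  have hT : th (∑ n ∈ range (q + 1), (fr n : R⟦X⟧) * y n) =
      ∑ n ∈ range (q + 1), (fr n : R⟦X⟧) * th (y n) := a06_th_sum _ _ _
  have hmain : (1 + X) * (L2 (∑ n ∈ range (q + 1), (fr n : R⟦X⟧) * y n) +
      8 * ((q : R⟦X⟧) + 1) * X * ((1 + 2 * X) * (∑ n ∈ range (q + 1), (fr n : R⟦X⟧) * y n) +
        2 * (1 + X) * th (∑ n ∈ range (q + 1), (fr n : R⟦X⟧) * y n))) = 0 := by
    have e : (1 + X) * (L2 (∑ n ∈ range (q + 1), (fr n : R⟦X⟧) * y n) +
      8 * ((q : R⟦X⟧) + 1) * X * ((1 + 2 * X) * (∑ n ∈ range (q + 1), (fr n : R⟦X⟧) * y n) +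
        2 * (1 + X) * th (∑ n ∈ range (q + 1), (fr n : R⟦X⟧) * y n))) =
        ∑ n ∈ range (q + 1), (fr n : R⟦X⟧) * ((1 + X) * (L2 (y n) +
          8 * ((q : R⟦X⟧) + 1) * X * ((1 + 2 * X) * y n + 2 * (1 + X) * th (y n)))) := by
      rw [hL, hT, Finset.mul_sum, Finset.mul_sum, ← Finset.sum_add_distrib, Finset.mul_sum,
        ← Finset.sum_add_distrib, Finset.mul_sum]
      refine Finset.sum_congr rfl fun n _ => ?_
      ring
    rw [e]
    have e2 : ∀ n ∈ range (q + 1), (fr n : R⟦X⟧) * ((1 + X) * (L2 (y n) +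
          8 * ((q : R⟦X⟧) + 1) * X * ((1 + 2 * X) * y n + 2 * (1 + X) * th (y n)))) =
        -X * (1 - 8 * X) * ((fr n : R⟦X⟧) * ((n : R⟦X⟧) ^ 2 * y n -
      (7 * (n : R⟦X⟧) ^ 2 + 7 * (n : R⟦X⟧) + 2) * y (n + 1) -
      8 * ((n : R⟦X⟧) + 1) ^ 2 * y (n + 2))) := by
      intro n _
      have hk := a06_key n q u v h8 h1
      simp only [hy]
      linear_combination (fr n : R⟦X⟧) * hk -
        64 * (fr n : R⟦X⟧) * (X ^ 2 * (1 + X) ^ 2 * u *
          ((1 - 8 * X) ^ q * (-(1 + X) * u) ^ n)) * hp2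
    rw [Finset.sum_congr rfl e2, ← Finset.mul_sum, a06_tel]
    linear_combination (X * (1 - 8 * X) * ((fr (q + 1) : R⟦X⟧) * y (q + 1) +
      8 * (fr q : R⟦X⟧) * y (q + 2))) * hp2
  rw [hF]
  have h0 := (c1.mul_right_eq_zero).mp hmain
  push_cast
  linear_combination h0

end Pool.Agent.Lib.MP_d4c4f0_nt
end
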