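import Mathlib

/-!
# C01: the ring of integers of a nonarchimedean field modulo `p^n`

`OK K = {x | ‖x‖ ≤ 1}` (a subring by `IsUltrametricDist`). `quot_eq_iff`: `x - y ∈ (p^n)` iff `(x-y)/p^n` is integral, i.e.
`‖x - y‖ ≤ ‖p‖^n` (`p ≠ 0` in `K`, characteristic `0`). `quot_mul`: `x = p^k z` in the quotient.
-/

set_option autoImplicit false

namespace Pool.Agent.Lib.MP_d4c4f0_nt

/-- The ring of integers. -/
def OK (K : Type*) [NormedField K] [IsUltrametricDist K] : Subring K where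
  carrier := {x | ‖x‖ ≤ 1}
  mul_mem' := by
    intro a b ha hb
    simp only [Set.mem_ofPred_eq] at ha hb ⊢
    rw [norm_mul]
    exact mul_le_one₀ ha (norm_nonneg _) hb
  one_mem' := by simp
  add_mem' := by
    intro a b ha hb
    simp only [Set.mem_ofPred_eq] at ha hb ⊢
    exact (IsUltrametricDist.norm_add_le_max a b).trans (max_le ha hb)
  zero_mem' := by simp
  neg_mem' := by
    intro a ha
    simpa using ha

variable {K : Type*} [NormedField K] [IsUltrametricDist K] [CharZero K]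

/-- Reduction modulo `p^n`. -/
noncomputable abbrev Rq (K : Type*) [NormedField K] [IsUltrametricDist K] (p n : ℕ) : Type _ :=
  OK K ⧸ Ideal.span {((p : ℕ) : OK K) ^ n}

theorem quot_eq_iff {p n : ℕ} (hp : 0 < p) (x y : OK K) :
    Ideal.Quotient.mk (Ideal.span {((p : ℕ) : OK K) ^ n}) x =
      Ideal.Quotient.mk (Ideal.span {((p : ℕ) : OK K) ^ n}) y ↔
    ‖(x : K) - (y : K)‖ ≤ ‖(p : K)‖ ^ n := by
  have hpK : (p : K) ≠ 0 := by exact_mod_cast hp.ne'
  have hpos : 0 < ‖(p : K)‖ ^ n := pow_pos (norm_pos_iff.2 hpK) n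
  rw [Ideal.Quotient.eq, Ideal.mem_span_singleton']
  constructor
  · rintro ⟨a, ha⟩
    have h1 : (x : K) - y = (a : K) * (p : K) ^ n := by
      have := congrArg (Subtype.val : OK K → K) ha
      simp only [AddSubgroupClass.coe_sub, Subring.coe_mul, Subring.coe_pow] at this
      rw [← this]
      simp
    have h2 : ‖(a : K)‖ ≤ 1 := a.2
    rw [h1, norm_mul, norm_pow]
    exact mul_le_of_le_one_left hpos.le h2
  · intro h
    refine ⟨⟨((x : K) - y) / (p : K) ^ n, ?_⟩, ?_⟩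
    · change ‖((x : K) - y) / (p : K) ^ n‖ ≤ 1
      rw [norm_div, norm_pow, div_le_one hpos]
      exact h
    · apply Subtype.ext
      simp only [AddSubgroupClass.coe_sub, Subring.coe_mul, Subring.coe_pow]
      have h3 : (((p : ℕ) : OK K) : K) = (p : K) := by simp
      rw [h3, div_mul_cancel₀ _ (pow_ne_zero n hpK)]

omit [CharZero K] in
theorem quot_pow_zero {p n : ℕ} : ((p : ℕ) : Rq K p n) ^ n = 0 := by
  have h1 : ((p : ℕ) : Rq K p n) =
      Ideal.Quotient.mk (Ideal.span {((p : ℕ) : OK K) ^ n}) ((p : ℕ) : OK K) := by simp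
  rw [h1, ← map_pow, Ideal.Quotient.eq_zero_iff_mem]
  exact Ideal.mem_span_singleton_self _

/-- If `‖x - y‖ ≤ ‖p‖` then `x - y` is a multiple of `p` (also in every quotient). -/
theorem exists_mul_p {p n : ℕ} (hp : 0 < p) (x y : OK K) (h : ‖(x : K) - (y : K)‖ ≤ ‖(p : K)‖) :
    ∃ z : Rq K p n, Ideal.Quotient.mk (Ideal.span {((p : ℕ) : OK K) ^ n}) x -
      Ideal.Quotient.mk (Ideal.span {((p : ℕ) : OK K) ^ n}) y = (p : Rq K p n) * z := by
  have hpK : (p : K) ≠ 0 := by exact_mod_cast hp.ne'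
  have hpos : 0 < ‖(p : K)‖ := norm_pos_iff.2 hpK
  have hz : ‖((x : K) - y) / (p : K)‖ ≤ 1 := by
    rw [norm_div, div_le_one hpos]
    exact h
  refine ⟨Ideal.Quotient.mk _ ⟨((x : K) - y) / (p : K), hz⟩, ?_⟩
  have h1 : ((p : ℕ) : Rq K p n) =
      Ideal.Quotient.mk (Ideal.span {((p : ℕ) : OK K) ^ n}) ((p : ℕ) : OK K) := by simp
  rw [h1, ← map_sub, ← map_mul]
  congr 1
  apply Subtype.ext
  have h3 : (((p : ℕ) : OK K) : K) = (p : K) := by simp
  simp only [AddSubgroupClass.coe_sub, Subring.coe_mul]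
  rw [h3, mul_div_cancel₀ _ hpK]

end Pool.Agent.Lib.MP_d4c4f0_nt
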