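import Pool.Agent.Lib.MP_d4c4f0_nt.ZS.Defs
import Pool.Agent.Lib.MP_d4c4f0_nt.ZS.C01

section

/-!
# A01: the recurrence of the Franel numbers

WZ certificate (checked by computer algebra). With
`q n k = -(14 n^3 + 32 n^2 + 22 n + 4) + (27 n^2 + 39 n + 12) k - (18 n + 12) k^2 + 4 k^3` one has for `n ≥ 1`, all `k ≥ 1`
`n * ((n+1)^2 C(n+1,k)^3 - (7n^2+7n+2) C(n,k)^3 - 8 n^2 C(n-1,k)^3) = q n (k+1) * C(n,k)^3 - q n k * C(n,k-1)^3`,
and the same for `k = 0` with `C(n,-1) = 0`. (To check: for `1 ≤ k ≤ n` divide by `C(n,k)^3`, using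
`C(n+1,k) (n+1-k) = (n+1) C(n,k)`, `n C(n-1,k) = (n-k) C(n,k)`, `C(n,k-1) (n-k+1) = k C(n,k)`; it becomes
`(n+1)^5 n^3 - (7n^2+7n+2) n^3 (n+1-k)^3 - 8 n^2 (n-k)^3 (n+1-k)^3 = n^2 (q n (k+1) (n+1-k)^3 - q n k k^3)`; for
`k = n+1` both sides are checked directly: `C(n,k) = 0`, `q n (n+1) = -n (n+1)^2`.)
Summing over `k = 0, ..., n+1` the right side telescopes to `0` (as `C(n,n+1) = 0`), then divide by `n`.
`fr_rec` is this with `n + 1` in place of `n`. A convenient form for Lean: prove the certificate over `ℚ` or `ℤ` for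
`n + 1`, sum over `range (n+3)`, use `Finset.sum_range_succ'` for the shifted sum.
`fr_last`: `C(p-1,k) ≡ (-1)^k mod p`, so `f_{p-1} ≡ ∑_{k<p} (-1)^(3k) = 1` (`p` odd).
-/

set_option autoImplicit false

open Finset

namespace Pool.Agent.Lib.MP_d4c4f0_nt

theorem fr_zero : fr 0 = 1 := by
  simp [fr]

theorem fr_one : fr 1 = 2 := by
  simp [fr, sum_range_succ]

private theorem fr_rec_h1 (N k : ℕ) :
    ((k : ℤ) + 1) * (N.choose (k + 1) : ℤ) = ((N : ℤ) - k) * (N.choose k : ℤ) := by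
  rcases le_or_gt k N with h | h
  · have h1 := Nat.choose_succ_right_eq N k
    have h2 : ((N.choose (k + 1) * (k + 1) : ℕ) : ℤ) = ((N.choose k * (N - k) : ℕ) : ℤ) := by
      rw [h1]
    rw [Nat.cast_mul, Nat.cast_mul, Nat.cast_sub h] at h2
    push_cast at h2
    linarith
  · rw [Nat.choose_eq_zero_of_lt h, Nat.choose_eq_zero_of_lt (Nat.lt_succ_of_lt h)]
    simp

private theorem fr_rec_h2 (n k : ℕ) :
    ((n : ℤ) + 1) * (n.choose k : ℤ) = ((n : ℤ) + 1 - k) * ((n + 1).choose k : ℤ) := by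
  rcases le_or_gt k (n + 1) with h | h
  · have h1 := Nat.choose_mul_succ_eq n k
    have h2 : ((n.choose k * (n + 1) : ℕ) : ℤ) = (((n + 1).choose k * (n + 1 - k) : ℕ) : ℤ) := by
      rw [h1]
    rw [Nat.cast_mul, Nat.cast_mul, Nat.cast_sub h] at h2
    push_cast at h2
    linarith
  · rw [Nat.choose_eq_zero_of_lt h, Nat.choose_eq_zero_of_lt (lt_trans (Nat.lt_succ_self n) h)]
    simp

/-- the certificate -/
private def frq (N k : ℤ) : ℤ :=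
  -(14 * N ^ 3 + 32 * N ^ 2 + 22 * N + 4) + (27 * N ^ 2 + 39 * N + 12) * k -
    (18 * N + 12) * k ^ 2 + 4 * k ^ 3

private def frT (n k : ℕ) : ℤ :=
  ((n : ℤ) + 1) * (((n : ℤ) + 2) ^ 2 * ((n + 2).choose k : ℤ) ^ 3 -
    (7 * ((n : ℤ) + 1) ^ 2 + 7 * ((n : ℤ) + 1) + 2) * ((n + 1).choose k : ℤ) ^ 3 -
    8 * ((n : ℤ) + 1) ^ 2 * (n.choose k : ℤ) ^ 3)

private def frQ (n k : ℕ) : ℤ := frq ((n : ℤ) + 1) ((k : ℤ) + 1) * ((n + 1).choose k : ℤ) ^ 3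

private theorem fr_cert (n k : ℕ) : frT n (k + 1) = frQ n (k + 1) - frQ n k := by
  have h1 := fr_rec_h1 (n + 1) k
  have h2 := fr_rec_h2 n (k + 1)
  have h3 : ((n + 2).choose (k + 1) : ℤ) = ((n + 1).choose k : ℤ) + ((n + 1).choose (k + 1) : ℤ) := by
    rw [Nat.choose_succ_succ]
    push_cast
    rfl
  unfold frT frQ frq
  rw [h3]
  push_cast at h1 h2 ⊢
  generalize ((n + 1).choose (k + 1) : ℤ) = x at *
  generalize ((n + 1).choose k : ℤ) = y at *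
  generalize (n.choose (k + 1) : ℤ) = z at *
  generalize (n : ℤ) = N at *
  generalize (k : ℤ) = K at *
  linear_combination ((-3 * (N + 1) ^ 2 - 3 * (N + 1) - 6 * (N + 1) * (K + 1) + 4 * (K + 1) ^ 2) * x ^ 2
    + (-3 * (N + 1) ^ 2 - 3 * (N + 1) + 10 * (N + 1) * (K + 1) + 4 * (K + 1) - 4 * (K + 1) ^ 2) * x * y
    + (13 * (N + 1) ^ 2 + 17 * (N + 1) + 4 - 14 * (N + 1) * (K + 1) - 8 * (K + 1) + 4 * (K + 1) ^ 2) * y ^ 2)
      * h1 - 8 * (((N + 1) * z) ^ 2 + (N + 1) * z * ((N + 1 - (K + 1)) * x) +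
        ((N + 1 - (K + 1)) * x) ^ 2) * h2

private theorem fr_cert0 (n : ℕ) : frT n 0 = frQ n 0 := by
  unfold frT frQ frq
  simp only [Nat.choose_zero_right]
  push_cast
  ring

private theorem fr_sum_ext (n M : ℕ) (h : n + 1 ≤ M) :
    ∑ k ∈ range M, (n.choose k : ℤ) ^ 3 = (fr n : ℤ) := by
  unfold fr
  push_cast
  symm
  apply sum_subset
  · exact range_subset_range.2 h
  · intro k _ hk
    rw [mem_range, not_lt] at hk
    rw [Nat.choose_eq_zero_of_lt (by omega)]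
    simp

theorem fr_rec (n : ℕ) : ((n : ℤ) + 2) ^ 2 * (fr (n + 2) : ℤ) =
    (7 * ((n : ℤ) + 1) ^ 2 + 7 * ((n : ℤ) + 1) + 2) * (fr (n + 1) : ℤ) +
      8 * ((n : ℤ) + 1) ^ 2 * (fr n : ℤ) := by
  have h1 : ∑ k ∈ range (n + 3), frT n k = 0 := by
    rw [sum_range_succ', fr_cert0, sum_congr rfl fun k _ => fr_cert n k, sum_range_sub]
    unfold frQ
    rw [Nat.choose_eq_zero_of_lt (show n + 1 < n + 2 by omega)]
    simp
  have h2 : ∑ k ∈ range (n + 3), frT n k = ((n : ℤ) + 1) * (((n : ℤ) + 2) ^ 2 * (fr (n + 2) : ℤ) -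
      (7 * ((n : ℤ) + 1) ^ 2 + 7 * ((n : ℤ) + 1) + 2) * (fr (n + 1) : ℤ) -
      8 * ((n : ℤ) + 1) ^ 2 * (fr n : ℤ)) := by
    unfold frT
    rw [← mul_sum, sum_sub_distrib, sum_sub_distrib, ← mul_sum, ← mul_sum, ← mul_sum,
      fr_sum_ext (n + 2) (n + 3) (by omega), fr_sum_ext (n + 1) (n + 3) (by omega),
      fr_sum_ext n (n + 3) (by omega)]
  rw [h2] at h1
  have h3 : ((n : ℤ) + 1) ≠ 0 := by positivity
  have h4 := (mul_eq_zero.1 h1).resolve_left h3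
  linarith

private theorem fr_choose {p : ℕ} (hp : p.Prime) (k : ℕ) (hk : k < p) :
    (((p - 1).choose k : ℕ) : ZMod p) = (-1) ^ k := by
  induction k with
  | zero => simp
  | succ k ih =>
    have h1 : p.choose (k + 1) = (p - 1).choose k + (p - 1).choose (k + 1) := by
      have : p = (p - 1) + 1 := by have := hp.pos; omega
      conv_lhs => rw [this]
      rw [Nat.choose_succ_succ]
    have h2 : ((p.choose (k + 1) : ℕ) : ZMod p) = 0 :=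
      (ZMod.natCast_eq_zero_iff _ _).2 (hp.dvd_choose_self (by omega) hk)
    rw [h1, Nat.cast_add, ih (by omega)] at h2
    rw [pow_succ]
    linear_combination h2

/-- `f_{p-1} = 1` modulo `p`. -/
theorem fr_last {p : ℕ} (hp : p.Prime) (h2 : p ≠ 2) : ((fr (p - 1) : ℕ) : ZMod p) = 1 := by
  unfold fr
  have hp1 : p - 1 + 1 = p := by have := hp.pos; omega
  rw [hp1]
  push_cast
  have h : ∀ k ∈ range p, (((p - 1).choose k : ℕ) : ZMod p) ^ 3 = (-1) ^ k := by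
    intro k hk
    rw [fr_choose hp k (mem_range.1 hk), ← pow_mul, mul_comm, pow_mul]
    norm_num
  rw [sum_congr rfl h, neg_one_geom_sum, if_neg]
  rw [Nat.not_even_iff_odd]
  exact hp.odd_of_ne_two h2

end Pool.Agent.Lib.MP_d4c4f0_nt
end

section

/-!
# Definitions for part B: isogenies between the curves `s^2 = 1 + a t^2 + b t^4`

`om` is the invariant differential `1/sqrt(1 + a1 t^2 + b1 t^4)` of the source, `IsSol om a b mu T S` says that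
`t ↦ (T(t), S(t))` is the (formal) homomorphism of multiplier `mu` to the curve `S^2 = 1 + a T^2 + b T^4`.
-/

set_option autoImplicit false

namespace Pool.Agent.Lib.MP_d4c4f0_nt

open PowerSeries

variable {K : Type*} [Field K]

/-- `1 + a t^2 + b t^4`. -/
noncomputable def sg (a b : K) : Polynomial K :=
  1 + Polynomial.C a * Polynomial.X ^ 2 + Polynomial.C b * Polynomial.X ^ 4

/-- `om = (1 + a t^2 + b t^4)^(-1/2)`. -/
structure Om (a b : K) (om : K⟦X⟧) : Prop where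
  sq : om ^ 2 * (sg a b : K⟦X⟧) = 1
  cc : constantCoeff om = 1

/-- The formal homomorphism of multiplier `mu`. -/
structure IsSol (om : K⟦X⟧) (a b mu : K) (T S : K⟦X⟧) : Prop where
  T0 : constantCoeff T = 0
  S0 : constantCoeff S = 1
  dT : d⁄dX K T = C mu * om * S
  dS : d⁄dX K S = C mu * om * (C a * T + C (2 * b) * T ^ 3)

/-- Rational power series. -/
def IsRat (y : K⟦X⟧) : Prop := ∃ P Q : Polynomial K, P ≠ 0 ∧ (P : K⟦X⟧) * y = (Q : K⟦X⟧)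

/-- The homomorphism of multiplier `mu` is given by a rational function `T = N/D` of degree `d`
with `deg D < deg N = d`. -/
def OddDeg (om : K⟦X⟧) (a b mu : K) (d : ℕ) : Prop :=
  ∃ (T S : K⟦X⟧) (N D : Polynomial K), IsSol om a b mu T S ∧ IsRat (om * S) ∧ IsCoprime N D ∧
    (D : K⟦X⟧) * T = (N : K⟦X⟧) ∧ N.natDegree = d ∧ D.natDegree < d

/-- The homomorphism of multiplier `nu` has `T^2 = q1/q0`, `S = q3/q0`, `deg q1 < deg q0 = 2e`. -/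
def EvenDeg (om : K⟦X⟧) (a b nu : K) (e : ℕ) : Prop :=
  ∃ (T S : K⟦X⟧) (q0 q1 q3 : Polynomial K), IsSol om a b nu T S ∧ IsRat (om * T) ∧
    IsCoprime q0 q1 ∧ (q0 : K⟦X⟧) * T ^ 2 = (q1 : K⟦X⟧) ∧ (q0 : K⟦X⟧) * S = (q3 : K⟦X⟧) ∧
    q0.natDegree = 2 * e ∧ q1.natDegree < 2 * e

/-- The differential of the curve with parameters `a = -2A`, `b = A^2 - 4B`. -/
noncomputable def omS (A B : K) : K⟦X⟧ :=
  PowerSeries.mk fun k => if Even k then tn (k / 2) A B else 0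

/-- `T = t (mu + c t^2) / (1 + d t^2)` is an isogeny of degree 3 from the curve `(a1, b1)` to the
curve `(a2, b2)` (differential equation, written with `u = t^2`). -/
def Iso3 (a1 b1 a2 b2 mu c d : K) : Prop :=
  (Polynomial.C mu + Polynomial.C (3 * c - mu * d) * Polynomial.X +
      Polynomial.C (c * d) * Polynomial.X ^ 2) ^ 2 *
      (1 + Polynomial.C a1 * Polynomial.X + Polynomial.C b1 * Polynomial.X ^ 2) =
    Polynomial.C (mu ^ 2) * ((1 + Polynomial.C d * Polynomial.X) ^ 4 +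
      Polynomial.C a2 * Polynomial.X * (Polynomial.C mu + Polynomial.C c * Polynomial.X) ^ 2 *
        (1 + Polynomial.C d * Polynomial.X) ^ 2 +
      Polynomial.C b2 * Polynomial.X ^ 2 *
        (Polynomial.C mu + Polynomial.C c * Polynomial.X) ^ 4)

end Pool.Agent.Lib.MP_d4c4f0_nt
end

section

/-!
# C03: the CM points in a commutative ring

`cxr q i r = (r-2)(1-i) q` with `4q = 1`, `i^2 = -1`, `r^2 = 5` in a commutative ring. All are polynomial identities modulo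
`4q - 1`, `i^2 + 1`, `r^2 - 5` (`linear_combination`; e.g. multiply by a power of `4` first).
`cxr_E`: `(1 + 8x^2)` divides `18`: with `x = cxr q i r` one has `1 + 8x^2 = 1 - 9i + 4ir`,
`(1-9i+4ir)(1+9i-4ir) = 162 - 72 r = 18 (9-4r)` and `(9-4r)(9+4r) = 1`.
`cxr_ea`: `ea x = 3+7i-r-3ir`, `(3+7i-r-3ir)(3-7i-r+3ir) = 108-48r = 12(9-4r)`.
`Gp_eq`: since `16 x (1+x)(1-8x) = E^2` (`cxr_quartic`), `x(1-7x-8x^2) = ω E^2` with `16ω = 1`, and
`(ωE^2)^n E^(2p-1-2n) = ω^n E^(2p-1)` for `n < p`.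
-/

set_option autoImplicit false

open Finset

namespace Pool.Agent.Lib.MP_d4c4f0_nt

variable {S : Type*} [CommRing S]

/-- The CM point; `q` is an inverse of `4`. -/
def cxr (q i r : S) : S := (r - 2) * (1 - i) * q

variable {q i r : S}

theorem cxr_w2 (hq : 4 * q = 1) (hi : i ^ 2 = -1) (hr : r ^ 2 = 5) :
    8 * cxr q i r * cxr q (-i) (-r) = -1 := by
  unfold cxr
  linear_combination (-4 * q - 1) * hq + (8 * q ^ 2 * r ^ 2 - 32 * q ^ 2) * hi + (-16 * q ^ 2) *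
    hr

theorem cxr_w3 (hq : 4 * q = 1) (hi : i ^ 2 = -1) (hr : r ^ 2 = 5) :
    (1 - 8 * cxr q i r) * cxr q i (-r) = -(1 + cxr q i r) := by
  unfold cxr
  linear_combination (-4 * q * i - 1) * hq + (8 * q ^ 2 * r ^ 2 - 32 * q ^ 2) * hi + (-16 * q ^ 2
    * i) * hr

theorem cxr_b3 (hq : 4 * q = 1) (hi : i ^ 2 = -1) (hr : r ^ 2 = 5) :
    (1 - 8 * cxr q i r) * (1 - 8 * cxr q i (-r)) = 9 := by
  unfold cxr
  linear_combination (32 * q * i + 8) * hq + (-64 * q ^ 2 * r ^ 2 + 256 * q ^ 2) * hi + (128 * q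
    ^ 2 * i) * hr

theorem cxr_quartic (hq : 4 * q = 1) (hi : i ^ 2 = -1) (hr : r ^ 2 = 5) :
    16 * (cxr q i r * (1 - 7 * cxr q i r - 8 * cxr q i r ^ 2)) = (1 + 8 * cxr q i r ^ 2) ^ 2 := by
  unfold cxr
  linear_combination (-4608 * q ^ 3 * r + 10304 * q ^ 3 + 1088 * q ^ 2 * i * r - 2432 * q ^ 2 * i
    - 64 * q ^ 2 * r + 144 * q ^ 2 + 16 * q * i * r - 32 * q * i - 16 * q * r + 36 * q + 1) * hq
    + (-64 * q ^ 4 * i ^ 2 * r ^ 4 + 512 * q ^ 4 * i ^ 2 * r ^ 3 - 1536 * q ^ 4 * i ^ 2 * r ^ 2 +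
    2048 * q ^ 4 * i ^ 2 * r - 1024 * q ^ 4 * i ^ 2 + 256 * q ^ 4 * i * r ^ 4 - 2048 * q ^ 4 * i
    * r ^ 3 + 6144 * q ^ 4 * i * r ^ 2 - 8192 * q ^ 4 * i * r + 4096 * q ^ 4 * i - 320 * q ^ 4 *
    r ^ 4 + 2560 * q ^ 4 * r ^ 3 - 7680 * q ^ 4 * r ^ 2 + 10240 * q ^ 4 * r - 5120 * q ^ 4 + 128
    * q ^ 3 * i * r ^ 3 - 768 * q ^ 3 * i * r ^ 2 + 1536 * q ^ 3 * i * r - 1024 * q ^ 3 * i - 384
    * q ^ 3 * r ^ 3 + 2304 * q ^ 3 * r ^ 2 - 4608 * q ^ 3 * r + 3072 * q ^ 3 - 128 * q ^ 2 * r ^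
    2 + 512 * q ^ 2 * r - 512 * q ^ 2) * hi + (256 * q ^ 4 * r ^ 2 - 2048 * q ^ 4 * r + 7424 * q
    ^ 4 + 256 * q ^ 3 * i * r - 1536 * q ^ 3 * i + 256 * q ^ 3 * r - 1536 * q ^ 3 + 256 * q ^ 2 *
    i) * hr

/-- `1 - 8y = (1+x)/x` for `y = -1/(8x)`. -/
theorem cxr_b2 (hq : 4 * q = 1) (hi : i ^ 2 = -1) (hr : r ^ 2 = 5) :
    (1 - 8 * cxr q (-i) (-r)) * cxr q i r = 1 + cxr q i r := by
  unfold cxr
  linear_combination (4 * q + 1) * hq + (-8 * q ^ 2 * r ^ 2 + 32 * q ^ 2) * hi + (16 * q ^ 2) *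
    hr

theorem cxr_E (hq : 4 * q = 1) (hi : i ^ 2 = -1) (hr : r ^ 2 = 5) :
    (1 + 8 * cxr q i r ^ 2) * ((1 + 9 * i - 4 * i * r) * (9 + 4 * r)) = 18 := by
  unfold cxr
  linear_combination (-4 * q * i - 16 * q * r + 36 * q - i - 4 * r + 9) * hq + (-128 * q ^ 2 * i
    * r ^ 4 + 512 * q ^ 2 * i * r ^ 3 + 136 * q ^ 2 * i * r ^ 2 - 2592 * q ^ 2 * i * r + 2592 * q
    ^ 2 * i + 256 * q ^ 2 * r ^ 4 - 992 * q ^ 2 * r ^ 3 - 328 * q ^ 2 * r ^ 2 + 5024 * q ^ 2 * r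
    - 4896 * q ^ 2) * hi + (-64 * q ^ 2 * i * r + 112 * q ^ 2 * i - 256 * q ^ 2 * r ^ 2 + 1024 *
    q ^ 2 * r - 1008 * q ^ 2 - 16 * i) * hr

theorem cxr_ea (hq : 4 * q = 1) (hi : i ^ 2 = -1) (hr : r ^ 2 = 5) :
    ea (cxr q i r) * ((3 - 7 * i - r + 3 * i * r) * (9 + 4 * r)) = 12 := by
  unfold ea cxr
  linear_combination (-4 * q * i * r + 12 * q * i - 12 * q * r + 28 * q + i * r + 3 * i - 3 * r +
    5) * hq + (-96 * q ^ 2 * i * r ^ 4 + 392 * q ^ 2 * i * r ^ 3 + 88 * q ^ 2 * i * r ^ 2 - 1984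
    * q ^ 2 * i * r + 2016 * q ^ 2 * i + 224 * q ^ 2 * r ^ 4 - 936 * q ^ 2 * r ^ 3 - 168 * q ^ 2
    * r ^ 2 + 4736 * q ^ 2 * r - 4896 * q ^ 2 + 48 * q * r ^ 3 - 100 * q * r ^ 2 - 244 * q * r +
    504 * q) * hi + (-64 * q ^ 2 * i * r ^ 2 + 304 * q ^ 2 * i * r - 336 * q ^ 2 * i - 192 * q ^
    2 * r ^ 2 + 784 * q ^ 2 * r - 784 * q ^ 2 - 64 * q * i * r + 144 * q * i - 32 * q * r + 56 *
    q + 12 * i - 4) * hr

/-- The relation between the curves of `w3 x` and `w2 x`. -/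
theorem cxr_scale (hq : 4 * q = 1) (hi : i ^ 2 = -1) (hr : r ^ 2 = 5) :
    3 * ea (cxr q i (-r)) = (2 * i - r) * ea (cxr q (-i) (-r)) ∧
      9 * eb (cxr q i (-r)) = (2 * i - r) ^ 2 * eb (cxr q (-i) (-r)) ∧
      (2 * i - r) * (1 - 8 * cxr q i r) ^ 2 =
        -36 * cxr q i r ^ 2 * (1 + i * r) ^ 2 := by
  unfold ea eb cxr
  refine ⟨?_, ?_, ?_⟩
  · linear_combination (12 * q * i * r + 28 * q * i - 32 * q * r - 72 * q + 2 * i - r - 3) * hq +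
      (16 * q ^ 2 * i * r ^ 2 + 64 * q ^ 2 * i * r + 64 * q ^ 2 * i - 8 * q ^ 2 * r ^ 3 - 24 * q
      ^ 2 * r ^ 2 + 32 * q ^ 2 - 8 * q * r - 16 * q) * hi + (-16 * q ^ 2 * i * r - 16 * q ^ 2 * i
      - 32 * q ^ 2 + 4 * q * i + 4 * q) * hr
  · linear_combination (-10304 * q ^ 3 * i * r - 23040 * q ^ 3 * i - 9216 * q ^ 3 * r - 20608 * q
      ^ 3) * hq + (-64 * q ^ 4 * i ^ 4 * r ^ 4 - 512 * q ^ 4 * i ^ 4 * r ^ 3 - 1536 * q ^ 4 * i ^
      4 * r ^ 2 - 2048 * q ^ 4 * i ^ 4 * r - 1024 * q ^ 4 * i ^ 4 + 64 * q ^ 4 * i ^ 3 * r ^ 5 +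
      256 * q ^ 4 * i ^ 3 * r ^ 4 - 512 * q ^ 4 * i ^ 3 * r ^ 3 - 4096 * q ^ 4 * i ^ 3 * r ^ 2 -
      7168 * q ^ 4 * i ^ 3 * r - 4096 * q ^ 4 * i ^ 3 - 16 * q ^ 4 * i ^ 2 * r ^ 6 + 128 * q ^ 4
      * i ^ 2 * r ^ 5 + 1488 * q ^ 4 * i ^ 2 * r ^ 4 + 4224 * q ^ 4 * i ^ 2 * r ^ 3 + 3712 * q ^
      4 * i ^ 2 * r ^ 2 - 1536 * q ^ 4 * i ^ 2 * r - 2816 * q ^ 4 * i ^ 2 - 64 * q ^ 4 * i * r ^
      6 - 192 * q ^ 4 * i * r ^ 5 + 448 * q ^ 4 * i * r ^ 4 + 1024 * q ^ 4 * i * r ^ 3 - 4608 * q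
      ^ 4 * i * r ^ 2 - 13312 * q ^ 4 * i * r - 9216 * q ^ 4 * i - 80 * q ^ 4 * r ^ 6 - 640 * q ^
      4 * r ^ 5 - 944 * q ^ 4 * r ^ 4 + 5248 * q ^ 4 * r ^ 3 + 22144 * q ^ 4 * r ^ 2 + 31232 * q
      ^ 4 * r + 15616 * q ^ 4 + 64 * q ^ 3 * i ^ 3 * r ^ 3 + 384 * q ^ 3 * i ^ 3 * r ^ 2 + 768 *
      q ^ 3 * i ^ 3 * r + 512 * q ^ 3 * i ^ 3 - 64 * q ^ 3 * i ^ 2 * r ^ 4 - 192 * q ^ 3 * i ^ 2
      * r ^ 3 + 384 * q ^ 3 * i ^ 2 * r ^ 2 + 1792 * q ^ 3 * i ^ 2 * r + 1536 * q ^ 3 * i ^ 2 +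
      16 * q ^ 3 * i * r ^ 5 - 96 * q ^ 3 * i * r ^ 4 - 688 * q ^ 3 * i * r ^ 3 - 544 * q ^ 3 * i
      * r ^ 2 + 1728 * q ^ 3 * i * r + 2176 * q ^ 3 * i + 48 * q ^ 3 * r ^ 5 + 160 * q ^ 3 * r ^
      4 - 752 * q ^ 3 * r ^ 3 - 4512 * q ^ 3 * r ^ 2 - 7744 * q ^ 3 * r - 4480 * q ^ 3) * hi +
      (-256 * q ^ 4 * i * r ^ 3 - 2048 * q ^ 4 * i * r ^ 2 - 7424 * q ^ 4 * i * r - 18432 * q ^ 4
      * i + 64 * q ^ 4 * r ^ 4 + 512 * q ^ 4 * r ^ 3 + 1024 * q ^ 4 * r ^ 2 - 2048 * q ^ 4 * r -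
      13824 * q ^ 4 + 32 * q ^ 3 * i * r ^ 3 + 320 * q ^ 3 * i * r ^ 2 + 1472 * q ^ 3 * i * r +
      4352 * q ^ 3 * i - 32 * q ^ 3 * r ^ 3 - 64 * q ^ 3 * r ^ 2 + 640 * q ^ 3 * r + 3456 * q ^
      3) * hr
  · linear_combination (8 * q * i + 68 * q * r - 144 * q - 2 * i + r) * hq + (36 * q ^ 2 * i ^ 2
      * r ^ 4 - 144 * q ^ 2 * i ^ 2 * r ^ 3 + 144 * q ^ 2 * i ^ 2 * r ^ 2 - 72 * q ^ 2 * i * r ^
      4 + 360 * q ^ 2 * i * r ^ 3 - 448 * q ^ 2 * i * r ^ 2 - 224 * q ^ 2 * i * r + 512 * q ^ 2 *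
      i - 208 * q ^ 2 * r ^ 3 + 612 * q ^ 2 * r ^ 2 + 48 * q ^ 2 * r - 880 * q ^ 2 + 32 * q * r -
      64 * q) * hi + (72 * q ^ 2 * i * r ^ 2 - 160 * q ^ 2 * i * r + 64 * q ^ 2 * i + 144 * q ^ 2
      * r - 320 * q ^ 2 - 16 * q * i + 16 * q) * hr

theorem Gp_eq {p : ℕ} {ω x : S} (hω : 16 * ω = 1)
    (hx : 16 * (x * (1 - 7 * x - 8 * x ^ 2)) = (1 + 8 * x ^ 2) ^ 2) :
    Gp p x = (1 + 8 * x ^ 2) ^ (2 * p - 1) * ∑ n ∈ range p, (vr n : S) * ω ^ n := by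
  unfold Gp
  rw [mul_sum]
  refine sum_congr rfl fun n hn => ?_
  rw [mem_range] at hn
  have h1 : x * (1 - 7 * x - 8 * x ^ 2) = ω * (1 + 8 * x ^ 2) ^ 2 := by
    linear_combination ω * hx - x * (1 - 7 * x - 8 * x ^ 2) * hω
  have h2 : (1 + 8 * x ^ 2) ^ (2 * p - 1) =
      ((1 + 8 * x ^ 2) ^ 2) ^ n * (1 + 8 * x ^ 2) ^ (2 * p - 1 - 2 * n) := by
    rw [← pow_mul, ← pow_add]
    congr 1
    omega
  rw [h1, h2, mul_pow]
  ring

theorem FH_eq {p : ℕ} {u v y : S} (h : v * y = u) : FH p u v = v ^ (p - 1) * FA p y := by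
  unfold FH FA
  rw [mul_sum]
  refine sum_congr rfl fun n hn => ?_
  rw [mem_range] at hn
  have h2 : v ^ (p - 1) = v ^ n * v ^ (p - 1 - n) := by
    rw [← pow_add]
    congr 1
    omega
  rw [h2, ← h, mul_pow]
  ring

theorem tn_scale {n : ℕ} {t A B : S} : tn n (t * A) (t ^ 2 * B) = t ^ n * tn n A B := by
  unfold tn
  rw [mul_sum]
  refine sum_congr rfl fun k hk => ?_
  rw [mem_range] at hk
  have h2 : t ^ n = t ^ (n - 2 * k) * (t ^ 2) ^ k := by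
    rw [← pow_mul, ← pow_add]
    congr 1
    omega
  rw [h2, mul_pow, mul_pow]
  ring

end Pool.Agent.Lib.MP_d4c4f0_nt
end

section

/-!
# D01: the field `PadicAlgCl p`

* `norm_small`: `‖(k : PadicAlgCl p)‖ = ‖(k : ℚ_[p])‖ = 1` if `p ∤ k` (`PadicAlgCl.norm_extends`, `padicNormE`).
* `norm_p_lt`: `‖p‖ = 1/p < 1`.
* `rat_of_norm`: `‖(q : PadicAlgCl p)‖ = ‖(q : ℚ_[p])‖ = padicNorm p q ≤ p^(-2)`; if `q ≠ 0`, `padicValRat p q ≥ 2`, so
  `q = p^2 (a/b)` with `a = num/p^2`, `b = den` prime to `p` (`p ∣ num`, so `p ∤ den`). If `q = 0` take `a = 0`, `b = 1`.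
-/

set_option autoImplicit false

namespace Pool.Agent.Lib.MP_d4c4f0_nt

theorem norm_small {p : ℕ} [hp : Fact p.Prime] {k : ℕ} (h0 : 0 < k) (hk : k < p) :
    ‖(k : PadicAlgCl p)‖ = 1 := by
  rw [← map_natCast (algebraMap ℚ_[p] (PadicAlgCl p)), PadicAlgCl.norm_extends,
    Padic.norm_natCast_eq_one_iff]
  exact (Nat.coprime_of_lt_prime h0.ne' hk hp.out)

theorem norm_p_lt {p : ℕ} [hp : Fact p.Prime] : ‖(p : PadicAlgCl p)‖ < 1 := by
  rw [← map_natCast (algebraMap ℚ_[p] (PadicAlgCl p)), PadicAlgCl.norm_extends]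
  exact Padic.norm_p_lt_one

theorem rat_of_norm {p : ℕ} [hp : Fact p.Prime] {q : ℚ}
    (h : ‖(q : PadicAlgCl p)‖ ≤ ‖(p : PadicAlgCl p)‖ ^ 2) :
    ∃ a b : ℤ, ¬ (p : ℤ) ∣ b ∧ q = (p : ℚ) ^ 2 * ((a : ℚ) / (b : ℚ)) := by
  have h1 : ‖(q : ℚ_[p])‖ ≤ (p : ℝ)⁻¹ ^ 2 := by
    rw [← map_natCast (algebraMap ℚ_[p] (PadicAlgCl p)), PadicAlgCl.norm_extends,
      Padic.norm_p, ← map_ratCast (algebraMap ℚ_[p] (PadicAlgCl p)),
      PadicAlgCl.norm_extends] at h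
    exact h
  have hp0 : (0 : ℝ) < (p : ℝ) := by exact_mod_cast hp.out.pos
  have hden : (q.den : ℚ_[p]) ≠ 0 := by exact_mod_cast q.den_nz
  have hq : (q : ℚ_[p]) * (q.den : ℚ_[p]) = (q.num : ℚ_[p]) := by
    have := Rat.mul_den_eq_num q
    exact_mod_cast congrArg (fun t : ℚ => (t : ℚ_[p])) this
  have hd1 : ‖(q.den : ℚ_[p])‖ ≤ 1 := by
    have := Padic.norm_int_le_one (p := p) (q.den : ℤ)
    simpa using this
  have h2 : ‖((q.num : ℤ) : ℚ_[p])‖ ≤ (p : ℝ) ^ (-(2 : ℕ) : ℤ) := by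
    rw [← hq, norm_mul]
    calc ‖(q : ℚ_[p])‖ * ‖(q.den : ℚ_[p])‖ ≤ (p : ℝ)⁻¹ ^ 2 * 1 :=
          mul_le_mul h1 hd1 (norm_nonneg _) (by positivity)
      _ = (p : ℝ) ^ (-(2 : ℕ) : ℤ) := by
          rw [mul_one, zpow_neg, zpow_natCast, inv_pow]
  have h3 : ((p : ℤ) ^ 2) ∣ q.num := by
    have := (Padic.norm_int_le_pow_iff_dvd (p := p) q.num 2).1 h2
    exact_mod_cast this
  obtain ⟨a, ha⟩ := h3
  refine ⟨a, q.den, ?_, ?_⟩
  · intro hd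
    have hd' : p ∣ q.den := by exact_mod_cast hd
    have hn : p ∣ q.num.natAbs := by
      rw [← Int.natCast_dvd]
      exact (Dvd.intro _ (by rw [pow_two, mul_assoc] at ha; exact ha.symm))
    exact Nat.Prime.not_coprime_iff_dvd.2 ⟨p, hp.out, hn, hd'⟩ q.reduced
  · have h5 : q * (q.den : ℚ) = (q.num : ℚ) := Rat.mul_den_eq_num q
    have h6 : (q.den : ℚ) ≠ 0 := by exact_mod_cast q.den_nz
    have h7 : (q.num : ℚ) = (p : ℚ) ^ 2 * (a : ℚ) := by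
      rw [ha]
      push_cast
      ring
    rw [h7] at h5
    push_cast
    field_simp
    linarith [h5]

end Pool.Agent.Lib.MP_d4c4f0_nt
end

section

/-!
# A03: the truncated sum solves `L2` modulo `p^2`

`R` a commutative ring with `p^2 = 0`. `coeff k (L2 y) = k^2 y_k - (7(k-1)^2+7(k-1)+2) y_{k-1} - 8 (k-1)^2 y_{k-2}` for
`k ≥ 2`, `= y_1 - 2 y_0` for `k = 1`, `= 0` for `k = 0` (from `al = 1-7X-8X^2`, `be = -7X-16X^2`, `ga = -2X-8X^2`: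
coefficient of `y_{k-1}`: `-7(k-1)^2 - 7(k-1) - 2`; of `y_{k-2}`: `-8(k-2)^2 - 16(k-2) - 8 = -8(k-1)^2`). Lemma `coeff_L2`.
* `L2_FA`: for `y = FA p X`: coefficients `k < p` vanish by `fr_rec` (and `f_1 = 2 f_0`); `k = p`: the value is
  `-p^2 f_p` by the recurrence, `= 0`; `k = p+1`: `-8 p^2 f_{p-1} = 0`; `k > p+1`: zero.
-/

set_option autoImplicit false

open Finset PowerSeries

namespace Pool.Agent.Lib.MP_d4c4f0_nt

variable {R : Type*} [CommRing R]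

theorem coeff_ofNat_mul (a : ℕ) [a.AtLeastTwo] (f : R⟦X⟧) (n : ℕ) :
    coeff n ((ofNat(a) : R⟦X⟧) * f) = (ofNat(a) : R) * coeff n f := by
  have h : (ofNat(a) : R⟦X⟧) = C (ofNat(a) : R) := (map_ofNat (C : R →+* R⟦X⟧) a).symm
  rw [h, coeff_C_mul]

theorem al_mul (f : R⟦X⟧) : al * f = f - 7 * (X * f) - 8 * (X ^ 2 * f) := by
  unfold al
  ring

theorem be_mul (f : R⟦X⟧) : be * f = -(7 * (X * f)) - 16 * (X ^ 2 * f) := by
  unfold be
  ring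

theorem ga_mul (f : R⟦X⟧) : ga * f = -(2 * (X * f)) - 8 * (X ^ 2 * f) := by
  unfold ga
  ring

theorem coeff_X_sq_mul (f : R⟦X⟧) (k : ℕ) : coeff (k + 2) (X ^ 2 * f) = coeff k f :=
  coeff_X_pow_mul f 2 k

theorem coeff_one_X_sq_mul (f : R⟦X⟧) : coeff 1 (X ^ 2 * f) = 0 := by
  rw [coeff_X_pow_mul', if_neg (by norm_num)]

theorem coeff_al_mul (f : R⟦X⟧) (k : ℕ) : coeff (k + 2) (al * f) =
    coeff (k + 2) f - 7 * coeff (k + 1) f - 8 * coeff k f := by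
  rw [al_mul, map_sub, map_sub, coeff_ofNat_mul, coeff_ofNat_mul, coeff_succ_X_mul,
    coeff_X_sq_mul]

theorem coeff_be_mul (f : R⟦X⟧) (k : ℕ) : coeff (k + 2) (be * f) =
    -(7 * coeff (k + 1) f) - 16 * coeff k f := by
  rw [be_mul, map_sub, map_neg, coeff_ofNat_mul, coeff_ofNat_mul, coeff_succ_X_mul,
    coeff_X_sq_mul]

theorem coeff_ga_mul (f : R⟦X⟧) (k : ℕ) : coeff (k + 2) (ga * f) =
    -(2 * coeff (k + 1) f) - 8 * coeff k f := by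
  rw [ga_mul, map_sub, map_neg, coeff_ofNat_mul, coeff_ofNat_mul, coeff_succ_X_mul,
    coeff_X_sq_mul]

theorem coeff_one_al_mul (f : R⟦X⟧) : coeff 1 (al * f) = coeff 1 f - 7 * coeff 0 f := by
  have h := coeff_succ_X_mul 0 f
  rw [zero_add] at h
  rw [al_mul, map_sub, map_sub, coeff_ofNat_mul, coeff_ofNat_mul, coeff_one_X_sq_mul, h]
  ring

theorem coeff_one_be_mul (f : R⟦X⟧) : coeff 1 (be * f) = -(7 * coeff 0 f) := by
  have h := coeff_succ_X_mul 0 f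
  rw [zero_add] at h
  rw [be_mul, map_sub, map_neg, coeff_ofNat_mul, coeff_ofNat_mul, coeff_one_X_sq_mul, h]
  ring

theorem coeff_one_ga_mul (f : R⟦X⟧) : coeff 1 (ga * f) = -(2 * coeff 0 f) := by
  have h := coeff_succ_X_mul 0 f
  rw [zero_add] at h
  rw [ga_mul, map_sub, map_neg, coeff_ofNat_mul, coeff_ofNat_mul, coeff_one_X_sq_mul, h]
  ring

theorem coeff_L2 (y : R⟦X⟧) (k : ℕ) : coeff (k + 2) (L2 y) =
    ((k : R) + 2) ^ 2 * coeff (k + 2) y -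
      (7 * ((k : R) + 1) ^ 2 + 7 * ((k : R) + 1) + 2) * coeff (k + 1) y -
      8 * ((k : R) + 1) ^ 2 * coeff k y := by
  unfold L2
  rw [map_add, map_add, coeff_al_mul, coeff_be_mul, coeff_ga_mul]
  simp only [coeff_th]
  push_cast
  ring

theorem coeff_L2_one (y : R⟦X⟧) : coeff 1 (L2 y) = coeff 1 y - 2 * coeff 0 y := by
  unfold L2
  rw [map_add, map_add, coeff_one_al_mul, coeff_one_be_mul, coeff_one_ga_mul]
  simp only [coeff_th]
  push_cast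
  ring

theorem coeff_L2_zero (y : R⟦X⟧) : coeff 0 (L2 y) = 0 := by
  have h1 : ∀ f : R⟦X⟧, coeff 0 (X * f) = 0 := fun f => by simp
  have h2 : ∀ f : R⟦X⟧, coeff 0 (X ^ 2 * f) = 0 := fun f => by simp
  unfold L2
  rw [al_mul, be_mul, ga_mul]
  simp only [map_add, map_sub, map_neg, coeff_ofNat_mul, h1, h2, coeff_th]
  push_cast
  ring

theorem coeff_FA' (p k : ℕ) : coeff k (FA p (X : R⟦X⟧)) = if k < p then (fr k : R) else 0 := by
  unfold FA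
  rw [map_sum]
  have h : ∀ n : ℕ, coeff k (((fr n : ℕ) : R⟦X⟧) * X ^ n) = if k = n then (fr n : R) else 0 := by
    intro n
    have h1 : ((fr n : ℕ) : R⟦X⟧) = C ((fr n : ℕ) : R) := by simp
    rw [h1, coeff_C_mul, coeff_X_pow]
    split_ifs <;> ring
  rw [sum_congr rfl fun n _ => h n]
  rw [sum_ite_eq]
  simp only [mem_range]

theorem fr_recR (n : ℕ) : ((n : R) + 2) ^ 2 * (fr (n + 2) : R) =
    (7 * ((n : R) + 1) ^ 2 + 7 * ((n : R) + 1) + 2) * (fr (n + 1) : R) +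
      8 * ((n : R) + 1) ^ 2 * (fr n : R) := by
  have h := congrArg (Int.cast : ℤ → R) (fr_rec n)
  push_cast at h
  exact h

theorem L2_FA {p : ℕ} (hp : 2 ≤ p) (h2 : (p : R) ^ 2 = 0) : L2 (FA p (X : R⟦X⟧)) = 0 := by
  ext k
  rw [map_zero]
  rcases k with _ | _ | k
  · exact coeff_L2_zero _
  · rw [zero_add, coeff_L2_one, coeff_FA', coeff_FA', if_pos (by omega), if_pos (by omega), fr_one,
      fr_zero]
    push_cast
    ring
  · rw [show k + 1 + 1 = k + 2 from rfl, coeff_L2, coeff_FA', coeff_FA', coeff_FA']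
    have hrec := fr_recR (R := R) k
    rcases lt_trichotomy (k + 2) p with h | h | h
    · rw [if_pos h, if_pos (by omega), if_pos (by omega)]
      linear_combination hrec
    · rw [if_neg (by omega), if_pos (by omega), if_pos (by omega)]
      have hpk : (p : R) = (k : R) + 2 := by
        rw [← h]
        push_cast
        ring
      rw [hpk] at h2
      linear_combination hrec - (fr (k + 2) : R) * h2
    · by_cases hk : k < p
      · have hkp : k + 1 = p := by omega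
        rw [if_neg (by omega), if_neg (by omega), if_pos hk]
        have hpk : (p : R) = (k : R) + 1 := by
          rw [← hkp]
          push_cast
          ring
        rw [hpk] at h2
        linear_combination (-(8 * (fr k : R))) * h2
      · rw [if_neg (by omega), if_neg (by omega), if_neg hk]
        ring

end Pool.Agent.Lib.MP_d4c4f0_nt
end
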