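import Pool.Agent.Lib.MP_d4c4f0_nt.ZS.A06
import Pool.Agent.Lib.MP_d4c4f0_nt.ZS.A03

section

/-!
# B03: the addition theorem

`Δ = 1 - b T1^2 T2^2` is a unit of `K⟦X⟧`. `T = (T1 S2 + T2 S1)/Δ`,
`S = ((1 + b T1^2 T2^2)(S1 S2 + a T1 T2) + 2 b T1 T2 (T1^2 + T2^2))/Δ^2`.
`T' = (mu + nu) om S`: with `P = T1 S2 + T2 S1`, `P' Δ - P Δ' = (mu+nu) om (Δ^2 S)` using the derivative rules of `Ti`, `Si`
and `Si^2 = 1 + a Ti^2 + b Ti^4` (`IsSol.sq`) (checked by hand: `linear_combination` with the two squares).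
`S^2 = 1 + aT^2 + bT^4`: the polynomial identity `(Δ^2 S)^2 = Δ^4 + a P^2 Δ^2 + b P^4` modulo `Si^2 = ...` (the classical
addition formula of the Jacobi quartic). Conclude with `IsSol.of_sq`.
-/

set_option autoImplicit false

namespace Pool.Agent.Lib.MP_d4c4f0_nt

open PowerSeries

variable {K : Type*} [Field K] [CharZero K] {om : K⟦X⟧} {a b mu nu : K} {T1 S1 T2 S2 : K⟦X⟧}

omit [CharZero K] in
private theorem dmul (f g : K⟦X⟧) : d⁄dX K (f * g) = f * d⁄dX K g + g * d⁄dX K f := by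
  rw [Derivation.leibniz]
  simp [smul_eq_mul]

omit [CharZero K] in
private theorem add_alg1 {R : Type*} [CommRing R] {al be x y s t x' y' s' t' w M N : R}
    (hs : s ^ 2 = 1 + al * x ^ 2 + be * x ^ 4) (ht : t ^ 2 = 1 + al * y ^ 2 + be * y ^ 4)
    (hx' : x' = M * w * s) (hy' : y' = N * w * t)
    (hs' : s' = M * w * (al * x + 2 * be * x ^ 3))
    (ht' : t' = N * w * (al * y + 2 * be * y ^ 3)) :
    (1 - be * x ^ 2 * y ^ 2) * (x' * t + x * t' + (y' * s + y * s')) +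
      be * (2 * x * x' * y ^ 2 + 2 * x ^ 2 * y * y') * (x * t + y * s) =
    (M + N) * w * ((1 + be * x ^ 2 * y ^ 2) * (s * t + al * x * y) +
      2 * be * x * y * (x ^ 2 + y ^ 2)) := by
  subst hx' hy' hs' ht'
  linear_combination (2 * be * w * M * x * y ^ 3) * hs + (2 * be * w * N * x ^ 3 * y) * ht

omit [CharZero K] in
private theorem add_alg2 {R : Type*} [CommRing R] {al be x y s t : R}
    (hs : s ^ 2 = 1 + al * x ^ 2 + be * x ^ 4) (ht : t ^ 2 = 1 + al * y ^ 2 + be * y ^ 4) :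
    ((1 + be * x ^ 2 * y ^ 2) * (s * t + al * x * y) + 2 * be * x * y * (x ^ 2 + y ^ 2)) ^ 2 =
      (1 - be * x ^ 2 * y ^ 2) ^ 4 +
        al * (x * t + y * s) ^ 2 * (1 - be * x ^ 2 * y ^ 2) ^ 2 + be * (x * t + y * s) ^ 4 := by
  linear_combination
    ((1 + be * x ^ 2 * y ^ 2) ^ 2 * t ^ 2 - al * (1 - be * x ^ 2 * y ^ 2) ^ 2 * y ^ 2 -
      6 * be * x ^ 2 * y ^ 2 * t ^ 2 - 4 * be * x * y ^ 3 * s * t -
      be * y ^ 4 * (s ^ 2 + (1 + al * x ^ 2 + be * x ^ 4))) * hs +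
    ((1 + be * x ^ 2 * y ^ 2) ^ 2 * (1 + al * x ^ 2 + be * x ^ 4) -
      al * (1 - be * x ^ 2 * y ^ 2) ^ 2 * x ^ 2 -
      be * x ^ 4 * (t ^ 2 + (1 + al * y ^ 2 + be * y ^ 4)) - 4 * be * x ^ 3 * y * t * s -
      6 * be * x ^ 2 * y ^ 2 * (1 + al * x ^ 2 + be * x ^ 4)) * ht

theorem IsSol.add (h1 : IsSol om a b mu T1 S1) (h2 : IsSol om a b nu T2 S2) :
    ∃ T S : K⟦X⟧, IsSol om a b (mu + nu) T S ∧
      (1 - C b * T1 ^ 2 * T2 ^ 2) * T = T1 * S2 + T2 * S1 ∧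
      (1 - C b * T1 ^ 2 * T2 ^ 2) ^ 2 * S =
        (1 + C b * T1 ^ 2 * T2 ^ 2) * (S1 * S2 + C a * T1 * T2) +
          2 * C b * T1 * T2 * (T1 ^ 2 + T2 ^ 2) := by
  set Δ : K⟦X⟧ := 1 - C b * T1 ^ 2 * T2 ^ 2 with hΔ
  set P : K⟦X⟧ := T1 * S2 + T2 * S1 with hP
  set Q : K⟦X⟧ := (1 + C b * T1 ^ 2 * T2 ^ 2) * (S1 * S2 + C a * T1 * T2) +
    2 * C b * T1 * T2 * (T1 ^ 2 + T2 ^ 2) with hQ
  have hΔ0 : constantCoeff Δ = 1 := by
    rw [hΔ]
    simp [h1.T0]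
  have hΔne : constantCoeff Δ ≠ 0 := by
    rw [hΔ0]
    exact one_ne_zero
  have hΔ0' : Δ ≠ 0 := by
    intro h
    rw [h] at hΔne
    simp at hΔne
  set u : K⟦X⟧ := Δ⁻¹ with hu
  have huΔ : Δ * u = 1 := PowerSeries.mul_inv_cancel Δ hΔne
  have hu0 : constantCoeff u = 1 := by
    have h := congrArg constantCoeff huΔ
    rw [map_mul, hΔ0, one_mul] at h
    simpa using h
  have s1 := h1.sq
  have s2 := h2.sq
  have hCb : (C (2 * b) : K⟦X⟧) = 2 * C b := by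
    rw [map_mul]
    congr 1
  have dS1 := h1.dS
  have dS2 := h2.dS
  rw [hCb] at dS1 dS2
  have e1 : Δ * (P * u) = P := by
    calc Δ * (P * u) = P * (Δ * u) := by ring
      _ = P := by rw [huΔ, mul_one]
  have e2 : Δ ^ 2 * (Q * u ^ 2) = Q := by
    calc Δ ^ 2 * (Q * u ^ 2) = Q * (Δ * u) ^ 2 := by ring
      _ = Q := by rw [huΔ, one_pow, mul_one]
  refine ⟨P * u, Q * u ^ 2, ?_, e1, e2⟩
  refine IsSol.of_sq ?_ ?_ ?_ ?_
  · rw [map_mul, hP]
    simp [h1.T0, h2.T0]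
  · rw [map_mul, map_pow, hu0, hQ]
    simp [h1.T0, h2.T0, h1.S0, h2.S0]
  · -- the derivative
    have d1 : Δ * d⁄dX K (P * u) + (P * u) * d⁄dX K Δ = d⁄dX K P := by
      rw [← dmul, e1]
    have d2 : Δ * (Δ * d⁄dX K (P * u)) = Δ * d⁄dX K P - P * d⁄dX K Δ := by
      have h : P * d⁄dX K Δ = (Δ * (P * u)) * d⁄dX K Δ := by rw [e1]
      rw [h]
      linear_combination Δ * d1
    have dP : d⁄dX K P = d⁄dX K T1 * S2 + T1 * d⁄dX K S2 +
        (d⁄dX K T2 * S1 + T2 * d⁄dX K S1) := by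
      rw [hP, map_add, dmul, dmul]
      ring
    have dΔ : d⁄dX K Δ = -(C b * (2 * T1 * d⁄dX K T1 * T2 ^ 2 + 2 * T1 ^ 2 * T2 *
        d⁄dX K T2)) := by
      rw [hΔ, map_sub, Derivation.map_one_eq_zero, dmul, dmul, pow_two, pow_two, dmul, dmul,
        PowerSeries.derivative_C]
      ring
    have key := add_alg1 (w := om) (M := C mu) (N := C nu) s1 s2 h1.dT h2.dT dS1 dS2
    have h3 : Δ ^ 2 * d⁄dX K (P * u) = Δ ^ 2 * (C (mu + nu) * om * (Q * u ^ 2)) := by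
      have h4 : Δ ^ 2 * (C (mu + nu) * om * (Q * u ^ 2)) = (C mu + C nu) * om * Q := by
        rw [map_add]
        linear_combination ((C mu + C nu) * om) * e2
      rw [h4, hQ, ← key, pow_two, mul_assoc, d2, dP, dΔ, ← hΔ, ← hP]
      ring
    exact mul_left_cancel₀ (pow_ne_zero 2 hΔ0') h3
  · have key := add_alg2 s1 s2
    rw [← hΔ, ← hP, ← hQ] at key
    calc (Q * u ^ 2) ^ 2 = Q ^ 2 * u ^ 4 := by ring
      _ = (Δ * u) ^ 4 + C a * (P * u) ^ 2 * (Δ * u) ^ 2 + C b * (P * u) ^ 4 := by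
          rw [key]
          ring
      _ = 1 + C a * (P * u) ^ 2 + C b * (P * u) ^ 4 := by
          rw [huΔ]
          ring

end Pool.Agent.Lib.MP_d4c4f0_nt
end

section

/-!
# A12: the symmetric square

`MM` is the symmetric square of `L2` (times `al^2`). If `L2 u = 0` and `ρ = L2 v` then
`MM (u v) = 3 al θu ρ + al u θρ + be u ρ`.
Proof. Write `a = al`, `b = be = θ al`, `g = ga`, `b1 = be1 = θ be`, `g1 = ga1 = θ ga`. `L2 u = 0`: `a θθu = -b θu - g u`; apply `θ`: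
`a θθθu = -2b θθu - (b1 + g) θu - g1 u`. Similarly `a θθv = ρ - b θv - g v`, `a θθθv = θρ - 2b θθv - (b1 + g) θv - g1 v`.
`θ(uv)`, `θθ(uv)`, `θθθ(uv)` by Leibniz (`th_mul`). Everything is multiplied by powers of `al`, so use
`linear_combination` with these four relations.
-/

set_option autoImplicit false

open Finset PowerSeries

namespace Pool.Agent.Lib.MP_d4c4f0_nt

variable {R : Type*} [CommRing R]

theorem MM_mul_of_L2 {u v : R⟦X⟧} (hu : L2 u = 0) :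
    MM (u * v) = 3 * al * th u * L2 v + al * u * th (L2 v) + be * u * L2 v := by
  have hu1 : al * th (th u) + be * th u + ga * u = 0 := hu
  have hu2 : al * th (th (th u)) + 2 * be * th (th u) + (be1 + ga) * th u + ga1 * u = 0 := by
    have h := congrArg th hu1
    simp only [map_add, map_zero, th_mul, th_al, th_be, th_ga] at h
    linear_combination h
  simp only [MM, L2, map_add, th_mul, th_al, th_be, th_ga]
  linear_combination (3 * al * th v + be * v) * hu1 + al * v * hu2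

end Pool.Agent.Lib.MP_d4c4f0_nt
end
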