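import Pool.Agent.Lib.MP_d4c4f0_nt.ZS.B11b
import Pool.Agent.Lib.MP_d4c4f0_nt.ZS.A12

/-!
# B04b: rationality of the sum

`om ≠ 0`, `om^2` is rational (`IsRat.om_sq`). `om^2 (T2)^2 = (om T2)^2` rational, so `T2^2` rational (`IsRat.of_mul`);
`om^2 T2 S1 = (om T2)(om S1)`, so `T2 S1` rational; hence `Δ T = T1 S2 + T2 S1` and `Δ = 1 - b T1^2 T2^2` are rational,
`Δ ≠ 0` (constant term `1`, `IsSol.T0`), so `T` is rational. For `om S`:
`Δ^2 om S = (1 + b T1^2 T2^2)((om S1) S2 + a T1 (om T2)) + 2b T1 (om T2)(T1^2 + T2^2)`.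
(Constants `C a` are `((Polynomial.C a : K[X]) : K⟦X⟧)`, use `IsRat.coe`.)
-/

set_option autoImplicit false

namespace Pool.Agent.Lib.MP_d4c4f0_nt

open PowerSeries

variable {K : Type*} [Field K]

theorem rat_add [CharZero K] {a1 b1 a b mu nu : K} {om T1 S1 T2 S2 T S : K⟦X⟧}
    (ho : Om a1 b1 om) (h1 : IsSol om a b mu T1 S1) (h2 : IsSol om a b nu T2 S2)
    (r1 : IsRat T1) (r1' : IsRat (om * S1)) (r2 : IsRat (om * T2)) (r2' : IsRat S2)
    (eT : (1 - C b * T1 ^ 2 * T2 ^ 2) * T = T1 * S2 + T2 * S1)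
    (eS : (1 - C b * T1 ^ 2 * T2 ^ 2) ^ 2 * S =
        (1 + C b * T1 ^ 2 * T2 ^ 2) * (S1 * S2 + C a * T1 * T2) +
          2 * C b * T1 * T2 * (T1 ^ 2 + T2 ^ 2)) : IsRat T ∧ IsRat (om * S) := by
  have hom : om ≠ 0 := by
    intro h0
    have h3 := ho.cc
    rw [h0, map_zero] at h3
    exact zero_ne_one h3
  have hom2 : om ^ 2 ≠ 0 := pow_ne_zero 2 hom
  have ro := IsRat.om_sq ho
  have rC : ∀ c : K, IsRat (C c : K⟦X⟧) := fun c => by
    have := IsRat.coe (Polynomial.C c)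
    rwa [Polynomial.coe_C] at this
  have rone : IsRat (1 : K⟦X⟧) := by
    have := rC 1
    rwa [map_one] at this
  have rtwo : IsRat (2 : K⟦X⟧) := by
    have := rC 2
    rwa [map_ofNat] at this
  have rsq : ∀ {y : K⟦X⟧}, IsRat y → IsRat (y ^ 2) := fun {y} hy => by
    rw [pow_two]
    exact hy.mul hy
  have rT2 : IsRat (T2 ^ 2) := IsRat.of_mul ro hom2 (by
    have := rsq r2
    rwa [mul_pow] at this)
  have rTS : IsRat (T2 * S1) := IsRat.of_mul ro hom2 (by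
    have := r2.mul r1'
    have e : om * T2 * (om * S1) = om ^ 2 * (T2 * S1) := by ring
    rwa [e] at this)
  have rB : IsRat (C b * T1 ^ 2 * T2 ^ 2) := ((rC b).mul (rsq r1)).mul rT2
  have rD : IsRat (1 - C b * T1 ^ 2 * T2 ^ 2) := by
    rw [sub_eq_add_neg]
    exact rone.add rB.neg
  have hD : (1 - C b * T1 ^ 2 * T2 ^ 2 : K⟦X⟧) ≠ 0 := by
    intro h0
    have h3 := congrArg (constantCoeff (R := K)) h0
    simp [h1.T0] at h3
  refine ⟨IsRat.of_mul rD hD ?_, IsRat.of_mul (rsq rD) (pow_ne_zero 2 hD) ?_⟩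
  · rw [eT]
    exact (r1.mul r2').add rTS
  · have e : (1 - C b * T1 ^ 2 * T2 ^ 2) ^ 2 * (om * S) =
        (1 + C b * T1 ^ 2 * T2 ^ 2) * ((om * S1) * S2 + C a * T1 * (om * T2)) +
          2 * C b * T1 * (om * T2) * (T1 ^ 2 + T2 ^ 2) := by
      have : (1 - C b * T1 ^ 2 * T2 ^ 2) ^ 2 * (om * S) =
        om * ((1 - C b * T1 ^ 2 * T2 ^ 2) ^ 2 * S) := by ring
      rw [this, eS]
      ring
    rw [e]
    exact ((rone.add rB).mul ((r1'.mul r2').add (((rC a).mul r1).mul r2))).add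
      ((((rtwo.mul (rC b)).mul r1).mul r2).mul ((rsq r1).add rT2))

end Pool.Agent.Lib.MP_d4c4f0_nt
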