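import Pool.Agent.Lib.MP_d4c4f0_nt.ZS.A03

section

/-!
# B01: generating function of `tn`

`omS A B = ∑_n tn n A B t^(2n)` satisfies `omS^2 (1 - 2A t^2 + (A^2-4B) t^4) = 1`.
Proof. Put `u = t^2`, `v = (1 - A u)⁻¹` (power series), `1 - 2Au + (A^2-4B)u^2 = (1-Au)^2 - 4Bu^2`. First
`omS = ∑_k C(2k,k) B^k u^(2k) v^(2k+1)`, because `v^(2k+1) = ∑_j C(2k+j, j) A^j u^j`
(`PowerSeries.invOneSubPow` / `PowerSeries.mk_one_pow_eq_mk_choose_add` and rescaling) and the coefficient of `u^n` is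
`∑_k C(2k,k) C(n, 2k) A^(n-2k) B^k`. Second, with `z = B u^2 v^2` and `c(z) = ∑ C(2k,k) z^k`, `c(z)^2 (1 - 4z) = 1`, by
`∑_{i+j=n} C(2i,i) C(2j,j) = 4^n`; `omS = v c(z)`, so `omS^2 = v^2/(1-4z)`, and `(1-4z) = v^2 ((1-Au)^2 - 4Bu^2)`.
ALTERNATIVE (probably shorter in Lean, no substitution): the recurrence
`(n+1) t_{n+1} = (2n+1) A t_n - n (A^2-4B) t_{n-1}` for `t_n = tn n A B`. It says that `y = ∑ t_n u^n` satisfies
`(1 - 2Au + (A^2-4B)u^2) y' = (A - (A^2-4B)u) y`, so `y^2 (1 - 2Au + (A^2-4B)u^2)` has derivative `0` and constant term `1`,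
hence is `1` in characteristic `0` (here `K` has characteristic `0`). The recurrence is checked on coefficients of
`A^(n+1-2k) B^k`: with `c(n,k) = n! / ((n-2k)! k!^2)`:
`(n+1) c(n+1,k) = (2n+1) c(n,k) - n c(n-1,k) + 4n c(n-1,k-1)`.
Also acceptable: any other proof.
-/

set_option autoImplicit false

namespace Pool.Agent.Lib.MP_d4c4f0_nt

open PowerSeries

variable {K : Type*} [Field K] [CharZero K]

/-- the coefficients of `tn` -/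
private def b01c (n k : ℕ) : ℤ := ((n.choose (2 * k) * (2 * k).choose k : ℕ) : ℤ)

private theorem b01c_zero {n k : ℕ} (h : n < 2 * k) : b01c n k = 0 := by
  unfold b01c
  rw [Nat.choose_eq_zero_of_lt h]
  simp

private theorem b01_ch (m k : ℕ) :
    (2 * (k : ℤ) + 1) * (m.choose (2 * k + 1) : ℤ) = ((m : ℤ) - 2 * k) * (m.choose (2 * k) : ℤ) := by
  rcases le_or_gt (2 * k) m with h | h
  · have h1 := Nat.choose_succ_right_eq m (2 * k)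
    have h2 : ((m.choose (2 * k + 1) * (2 * k + 1) : ℕ) : ℤ) =
        ((m.choose (2 * k) * (m - 2 * k) : ℕ) : ℤ) := by rw [h1]
    rw [Nat.cast_mul, Nat.cast_mul, Nat.cast_sub h] at h2
    push_cast at h2
    linarith
  · rw [Nat.choose_eq_zero_of_lt h, Nat.choose_eq_zero_of_lt (Nat.lt_succ_of_lt h)]
    simp

private theorem b01_cb (k : ℕ) : ((k : ℤ) + 1) * ((2 * (k + 1)).choose (k + 1) : ℤ) =
    2 * (2 * (k : ℤ) + 1) * ((2 * k).choose k : ℤ) := by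
  have h1 := Nat.succ_mul_centralBinom_succ k
  rw [Nat.centralBinom, Nat.centralBinom] at h1
  have h2 : (((k + 1) * (2 * (k + 1)).choose (k + 1) : ℕ) : ℤ) =
      ((2 * (2 * k + 1) * (2 * k).choose k : ℕ) : ℤ) := by rw [h1]
  push_cast at h2
  linarith

private theorem b01_rec (m k : ℕ) : ((m : ℤ) + 2) * b01c (m + 2) (k + 1) =
    (2 * m + 3) * b01c (m + 1) (k + 1) - (m + 1) * b01c m (k + 1) + 4 * (m + 1) * b01c m k := by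
  have h1 := b01_ch m k
  have h2 := b01_cb k
  have e1 : ((m + 1).choose (2 * (k + 1)) : ℤ) =
      (m.choose (2 * k + 1) : ℤ) + (m.choose (2 * (k + 1)) : ℤ) := by
    have : 2 * (k + 1) = (2 * k + 1) + 1 := by ring
    rw [this, Nat.choose_succ_succ]
    push_cast
    rfl
  have e2 : ((m + 2).choose (2 * (k + 1)) : ℤ) = (m.choose (2 * k) : ℤ) +
      2 * (m.choose (2 * k + 1) : ℤ) + (m.choose (2 * (k + 1)) : ℤ) := by
    have : 2 * (k + 1) = (2 * k + 1) + 1 := by ring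
    rw [this, Nat.choose_succ_succ, Nat.choose_succ_succ, Nat.choose_succ_succ]
    push_cast
    ring
  unfold b01c
  rw [Nat.cast_mul, Nat.cast_mul, Nat.cast_mul, Nat.cast_mul, e1, e2]
  generalize (m.choose (2 * (k + 1)) : ℤ) = c at *
  generalize (m.choose (2 * k + 1) : ℤ) = b at *
  generalize (m.choose (2 * k) : ℤ) = a at *
  generalize ((2 * (k + 1)).choose (k + 1) : ℤ) = v at *
  generalize ((2 * k).choose k : ℤ) = w at *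
  have h3 : (2 * (k : ℤ) + 1) ≠ 0 := by positivity
  apply mul_left_cancel₀ h3
  linear_combination v * h1 + 2 * (m + 1) * a * h2

omit [CharZero K] in
private theorem tn_ext (A B : K) (n M : ℕ) (h : n / 2 + 1 ≤ M) :
    tn n A B = ∑ k ∈ Finset.range M, ((b01c n k : ℤ) : K) * A ^ (n - 2 * k) * B ^ k := by
  unfold tn
  have h1 : ∀ k ∈ Finset.range (n / 2 + 1), ((n.choose (2 * k) * (2 * k).choose k : ℕ) : K) *
      A ^ (n - 2 * k) * B ^ k = ((b01c n k : ℤ) : K) * A ^ (n - 2 * k) * B ^ k := by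
    intro k _
    unfold b01c
    rw [Int.cast_natCast]
  rw [Finset.sum_congr rfl h1]
  apply Finset.sum_subset (Finset.range_subset_range.2 h)
  intro k _ hk
  rw [Finset.mem_range, not_lt] at hk
  rw [b01c_zero (by omega)]
  simp

omit [CharZero K] in
theorem tn_rec (A B : K) (m : ℕ) : ((m : K) + 2) * tn (m + 2) A B =
    (2 * m + 3) * A * tn (m + 1) A B - (m + 1) * (A ^ 2 - 4 * B) * tn m A B := by
  have key : ∀ k, ((m : K) + 2) * (((b01c (m + 2) (k + 1) : ℤ) : K) * A ^ (m + 2 - 2 * (k + 1)) *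
      B ^ (k + 1)) = (2 * m + 3) * A * (((b01c (m + 1) (k + 1) : ℤ) : K) *
        A ^ (m + 1 - 2 * (k + 1)) * B ^ (k + 1)) -
      (m + 1) * A ^ 2 * (((b01c m (k + 1) : ℤ) : K) * A ^ (m - 2 * (k + 1)) * B ^ (k + 1)) +
      (m + 1) * (4 * B) * (((b01c m k : ℤ) : K) * A ^ (m - 2 * k) * B ^ k) := by
    intro k
    have e1 : m + 2 - 2 * (k + 1) = m - 2 * k := by omega
    have e2 : A * (((b01c (m + 1) (k + 1) : ℤ) : K) * A ^ (m + 1 - 2 * (k + 1))) =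
        ((b01c (m + 1) (k + 1) : ℤ) : K) * A ^ (m - 2 * k) := by
      rcases lt_or_ge (m + 1) (2 * (k + 1)) with h | h
      · rw [b01c_zero h]; simp
      · have : m - 2 * k = (m + 1 - 2 * (k + 1)) + 1 := by omega
        rw [this, pow_succ]
        ring
    have e3 : A ^ 2 * (((b01c m (k + 1) : ℤ) : K) * A ^ (m - 2 * (k + 1))) =
        ((b01c m (k + 1) : ℤ) : K) * A ^ (m - 2 * k) := by
      rcases lt_or_ge m (2 * (k + 1)) with h | h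
      · rw [b01c_zero h]; simp
      · have : m - 2 * k = (m - 2 * (k + 1)) + 2 := by omega
        rw [this, pow_add]
        ring
    have h := congrArg (fun z : ℤ => (z : K)) (b01_rec m k)
    push_cast at h
    rw [e1]
    linear_combination A ^ (m - 2 * k) * B ^ (k + 1) * h - (2 * m + 3) * B ^ (k + 1) * e2 +
      (m + 1) * B ^ (k + 1) * e3
  have key0 : ((m : K) + 2) * (((b01c (m + 2) 0 : ℤ) : K) * A ^ (m + 2 - 2 * 0) * B ^ 0) =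
      (2 * m + 3) * A * (((b01c (m + 1) 0 : ℤ) : K) * A ^ (m + 1 - 2 * 0) * B ^ 0) -
      (m + 1) * A ^ 2 * (((b01c m 0 : ℤ) : K) * A ^ (m - 2 * 0) * B ^ 0) := by
    simp only [b01c, Nat.choose_zero_right, mul_zero, Nat.choose_self, mul_one, Nat.cast_one,
      Int.cast_one, Nat.sub_zero, pow_zero, one_mul]
    ring
  rw [tn_ext A B (m + 2) (m + 3) (by omega), tn_ext A B (m + 1) (m + 3) (by omega)]
  have e4 : (m + 1) * (A ^ 2 - 4 * B) * tn m A B =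
      (m + 1) * A ^ 2 * (∑ k ∈ Finset.range (m + 3), ((b01c m k : ℤ) : K) * A ^ (m - 2 * k) * B ^ k) -
      (m + 1) * (4 * B) *
        (∑ k ∈ Finset.range (m + 2), ((b01c m k : ℤ) : K) * A ^ (m - 2 * k) * B ^ k) := by
    rw [← tn_ext A B m (m + 3) (by omega), ← tn_ext A B m (m + 2) (by omega)]
    ring
  rw [e4, Finset.sum_range_succ' _ (m + 2), Finset.sum_range_succ' _ (m + 2),
    Finset.sum_range_succ' _ (m + 2), mul_add, mul_add, mul_add, key0, Finset.mul_sum,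
    Finset.mul_sum, Finset.mul_sum, Finset.mul_sum, Finset.sum_congr rfl fun k _ => key k,
    Finset.sum_add_distrib, Finset.sum_sub_distrib]
  ring

omit [CharZero K] in
private theorem tn_zero (A B : K) : tn 0 A B = 1 := by simp [tn]

omit [CharZero K] in
private theorem tn_one (A B : K) : tn 1 A B = A := by simp [tn]

omit [CharZero K] in
private theorem b01_coeff (A B : K) (n : ℕ) :
    coeff n (omS A B) = if Even n then tn (n / 2) A B else 0 := by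
  simp [omS]

omit [CharZero K] in
private theorem b01_ode (A B : K) : th (omS A B) =
    X ^ 2 * (C (2 * A) * (th (omS A B) + omS A B)) -
      X ^ 4 * (C (A ^ 2 - 4 * B) * (th (omS A B) + C 2 * omS A B)) := by
  ext n
  rw [map_sub, coeff_X_pow_mul', coeff_X_pow_mul', coeff_C_mul, coeff_C_mul, map_add, map_add,
    coeff_C_mul, coeff_th, coeff_th, coeff_th, b01_coeff, b01_coeff, b01_coeff]
  match n with
  | 0 => simp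
  | 1 => simp
  | 2 => simp [tn_zero, tn_one]
  | 3 => simp [show ¬ Even 3 by decide]
  | k + 4 =>
    rw [if_pos (show 2 ≤ k + 4 by omega), if_pos (show 4 ≤ k + 4 by omega)]
    have e1 : k + 4 - 2 = k + 2 := by omega
    have e2 : k + 4 - 4 = k := by omega
    rw [e1, e2]
    rcases Nat.even_or_odd k with h | h
    · have h1 : Even (k + 2) := h.add (by decide)
      have h2 : Even (k + 4) := h.add (by decide)
      rw [if_pos h, if_pos h1, if_pos h2]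
      obtain ⟨m, rfl⟩ := h
      have e3 : (m + m + 4) / 2 = m + 2 := by omega
      have e4 : (m + m + 2) / 2 = m + 1 := by omega
      have e5 : (m + m) / 2 = m := by omega
      rw [e3, e4, e5]
      have := tn_rec A B m
      push_cast
      linear_combination 2 * this
    · have h0 : ¬ Even k := Nat.not_even_iff_odd.2 h
      have h1 : ¬ Even (k + 2) := Nat.not_even_iff_odd.2 (h.add_even (by decide))
      have h2 : ¬ Even (k + 4) := Nat.not_even_iff_odd.2 (h.add_even (by decide))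
      rw [if_neg h0, if_neg h1, if_neg h2]
      simp

omit [CharZero K] in
private theorem b01_th_C (a : K) : th (C a : K⟦X⟧) = 0 := by
  have h : (C a : K⟦X⟧) = algebraMap K K⟦X⟧ a := rfl
  rw [h]
  exact Derivation.map_algebraMap _ _

theorem om_omS (A B : K) : Om (-2 * A) (A ^ 2 - 4 * B) (omS A B) := by
  have hcc : constantCoeff (omS A B) = 1 := by
    rw [← coeff_zero_eq_constantCoeff_apply, b01_coeff]
    simp [tn_zero]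
  refine ⟨?_, hcc⟩
  have hP : ((sg (-2 * A) (A ^ 2 - 4 * B) : Polynomial K) : K⟦X⟧) =
      1 + C (-2 * A) * X ^ 2 + C (A ^ 2 - 4 * B) * X ^ 4 := by
    simp [sg]
  rw [hP]
  have hode := b01_ode A B
  have hth : th (omS A B ^ 2 * (1 + C (-2 * A) * X ^ 2 + C (A ^ 2 - 4 * B) * X ^ 4)) = 0 := by
    have e1 : C (-2 * A) = (-C (2 * A) : K⟦X⟧) := by rw [← map_neg]; congr 1; ring
    have e2 : (C 2 : K⟦X⟧) = 2 := map_ofNat (C (R := K)) 2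
    rw [e2] at hode
    simp only [th_mul, th_pow, map_add, th_one, th_X, b01_th_C, e1, map_neg]
    push_cast
    linear_combination 2 * omS A B * hode
  ext n
  rcases Nat.eq_zero_or_pos n with rfl | hn
  · rw [coeff_zero_eq_constantCoeff_apply, map_mul, map_pow, hcc]
    simp
  · have h1 := congrArg (coeff n) hth
    rw [coeff_th, map_zero] at h1
    have h2 : (n : K) ≠ 0 := Nat.cast_ne_zero.2 hn.ne'
    rw [(mul_eq_zero.1 h1).resolve_left h2, coeff_one, if_neg hn.ne']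

omit [CharZero K] in
theorem coeff_omS (A B : K) (n : ℕ) : coeff (2 * n) (omS A B) = tn n A B := by
  simp [omS]

omit [CharZero K] in
theorem coeff_omS_odd (A B : K) {k : ℕ} (hk : Odd k) : coeff k (omS A B) = 0 := by
  simp [omS, Nat.not_even_iff_odd.2 hk]

end Pool.Agent.Lib.MP_d4c4f0_nt
end

section

/-!
# B04: rational power series

`IsRat` is a subring, closed under division: if `u ≠ 0`, `u` and `u y` are rational, so is `y`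
(`P u = Q`, `Q ≠ 0` because `K⟦X⟧` is a domain, `P' u y = Q'`: `P' Q y = P P' u y = P Q'`).
`om^2` is rational (`sg * om^2 = 1`, `sg ≠ 0`).
`exists_rep`: divide `P`, `Q` by their gcd. `rep_unique`: `D' N = D' D y = D N'` as polynomials
(`Polynomial.coe_injective`), so `D ∣ D'` and `D' ∣ D` by coprimality, etc. (associated polynomials have equal degree).
If `D = 0` then `N = 0`, impossible for coprime polynomials; so `D, D' ≠ 0`.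
-/

set_option autoImplicit false

namespace Pool.Agent.Lib.MP_d4c4f0_nt

open PowerSeries

variable {K : Type*} [Field K]

private theorem coe_ne {P : Polynomial K} (h : P ≠ 0) : (P : K⟦X⟧) ≠ 0 := by
  intro h0
  exact h (Polynomial.coe_injective K (by rw [h0, Polynomial.coe_zero]))

theorem IsRat.coe (P : Polynomial K) : IsRat (P : K⟦X⟧) :=
  ⟨1, P, one_ne_zero, by rw [Polynomial.coe_one, one_mul]⟩

theorem IsRat.add {y z : K⟦X⟧} (hy : IsRat y) (hz : IsRat z) : IsRat (y + z) := by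
  obtain ⟨P, Q, hP, h⟩ := hy
  obtain ⟨P', Q', hP', h'⟩ := hz
  refine ⟨P * P', Q * P' + P * Q', mul_ne_zero hP hP', ?_⟩
  rw [Polynomial.coe_mul, Polynomial.coe_add, Polynomial.coe_mul, Polynomial.coe_mul, ← h, ← h']
  ring

theorem IsRat.mul {y z : K⟦X⟧} (hy : IsRat y) (hz : IsRat z) : IsRat (y * z) := by
  obtain ⟨P, Q, hP, h⟩ := hy
  obtain ⟨P', Q', hP', h'⟩ := hz
  refine ⟨P * P', Q * Q', mul_ne_zero hP hP', ?_⟩
  rw [Polynomial.coe_mul, Polynomial.coe_mul, ← h, ← h']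
  ring

theorem IsRat.neg {y : K⟦X⟧} (hy : IsRat y) : IsRat (-y) := by
  obtain ⟨P, Q, hP, h⟩ := hy
  refine ⟨P, -Q, hP, ?_⟩
  rw [Polynomial.coe_neg, ← h]
  ring

theorem IsRat.of_mul {u y : K⟦X⟧} (hu : IsRat u) (h0 : u ≠ 0) (h : IsRat (u * y)) : IsRat y := by
  obtain ⟨P, Q, hP, h1⟩ := hu
  obtain ⟨P', Q', hP', h2⟩ := h
  have hQ : Q ≠ 0 := by
    intro hQ
    rw [hQ, Polynomial.coe_zero] at h1
    rcases mul_eq_zero.1 h1 with h3 | h3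
    · exact coe_ne hP h3
    · exact h0 h3
  refine ⟨P' * Q, P * Q', mul_ne_zero hP' hQ, ?_⟩
  rw [Polynomial.coe_mul, Polynomial.coe_mul, ← h1, ← h2]
  ring

theorem IsRat.om_sq {a b : K} {om : K⟦X⟧} (ho : Om a b om) : IsRat (om ^ 2) := by
  refine ⟨sg a b, 1, ?_, ?_⟩
  · intro h
    have h1 := ho.sq
    rw [h, Polynomial.coe_zero, mul_zero] at h1
    exact zero_ne_one h1
  · rw [mul_comm, ho.sq, Polynomial.coe_one]

theorem IsRat.exists_rep {y : K⟦X⟧} (hy : IsRat y) :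
    ∃ N D : Polynomial K, IsCoprime N D ∧ D ≠ 0 ∧ (D : K⟦X⟧) * y = (N : K⟦X⟧) := by
  obtain ⟨P, Q, hP, h⟩ := hy
  classical
  have hc := isCoprime_div_gcd_div_gcd (p := Q) hP
  have e1 : gcd Q P * (Q / gcd Q P) = Q := EuclideanDomain.mul_div_cancel' (by
    intro h0
    exact hP (((gcd_eq_zero_iff _ _).1 h0).2)) (gcd_dvd_left _ _)
  have e2 : gcd Q P * (P / gcd Q P) = P := EuclideanDomain.mul_div_cancel' (by
    intro h0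
    exact hP (((gcd_eq_zero_iff _ _).1 h0).2)) (gcd_dvd_right _ _)
  have hg : gcd Q P ≠ 0 := by
    intro h0
    exact hP (((gcd_eq_zero_iff _ _).1 h0).2)
  refine ⟨Q / gcd Q P, P / gcd Q P, hc, ?_, ?_⟩
  · intro h0
    rw [h0, mul_zero] at e2
    exact hP e2.symm
  · have h1 : ((gcd Q P : Polynomial K) : K⟦X⟧) ≠ 0 := coe_ne hg
    refine mul_left_cancel₀ h1 ?_
    rw [← mul_assoc, ← Polynomial.coe_mul, ← Polynomial.coe_mul, e1, e2, h]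

theorem rep_unique {y : K⟦X⟧} {N D N' D' : Polynomial K} (h : IsCoprime N D)
    (h' : IsCoprime N' D') (e : (D : K⟦X⟧) * y = (N : K⟦X⟧))
    (e' : (D' : K⟦X⟧) * y = (N' : K⟦X⟧)) :
    N.natDegree = N'.natDegree ∧ D.natDegree = D'.natDegree := by
  have hD : D ≠ 0 := by
    intro h0
    have h1 : N = 0 := Polynomial.coe_injective K (by
      rw [← e, h0, Polynomial.coe_zero, zero_mul])
    rw [h0, h1] at h
    exact not_isCoprime_zero_zero h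
  have hD' : D' ≠ 0 := by
    intro h0
    have h1 : N' = 0 := Polynomial.coe_injective K (by
      rw [← e', h0, Polynomial.coe_zero, zero_mul])
    rw [h0, h1] at h'
    exact not_isCoprime_zero_zero h'
  have key : D' * N = D * N' := Polynomial.coe_injective K (by
    rw [Polynomial.coe_mul, Polynomial.coe_mul, ← e, ← e']
    ring)
  have d1 : D ∣ D' := h.symm.dvd_of_dvd_mul_right ⟨N', key⟩
  have d2 : D' ∣ D := h'.symm.dvd_of_dvd_mul_right ⟨N, key.symm⟩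
  have hdeg : D.natDegree = D'.natDegree :=
    le_antisymm (Polynomial.natDegree_le_of_dvd d1 hD') (Polynomial.natDegree_le_of_dvd d2 hD)
  refine ⟨?_, hdeg⟩
  by_cases hN : N = 0
  · have h1 : N' = 0 := by
      rw [hN, mul_zero] at key
      rcases mul_eq_zero.1 key.symm with h2 | h2
      · exact absurd h2 hD
      · exact h2
    rw [hN, h1]
  · have hN' : N' ≠ 0 := by
      intro h0
      rw [h0, mul_zero] at key
      rcases mul_eq_zero.1 key with h2 | h2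
      · exact hD' h2
      · exact hN h2
    have h1 := congrArg Polynomial.natDegree key
    rw [Polynomial.natDegree_mul hD' hN, Polynomial.natDegree_mul hD hN'] at h1
    omega

end Pool.Agent.Lib.MP_d4c4f0_nt
end

section

/-!
# B11: the explicit CM points

`i^2 = -1`, `r^2 = 5`, `cx i r = (r-2)(1-i)/4`; all identities are polynomial identities in `i`, `r` modulo `i^2+1`, `r^2-5`
(checked by computer; `linear_combination (..) * hi + (..) * hr` after clearing denominators, or reduce all powers with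
`i^2 = -1`, `i^3 = -i`, ..., `r^2 = 5`, ...).
With `x = cx i r`: `-1/(8x) = cx (-i) (-r)`, `-(1+x)/(1-8x) = cx i (-r)`, `16 x(1+x)(1-8x) = (1+8x^2)^2`.
Non-vanishing: products with conjugates are nonzero rational numbers, e.g. `x * (-8 y) = 1`,
`(1-8x)(1-8 cx i (-r)) = 9`, `ea x * (..) = 144` (`ea x = 3+7i-r-3ir`, times `(3-7i-r+3ir)` is `108-48r`, times
`(108+48r)` is `144`), `1 + x = x (1-8y)`, `1+8x^2 = 1-9i+4ir`, times `1+9i-4ir` is `162-72r`, times `162+72r` is `324`.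
-/

set_option autoImplicit false

namespace Pool.Agent.Lib.MP_d4c4f0_nt

variable {K : Type*} [Field K] [CharZero K]

/-- The CM point. -/
noncomputable def cx (i r : K) : K := (r - 2) * (1 - i) / 4

variable {i r : K}

theorem cx_w2 (hi : i ^ 2 = -1) (hr : r ^ 2 = 5) : 8 * cx i r * cx (-i) (-r) = -1 := by
  simp only [cx]
  linear_combination (-2 + (1 / 2) * r ^ 2) * hi + (-1) * hr

theorem cx_w3 (hi : i ^ 2 = -1) (hr : r ^ 2 = 5) :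
    (1 - 8 * cx i r) * cx i (-r) = -(1 + cx i r) := by
  simp only [cx]
  linear_combination (-2 + (1 / 2) * r ^ 2) * hi + (-i) * hr

theorem cx_quartic (hi : i ^ 2 = -1) (hr : r ^ 2 = 5) :
    16 * cx i r * (1 + cx i r) * (1 - 8 * cx i r) = (1 + 8 * cx i r ^ 2) ^ 2 := by
  simp only [cx]
  linear_combination (-4 - 8 * i * r + 12 * i * r ^ 2 - 6 * i * r ^ 3 + i * r ^ 4 - 4 * i ^ 2 + 8 * i ^ 2 * r - 6 * i ^ 2 * r ^ 2 + 2 * i ^ 2 * r ^ 3 - (1 / 4) * i ^ 2 * r ^ 4 - 2 * r ^ 2 + 4 * r ^ 3 - (5 / 4) * r ^ 4) * hi + (5 - 8 * i + 4 * i * r - 4 * r + r ^ 2) * hr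

theorem cx_b3 (hi : i ^ 2 = -1) (hr : r ^ 2 = 5) :
    (1 - 8 * cx i r) * (1 - 8 * cx i (-r)) = 9 := by
  simp only [cx]
  linear_combination (16 - 4 * r ^ 2) * hi + (8 * i) * hr

theorem cx_nz (hi : i ^ 2 = -1) (hr : r ^ 2 = 5) : cx i r ≠ 0 ∧ 1 + cx i r ≠ 0 ∧
    1 - 8 * cx i r ≠ 0 ∧ 1 + 8 * cx i r ^ 2 ≠ 0 ∧ ea (cx i r) ≠ 0 ∧ eb (cx i r) ≠ 0 := by
  have hi' : (-i) ^ 2 = (-1 : K) := by rw [neg_sq]; exact hi
  have hr' : (-r) ^ 2 = (5 : K) := by rw [neg_sq]; exact hr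
  have h9 : (9 : K) ≠ 0 := by norm_num
  have h8 : (8 : K) ≠ 0 := by norm_num
  have hx : cx i r ≠ 0 := by
    intro h
    have h1 := cx_w2 hi hr
    rw [h, mul_zero, zero_mul] at h1
    exact neg_ne_zero.mpr one_ne_zero h1.symm
  have h18 : ∀ {i r : K}, i ^ 2 = -1 → r ^ 2 = 5 → 1 - 8 * cx i r ≠ 0 := by
    intro i r hi hr h
    have h1 := cx_b3 hi hr
    rw [h, zero_mul] at h1
    exact h9 h1.symm
  have h1x : 1 + cx i r = cx i r * (1 - 8 * cx (-i) (-r)) := by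
    simp only [cx]
    linear_combination (-2 + (1 / 2) * r ^ 2) * hi + (-1) * hr
  have hx1 : 1 + cx i r ≠ 0 := by
    rw [h1x]
    exact mul_ne_zero hx (h18 hi' hr')
  have hE : 1 + 8 * cx i r ^ 2 ≠ 0 := by
    intro h
    have h1 := cx_quartic hi hr
    rw [h] at h1
    have h16 : (16 : K) ≠ 0 := by norm_num
    refine mul_ne_zero (mul_ne_zero (mul_ne_zero h16 hx) hx1) (h18 hi hr) ?_
    rw [h1]; ring
  have hea : ea (cx i r) ≠ 0 := by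
    intro h
    have h1 : ea (cx i r) * ((3 - 7 * i - r + 3 * i * r) * (108 + 48 * r)) = 144 := by
      simp only [cx, ea]
      linear_combination (-2160 + 1512 * i - 1488 * i * r + 66 * i * r ^ 2 + 294 * i * r ^ 3 - 72 * i * r ^ 4 + 2820 * r - 426 * r ^ 2 - 558 * r ^ 3 + 168 * r ^ 4) * hi + (-468 + 324 * i + 36 * i * r - 48 * i * r ^ 2 + 492 * r - 144 * r ^ 2) * hr
    rw [h, zero_mul] at h1
    have h144 : (144 : K) ≠ 0 := by norm_num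
    exact h144 h1.symm
  refine ⟨hx, hx1, h18 hi hr, hE, hea, ?_⟩
  have h16 : (16 : K) ≠ 0 := by norm_num
  unfold eb
  exact mul_ne_zero (mul_ne_zero h16 (pow_ne_zero 3 hx)) hx1

theorem ea_sq (x : K) : ea x ^ 2 - 4 * eb x = 1 - 8 * x := by
  simp only [ea, eb]
  ring

end Pool.Agent.Lib.MP_d4c4f0_nt
end

section

/-!
# B11b: the explicit 2- and 3-isogenies

`i^2 = -1`, `r^2 = 5`, `cx i r = (r-2)(1-i)/4`; all identities are polynomial identities in `i`, `r` modulo `i^2+1`, `r^2-5`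
(checked by computer; `linear_combination (..) * hi + (..) * hr` after clearing denominators, or reduce all powers with
`i^2 = -1`, `i^3 = -i`, ..., `r^2 = 5`, ...).
With `x = cx i r`: `-1/(8x) = cx (-i) (-r)`, `-(1+x)/(1-8x) = cx i (-r)`, `16 x(1+x)(1-8x) = (1+8x^2)^2`.
The two 3-isogenies from the curve of `x` to that of `y = cx (-i) (-r)` (`a = -2 ea`, `b = 1 - 8x`):
multiplier `2x(1+ir)`: `c = -2x(1+ir)`, `d = -5+4i+2r-2ir`;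
multiplier `2x(1-ir)`: `c = (-7+3i+3r-ir)/2`, `d = 6-3r`. In both cases `c - mu d = 40+18i-18r-8ir`.
`cx i r = -1/2 + i/2 + r/4 - ir/4`, `2x(1+ir) = (3+7i-r-3ir)/2`, `2x(1-ir) = (-7-3i+3r+ir)/2`.
Non-vanishing: products with conjugates are nonzero rational numbers, e.g. `x * (-8 y) = 1`,
`(1-8x)(1-8 cx i (-r)) = 9`, `ea x * (..) = 144` (norm), `(1+x) = x (1-8y)`, etc.
`Iso3` is an identity in `K[X]` : compare the coefficients of `1, X, ..., X^4`; each is a polynomial identity in `i, r`.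
-/

set_option autoImplicit false

namespace Pool.Agent.Lib.MP_d4c4f0_nt

variable {K : Type*} [Field K] [CharZero K] {i r : K}

/-- The conditions of the 2-isogeny of multiplier `4x`. -/
theorem cx_two (hi : i ^ 2 = -1) (hr : r ^ 2 = 5) :
    (4 * cx i r) ^ 2 * (-2 * ea (cx (-i) (-r))) = -2 * (-2 * ea (cx i r)) ∧
    (4 * cx i r) ^ 4 * (1 - 8 * cx (-i) (-r)) =
      (-2 * ea (cx i r)) ^ 2 - 4 * (1 - 8 * cx i r) := by
  constructor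
  · simp only [cx, ea]
    linear_combination (-32 - 16 * i + 8 * i * r + 4 * i * r ^ 2 - 2 * i * r ^ 3 + 16 * i ^ 2 - 8 * i ^ 2 * r ^ 2 + i ^ 2 * r ^ 4 - 8 * r + 20 * r ^ 2 + 2 * r ^ 3 - 3 * r ^ 4) * hi + (-4 - 8 * i + 4 * i * r - 4 * r + 4 * r ^ 2) * hr
  · simp only [cx, ea]
    linear_combination (416 + 32 * i - 48 * i * r + 8 * i * r ^ 2 + 20 * i * r ^ 3 - 12 * i * r ^ 4 + 2 * i * r ^ 5 - 192 * i ^ 2 + 288 * i ^ 2 * r - 96 * i ^ 2 * r ^ 2 - 48 * i ^ 2 * r ^ 3 + 36 * i ^ 2 * r ^ 4 - 6 * i ^ 2 * r ^ 5 + 64 * i ^ 3 - 96 * i ^ 3 * r + 32 * i ^ 3 * r ^ 2 + 16 * i ^ 3 * r ^ 3 - 12 * i ^ 3 * r ^ 4 + 2 * i ^ 3 * r ^ 5 - 624 * r + 232 * r ^ 2 + 68 * r ^ 3 - 60 * r ^ 4 + 10 * r ^ 5) * hi + (64 + 64 * i - 96 * i * r + 48 * i * r ^ 2 - 8 * i * r ^ 3 - 96 * r + 48 * r ^ 2 - 8 * r ^ 3) * hr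

theorem iso3_plus (hi : i ^ 2 = -1) (hr : r ^ 2 = 5) :
    Iso3 (-2 * ea (cx i r)) (1 - 8 * cx i r) (-2 * ea (cx (-i) (-r))) (1 - 8 * cx (-i) (-r))
      (2 * cx i r * (1 + i * r)) (-2 * cx i r * (1 + i * r))
      (-5 + 4 * i + 2 * r - 2 * i * r) := by
  have h1 : -2 * ea (cx i r) = -6 - 14 * i + 6 * i * r + 2 * r := by
    simp only [cx, ea]
    linear_combination (4 - 4 * r + r ^ 2) * hi + (-2 * i) * hr
  have h2 : 1 - 8 * cx i r = 5 - 4 * i + 2 * i * r - 2 * r := by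
    simp only [cx]
    ring
  have h3 : -2 * ea (cx (-i) (-r)) = -6 + 14 * i + 6 * i * r - 2 * r := by
    simp only [cx, ea]
    linear_combination (4 + 4 * r + r ^ 2) * hi + (2 * i) * hr
  have h4 : 1 - 8 * cx (-i) (-r) = 5 + 4 * i + 2 * i * r + 2 * r := by
    simp only [cx]
    ring
  have h5 : 2 * cx i r * (1 + i * r) = (3 / 2) + (7 / 2) * i - (3 / 2) * i * r - (1 / 2) * r := by
    simp only [cx]
    linear_combination (r - (1 / 2) * r ^ 2) * hi + ((1 / 2) + (1 / 2) * i) * hr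
  have h6 : -2 * cx i r * (1 + i * r) = -(3 / 2) - (7 / 2) * i + (3 / 2) * i * r + (1 / 2) * r := by
    simp only [cx]
    linear_combination (-r + (1 / 2) * r ^ 2) * hi + (-(1 / 2) - (1 / 2) * i) * hr
  have h7 : 3 * (-(3 / 2) - (7 / 2) * i + (3 / 2) * i * r + (1 / 2) * r) - ((3 / 2) + (7 / 2) * i - (3 / 2) * i * r - (1 / 2) * r) * (-5 + 4 * i + 2 * r - 2 * i * r) = 37 + 11 * i - 5 * i * r - 17 * r := by
    linear_combination (-14 + 13 * r - 3 * r ^ 2) * hi + (4 + 2 * i) * hr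
  have h8 : (-(3 / 2) - (7 / 2) * i + (3 / 2) * i * r + (1 / 2) * r) * (-5 + 4 * i + 2 * r - 2 * i * r) = (83 / 2) + (43 / 2) * i - (19 / 2) * i * r - (37 / 2) * r := by
    linear_combination (-14 + 13 * r - 3 * r ^ 2) * hi + (4 + 2 * i) * hr
  have h9 : ((3 / 2) + (7 / 2) * i - (3 / 2) * i * r - (1 / 2) * r) ^ 2 = -20 + 18 * i - 8 * i * r + 9 * r := by
    linear_combination ((49 / 4) - (21 / 2) * r + (9 / 4) * r ^ 2) * hi + (-2 + (3 / 2) * i) * hr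
  haveI : Infinite K := CharZero.infinite K
  unfold Iso3
  rw [h1, h2, h3, h4, h5, h6, h7, h8, h9]
  refine Polynomial.funext fun t => ?_
  simp only [Polynomial.eval_mul, Polynomial.eval_add, Polynomial.eval_pow, Polynomial.eval_C,
    Polynomial.eval_X, Polynomial.eval_one]
  linear_combination ((49 / 4) - 2016 * i * r * t - (327055 / 4) * i * r * t ^ 2 + 612703 * i * r * t ^ 3 - (1886221 / 2) * i * r * t ^ 4 + 616383 * i * r * t ^ 5 - (258383 / 4) * i * r * t ^ 6 + 204 * i * r ^ 2 * t + (278549 / 8) * i * r ^ 2 * t ^ 2 - (599653 / 2) * i * r ^ 2 * t ^ 3 + (1756303 / 4) * i * r ^ 2 * t ^ 4 - (649581 / 2) * i * r ^ 2 * t ^ 5 + (260021 / 8) * i * r ^ 2 * t ^ 6 + 330 * i * r ^ 3 * t + (12095 / 2) * i * r ^ 3 * t ^ 2 - 22428 * i * r ^ 3 * t ^ 3 + 70737 * i * r ^ 3 * t ^ 4 - 3262 * i * r ^ 3 * t ^ 5 + (3135 / 2) * i * r ^ 3 * t ^ 6 - (171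 / 2) * i * r ^ 4 * t - (70579 / 8) * i * r ^ 4 * t ^ 2 + (133037 / 2) * i * r ^ 4 * t ^ 3 - (497009 / 4) * i * r ^ 4 * t ^ 4 + 60826 * i * r ^ 4 * t ^ 5 - (53059 / 8) * i * r ^ 4 * t ^ 6 + (9653 / 4) * i * r ^ 5 * t ^ 2 - 21127 * i * r ^ 5 * t ^ 3 + (76687 / 2) * i * r ^ 5 * t ^ 4 - 20527 * i * r ^ 5 * t ^ 5 + (8453 / 4) * i * r ^ 5 * t ^ 6 - (1713 / 8) * i * r ^ 6 * t ^ 2 + (4357 / 2) * i * r ^ 6 * t ^ 3 - (15715 / 4) * i * r ^ 6 * t ^ 4 + (4357 / 2) * i * r ^ 6 * t ^ 5 - (1713 / 8) * i * r ^ 6 * t ^ 6 + (3871 / 2) * i * t + (428359 / 8) * i * t ^ 2 - (748805 / 2) * i * t ^ 3 + (2306205 / 4) * i * t ^ 4 - 363320 * i * t ^ 5 + (310743 / 8) * i * t ^ 6 + 2695 * i ^ 2 * r * t - (1467193 / 16) * i ^ 2 * r * t ^ 2 + (1485553 / 4) * i ^ 2 * r * t ^ 3 - (4382315 / 8) * i ^ 2 * r * t ^ 4 + (913989 / 4) * i ^ 2 * r * t ^ 5 - (331065 / 16) * i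 ^ 2 * r * t ^ 6 - 21 * i ^ 2 * r ^ 2 * t + (263513 / 8) * i ^ 2 * r ^ 2 * t ^ 2 - (369385 / 2) * i ^ 2 * r ^ 2 * t ^ 3 + (1324067 / 4) * i ^ 2 * r ^ 2 * t ^ 4 - (266991 / 2) * i ^ 2 * r ^ 2 * t ^ 5 + (84585 / 8) * i ^ 2 * r ^ 2 * t ^ 6 - 495 * i ^ 2 * r ^ 3 * t + (73273 / 8) * i ^ 2 * r ^ 3 * t ^ 2 - (10813 / 2) * i ^ 2 * r ^ 3 * t ^ 3 - (152509 / 4) * i ^ 2 * r ^ 3 * t ^ 4 + (10769 / 2) * i ^ 2 * r ^ 3 * t ^ 5 + (15721 / 8) * i ^ 2 * r ^ 3 * t ^ 6 + 108 * i ^ 2 * r ^ 4 * t - (35397 / 4) * i ^ 2 * r ^ 4 * t ^ 2 + 33365 * i ^ 2 * r ^ 4 * t ^ 3 - (75547 / 2) * i ^ 2 * r ^ 4 * t ^ 4 + 23493 * i ^ 2 * r ^ 4 * t ^ 5 - (14493 / 4) * i ^ 2 * r ^ 4 * t ^ 6 + (31599 / 16) * i ^ 2 * r ^ 5 * t ^ 2 - (41343 / 4) * i ^ 2 * r ^ 5 * t ^ 3 + (122333 / 8) * i ^ 2 * r ^ 5 * t ^ 4 - (35151 / 4) * i ^ 2 * r ^ 5 * t ^ 5 + (19215 / 16) * i ^ 2 * r ^ 5 * t ^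 6 - (1053 / 8) * i ^ 2 * r ^ 6 * t ^ 2 + (2001 / 2) * i ^ 2 * r ^ 6 * t ^ 3 - (6951 / 4) * i ^ 2 * r ^ 6 * t ^ 4 + (2001 / 2) * i ^ 2 * r ^ 6 * t ^ 5 - (1053 / 8) * i ^ 2 * r ^ 6 * t ^ 6 - 3087 * i ^ 2 * t + (260925 / 4) * i ^ 2 * t ^ 2 - 227943 * i ^ 2 * t ^ 3 + (605631 / 2) * i ^ 2 * t ^ 4 - 124796 * i ^ 2 * t ^ 5 + (45325 / 4) * i ^ 2 * t ^ 6 + 66640 * i ^ 3 * r * t ^ 2 - 487172 * i ^ 3 * r * t ^ 3 + 818420 * i ^ 3 * r * t ^ 4 - 419356 * i ^ 3 * r * t ^ 5 + 32732 * i ^ 3 * r * t ^ 6 - (218575 / 8) * i ^ 3 * r ^ 2 * t ^ 2 + (517871 / 2) * i ^ 3 * r ^ 2 * t ^ 3 - (1853149 / 4) * i ^ 3 * r ^ 2 * t ^ 4 + (474079 / 2) * i ^ 3 * r ^ 2 * t ^ 5 - (130991 / 8) * i ^ 3 * r ^ 2 * t ^ 6 - 4378 * i ^ 3 * r ^ 3 * t ^ 2 - 1414 * i ^ 3 * r ^ 3 * t ^ 3 + 20836 * i ^ 3 * r ^ 3 * t ^ 4 - 9166 * i ^ 3 * r ^ 3 * t ^ 5 - 502 * i ^ 3 * r ^ 3 * t ^ 6 + (47205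 / 8) * i ^ 3 * r ^ 4 * t ^ 2 - (90249 / 2) * i ^ 3 * r ^ 4 * t ^ 3 + (297167 / 4) * i ^ 3 * r ^ 4 * t ^ 4 - (78873 / 2) * i ^ 3 * r ^ 4 * t ^ 5 + (24453 / 8) * i ^ 3 * r ^ 4 * t ^ 6 - 1404 * i ^ 3 * r ^ 5 * t ^ 2 + 15234 * i ^ 3 * r ^ 5 * t ^ 3 - 27100 * i ^ 3 * r ^ 5 * t ^ 4 + 14370 * i ^ 3 * r ^ 5 * t ^ 5 - 972 * i ^ 3 * r ^ 5 * t ^ 6 + (783 / 8) * i ^ 3 * r ^ 6 * t ^ 2 - (3195 / 2) * i ^ 3 * r ^ 6 * t ^ 3 + (11997 / 4) * i ^ 3 * r ^ 6 * t ^ 4 - (3195 / 2) * i ^ 3 * r ^ 6 * t ^ 5 + (783 / 8) * i ^ 3 * r ^ 6 * t ^ 6 - (357749 / 8) * i ^ 3 * t ^ 2 + (573349 / 2) * i ^ 3 * t ^ 3 - (1855295 / 4) * i ^ 3 * t ^ 4 + (474565 / 2) * i ^ 3 * t ^ 5 - (160181 / 8) * i ^ 3 * t ^ 6 + (71687 / 4) * i ^ 4 * r * t ^ 2 + 20825 * i ^ 4 * r * t ^ 3 - (154987 / 2) * i ^ 4 * r * t ^ 4 + 20825 * i ^ 4 * r * t ^ 5 + (71687 / 4) * i ^ 4 * r * t ^ 6 - 8477 *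 i ^ 4 * r ^ 2 * t ^ 2 - 21896 * i ^ 4 * r ^ 2 * t ^ 3 + 60746 * i ^ 4 * r ^ 2 * t ^ 4 - 21896 * i ^ 4 * r ^ 2 * t ^ 5 - 8477 * i ^ 4 * r ^ 2 * t ^ 6 - (2751 / 2) * i ^ 4 * r ^ 3 * t ^ 2 + 8698 * i ^ 4 * r ^ 3 * t ^ 3 - 14645 * i ^ 4 * r ^ 3 * t ^ 4 + 8698 * i ^ 4 * r ^ 3 * t ^ 5 - (2751 / 2) * i ^ 4 * r ^ 3 * t ^ 6 + (4941 / 2) * i ^ 4 * r ^ 4 * t ^ 2 - 318 * i ^ 4 * r ^ 4 * t ^ 3 - 4305 * i ^ 4 * r ^ 4 * t ^ 4 - 318 * i ^ 4 * r ^ 4 * t ^ 5 + (4941 / 2) * i ^ 4 * r ^ 4 * t ^ 6 - (3105 / 4) * i ^ 4 * r ^ 5 * t ^ 2 - 603 * i ^ 4 * r ^ 5 * t ^ 3 + (5517 / 2) * i ^ 4 * r ^ 5 * t ^ 4 - 603 * i ^ 4 * r ^ 5 * t ^ 5 - (3105 / 4) * i ^ 4 * r ^ 5 * t ^ 6 + 81 * i ^ 4 * r ^ 6 * t ^ 2 + 108 * i ^ 4 * r ^ 6 * t ^ 3 - 378 * i ^ 4 * r ^ 6 * t ^ 4 + 108 * i ^ 4 * r ^ 6 * t ^ 5 + 81 * i ^ 4 * r ^ 6 * t ^ 6 - (21609 / 2) * i ^ 4 * t ^ 2 - 6174 * i ^ 4 *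 t ^ 3 + 33957 * i ^ 4 * t ^ 4 - 6174 * i ^ 4 * t ^ 5 - (21609 / 2) * i ^ 4 * t ^ 6 - (21 / 2) * r - 3703 * r * t + (1527975 / 16) * r * t ^ 2 - (1348439 / 4) * r * t ^ 3 + (4038001 / 8) * r * t ^ 4 - (745803 / 4) * r * t ^ 5 + (49943 / 16) * r * t ^ 6 + (9 / 4) * r ^ 2 - 298 * r ^ 2 * t - (215493 / 8) * r ^ 2 * t ^ 2 + (296031 / 2) * r ^ 2 * t ^ 3 - (480625 / 2) * r ^ 2 * t ^ 4 + (242835 / 2) * r ^ 2 * t ^ 5 - (19201 / 8) * r ^ 2 * t ^ 6 + 813 * r ^ 3 * t - (101507 / 8) * r ^ 3 * t ^ 2 + (47583 / 2) * r ^ 3 * t ^ 3 - (99521 / 4) * r ^ 3 * t ^ 4 - (14235 / 2) * r ^ 3 * t ^ 5 - (6259 / 8) * r ^ 3 * t ^ 6 - (321 / 2) * r ^ 4 * t + (34829 / 4) * r ^ 4 * t ^ 2 - 38004 * r ^ 4 * t ^ 3 + (115959 / 2) * r ^ 4 * t ^ 4 - (45259 / 2) * r ^ 4 * t ^ 5 + (5869 / 4) * r ^ 4 * t ^ 6 - (25297 / 16) * r ^ 5 * t ^ 2 + (43553 / 4) * r ^ 5 * t ^ 3 - (146499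 / 8) * r ^ 5 * t ^ 4 + (35377 / 4) * r ^ 5 * t ^ 5 - (8945 / 16) * r ^ 5 * t ^ 6 + (563 / 8) * r ^ 6 * t ^ 2 - (2047 / 2) * r ^ 6 * t ^ 3 + (7625 / 4) * r ^ 6 * t ^ 4 - (2047 / 2) * r ^ 6 * t ^ 5 + (563 / 8) * r ^ 6 * t ^ 6 + (9385 / 2) * t - 75090 * t ^ 2 + 217090 * t ^ 3 - (1251995 / 4) * t ^ 4 + (177343 / 2) * t ^ 5 - (915 / 2) * t ^ 6) * hi + (-2 + (3 / 2) * i - 348 * i * r * t - 16611 * i * r * t ^ 2 + 119916 * i * r * t ^ 3 - 215802 * i * r * t ^ 4 + 108264 * i * r * t ^ 5 - 11163 * i * r * t ^ 6 + 95 * i * r ^ 2 * t + 9207 * i * r ^ 2 * t ^ 2 - 74514 * i * r ^ 2 * t ^ 3 + 133430 * i * r ^ 2 * t ^ 4 - 70061 * i * r ^ 2 * t ^ 5 + 7091 * i * r ^ 2 * t ^ 6 - 2242 * i * r ^ 3 * t ^ 2 + 20552 * i * r ^ 3 * t ^ 3 - 36852 * i * r ^ 3 * t ^ 4 + 19992 * i * r ^ 3 * t ^ 5 - 1962 * i * r ^ 3 * t ^ 6 + (401 / 2) * i * r ^ 4 * t ^ 2 - 2122 *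 i * r ^ 4 * t ^ 3 + 3843 * i * r ^ 4 * t ^ 4 - 2122 * i * r ^ 4 * t ^ 5 + (401 / 2) * i * r ^ 4 * t ^ 6 + 289 * i * t + 11196 * i * t ^ 2 - 72324 * i * t ^ 3 + (262663 / 2) * i * t ^ 4 - 62233 * i * t ^ 5 + 6427 * i * t ^ 6 - 836 * r * t + (83347 / 4) * r * t ^ 2 - 76275 * r * t ^ 3 + (219049 / 2) * r * t ^ 4 - 38511 * r * t ^ 5 + (11955 / 4) * r * t ^ 6 + 165 * r ^ 2 * t - (18527 / 2) * r ^ 2 * t ^ 2 + 43972 * r ^ 2 * t ^ 3 - 67489 * r ^ 2 * t ^ 4 + 28603 * r ^ 2 * t ^ 5 - (3751 / 2) * r ^ 2 * t ^ 6 + (6449 / 4) * r ^ 3 * t ^ 2 - 11161 * r ^ 3 * t ^ 3 + (37267 / 2) * r ^ 3 * t ^ 4 - 9081 * r ^ 3 * t ^ 5 + (2289 / 4) * r ^ 3 * t ^ 6 - (143 / 2) * r ^ 4 * t ^ 2 + 1046 * r ^ 4 * t ^ 3 - 1949 * r ^ 4 * t ^ 4 + 1046 * r ^ 4 * t ^ 5 - (143 / 2) * r ^ 4 * t ^ 6 + 1053 * t - 16535 * t ^ 2 + 49374 * t ^ 3 - 67100 * t ^ 4 + 18485 * t ^ 5 - 1915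 * t ^ 6) * hr

theorem iso3_minus (hi : i ^ 2 = -1) (hr : r ^ 2 = 5) :
    Iso3 (-2 * ea (cx i r)) (1 - 8 * cx i r) (-2 * ea (cx (-i) (-r))) (1 - 8 * cx (-i) (-r))
      (2 * cx i r * (1 - i * r)) ((-7 + 3 * i + 3 * r - i * r) / 2) (6 - 3 * r) := by
  have h1 : -2 * ea (cx i r) = -6 - 14 * i + 6 * i * r + 2 * r := by
    simp only [cx, ea]
    linear_combination (4 - 4 * r + r ^ 2) * hi + (-2 * i) * hr
  have h2 : 1 - 8 * cx i r = 5 - 4 * i + 2 * i * r - 2 * r := by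
    simp only [cx]
    ring
  have h3 : -2 * ea (cx (-i) (-r)) = -6 + 14 * i + 6 * i * r - 2 * r := by
    simp only [cx, ea]
    linear_combination (4 + 4 * r + r ^ 2) * hi + (2 * i) * hr
  have h4 : 1 - 8 * cx (-i) (-r) = 5 + 4 * i + 2 * i * r + 2 * r := by
    simp only [cx]
    ring
  have h5 : 2 * cx i r * (1 - i * r) = -(7 / 2) - (3 / 2) * i + (1 / 2) * i * r + (3 / 2) * r := by
    simp only [cx]
    linear_combination (-r + (1 / 2) * r ^ 2) * hi + (-(1 / 2) - (1 / 2) * i) * hr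
  have h6 : (-7 + 3 * i + 3 * r - i * r) / 2 = -(7 / 2) + (3 / 2) * i - (1 / 2) * i * r + (3 / 2) * r := by
    ring
  have h7 : 3 * (-(7 / 2) + (3 / 2) * i - (1 / 2) * i * r + (3 / 2) * r) - (-(7 / 2) - (3 / 2) * i + (1 / 2) * i * r + (3 / 2) * r) * (6 - 3 * r) = 33 + 21 * i - 9 * i * r - 15 * r := by
    linear_combination ((9 / 2) + (3 / 2) * i) * hr
  have h8 : (-(7 / 2) + (3 / 2) * i - (1 / 2) * i * r + (3 / 2) * r) * (6 - 3 * r) = -(87 / 2) + (33 / 2) * i - (15 / 2) * i * r + (39 / 2) * r := by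
    linear_combination (-(9 / 2) + (3 / 2) * i) * hr
  have h9 : (-(7 / 2) - (3 / 2) * i + (1 / 2) * i * r + (3 / 2) * r) ^ 2 = 20 + 18 * i - 8 * i * r - 9 * r := by
    linear_combination ((9 / 4) - (3 / 2) * r + (1 / 4) * r ^ 2) * hi + (2 + (3 / 2) * i) * hr
  haveI : Infinite K := CharZero.infinite K
  unfold Iso3
  rw [h1, h2, h3, h4, h5, h6, h7, h8, h9]
  refine Polynomial.funext fun t => ?_
  simp only [Polynomial.eval_mul, Polynomial.eval_add, Polynomial.eval_pow, Polynomial.eval_C,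
    Polynomial.eval_X, Polynomial.eval_one]
  linear_combination ((9 / 4) + 2337 * i * r * t + (469065 / 4) * i * r * t ^ 2 + 244407 * i * r * t ^ 3 - 158484 * i * r * t ^ 4 - 186375 * i * r * t ^ 5 + (47811 / 4) * i * r * t ^ 6 + 133 * i * r ^ 2 * t - (351785 / 8) * i * r ^ 2 * t ^ 2 - 129513 * i * r ^ 2 * t ^ 3 + (258273 / 4) * i * r ^ 2 * t ^ 4 + 100126 * i * r ^ 2 * t ^ 5 - (41321 / 8) * i * r ^ 2 * t ^ 6 - 435 * i * r ^ 3 * t - (21557 / 2) * i * r ^ 3 * t ^ 2 - 4351 * i * r ^ 3 * t ^ 3 + 14073 * i * r ^ 3 * t ^ 4 + 3388 * i * r ^ 3 * t ^ 5 + (303 / 2) * i * r ^ 3 * t ^ 6 + (163 / 2) * i * r ^ 4 * t + (92489 / 8) * i * r ^ 4 * t ^ 2 + (54129 / 2) * i * r ^ 4 * t ^ 3 - (70833 / 4) * i * r ^ 4 * t ^ 4 - 21401 * i * r ^ 4 * t ^ 5 + (3217 / 8) * i * r ^ 4 * t ^ 6 - (11219 / 4) * i * r ^ 5 * t ^ 2 - 9044 * i * r ^ 5 * t ^ 3 + 4713 * i *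 r ^ 5 * t ^ 4 + 7217 * i * r ^ 5 * t ^ 5 - (325 / 4) * i * r ^ 5 * t ^ 6 + (1777 / 8) * i * r ^ 6 * t ^ 2 + 955 * i * r ^ 6 * t ^ 3 - (1653 / 4) * i * r ^ 6 * t ^ 4 - 767 * i * r ^ 6 * t ^ 5 + (25 / 8) * i * r ^ 6 * t ^ 6 - (6129 / 2) * i * t - (654777 / 8) * i * t ^ 2 - (281421 / 2) * i * t ^ 3 + (420381 / 4) * i * t ^ 4 + 105696 * i * t ^ 5 - (67977 / 8) * i * t ^ 6 + 387 * i ^ 2 * r * t + (583425 / 16) * i ^ 2 * r * t ^ 2 - (20997 / 4) * i ^ 2 * r * t ^ 3 - (753597 / 8) * i ^ 2 * r * t ^ 4 + (225423 / 4) * i ^ 2 * r * t ^ 5 + (99873 / 16) * i ^ 2 * r * t ^ 6 + 39 * i ^ 2 * r ^ 2 * t - (106005 / 8) * i ^ 2 * r ^ 2 * t ^ 2 - (8553 / 2) * i ^ 2 * r ^ 2 * t ^ 3 + (183429 / 4) * i ^ 2 * r ^ 2 * t ^ 4 - (52155 / 2) * i ^ 2 * r ^ 2 * t ^ 5 - (18333 / 8) * i ^ 2 * r ^ 2 * t ^ 6 - 71 * i ^ 2 * r ^ 3 * t - (30153 / 8) * i ^ 2 * r ^ 3 * t ^ 2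 + (6345 / 2) * i ^ 2 * r ^ 3 * t ^ 3 + (16485 / 4) * i ^ 2 * r ^ 3 * t ^ 4 - (4657 / 2) * i ^ 2 * r ^ 3 * t ^ 5 - (9001 / 8) * i ^ 2 * r ^ 3 * t ^ 6 + 12 * i ^ 2 * r ^ 4 * t + (15335 / 4) * i ^ 2 * r ^ 4 * t ^ 2 + 25 * i ^ 2 * r ^ 4 * t ^ 3 - (21009 / 2) * i ^ 2 * r ^ 4 * t ^ 4 + 5539 * i ^ 2 * r ^ 4 * t ^ 5 + (4379 / 4) * i ^ 2 * r ^ 4 * t ^ 6 - (15223 / 16) * i ^ 2 * r ^ 5 * t ^ 2 - (1381 / 4) * i ^ 2 * r ^ 5 * t ^ 3 + (25947 / 8) * i ^ 2 * r ^ 5 * t ^ 4 - (6581 / 4) * i ^ 2 * r ^ 5 * t ^ 5 - (4823 / 16) * i ^ 2 * r ^ 5 * t ^ 6 + (637 / 8) * i ^ 2 * r ^ 6 * t ^ 2 + (113 / 2) * i ^ 2 * r ^ 6 * t ^ 3 - (1293 / 4) * i ^ 2 * r ^ 6 * t ^ 4 + (317 / 2) * i ^ 2 * r ^ 6 * t ^ 5 + (229 / 8) * i ^ 2 * r ^ 6 * t ^ 6 - 567 * i ^ 2 * t - (103005 / 4) * i ^ 2 * t ^ 2 + 9261 * i ^ 2 * t ^ 3 + (113967 / 2) * i ^ 2 * t ^ 4 - 35910 * i ^ 2 * t ^ 5 - (16065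 / 4) * i ^ 2 * t ^ 6 + (11637 / 2) * i ^ 3 * r * t ^ 2 - 13932 * i ^ 3 * r * t ^ 3 + 6885 * i ^ 3 * r * t ^ 4 + 4752 * i ^ 3 * r * t ^ 5 - (7047 / 2) * i ^ 3 * r * t ^ 6 - (15741 / 8) * i ^ 3 * r ^ 2 * t ^ 2 + (9477 / 2) * i ^ 3 * r ^ 2 * t ^ 3 - (9639 / 4) * i ^ 3 * r ^ 2 * t ^ 4 - (3051 / 2) * i ^ 3 * r ^ 2 * t ^ 5 + (9315 / 8) * i ^ 3 * r ^ 2 * t ^ 6 - 714 * i ^ 3 * r ^ 3 * t ^ 2 + 1632 * i ^ 3 * r ^ 3 * t ^ 3 - 612 * i ^ 3 * r ^ 3 * t ^ 4 - 816 * i ^ 3 * r ^ 3 * t ^ 5 + 510 * i ^ 3 * r ^ 3 * t ^ 6 + (5281 / 8) * i ^ 3 * r ^ 4 * t ^ 2 - (3057 / 2) * i ^ 3 * r ^ 4 * t ^ 3 + (2499 / 4) * i ^ 3 * r ^ 4 * t ^ 4 + (1391 / 2) * i ^ 3 * r ^ 4 * t ^ 5 - (3615 / 8) * i ^ 3 * r ^ 4 * t ^ 6 - (329 / 2) * i ^ 3 * r ^ 5 * t ^ 2 + 380 * i ^ 3 * r ^ 5 * t ^ 3 - 153 * i ^ 3 * r ^ 5 * t ^ 4 - 176 * i ^ 3 * r ^ 5 * t ^ 5 + (227 / 2) * i ^ 3 * r ^ 5 *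 t ^ 6 + (113 / 8) * i ^ 3 * r ^ 6 * t ^ 2 - (65 / 2) * i ^ 3 * r ^ 6 * t ^ 3 + (51 / 4) * i ^ 3 * r ^ 6 * t ^ 4 + (31 / 2) * i ^ 3 * r ^ 6 * t ^ 5 - (79 / 8) * i ^ 3 * r ^ 6 * t ^ 6 - (34101 / 8) * i ^ 3 * t ^ 2 + (20493 / 2) * i ^ 3 * t ^ 3 - (20655 / 4) * i ^ 3 * t ^ 4 - (6723 / 2) * i ^ 3 * t ^ 5 + (20331 / 8) * i ^ 3 * t ^ 6 + (1863 / 4) * i ^ 4 * r * t ^ 2 - 1863 * i ^ 4 * r * t ^ 3 + (5589 / 2) * i ^ 4 * r * t ^ 4 - 1863 * i ^ 4 * r * t ^ 5 + (1863 / 4) * i ^ 4 * r * t ^ 6 - 135 * i ^ 4 * r ^ 2 * t ^ 2 + 540 * i ^ 4 * r ^ 2 * t ^ 3 - 810 * i ^ 4 * r ^ 2 * t ^ 4 + 540 * i ^ 4 * r ^ 2 * t ^ 5 - 135 * i ^ 4 * r ^ 2 * t ^ 6 - (135 / 2) * i ^ 4 * r ^ 3 * t ^ 2 + 270 * i ^ 4 * r ^ 3 * t ^ 3 - 405 * i ^ 4 * r ^ 3 * t ^ 4 + 270 * i ^ 4 * r ^ 3 * t ^ 5 - (135 / 2) * i ^ 4 * r ^ 3 * t ^ 6 + (105 / 2) * i ^ 4 * r ^ 4 * t ^ 2 - 210 * i ^ 4 *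 r ^ 4 * t ^ 3 + 315 * i ^ 4 * r ^ 4 * t ^ 4 - 210 * i ^ 4 * r ^ 4 * t ^ 5 + (105 / 2) * i ^ 4 * r ^ 4 * t ^ 6 - (49 / 4) * i ^ 4 * r ^ 5 * t ^ 2 + 49 * i ^ 4 * r ^ 5 * t ^ 3 - (147 / 2) * i ^ 4 * r ^ 5 * t ^ 4 + 49 * i ^ 4 * r ^ 5 * t ^ 5 - (49 / 4) * i ^ 4 * r ^ 5 * t ^ 6 + i ^ 4 * r ^ 6 * t ^ 2 - 4 * i ^ 4 * r ^ 6 * t ^ 3 + 6 * i ^ 4 * r ^ 6 * t ^ 4 - 4 * i ^ 4 * r ^ 6 * t ^ 5 + i ^ 4 * r ^ 6 * t ^ 6 - (729 / 2) * i ^ 4 * t ^ 2 + 1458 * i ^ 4 * t ^ 3 - 2187 * i ^ 4 * t ^ 4 + 1458 * i ^ 4 * t ^ 5 - (729 / 2) * i ^ 4 * t ^ 6 - (3 / 2) * r + 3646 * r * t + (2437673 / 16) * r * t ^ 2 + (2638655 / 4) * r * t ^ 3 + (4942359 / 8) * r * t ^ 4 - (323369 / 4) * r * t ^ 5 - (686967 / 16) * r * t ^ 6 + (1 / 4) * r ^ 2 + 57 * r ^ 2 * t - (484883 / 8) * r ^ 2 * t ^ 2 - 317138 * r ^ 2 * t ^ 3 - 351894 * r ^ 2 * t ^ 4 + 16603 * r ^ 2 * t ^ 5 + (158705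 / 8) * r ^ 2 * t ^ 6 - 704 * r ^ 3 * t - (98413 / 8) * r ^ 3 * t ^ 2 - (50175 / 2) * r ^ 3 * t ^ 3 + (18057 / 4) * r ^ 3 * t ^ 4 + (24089 / 2) * r ^ 3 * t ^ 5 + (12147 / 8) * r ^ 3 * t ^ 6 + (297 / 2) * r ^ 4 * t + (59905 / 4) * r ^ 4 * t ^ 2 + 69293 * r ^ 4 * t ^ 3 + (135159 / 2) * r ^ 4 * t ^ 4 - (9827 / 2) * r ^ 4 * t ^ 5 - (15935 / 4) * r ^ 4 * t ^ 6 - (59423 / 16) * r ^ 5 * t ^ 2 - (86153 / 4) * r ^ 5 * t ^ 3 - (194805 / 8) * r ^ 5 * t ^ 4 + (119 / 4) * r ^ 5 * t ^ 5 + (19025 / 16) * r ^ 5 * t ^ 6 + (2333 / 8) * r ^ 6 * t ^ 2 + 2171 * r ^ 6 * t ^ 3 + (10851 / 4) * r ^ 6 * t ^ 4 + 125 * r ^ 6 * t ^ 5 - (931 / 8) * r ^ 6 * t ^ 6 - (8559 / 2) * t - (206661 / 2) * t ^ 2 - 408552 * t ^ 3 - (1359087 / 4) * t ^ 4 + (137283 / 2) * t ^ 5 + 27510 * t ^ 6) * hi + (2 + (3 / 2) * i + 162 * i * r * t + 3221 * i * r * t ^ 2 - 41260 * i * r * t ^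 3 - 150030 * i * r * t ^ 4 - 102350 * i * r * t ^ 5 - 1753 * i * r * t ^ 6 - 23 * i * r ^ 2 * t - 308 * i * r ^ 2 * t ^ 2 + 22525 * i * r ^ 2 * t ^ 3 + 97530 * i * r ^ 2 * t ^ 4 + 68202 * i * r ^ 2 * t ^ 5 + 1074 * i * r ^ 2 * t ^ 6 - 334 * i * r ^ 3 * t ^ 2 - 5482 * i * r ^ 3 * t ^ 3 - 27960 * i * r ^ 3 * t ^ 4 - 20150 * i * r ^ 3 * t ^ 5 - 344 * i * r ^ 3 * t ^ 6 + (143 / 2) * i * r ^ 4 * t ^ 2 + 503 * i * r ^ 4 * t ^ 3 + 2985 * i * r ^ 4 * t ^ 4 + 2225 * i * r ^ 4 * t ^ 5 + (95 / 2) * i * r ^ 4 * t ^ 6 - 261 * i * t - 3692 * i * t ^ 2 + 28344 * i * t ^ 3 + (171591 / 2) * i * t ^ 4 + 57517 * i * t ^ 5 + 1207 * i * t ^ 6 + 866 * r * t + (121197 / 4) * r * t ^ 2 + 132709 * r * t ^ 3 + (264963 / 2) * r * t ^ 4 - 22991 * r * t ^ 5 - (45715 / 4) * r * t ^ 6 - 189 * r ^ 2 * t - (30513 / 2) * r ^ 2 * t ^ 2 - 80445 * r ^ 2 * t ^ 3 - 88251 *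 r ^ 2 * t ^ 4 + 7866 * r ^ 2 * t ^ 5 + (14511 / 2) * r ^ 2 * t ^ 6 + (12527 / 4) * r ^ 3 * t ^ 2 + 21599 * r ^ 3 * t ^ 3 + (52245 / 2) * r ^ 3 * t ^ 4 - 455 * r ^ 3 * t ^ 5 - (8057 / 4) * r ^ 3 * t ^ 6 - (401 / 2) * r ^ 4 * t ^ 2 - 2171 * r ^ 4 * t ^ 3 - 2895 * r ^ 4 * t ^ 4 - 125 * r ^ 4 * t ^ 5 + (415 / 2) * r ^ 4 * t ^ 6 - 993 * t - 21485 * t ^ 2 - 81706 * t ^ 3 - 74676 * t ^ 4 + 20291 * t ^ 5 + 6611 * t ^ 6) * hr

theorem iso3_nz (hi : i ^ 2 = -1) (hr : r ^ 2 = 5) :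
    2 * cx i r * (1 + i * r) ≠ 0 ∧ 2 * cx i r * (1 - i * r) ≠ 0 ∧
    -2 * cx i r * (1 + i * r) ≠ 0 ∧ (-7 + 3 * i + 3 * r - i * r) / 2 ≠ 0 ∧
    -2 * cx i r * (1 + i * r) - 2 * cx i r * (1 + i * r) * (-5 + 4 * i + 2 * r - 2 * i * r) ≠ 0 ∧
    (-7 + 3 * i + 3 * r - i * r) / 2 - 2 * cx i r * (1 - i * r) * (6 - 3 * r) ≠ 0 := by
  refine ⟨?_, ?_, ?_, ?_, ?_, ?_⟩
  · have hh : (2 * cx i r * (1 + i * r)) * ((21 / 2) - (9 / 2) * i - (3 / 2) * i * r + (9 / 2) * r) = 9 := by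
      simp only [cx]
      linear_combination (-(9 / 2) - (9 / 2) * i * r + (3 / 4) * i * r ^ 2 + (3 / 4) * i * r ^ 3 + (63 / 4) * r - (3 / 4) * r ^ 2 - 3 * r ^ 3) * hi + (3 - 3 * i + (3 / 2) * i * r + 3 * r) * hr
    intro h
    rw [h, zero_mul] at hh
    norm_num at hh
  · have hh : (2 * cx i r * (1 - i * r)) * (-(9 / 2) + (21 / 2) * i + (9 / 2) * i * r - (3 / 2) * r) = 9 := by
      simp only [cx]
      linear_combination ((21 / 2) - (21 / 2) * i * r + (3 / 4) * i * r ^ 2 + (9 / 4) * i * r ^ 3 + (57 / 4) * r - (15 / 4) * r ^ 2 - 3 * r ^ 3) * hi + (3 + 3 * i - (3 / 2) * i * r + 3 * r) * hr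
    intro h
    rw [h, zero_mul] at hh
    norm_num at hh
  · have hh : (-2 * cx i r * (1 + i * r)) * (-(21 / 2) + (9 / 2) * i + (3 / 2) * i * r - (9 / 2) * r) = 9 := by
      simp only [cx]
      linear_combination (-(9 / 2) - (9 / 2) * i * r + (3 / 4) * i * r ^ 2 + (3 / 4) * i * r ^ 3 + (63 / 4) * r - (3 / 4) * r ^ 2 - 3 * r ^ 3) * hi + (3 - 3 * i + (3 / 2) * i * r + 3 * r) * hr
    intro h
    rw [h, zero_mul] at hh
    norm_num at hh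
  · have hh : ((-7 + 3 * i + 3 * r - i * r) / 2) * (-(9 / 2) - (21 / 2) * i - (9 / 2) * i * r - (3 / 2) * r) = 9 := by
      linear_combination (-(63 / 4) - (3 / 2) * r + (9 / 4) * r ^ 2) * hi + (-(9 / 2) - 6 * i) * hr
    intro h
    rw [h, zero_mul] at hh
    norm_num at hh
  · have hh : (-2 * cx i r * (1 + i * r) - 2 * cx i r * (1 + i * r) * (-5 + 4 * i + 2 * r - 2 * i * r)) * (-960 - 432 * i - 192 * i * r - 432 * r) = 576 := by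
      simp only [cx]
      linear_combination (384 + 1728 * i - 576 * i * r - 528 * i * r ^ 2 + 96 * i * r ^ 3 + 48 * i * r ^ 4 + 1728 * i ^ 2 * r - 960 * i ^ 2 * r ^ 2 - 336 * i ^ 2 * r ^ 3 + 192 * i ^ 2 * r ^ 4 - 7872 * r + 4128 * r ^ 2 + 1584 * r ^ 3 - 864 * r ^ 4) * hi + (-576 + 1536 * i - 1536 * i * r + 384 * i * r ^ 2 - 1152 * r + 864 * r ^ 2) * hr
    intro h
    rw [h, zero_mul] at hh
    norm_num at hh
  · have hh : ((-7 + 3 * i + 3 * r - i * r) / 2 - 2 * cx i r * (1 - i * r) * (6 - 3 * r)) * (-960 - 432 * i - 192 * i * r - 432 * r) = 576 := by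
      simp only [cx]
      linear_combination (1944 - 2592 * i * r + 1440 * i * r ^ 2 + 504 * i * r ^ 3 - 288 * i * r ^ 4 - 4680 * r + 1320 * r ^ 2 + 936 * r ^ 3 - 360 * r ^ 4) * hi + (984 - 648 * i - 1296 * i * r + 936 * i * r ^ 2 - 1584 * r + 360 * r ^ 2) * hr
    intro h
    rw [h, zero_mul] at hh
    norm_num at hh

end Pool.Agent.Lib.MP_d4c4f0_nt
end
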