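import Mathlib
import Pool.Agent.Lib.MP_d4c4f0_nt.ZS.B04b
import Pool.Agent.Lib.MP_d4c4f0_nt.ZS.A06
import Pool.Agent.Lib.MP_d4c4f0_nt.ZS.B11b

section

/-!
# B07: doubling

`IsSol.add` for `mu, mu`: `(1 - b T^4) T2 = 2 T S`, `(1 - bT^4)^2 S2 = (1+bT^4)(S^2 + aT^2) + 4b T^4`, `S^2 = 1 + aT^2 + bT^4`.
With `D T = N`: `q0 = (D^4 - b N^4)^2`, `q1 = 4 N^2 D^2 (D^4 + a N^2 D^2 + b N^4)`,
`q3 = D^8 + 2a D^6 N^2 + 6b D^4 N^4 + 2ab D^2 N^6 + b^2 N^8`. `q0 T2^2 = q1`, `q0 S2 = q3` (multiply by powers of `D`, cancel).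
Coprime: an irreducible `g` dividing both: `g ∣ D^4 - bN^4`, so `g ∤ N`, `g ∤ D` (coprimality, `b ≠ 0`), so
`g ∣ D^4 + aN^2D^2 + bN^4 ≡ 2D^4 + aN^2D^2 = D^2 (2D^2 + aN^2)`, `2D^2 ≡ -aN^2`, `4bN^4 ≡ 4D^4 ≡ a^2N^4`, `(a^2-4b) N^4 ≡ 0`: no.
`deg q0 = 8d` (leading term `b^2 N^8`, `deg D < deg N = d`), `deg q1 ≤ 2d + 2(d-1) + 4d < 8d`.
`om T2` rational: `(1 - bT^4) om T2 = 2 T (om S)`.
-/

set_option autoImplicit false

namespace Pool.Agent.Lib.MP_d4c4f0_nt

open PowerSeries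

variable {K : Type*} [Field K] [CharZero K] {om : K⟦X⟧} {a1 b1 a b mu : K} {d : ℕ}

private theorem b07_coprime {N D : Polynomial K} (hb : b ≠ 0) (hab : a ^ 2 - 4 * b ≠ 0)
    (h : IsCoprime N D) :
    IsCoprime ((D ^ 4 - Polynomial.C b * N ^ 4) ^ 2)
      (4 * N ^ 2 * D ^ 2 * (D ^ 4 + Polynomial.C a * N ^ 2 * D ^ 2 + Polynomial.C b * N ^ 4)) := by
  have ub : IsUnit (Polynomial.C b) := Polynomial.isUnit_C.2 (isUnit_iff_ne_zero.2 hb)
  have uab : IsUnit (Polynomial.C (a ^ 2 - 4 * b)) :=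
    Polynomial.isUnit_C.2 (isUnit_iff_ne_zero.2 hab)
  have u4 : IsUnit (4 : Polynomial K) := by
    rw [← map_ofNat (Polynomial.C (R := K)) 4]
    exact Polynomial.isUnit_C.2 (isUnit_iff_ne_zero.2 (by norm_num))
  have u2 : IsUnit (2 : Polynomial K) := by
    rw [← map_ofNat (Polynomial.C (R := K)) 2]
    exact Polynomial.isUnit_C.2 (isUnit_iff_ne_zero.2 (by norm_num))
  have hN : IsCoprime (D ^ 4 - Polynomial.C b * N ^ 4) N := by
    have h1 : IsCoprime (D ^ 4) N := h.symm.pow_left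
    have h2 := h1.add_mul_left_left (-(Polynomial.C b * N ^ 3))
    have h3 : D ^ 4 + N * -(Polynomial.C b * N ^ 3) = D ^ 4 - Polynomial.C b * N ^ 4 := by ring
    rwa [h3] at h2
  have hD : IsCoprime (D ^ 4 - Polynomial.C b * N ^ 4) D := by
    have h1 : IsCoprime (Polynomial.C b * N ^ 4) D :=
      (isCoprime_mul_unit_left_left ub _ _).2 h.pow_left
    have h2 := h1.neg_left.add_mul_left_left (D ^ 3)
    have h3 : -(Polynomial.C b * N ^ 4) + D * D ^ 3 = D ^ 4 - Polynomial.C b * N ^ 4 := by ring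
    rwa [h3] at h2
  have hE : IsCoprime (D ^ 4 - Polynomial.C b * N ^ 4) (2 * D ^ 2 + Polynomial.C a * N ^ 2) := by
    have h1 : IsCoprime N (2 * D ^ 2) :=
      (isCoprime_mul_unit_left_right u2 _ _).2 h.pow_right
    have h2 : IsCoprime N (2 * D ^ 2 + N * (Polynomial.C a * N)) := h1.add_mul_left_right _
    have h3 : 2 * D ^ 2 + N * (Polynomial.C a * N) = 2 * D ^ 2 + Polynomial.C a * N ^ 2 := by ring
    rw [h3] at h2
    have h4 : IsCoprime (Polynomial.C (a ^ 2 - 4 * b) * N ^ 4)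
        (2 * D ^ 2 + Polynomial.C a * N ^ 2) :=
      (isCoprime_mul_unit_left_left uab _ _).2 h2.pow_left
    have h5 := h4.add_mul_left_left (2 * D ^ 2 - Polynomial.C a * N ^ 2)
    have h6 : Polynomial.C (a ^ 2 - 4 * b) * N ^ 4 +
        (2 * D ^ 2 + Polynomial.C a * N ^ 2) * (2 * D ^ 2 - Polynomial.C a * N ^ 2) =
        4 * (D ^ 4 - Polynomial.C b * N ^ 4) := by
      simp only [map_sub, map_mul, map_pow, map_ofNat]
      ring
    rw [h6] at h5
    exact (isCoprime_mul_unit_left_left u4 _ _).1 h5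
  have hF : IsCoprime (D ^ 4 - Polynomial.C b * N ^ 4)
      (D ^ 4 + Polynomial.C a * N ^ 2 * D ^ 2 + Polynomial.C b * N ^ 4) := by
    have h1 : IsCoprime (D ^ 4 - Polynomial.C b * N ^ 4)
        (D ^ 2 * (2 * D ^ 2 + Polynomial.C a * N ^ 2)) := hD.pow_right.mul_right hE
    have h2 := h1.add_mul_left_right (-1)
    have h3 : D ^ 2 * (2 * D ^ 2 + Polynomial.C a * N ^ 2) +
        (D ^ 4 - Polynomial.C b * N ^ 4) * (-1) =
        D ^ 4 + Polynomial.C a * N ^ 2 * D ^ 2 + Polynomial.C b * N ^ 4 := by ring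
    rwa [h3] at h2
  refine IsCoprime.pow_left (IsCoprime.mul_right ?_ hF)
  have h4 : (4 : Polynomial K) * N ^ 2 * D ^ 2 = 4 * (N ^ 2 * D ^ 2) := by ring
  rw [h4]
  exact (isCoprime_mul_unit_left_right u4 _ _).2 (hN.pow_right.mul_right hD.pow_right)

theorem OddDeg.double (hb : b ≠ 0) (hab : a ^ 2 - 4 * b ≠ 0)
    (h : OddDeg om a b mu d) : EvenDeg om a b (2 * mu) (4 * d) := by
  obtain ⟨T, S, N, D, hs, hr, hc, e, hN, hD⟩ := h
  have hd : 0 < d := by omega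
  have hN0 : N ≠ 0 := by
    rintro rfl
    simp at hN
    omega
  have hD0 : D ≠ 0 := by
    rintro rfl
    rw [Polynomial.coe_zero, zero_mul] at e
    exact hN0 (Polynomial.coe_eq_zero_iff.1 e.symm)
  obtain ⟨T2, S2, hs2, eT, eS⟩ := hs.add hs
  rw [← two_mul] at hs2
  have hsq := hs.sq
  have rT : IsRat T := ⟨D, N, hD0, e⟩
  refine ⟨T2, S2, (D ^ 4 - Polynomial.C b * N ^ 4) ^ 2,
    4 * N ^ 2 * D ^ 2 * (D ^ 4 + Polynomial.C a * N ^ 2 * D ^ 2 + Polynomial.C b * N ^ 4),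
    D ^ 8 + 2 * Polynomial.C a * D ^ 6 * N ^ 2 + 6 * Polynomial.C b * D ^ 4 * N ^ 4 +
      2 * Polynomial.C a * Polynomial.C b * D ^ 2 * N ^ 6 + Polynomial.C b ^ 2 * N ^ 8,
    hs2, ?_, b07_coprime hb hab hc, ?_, ?_, ?_, ?_⟩
  · -- rationality
    have hu : IsRat (1 - C b * T ^ 2 * T ^ 2) := by
      have h1 : IsRat (C b * T ^ 2 * T ^ 2) := by
        have h2 : IsRat (C b : K⟦X⟧) := by
          have := IsRat.coe (Polynomial.C b)
          rwa [Polynomial.coe_C] at this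
        have h3 : IsRat (T ^ 2) := by
          rw [pow_two]
          exact rT.mul rT
        exact (h2.mul h3).mul h3
      have h4 : IsRat (1 : K⟦X⟧) := by
        have := IsRat.coe (1 : Polynomial K)
        rwa [Polynomial.coe_one] at this
      rw [sub_eq_add_neg]
      exact h4.add h1.neg
    have hu0 : (1 - C b * T ^ 2 * T ^ 2 : K⟦X⟧) ≠ 0 := by
      intro h0
      have := congrArg (constantCoeff (R := K)) h0
      simp [hs.T0] at this
    refine IsRat.of_mul hu hu0 ?_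
    have h5 : (1 - C b * T ^ 2 * T ^ 2) * (om * T2) = T * (om * S) + T * (om * S) := by
      linear_combination om * eT
    rw [h5]
    exact (rT.mul hr).add (rT.mul hr)
  · -- T2^2
    push_cast
    have h4 : ((4 : Polynomial K) : K⟦X⟧) = 4 := by
      rw [← map_ofNat (Polynomial.C (R := K)) 4, Polynomial.coe_C, map_ofNat]
    rw [h4]
    have h8 : ((D : K⟦X⟧) ^ 4 - C b * (N : K⟦X⟧) ^ 4) =
        (D : K⟦X⟧) ^ 4 * (1 - C b * T ^ 2 * T ^ 2) := by
      rw [← e]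
      ring
    rw [h8]
    have h9 : ((D : K⟦X⟧) ^ 4 * (1 - C b * T ^ 2 * T ^ 2)) ^ 2 * T2 ^ 2 =
        (D : K⟦X⟧) ^ 8 * ((1 - C b * T ^ 2 * T ^ 2) * T2) ^ 2 := by ring
    rw [h9, eT, ← e]
    linear_combination (4 * (D : K⟦X⟧) ^ 8 * T ^ 2) * hsq
  · -- S2
    push_cast
    have h2 : ((2 : Polynomial K) : K⟦X⟧) = 2 := by
      rw [← map_ofNat (Polynomial.C (R := K)) 2, Polynomial.coe_C, map_ofNat]
    have h6 : ((6 : Polynomial K) : K⟦X⟧) = 6 := by
      rw [← map_ofNat (Polynomial.C (R := K)) 6, Polynomial.coe_C, map_ofNat]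
    rw [h2, h6]
    have h8 : ((D : K⟦X⟧) ^ 4 - C b * (N : K⟦X⟧) ^ 4) =
        (D : K⟦X⟧) ^ 4 * (1 - C b * T ^ 2 * T ^ 2) := by
      rw [← e]
      ring
    rw [h8]
    have h9 : ((D : K⟦X⟧) ^ 4 * (1 - C b * T ^ 2 * T ^ 2)) ^ 2 * S2 =
        (D : K⟦X⟧) ^ 8 * ((1 - C b * T ^ 2 * T ^ 2) ^ 2 * S2) := by ring
    rw [h9, eS, ← e]
    linear_combination ((D : K⟦X⟧) ^ 8 * (1 + C b * T ^ 4)) * hsq
  · -- degree of q0
    rw [Polynomial.natDegree_pow, Polynomial.natDegree_sub_eq_right_of_natDegree_lt]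
    · rw [Polynomial.natDegree_C_mul hb, Polynomial.natDegree_pow, hN]
    · rw [Polynomial.natDegree_C_mul hb, Polynomial.natDegree_pow, Polynomial.natDegree_pow, hN]
      omega
  · -- degree of q1
    have h4 : (4 : Polynomial K).natDegree ≤ 0 := by
      rw [← map_ofNat (Polynomial.C (R := K)) 4]
      simp
    have hN2 : (N ^ 2).natDegree ≤ 2 * d := by
      rw [Polynomial.natDegree_pow, hN]
    have hN4 : (N ^ 4).natDegree ≤ 4 * d := by
      rw [Polynomial.natDegree_pow, hN]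
    have hD2 : (D ^ 2).natDegree ≤ 2 * (d - 1) := by
      rw [Polynomial.natDegree_pow]
      omega
    have hD4 : (D ^ 4).natDegree ≤ 4 * (d - 1) := by
      rw [Polynomial.natDegree_pow]
      omega
    have h1 : (Polynomial.C a * N ^ 2 * D ^ 2).natDegree ≤ 0 + 2 * d + 2 * (d - 1) :=
      Polynomial.natDegree_mul_le_of_le (Polynomial.natDegree_mul_le_of_le (by simp) hN2) hD2
    have h2 : (Polynomial.C b * N ^ 4).natDegree ≤ 0 + 4 * d :=
      Polynomial.natDegree_mul_le_of_le (by simp) hN4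
    have h3 : (D ^ 4 + Polynomial.C a * N ^ 2 * D ^ 2 + Polynomial.C b * N ^ 4).natDegree ≤
        4 * d := by
      refine (Polynomial.natDegree_add_le_of_le
        (Polynomial.natDegree_add_le_of_le hD4 h1) h2).trans ?_
      simp only [max_le_iff]
      omega
    refine lt_of_le_of_lt (Polynomial.natDegree_mul_le_of_le
      (Polynomial.natDegree_mul_le_of_le (Polynomial.natDegree_mul_le_of_le h4 hN2) hD2) h3) ?_
    omega

end Pool.Agent.Lib.MP_d4c4f0_nt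
end

section

section

/-!
# B05a: the parallelogram law, comparison of two coprime triples

Put `P0 = q0 D^2 - b q1 N^2`, `P1 = 2 N D q3`, `P2 = q0 N^2 - q1 D^2`, `M0 = D1 D2`, `M1 = N1 D2 + N2 D1`, `M2 = N1 N2`.
`e1`: `M2 P0 = M0 P2`, `e2`: `M1 P0 = M0 P1`.
(1) No irreducible `g` divides `P0, P1, P2`: if `g ∣ N`, then `g ∤ D`, `g ∣ q0 D^2` so `g ∣ q0`, then `g ∣ q1 D^2`, `g ∣ q1`,
contradiction; the same if `g ∣ D` (`g ∣ q1 N^2` as `b ≠ 0`, then `g ∣ q1`, then `g ∣ q0 N^2`). Otherwise `g ∣ q3` (`2 ≠ 0`), and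
`q0 D^2 ≡ b q1 N^2`, `q0 N^2 ≡ q1 D^2`, so `q0^2 ≡ b q1^2` (mod g), and `0 ≡ q3^2 ≡ 2 q0^2 + a q1 q0 = q0 (2 q0 + a q1)`; `g ∤ q0`
(else `g ∣ q1`), so `2 q0 ≡ -a q1`, `4 b q1^2 ≡ 4 q0^2 ≡ a^2 q1^2`, `(a^2-4b) q1^2 ≡ 0`, `g ∣ q1`, `g ∣ q0`, contradiction.
(2) No irreducible `g` divides `M0, M1, M2`: `g ∣ D1` (or `D2`, symmetric): `g ∤ N1`; `g ∣ N1 D2` so `g ∣ D2`, then `g ∤ N2`, but
`g ∣ N1 N2`.
(3) Hence `P0 ~ M0`: `M0 ∣ M1 P0, M2 P0, M0 P0` so `M0 ∣ P0`; `P0 ∣ M0 P1, M0 P2, M0 P0` so `P0 ∣ M0` (`M0 ≠ 0`, so `P0 ≠ 0`).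
So `P0 = u M0` with a nonzero constant `u`, then `P2 = u M2`, `P1 = u M1`.
(For the divisibility steps in (3): if no irreducible divides all of `P0, P1, P2`, then the ideal `(P0, P1, P2)` is the unit
ideal, i.e. there are `x, y, z` with `x P0 + y P1 + z P2 = 1`; multiply by `M0`: `M0 = x M0 P0 + y M0 P1 + z M0 P2` and
`M0 P1 = M1 P0`, `M0 P2 = M2 P0`, so `P0 ∣ M0`. Similarly for `M`.)
-/

set_option autoImplicit false

open Polynomial

namespace Pool.Agent.Lib.MP_d4c4f0_nt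

private theorem three_bezout {K : Type*} [Field K] {P0 P1 P2 : K[X]}
    (h : ∀ g : K[X], Irreducible g → g ∣ P0 → g ∣ P1 → g ∣ P2 → False) :
    ∃ x y z : K[X], x * P0 + y * P1 + z * P2 = 1 := by
  classical
  set g1 := EuclideanDomain.gcd P1 P2 with hg1
  set g := EuclideanDomain.gcd P0 g1 with hg
  have d0 : g ∣ P0 := EuclideanDomain.gcd_dvd_left _ _
  have d1 : g ∣ g1 := EuclideanDomain.gcd_dvd_right _ _
  have d2 : g ∣ P1 := d1.trans (EuclideanDomain.gcd_dvd_left _ _)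
  have d3 : g ∣ P2 := d1.trans (EuclideanDomain.gcd_dvd_right _ _)
  have hu : IsUnit g := by
    by_contra hn
    by_cases h0 : g = 0
    · rw [h0, zero_dvd_iff] at d0 d2 d3
      exact h X irreducible_X (by rw [d0]; exact dvd_zero _) (by rw [d2]; exact dvd_zero _)
        (by rw [d3]; exact dvd_zero _)
    · obtain ⟨q, hq, hqg⟩ := WfDvdMonoid.exists_irreducible_factor hn h0
      exact h q hq (hqg.trans d0) (hqg.trans d2) (hqg.trans d3)
  obtain ⟨v, hv⟩ := hu.exists_left_inv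
  have e1 := EuclideanDomain.gcd_eq_gcd_ab P0 g1
  have e2 := EuclideanDomain.gcd_eq_gcd_ab P1 P2
  rw [← hg] at e1
  rw [← hg1] at e2
  refine ⟨v * EuclideanDomain.gcdA P0 g1,
    v * (EuclideanDomain.gcdB P0 g1 * EuclideanDomain.gcdA P1 P2),
    v * (EuclideanDomain.gcdB P0 g1 * EuclideanDomain.gcdB P1 P2), ?_⟩
  have e3 : v * EuclideanDomain.gcdA P0 g1 * P0 +
      v * (EuclideanDomain.gcdB P0 g1 * EuclideanDomain.gcdA P1 P2) * P1 +
      v * (EuclideanDomain.gcdB P0 g1 * EuclideanDomain.gcdB P1 P2) * P2 =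
      v * (P0 * EuclideanDomain.gcdA P0 g1 + (P1 * EuclideanDomain.gcdA P1 P2 +
        P2 * EuclideanDomain.gcdB P1 P2) * EuclideanDomain.gcdB P0 g1) := by ring
  rw [e3, ← e2, ← e1, hv]

private theorem cop_false {K : Type*} [Field K] {P Q g : K[X]} (h : IsCoprime P Q)
    (hg : Irreducible g) (h1 : g ∣ P) (h2 : g ∣ Q) : False :=
  hg.not_isUnit (h.isUnit_of_dvd' h1 h2)

theorem par_assoc {K : Type*} [Field K] {a b : K} (hb : b ≠ 0) (hab : a ^ 2 - 4 * b ≠ 0)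
    (h2 : (2 : K) ≠ 0) {N D q0 q1 q3 N1 D1 N2 D2 : K[X]} (hND : IsCoprime N D)
    (hq : IsCoprime q0 q1) (hq3 : q3 ^ 2 = q0 ^ 2 + C a * q1 * q0 + C b * q1 ^ 2)
    (h1 : IsCoprime N1 D1) (h1' : IsCoprime N2 D2) (hD1 : D1 ≠ 0) (hD2 : D2 ≠ 0)
    (e1 : N1 * N2 * (q0 * D ^ 2 - C b * q1 * N ^ 2) = D1 * D2 * (q0 * N ^ 2 - q1 * D ^ 2))
    (e2 : (N1 * D2 + N2 * D1) * (q0 * D ^ 2 - C b * q1 * N ^ 2) =
      D1 * D2 * (2 * N * D * q3)) :
    ∃ u : K, u ≠ 0 ∧ q0 * D ^ 2 - C b * q1 * N ^ 2 = C u * (D1 * D2) ∧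
      q0 * N ^ 2 - q1 * D ^ 2 = C u * (N1 * N2) ∧ 2 * N * D * q3 = C u * (N1 * D2 + N2 * D1) := by
  have hCb : IsUnit (C b : K[X]) := isUnit_C.2 (isUnit_iff_ne_zero.2 hb)
  have hCab : IsUnit (C (a ^ 2 - 4 * b) : K[X]) := isUnit_C.2 (isUnit_iff_ne_zero.2 hab)
  have hC2 : IsUnit (2 : K[X]) := by
    have : IsUnit (C (2 : K) : K[X]) := isUnit_C.2 (isUnit_iff_ne_zero.2 h2)
    rwa [map_ofNat] at this
  have hP : ∀ g : K[X], Irreducible g → g ∣ (q0 * D ^ 2 - C b * q1 * N ^ 2) →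
      g ∣ (2 * N * D * q3) → g ∣ (q0 * N ^ 2 - q1 * D ^ 2) → False := by
    intro g hg g0 g1 g2
    have hgp : Prime g := hg.prime
    by_cases hN : g ∣ N
    · have hD : ¬ g ∣ D := fun hD => cop_false hND hg hN hD
      have h3 : g ∣ q0 * D ^ 2 := by
        have := dvd_add g0 (Dvd.dvd.mul_left (dvd_pow hN two_ne_zero) (C b * q1))
        rwa [sub_add_cancel] at this
      have h4 : g ∣ q0 := (hgp.dvd_or_dvd h3).resolve_right fun h => hD (hgp.dvd_of_dvd_pow h)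
      have h5 : g ∣ q1 * D ^ 2 := by
        have := dvd_sub (Dvd.dvd.mul_right h4 (N ^ 2)) g2
        rwa [sub_sub_cancel] at this
      have h6 : g ∣ q1 := (hgp.dvd_or_dvd h5).resolve_right fun h => hD (hgp.dvd_of_dvd_pow h)
      exact cop_false hq hg h4 h6
    by_cases hD : g ∣ D
    · have h3 : g ∣ C b * q1 * N ^ 2 := by
        have := dvd_sub (Dvd.dvd.mul_left (dvd_pow hD two_ne_zero) q0) g0
        rwa [sub_sub_cancel] at this
      have h4 : g ∣ q1 := by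
        have h5 : g ∣ C b * q1 := (hgp.dvd_or_dvd h3).resolve_right fun h =>
          hN (hgp.dvd_of_dvd_pow h)
        exact (hCb.dvd_mul_left).1 h5
      have h5 : g ∣ q0 * N ^ 2 := by
        have := dvd_add g2 (Dvd.dvd.mul_left (dvd_pow hD two_ne_zero) q1)
        rwa [sub_add_cancel] at this
      have h6 : g ∣ q0 := (hgp.dvd_or_dvd h5).resolve_right fun h => hN (hgp.dvd_of_dvd_pow h)
      exact cop_false hq hg h6 h4
    have h3 : g ∣ q3 := by
      rcases hgp.dvd_or_dvd g1 with h | h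
      · rcases hgp.dvd_or_dvd h with h | h
        · exact absurd ((hC2.dvd_mul_left).1 h) hN
        · exact absurd h hD
      · exact h
    have h4 : g ∣ q0 ^ 2 - C b * q1 ^ 2 := by
      have h5 : g ∣ D ^ 2 * (q0 ^ 2 - C b * q1 ^ 2) := by
        have h6 : D ^ 2 * (q0 ^ 2 - C b * q1 ^ 2) = q0 * (q0 * D ^ 2 - C b * q1 * N ^ 2) +
            C b * q1 * (q0 * N ^ 2 - q1 * D ^ 2) := by ring
        rw [h6]
        exact dvd_add (Dvd.dvd.mul_left g0 _) (Dvd.dvd.mul_left g2 _)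
      exact (hgp.dvd_or_dvd h5).resolve_left fun h => hD (hgp.dvd_of_dvd_pow h)
    have h5 : g ∣ q0 ^ 2 + C a * q1 * q0 + C b * q1 ^ 2 := by
      rw [← hq3]
      exact dvd_pow h3 two_ne_zero
    have hq1 : ¬ g ∣ q1 := by
      intro h6
      have h7 : g ∣ q0 ^ 2 := by
        have := dvd_add h4 (Dvd.dvd.mul_left (dvd_pow h6 two_ne_zero) (C b))
        rwa [sub_add_cancel] at this
      exact cop_false hq hg (hgp.dvd_of_dvd_pow h7) h6
    have hq0 : ¬ g ∣ q0 := by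
      intro h6
      have h7 : g ∣ C b * q1 ^ 2 := by
        have := dvd_sub (dvd_pow h6 two_ne_zero) h4
        rwa [sub_sub_cancel] at this
      exact hq1 (hgp.dvd_of_dvd_pow ((hCb.dvd_mul_left).1 h7))
    have h6 : g ∣ q0 * (2 * q0 + C a * q1) := by
      have h7 : q0 * (2 * q0 + C a * q1) = (q0 ^ 2 - C b * q1 ^ 2) +
          (q0 ^ 2 + C a * q1 * q0 + C b * q1 ^ 2) := by ring
      rw [h7]
      exact dvd_add h4 h5
    have h7 : g ∣ 2 * q0 + C a * q1 := (hgp.dvd_or_dvd h6).resolve_left hq0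
    have h8 : g ∣ C (a ^ 2 - 4 * b) * q1 ^ 2 := by
      have h9 : C (a ^ 2 - 4 * b) * q1 ^ 2 = (C a * q1 - 2 * q0) * (2 * q0 + C a * q1) +
          4 * (q0 ^ 2 - C b * q1 ^ 2) := by
        rw [map_sub, map_mul, map_pow, map_ofNat]
        ring
      rw [h9]
      exact dvd_add (Dvd.dvd.mul_left h7 _) (Dvd.dvd.mul_left h4 _)
    exact hq1 (hgp.dvd_of_dvd_pow ((hCab.dvd_mul_left).1 h8))
  have hM : ∀ g : K[X], Irreducible g → g ∣ D1 * D2 → g ∣ N1 * D2 + N2 * D1 →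
      g ∣ N1 * N2 → False := by
    intro g hg g0 g1 g2
    have hgp : Prime g := hg.prime
    rcases hgp.dvd_or_dvd g0 with h | h
    · have hN1 : ¬ g ∣ N1 := fun h' => cop_false h1 hg h' h
      have h3 : g ∣ N1 * D2 := by
        have := dvd_sub g1 (Dvd.dvd.mul_left h N2)
        rwa [add_sub_cancel_right] at this
      have h4 : g ∣ D2 := (hgp.dvd_or_dvd h3).resolve_left hN1
      have h5 : g ∣ N2 := (hgp.dvd_or_dvd g2).resolve_left hN1
      exact cop_false h1' hg h5 h4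
    · have hN2 : ¬ g ∣ N2 := fun h' => cop_false h1' hg h' h
      have h3 : g ∣ N2 * D1 := by
        have := dvd_sub g1 (Dvd.dvd.mul_left h N1)
        rwa [add_sub_cancel_left] at this
      have h4 : g ∣ D1 := (hgp.dvd_or_dvd h3).resolve_left hN2
      have h5 : g ∣ N1 := (hgp.dvd_or_dvd g2).resolve_right hN2
      exact cop_false h1 hg h5 h4
  obtain ⟨x, y, z, hxyz⟩ := three_bezout hP
  obtain ⟨x', y', z', hxyz'⟩ := three_bezout hM
  set P0 := q0 * D ^ 2 - C b * q1 * N ^ 2 with hP0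
  set P1 := 2 * N * D * q3 with hP1
  set P2 := q0 * N ^ 2 - q1 * D ^ 2 with hP2
  have hM0 : D1 * D2 ≠ 0 := mul_ne_zero hD1 hD2
  have e3 : D1 * D2 = P0 * (x * (D1 * D2) + y * (N1 * D2 + N2 * D1) + z * (N1 * N2)) := by
    linear_combination (-(D1 * D2)) * hxyz - y * e2 - z * e1
  have e4 : P0 = D1 * D2 * (x' * P0 + y' * P1 + z' * P2) := by
    linear_combination (-P0) * hxyz' + y' * e2 + z' * e1
  set v := x * (D1 * D2) + y * (N1 * D2 + N2 * D1) + z * (N1 * N2) with hv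
  set v' := x' * P0 + y' * P1 + z' * P2 with hv'
  have hvv : v' * v = 1 := by
    have : D1 * D2 * (v' * v) = D1 * D2 * 1 := by
      linear_combination (-v) * e4 - e3
    exact mul_left_cancel₀ hM0 this
  have hu : IsUnit v' := IsUnit.of_mul_eq_one _ hvv
  obtain ⟨u, hu1, hu2⟩ := Polynomial.isUnit_iff.1 hu
  refine ⟨u, hu1.ne_zero, ?_, ?_, ?_⟩
  · rw [hu2, mul_comm]
    exact e4
  · refine mul_left_cancel₀ hM0 ?_
    rw [hu2]
    linear_combination (-1 : K[X]) * e1 + N1 * N2 * e4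
  · refine mul_left_cancel₀ hM0 ?_
    rw [hu2]
    linear_combination (-1 : K[X]) * e2 + (N1 * D2 + N2 * D1) * e4

end Pool.Agent.Lib.MP_d4c4f0_nt
end

section

/-!
# B05: the parallelogram law for degrees (polynomial part)

Notation of B05a, `par_assoc` gives a constant `u ≠ 0` with `P0 = u M0`, `P2 = u M2`, `P1 = u M1`, where
`P0 = q0 D^2 - b q1 N^2`, `P1 = 2 N D q3`, `P2 = q0 N^2 - q1 D^2`, `M0 = D1 D2`, `M1 = N1 D2 + N2 D1`, `M2 = N1 N2`.
(4) Degrees, `n = deg N > deg D`, `2e = deg q0 > deg q1`: `deg P2 = 2e + 2n`, `deg P0 < 2e+2n`, and `deg q3 ≤ 2e` (from `hq3`), so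
`deg P1 < 2e + 2n`. So `deg N1 + deg N2 = deg M2 = 2n + 2e`, `deg (D1 D2) < deg N1 + deg N2`, `deg M1 < deg N1 + deg N2`.
If `deg D1 ≥ deg N1`, then `deg D2 < deg N2`, so `deg (N1 D2) < deg N1 + deg N2 ≤ deg (N2 D1)`, so
`deg M1 = deg (N2 D1) ≥ deg N1 + deg N2`, contradiction; so `deg D1 < deg N1`, symmetrically `deg D2 < deg N2`.
-/

set_option autoImplicit false

open Polynomial

namespace Pool.Agent.Lib.MP_d4c4f0_nt

theorem par_poly {K : Type*} [Field K] {a b : K} (hb : b ≠ 0) (hab : a ^ 2 - 4 * b ≠ 0)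
    (h2 : (2 : K) ≠ 0) {N D q0 q1 q3 N1 D1 N2 D2 : K[X]} (hND : IsCoprime N D)
    (hq : IsCoprime q0 q1) (hq3 : q3 ^ 2 = q0 ^ 2 + C a * q1 * q0 + C b * q1 ^ 2)
    (h1 : IsCoprime N1 D1) (h1' : IsCoprime N2 D2) (hD1 : D1 ≠ 0) (hD2 : D2 ≠ 0)
    (hdeg : D.natDegree < N.natDegree) (hqdeg : q1.natDegree < q0.natDegree)
    (e1 : N1 * N2 * (q0 * D ^ 2 - C b * q1 * N ^ 2) = D1 * D2 * (q0 * N ^ 2 - q1 * D ^ 2))
    (e2 : (N1 * D2 + N2 * D1) * (q0 * D ^ 2 - C b * q1 * N ^ 2) =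
      D1 * D2 * (2 * N * D * q3)) :
    N1.natDegree + N2.natDegree = 2 * N.natDegree + q0.natDegree ∧
      D1.natDegree < N1.natDegree ∧ D2.natDegree < N2.natDegree := by
  obtain ⟨u, hu, f0, f2, f1⟩ := par_assoc hb hab h2 hND hq hq3 h1 h1' hD1 hD2 e1 e2
  have hN : N ≠ 0 := by
    rintro rfl
    simp at hdeg
  have hq0 : q0 ≠ 0 := by
    rintro rfl
    simp at hqdeg
  have hCu : (C u : K[X]) ≠ 0 := C_ne_zero.2 hu
  -- degree of `q3`
  have g3 : q3.natDegree ≤ q0.natDegree := by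
    have k1 : (q3 ^ 2).natDegree ≤ 2 * q0.natDegree := by
      rw [hq3]
      refine natDegree_add_le_of_degree_le (natDegree_add_le_of_degree_le ?_ ?_) ?_
      · rw [natDegree_pow]
      · refine natDegree_mul_le.trans ?_
        have := natDegree_C_mul_le a q1
        omega
      · refine (natDegree_C_mul_le b _).trans ?_
        rw [natDegree_pow]
        omega
    rw [natDegree_pow] at k1
    omega
  -- degree of `P2`
  have g2 : (q0 * N ^ 2 - q1 * D ^ 2).natDegree = q0.natDegree + 2 * N.natDegree := by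
    have k1 : (q0 * N ^ 2).natDegree = q0.natDegree + 2 * N.natDegree := by
      rw [natDegree_mul hq0 (pow_ne_zero 2 hN), natDegree_pow]
    have k2 : (q1 * D ^ 2).natDegree < (q0 * N ^ 2).natDegree := by
      rw [k1]
      refine lt_of_le_of_lt natDegree_mul_le ?_
      rw [natDegree_pow]
      omega
    rw [natDegree_sub_eq_left_of_natDegree_lt k2, k1]
  -- degree of `P0`
  have g0 : (q0 * D ^ 2 - C b * q1 * N ^ 2).natDegree < q0.natDegree + 2 * N.natDegree := by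
    refine lt_of_le_of_lt (natDegree_sub_le _ _) (max_lt ?_ ?_)
    · refine lt_of_le_of_lt natDegree_mul_le ?_
      rw [natDegree_pow]
      omega
    · refine lt_of_le_of_lt natDegree_mul_le ?_
      have := natDegree_C_mul_le b q1
      rw [natDegree_pow]
      omega
  -- degree of `P1`
  have g1 : (2 * N * D * q3).natDegree < q0.natDegree + 2 * N.natDegree := by
    have k0 : (2 * N * D * q3).natDegree ≤ N.natDegree + D.natDegree + q3.natDegree := by
      have e : 2 * N * D * q3 = C (2 : K) * (N * D * q3) := by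
        rw [map_ofNat]
        ring
      rw [e]
      refine (natDegree_C_mul_le _ _).trans (natDegree_mul_le.trans ?_)
      have := natDegree_mul_le (p := N) (q := D)
      omega
    omega
  have hN12 : N1 * N2 ≠ 0 := by
    intro h0
    rw [f2, h0, mul_zero, natDegree_zero] at g2
    omega
  have hN1 : N1 ≠ 0 := left_ne_zero_of_mul hN12
  have hN2 : N2 ≠ 0 := right_ne_zero_of_mul hN12
  rw [f2, natDegree_C_mul hu, natDegree_mul hN1 hN2] at g2
  rw [f0, natDegree_C_mul hu, natDegree_mul hD1 hD2] at g0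
  rw [f1, natDegree_C_mul hu] at g1
  refine ⟨by omega, ?_, ?_⟩
  · by_contra hn
    push Not at hn
    have k1 : (N1 * D2).natDegree < (N2 * D1).natDegree := by
      rw [natDegree_mul hN1 hD2, natDegree_mul hN2 hD1]
      omega
    rw [natDegree_add_eq_right_of_natDegree_lt k1, natDegree_mul hN2 hD1] at g1
    omega
  · by_contra hn
    push Not at hn
    have k1 : (N2 * D1).natDegree < (N1 * D2).natDegree := by
      rw [natDegree_mul hN1 hD2, natDegree_mul hN2 hD1]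
      omega
    rw [natDegree_add_eq_left_of_natDegree_lt k1, natDegree_mul hN1 hD2] at g1
    omega

end Pool.Agent.Lib.MP_d4c4f0_nt
end

section

/-!
# B06b: uniqueness of the degree, negation

`OddDeg.unique` by `IsSol.uniq` and `rep_unique`; `neg` by `IsSol.neg` (`N` replaced by `-N`; for `EvenDeg` the series
`T^2` and the polynomials do not change).
-/

set_option autoImplicit false

namespace Pool.Agent.Lib.MP_d4c4f0_nt

open PowerSeries

variable {K : Type*} [Field K] [CharZero K] {om : K⟦X⟧} {a b mu : K} {d d' : ℕ}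

theorem OddDeg.unique (h : OddDeg om a b mu d) (h' : OddDeg om a b mu d') : d = d' := by
  obtain ⟨T, S, N, D, hs, -, hc, e, hN, -⟩ := h
  obtain ⟨T', S', N', D', hs', -, hc', e', hN', -⟩ := h'
  obtain ⟨rfl, -⟩ := hs.uniq hs'
  rw [← hN, ← hN']
  exact (rep_unique hc hc' e e').1

theorem OddDeg.neg (h : OddDeg om a b mu d) : OddDeg om a b (-mu) d := by
  obtain ⟨T, S, N, D, hs, hr, hc, e, hN, hD⟩ := h
  refine ⟨-T, S, -N, D, hs.neg, hr, hc.neg_left, ?_, ?_, hD⟩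
  · rw [mul_neg, e, Polynomial.coe_neg]
  · rw [Polynomial.natDegree_neg, hN]

theorem EvenDeg.neg (h : EvenDeg om a b mu d) : EvenDeg om a b (-mu) d := by
  obtain ⟨T, S, q0, q1, q3, hs, hr, hc, e, e', h0, h1⟩ := h
  refine ⟨-T, S, q0, q1, q3, hs.neg, ?_, hc, ?_, e', h0, h1⟩
  · rw [mul_neg]
    exact hr.neg
  · rw [neg_pow_two, e]

end Pool.Agent.Lib.MP_d4c4f0_nt
end

section

/-!
# B06: the parallelogram law

Data of `OddDeg`: `T, S, N, D`; of `EvenDeg`: `T', S', q0, q1, q3`. `IsSol.add` for `mu, nu` gives `T1`, and for `mu, -nu`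
(`IsSol.neg`) gives `T2` (with the same `Δ = 1 - b T^2 T'^2`): `Δ T1 = T S' + T' S`, `Δ T2 = T S' - T' S`. So
`Δ (T1 + T2) = 2 T S'` and `Δ^2 T1 T2 = T^2 S'^2 - T'^2 S^2 = (T^2 - T'^2) Δ` (by `IsSol.sq` twice), `Δ T1 T2 = T^2 - T'^2`.
`T1, T2` and `om S1, om S2` are rational by `rat_add`; take coprime representations `Di Ti = Ni` (`exists_rep`). Multiply by
`D^2 q0` and `D1 D2` to get `e1`, `e2` of `par_poly` (identities in `K⟦X⟧`, transferred by `Polynomial.coe_injective`);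
`hq3` from `IsSol.sq` for `T', S'` multiplied by `q0^2`.
-/

set_option autoImplicit false

namespace Pool.Agent.Lib.MP_d4c4f0_nt

open PowerSeries

variable {K : Type*} [Field K] [CharZero K] {om : K⟦X⟧} {a1 b1 a b mu nu : K} {d d' e : ℕ}

theorem par (ho : Om a1 b1 om) (hb : b ≠ 0) (hab : a ^ 2 - 4 * b ≠ 0)
    (h1 : OddDeg om a b mu d) (h2 : EvenDeg om a b nu e) :
    ∃ d1 d2 : ℕ, OddDeg om a b (mu + nu) d1 ∧ OddDeg om a b (mu - nu) d2 ∧
      d1 + d2 = 2 * d + 2 * e := by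
  obtain ⟨T, S, N, D, hTS, hrS, hND, hDT, hNd, hDd⟩ := h1
  obtain ⟨T', S', q0, q1, q3, hTS', hrT', hq, hq1, hqS, hq0d, hq1d⟩ := h2
  have hD0 : D ≠ 0 := by
    rintro rfl
    have h3 : (N : K⟦X⟧) = ((0 : Polynomial K) : K⟦X⟧) := by
      rw [← hDT, Polynomial.coe_zero, zero_mul]
    have h4 : N = 0 := Polynomial.coe_injective K h3
    rw [h4, Polynomial.natDegree_zero] at hNd
    omega
  have hq00 : q0 ≠ 0 := by
    rintro rfl
    rw [Polynomial.natDegree_zero] at hq0d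
    omega
  have rT : IsRat T := ⟨D, N, hD0, hDT⟩
  have rS' : IsRat S' := ⟨q0, q3, hq00, hqS⟩
  have rT'n : IsRat (om * -T') := by
    rw [mul_neg]
    exact hrT'.neg
  obtain ⟨T1, S1, hs1, eT1, eS1⟩ := IsSol.add hTS hTS'
  obtain ⟨T2, S2, hs2, eT2, eS2⟩ := IsSol.add hTS hTS'.neg
  obtain ⟨rT1, rS1⟩ := rat_add ho hTS hTS' rT hrS hrT' rS' eT1 eS1
  obtain ⟨rT2, rS2⟩ := rat_add ho hTS hTS'.neg rT hrS rT'n rS' eT2 eS2
  obtain ⟨N1, D1, hc1, hD1, hr1⟩ := rT1.exists_rep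
  obtain ⟨N2, D2, hc2, hD2, hr2⟩ := rT2.exists_rep
  -- the factor `Δ`
  have hΔ : (1 - C b * T ^ 2 * T' ^ 2 : K⟦X⟧) ≠ 0 := by
    intro h
    have h3 := congrArg constantCoeff h
    simp [hTS.T0] at h3
  have hsq := hTS.sq
  have hsq' := hTS'.sq
  have hΔ12 : (1 - C b * T ^ 2 * T' ^ 2) * (T1 * T2) = T ^ 2 - T' ^ 2 := by
    apply mul_left_cancel₀ hΔ
    have h3 : (1 - C b * T ^ 2 * T' ^ 2) * T2 = T * S' - T' * S := by
      linear_combination eT2
    calc (1 - C b * T ^ 2 * T' ^ 2) * ((1 - C b * T ^ 2 * T' ^ 2) * (T1 * T2))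
        = ((1 - C b * T ^ 2 * T' ^ 2) * T1) * ((1 - C b * T ^ 2 * T' ^ 2) * T2) := by ring
      _ = (T * S' + T' * S) * (T * S' - T' * S) := by rw [eT1, h3]
      _ = (1 - C b * T ^ 2 * T' ^ 2) * (T ^ 2 - T' ^ 2) := by
        linear_combination T ^ 2 * hsq' - T' ^ 2 * hsq
  have hΔs : (1 - C b * T ^ 2 * T' ^ 2) * (T1 + T2) = 2 * T * S' := by
    linear_combination eT1 + eT2
  -- the polynomial identities
  have hq3 : q3 ^ 2 = q0 ^ 2 + Polynomial.C a * q1 * q0 + Polynomial.C b * q1 ^ 2 := by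
    apply Polynomial.coe_injective K
    push_cast
    rw [← hqS, ← hq1]
    linear_combination (q0 : K⟦X⟧) ^ 2 * hsq'
  have e1 : N1 * N2 * (q0 * D ^ 2 - Polynomial.C b * q1 * N ^ 2) =
      D1 * D2 * (q0 * N ^ 2 - q1 * D ^ 2) := by
    apply Polynomial.coe_injective K
    push_cast
    rw [← hr1, ← hr2, ← hq1, ← hDT]
    linear_combination (D1 : K⟦X⟧) * D2 * q0 * D ^ 2 * hΔ12
  have e2 : (N1 * D2 + N2 * D1) * (q0 * D ^ 2 - Polynomial.C b * q1 * N ^ 2) =
      D1 * D2 * (2 * N * D * q3) := by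
    have h2c : ((2 : Polynomial K) : K⟦X⟧) = 2 :=
      map_ofNat (Polynomial.coeToPowerSeries.ringHom (R := K)) 2
    apply Polynomial.coe_injective K
    push_cast
    rw [← hr1, ← hr2, ← hq1, ← hDT, ← hqS, h2c]
    linear_combination (D1 : K⟦X⟧) * D2 * q0 * D ^ 2 * hΔs
  obtain ⟨g1, g2, g3⟩ := par_poly hb hab two_ne_zero hND hq hq3 hc1 hc2 hD1 hD2
    (by omega) (by omega) e1 e2
  refine ⟨N1.natDegree, N2.natDegree, ⟨T1, S1, N1, D1, hs1, rS1, hc1, hr1, rfl, g2⟩,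
    ⟨T2, S2, N2, D2, ?_, rS2, hc2, hr2, rfl, g3⟩, ?_⟩
  · rw [sub_eq_add_neg]
    exact hs2
  · rw [g1, hNd, hq0d]

end Pool.Agent.Lib.MP_d4c4f0_nt
end

section

/-!
# B08: the ladder

`F m n = m^2 d + m n (e - d - d') + n^2 d'`. Say `Good m n` if `OddDeg om a b (m P + n P') k` for some `k` with
`(k : ℤ) = F m n`. From `par` and `OddDeg.unique` (one-step lemma): `OddDeg mu k`, `OddDeg (mu - nu) k'`, `EvenDeg nu f` imply
`OddDeg (mu + nu) k''` with `k'' + k' = 2k + 2f` (and the same with `nu` replaced by `-nu`).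
* direction `(1,1)` (`EvenDeg (P + P') e`): `Good m n → Good (m-1) (n-1) → Good (m+1) (n+1)` and
  `Good m n → Good (m+1) (n+1) → Good (m-1) (n-1)`, as `F (m+1) (n+1) + F (m-1) (n-1) = 2 F m n + 2 e`.
* direction `(2,0)` (`EvenDeg (2P) (4d)` by `OddDeg.double`): `F (m+2) n + F (m-2) n = 2 F m n + 8 d`.
`Good 1 0`, `Good 0 1` are given, `Good (-1) 0`, `Good 0 (-1)` by `OddDeg.neg`. From `Good 1 0`, `Good 0 (-1)`: `Good (k+1) k` for all
`k : ℤ`; from `Good 0 1`, `Good (-1) 0`: `Good k (k+1)` for all `k`. So for each `n`: `Good (n+1) n`, `Good (n-1) n`, and by the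
direction `(2,0)`: `Good (n+1+2k) n` for all `k : ℤ`. That is all `(m, n)` with `m + n` odd.
-/

set_option autoImplicit false

namespace Pool.Agent.Lib.MP_d4c4f0_nt

open PowerSeries

variable {K : Type*} [Field K] [CharZero K] {om : K⟦X⟧} {a1 b1 a b P P' : K} {d d' e : ℕ}

private theorem b08_walk {G : ℤ → ℤ → Prop} {u v : ℤ}
    (up : ∀ m n, G m n → G (m - u) (n - v) → G (m + u) (n + v))
    (dn : ∀ m n, G m n → G (m + u) (n + v) → G (m - u) (n - v)) {m n : ℤ} (h0 : G m n)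
    (h1 : G (m + u) (n + v)) (k : ℤ) : G (m + k * u) (n + k * v) := by
  have key : G (m + k * u) (n + k * v) ∧ G (m + (k + 1) * u) (n + (k + 1) * v) := by
    induction k using Int.induction_on with
    | zero => simpa using ⟨h0, h1⟩
    | succ i ih =>
      refine ⟨ih.2, ?_⟩
      have h := up _ _ ih.2 (by
        have e1 : m + ((i : ℤ) + 1) * u - u = m + (i : ℤ) * u := by ring
        have e2 : n + ((i : ℤ) + 1) * v - v = n + (i : ℤ) * v := by ring
        rw [e1, e2]; exact ih.1)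
      have e1 : m + ((i : ℤ) + 1) * u + u = m + ((i : ℤ) + 1 + 1) * u := by ring
      have e2 : n + ((i : ℤ) + 1) * v + v = n + ((i : ℤ) + 1 + 1) * v := by ring
      rw [e1, e2] at h
      exact h
    | pred i ih =>
      have e3 : -(i : ℤ) - 1 + 1 = -(i : ℤ) := by ring
      rw [e3]
      refine ⟨?_, ih.1⟩
      have h := dn _ _ ih.1 (by
        have e1 : m + -(i : ℤ) * u + u = m + (-(i : ℤ) + 1) * u := by ring
        have e2 : n + -(i : ℤ) * v + v = n + (-(i : ℤ) + 1) * v := by ring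
        rw [e1, e2]; exact ih.2)
      have e1 : m + -(i : ℤ) * u - u = m + (-(i : ℤ) - 1) * u := by ring
      have e2 : n + -(i : ℤ) * v - v = n + (-(i : ℤ) - 1) * v := by ring
      rw [e1, e2] at h
      exact h
  exact key.1

/-- the quadratic form -/
private def b08F (d d' e : ℕ) (m n : ℤ) : ℤ := m ^ 2 * d + m * n * ((e : ℤ) - d - d') + n ^ 2 * d'

/-- the statement at `(m, n)` -/
private def b08G (om : K⟦X⟧) (a b P P' : K) (d d' e : ℕ) (m n : ℤ) : Prop :=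
  ∃ k : ℕ, OddDeg om a b ((m : K) * P + (n : K) * P') k ∧ (k : ℤ) = b08F d d' e m n

private theorem b08_up (ho : Om a1 b1 om) (hb : b ≠ 0) (hab : a ^ 2 - 4 * b ≠ 0) {u v : ℤ} {f : ℕ}
    (hf : EvenDeg om a b ((u : K) * P + (v : K) * P') f) (hfF : (f : ℤ) = b08F d d' e u v) (m n : ℤ)
    (h0 : b08G om a b P P' d d' e m n) (h1 : b08G om a b P P' d d' e (m - u) (n - v)) :
    b08G om a b P P' d d' e (m + u) (n + v) := by
  obtain ⟨k, hk, hkF⟩ := h0
  obtain ⟨k', hk', hkF'⟩ := h1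
  obtain ⟨d1, d2, g1, g2, g3⟩ := par ho hb hab hk hf
  have e2 : (m : K) * P + (n : K) * P' - ((u : K) * P + (v : K) * P') =
      ((m - u : ℤ) : K) * P + ((n - v : ℤ) : K) * P' := by push_cast; ring
  rw [e2] at g2
  have h := g2.unique hk'
  have e1 : (m : K) * P + (n : K) * P' + ((u : K) * P + (v : K) * P') =
      ((m + u : ℤ) : K) * P + ((n + v : ℤ) : K) * P' := by push_cast; ring
  rw [e1] at g1
  refine ⟨d1, g1, ?_⟩
  subst h
  have g3' : (d1 : ℤ) + d2 = 2 * k + 2 * f := by exact_mod_cast g3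
  have g4 : (d1 : ℤ) = 2 * k + 2 * f - d2 := by linarith
  rw [g4, hkF, hkF', hfF]
  unfold b08F
  ring

private theorem b08_dn (ho : Om a1 b1 om) (hb : b ≠ 0) (hab : a ^ 2 - 4 * b ≠ 0) {u v : ℤ} {f : ℕ}
    (hf : EvenDeg om a b ((u : K) * P + (v : K) * P') f) (hfF : (f : ℤ) = b08F d d' e u v) (m n : ℤ)
    (h0 : b08G om a b P P' d d' e m n) (h1 : b08G om a b P P' d d' e (m + u) (n + v)) :
    b08G om a b P P' d d' e (m - u) (n - v) := by
  obtain ⟨k, hk, hkF⟩ := h0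
  obtain ⟨k', hk', hkF'⟩ := h1
  obtain ⟨d1, d2, g1, g2, g3⟩ := par ho hb hab hk hf
  have e1 : (m : K) * P + (n : K) * P' + ((u : K) * P + (v : K) * P') =
      ((m + u : ℤ) : K) * P + ((n + v : ℤ) : K) * P' := by push_cast; ring
  rw [e1] at g1
  have h := g1.unique hk'
  have e2 : (m : K) * P + (n : K) * P' - ((u : K) * P + (v : K) * P') =
      ((m - u : ℤ) : K) * P + ((n - v : ℤ) : K) * P' := by push_cast; ring
  rw [e2] at g2
  refine ⟨d2, g2, ?_⟩
  subst h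
  have g3' : (d1 : ℤ) + d2 = 2 * k + 2 * f := by exact_mod_cast g3
  have g4 : (d2 : ℤ) = 2 * k + 2 * f - d1 := by linarith
  rw [g4, hkF, hkF', hfF]
  unfold b08F
  ring

theorem ladder (ho : Om a1 b1 om) (hb : b ≠ 0) (hab : a ^ 2 - 4 * b ≠ 0)
    (hP : OddDeg om a b P d) (hP' : OddDeg om a b P' d') (hE : EvenDeg om a b (P + P') e)
    {m n : ℤ} (hmn : Odd (m + n)) :
    ∃ k : ℕ, OddDeg om a b ((m : K) * P + (n : K) * P') k ∧
      (k : ℤ) = m ^ 2 * d + m * n * ((e : ℤ) - d - d') + n ^ 2 * d' := by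
  have hE' : EvenDeg om a b (((1 : ℤ) : K) * P + ((1 : ℤ) : K) * P') e := by
    have e1 : ((1 : ℤ) : K) * P + ((1 : ℤ) : K) * P' = P + P' := by push_cast; ring
    rw [e1]; exact hE
  have hEF : (e : ℤ) = b08F d d' e 1 1 := by unfold b08F; ring
  have hD : EvenDeg om a b (((2 : ℤ) : K) * P + ((0 : ℤ) : K) * P') (4 * d) := by
    have e1 : ((2 : ℤ) : K) * P + ((0 : ℤ) : K) * P' = 2 * P := by push_cast; ring
    rw [e1]; exact hP.double hb hab
  have hDF : ((4 * d : ℕ) : ℤ) = b08F d d' e 2 0 := by unfold b08F; push_cast; ring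
  have g10 : b08G om a b P P' d d' e 1 0 := by
    refine ⟨d, ?_, by unfold b08F; ring⟩
    have e1 : ((1 : ℤ) : K) * P + ((0 : ℤ) : K) * P' = P := by push_cast; ring
    rw [e1]; exact hP
  have g01 : b08G om a b P P' d d' e 0 1 := by
    refine ⟨d', ?_, by unfold b08F; ring⟩
    have e1 : ((0 : ℤ) : K) * P + ((1 : ℤ) : K) * P' = P' := by push_cast; ring
    rw [e1]; exact hP'
  have g10' : b08G om a b P P' d d' e (-1) 0 := by
    refine ⟨d, ?_, by unfold b08F; ring⟩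
    have e1 : ((-1 : ℤ) : K) * P + ((0 : ℤ) : K) * P' = -P := by push_cast; ring
    rw [e1]; exact hP.neg
  have g01' : b08G om a b P P' d d' e 0 (-1) := by
    refine ⟨d', ?_, by unfold b08F; ring⟩
    have e1 : ((0 : ℤ) : K) * P + ((-1 : ℤ) : K) * P' = -P' := by push_cast; ring
    rw [e1]; exact hP'.neg
  have up1 := b08_up (P := P) (P' := P') (d := d) (d' := d') (e := e) ho hb hab hE' hEF
  have dn1 := b08_dn (P := P) (P' := P') (d := d) (d' := d') (e := e) ho hb hab hE' hEF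
  have up2 := b08_up (P := P) (P' := P') (d := d) (d' := d') (e := e) ho hb hab hD hDF
  have dn2 := b08_dn (P := P) (P' := P') (d := d) (d' := d') (e := e) ho hb hab hD hDF
  -- the two diagonals
  have w1 : ∀ k : ℤ, b08G om a b P P' d d' e k (k - 1) := by
    intro k
    have h := b08_walk up1 dn1 g01' (by simpa using g10) k
    have e1 : (0 : ℤ) + k * 1 = k := by ring
    have e2 : (-1 : ℤ) + k * 1 = k - 1 := by ring
    rw [e1, e2] at h
    exact h
  have w2 : ∀ k : ℤ, b08G om a b P P' d d' e (k - 1) k := by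
    intro k
    have h := b08_walk up1 dn1 g10' (by simpa using g01) k
    have e1 : (-1 : ℤ) + k * 1 = k - 1 := by ring
    have e2 : (0 : ℤ) + k * 1 = k := by ring
    rw [e1, e2] at h
    exact h
  obtain ⟨j, hj⟩ := hmn
  have h3 : b08G om a b P P' d d' e (n - 1 + 2) (n + 0) := by
    have h := w1 (n + 1)
    have e1 : n - 1 + 2 = n + 1 := by ring
    have e2 : n + 0 = n + 1 - 1 := by ring
    rw [e1, e2]
    exact h
  have h := b08_walk up2 dn2 (w2 n) h3 (j + 1 - n)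
  have e1 : n - 1 + (j + 1 - n) * 2 = m := by linarith
  have e2 : n + (j + 1 - n) * 0 = n := by ring
  rw [e1, e2] at h
  exact h

end Pool.Agent.Lib.MP_d4c4f0_nt
end
end
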