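import Pool.Agent.Lib.MP_d4c4f0_nt.ZS.A03
import Pool.Agent.Lib.MP_d4c4f0_nt.ZS.A06

section

/-!
# A07: the differential equation of the Legendre type polynomial

`p = 2n+1`, `p^2 = 0` in `R`, `c = tn n (ea X) (eb X)`, `ea = 1-4X-8X^2`, `eb = 16 X^3 (1+X)`, `ea^2 - 4 eb = 1-8X`.
Claim `4 L2 c = -8 p X ((1+2X) c + 2 (1+X) θ c)`.
Proof. In power series `a = ea X` is a unit (constant term 1); `ia = a⁻¹`, `i1 = (1+X)⁻¹`, `i8 = (1-8X)⁻¹`.
`c = ∑_k t_k y_k`, `y_k = a^n W^k` (any `k`), `W = eb * ia^2`, `t_k = C(n,2k) C(2k,k)` (zero for `2k > n`), and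
`(k+1)^2 t_{k+1} = (n-2k)(n-2k-1) t_k` (over `ℤ`). Let `σ = θ a * ia`, `θ a = -4X-16X^2`, `ρ = θW/W = 3 + X i1 - 2σ`
(`θ eb = eb (3 + X i1)`). Then `θ y_k = (nσ + kρ) y_k`, `θ^2 y_k = ((nσ+kρ)^2 + nθσ + kθρ) y_k`, so
`L2 y_k = P_k y_k` with `P_k = al ((nσ+kρ)^2 + nθσ + kθρ) + be (nσ+kρ) + ga`. The claim follows by summing
`t_k` times the following identity (rational functions in `X`, polynomial in `k` and `n`; `y_{k+1} = W y_k`):
`4 P_k + 8 (2n+1) X ((1+2X) + 2 (1+X) (nσ+kρ))`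
`   = 4 al ρ^2 a^2 i8 * (k^2 - W (n-2k)(n-2k-1)) - 16 (2n+1)^2 X^2`
(checked by computer), and `∑_k t_k (k^2 y_k - (n-2k)(n-2k-1) y_{k+1}) = 0` (telescoping by the recurrence of `t_k`),
`(2n+1)^2 = p^2 = 0`. (`1 - 4W = (1-8X) ia^2`; to prove the identity multiply by powers of `a`, `1+X`, `1-8X`, all units,
and use `ring`; `θ ia = -ia^2 θa`, `θθa = -4X-32X^2`, `θ i1 = -X i1^2`.)
Useful relations: `al = (1+X)(1-8X)`, `2 (1-8X) σ - 4 eb ρ = -8X`.
-/

set_option autoImplicit false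

open Finset PowerSeries

namespace Pool.Agent.Lib.MP_d4c4f0_nt

variable {R : Type*} [CommRing R]

/-- The coefficients of `tn`. -/
private def tk (n k : ℕ) : ℕ := n.choose (2 * k) * (2 * k).choose k

private theorem tk_rec (n k : ℕ) :
    (k + 1) ^ 2 * tk n (k + 1) = (n - 2 * k) * (n - 2 * k - 1) * tk n k := by
  have h1 : (k + 1) * (2 * (k + 1)).choose (k + 1) = 2 * (2 * k + 1) * (2 * k).choose k := by
    have := Nat.succ_mul_centralBinom_succ k
    simpa [Nat.centralBinom] using this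
  have h2 : n.choose (2 * k + 1) * (2 * k + 1) = n.choose (2 * k) * (n - 2 * k) :=
    Nat.choose_succ_right_eq n (2 * k)
  have h3 : n.choose (2 * k + 2) * (2 * k + 2) = n.choose (2 * k + 1) * (n - (2 * k + 1)) :=
    Nat.choose_succ_right_eq n (2 * k + 1)
  have h4 : n - (2 * k + 1) = n - 2 * k - 1 := by omega
  unfold tk
  calc (k + 1) ^ 2 * (n.choose (2 * (k + 1)) * (2 * (k + 1)).choose (k + 1))
      = (k + 1) * n.choose (2 * k + 2) * ((k + 1) * (2 * (k + 1)).choose (k + 1)) := by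
        rw [show 2 * (k + 1) = 2 * k + 2 by ring]; ring
    _ = (n.choose (2 * k + 2) * (2 * k + 2)) * (2 * k + 1) * (2 * k).choose k := by
        rw [h1]; ring
    _ = (n.choose (2 * k + 1) * (2 * k + 1)) * (n - (2 * k + 1)) * (2 * k).choose k := by
        rw [h3]; ring
    _ = _ := by
        rw [h2, h4]; ring

private theorem tk_zero {n k : ℕ} (h : n < 2 * k) : tk n k = 0 := by
  simp [tk, Nat.choose_eq_zero_of_lt h]

private theorem th_ea : th (ea (X : R⟦X⟧)) = -4 * X - 16 * X ^ 2 := by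
  simp only [ea, map_sub, th_mul, th_pow, th_X, th_one, th_ofNat]
  push_cast
  ring

private theorem th_eb : (1 + X) * th (eb (X : R⟦X⟧)) = (3 + 4 * X) * eb X := by
  simp only [eb, map_add, th_mul, th_pow, th_X, th_one, th_ofNat]
  push_cast
  ring

/-- `D = a (1 + X)`. -/
private noncomputable def dd : R⟦X⟧ := ea X * (1 + X)

/-- `θ z = K1 z / D` for `z = a^m b^k`. -/
private noncomputable def k1 (m k : R⟦X⟧) : R⟦X⟧ :=
  m * (-4 * X - 16 * X ^ 2) * (1 + X) + k * (3 + 4 * X) * ea X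

private theorem th_pow_mul (f : R⟦X⟧) (m : ℕ) : f * th (f ^ m) = m * f ^ m * th f := by
  rw [th_pow]
  rcases m with _ | m
  · simp
  · simp only [Nat.add_sub_cancel, pow_succ]
    ring

private theorem th_z (m k : ℕ) :
    dd * th (ea (X : R⟦X⟧) ^ m * eb X ^ k) =
      k1 (m : R⟦X⟧) (k : R⟦X⟧) * (ea (X : R⟦X⟧) ^ m * eb X ^ k) := by
  have ha := th_pow_mul (ea (X : R⟦X⟧)) m
  rw [th_ea] at ha
  rcases k with _ | k
  · simp only [pow_zero, mul_one, Nat.cast_zero, k1, dd]
    linear_combination (1 + X) * ha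
  · have hb : th (eb (X : R⟦X⟧) ^ (k + 1)) =
        ((k + 1 : ℕ) : R⟦X⟧) * eb X ^ k * th (eb (X : R⟦X⟧)) := by
      rw [th_pow, Nat.add_sub_cancel]
    rw [th_mul, hb]
    have h2 := th_eb (R := R)
    simp only [k1, dd]
    linear_combination (1 + X) * eb X ^ (k + 1) * ha +
      ea X ^ (m + 1) * ((k + 1 : ℕ) : R⟦X⟧) * eb X ^ k * h2

private theorem th_k1 (m k : ℕ) : th (k1 (m : R⟦X⟧) (k : R⟦X⟧)) =
    (m : R⟦X⟧) * ((-4 * X - 32 * X ^ 2) * (1 + X) + (-4 * X - 16 * X ^ 2) * X) +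
      (k : R⟦X⟧) * (4 * X * ea X + (3 + 4 * X) * (-4 * X - 16 * X ^ 2)) := by
  simp only [k1, th_mul, th_natCast, th_ea, map_add, map_sub, map_neg, th_pow, th_X, th_one,
    th_ofNat]
  push_cast
  ring

private theorem th_dd : th (dd : R⟦X⟧) = (-4 * X - 16 * X ^ 2) * (1 + X) + ea X * X := by
  simp only [dd, th_mul, th_ea, map_add, th_X, th_one]
  ring

/-- `θθ z = K2 z / D^2`. -/
private noncomputable def k2 (m k : R⟦X⟧) : R⟦X⟧ :=
  k1 m k ^ 2 + dd * (m * ((-4 * X - 32 * X ^ 2) * (1 + X) + (-4 * X - 16 * X ^ 2) * X) +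
      k * (4 * X * ea X + (3 + 4 * X) * (-4 * X - 16 * X ^ 2))) -
    k1 m k * ((-4 * X - 16 * X ^ 2) * (1 + X) + ea X * X)

private theorem thth_z (m k : ℕ) :
    dd ^ 2 * th (th (ea (X : R⟦X⟧) ^ m * eb X ^ k)) =
      k2 (m : R⟦X⟧) (k : R⟦X⟧) * (ea (X : R⟦X⟧) ^ m * eb X ^ k) := by
  have h1 := th_z (R := R) m k
  revert h1
  generalize ea (X : R⟦X⟧) ^ m * eb X ^ k = z
  intro h1
  have h2 := congrArg th h1
  rw [th_mul, th_mul, th_k1, th_dd] at h2
  simp only [k2]
  linear_combination dd * h2 +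
    (k1 (m : R⟦X⟧) (k : R⟦X⟧) - ((-4 * X - 16 * X ^ 2) * (1 + X) + ea X * X)) * h1

private theorem key (n k : R⟦X⟧) :
    4 * (al * k2 (n - 2 * k) k + be * dd * k1 (n - 2 * k) k + ga * dd ^ 2) +
      8 * (2 * n + 1) * X * ((1 + 2 * X) * dd ^ 2 + 2 * (1 + X) * dd * k1 (n - 2 * k) k) =
    4 * (1 + X) * ((3 + 4 * X) * ea X - 2 * (-4 * X - 16 * X ^ 2) * (1 + X)) ^ 2 *
      (k ^ 2 * ea X ^ 2 - eb X * ((n - 2 * k) * (n - 2 * k - 1))) -
      16 * (2 * n + 1) ^ 2 * X ^ 2 * dd ^ 2 := by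
  simp only [k2, k1, dd, ea, eb, al, be, ga]
  ring

theorem L2_tn {n p : ℕ} (hn : p = 2 * n + 1) (h2 : (p : R) ^ 2 = 0) :
    4 * L2 (tn n (ea X) (eb X : R⟦X⟧)) =
      -8 * (p : R⟦X⟧) * X * ((1 + 2 * X) * tn n (ea X) (eb X : R⟦X⟧) +
        2 * (1 + X) * th (tn n (ea X) (eb X : R⟦X⟧))) := by
  have hp2 : (2 * (n : R⟦X⟧) + 1) ^ 2 = 0 := by
    have h : ((p : R⟦X⟧)) ^ 2 = 0 := by
      rw [show (p : R⟦X⟧) = C (p : R) by simp, ← map_pow, h2, map_zero]
    rw [hn] at h
    push_cast at h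
    exact h
  have hpc : (p : R⟦X⟧) = 2 * (n : R⟦X⟧) + 1 := by
    rw [hn]; push_cast; ring
  have hu : IsUnit (dd : R⟦X⟧) := by
    rw [PowerSeries.isUnit_iff_constantCoeff]
    simp [dd, ea]
  -- the sum
  have htn : tn n (ea X) (eb X : R⟦X⟧) = ∑ k ∈ range (n / 2 + 1),
      (tk n k : R⟦X⟧) * (ea X ^ (n - 2 * k) * eb X ^ k) := by
    simp only [tn, tk]
    exact Finset.sum_congr rfl fun k _ => by ring
  -- termwise identity
  have hterm : ∀ k ∈ range (n / 2 + 1),
      dd ^ 2 * (4 * L2 ((tk n k : R⟦X⟧) * (ea X ^ (n - 2 * k) * eb X ^ k)) +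
        8 * (2 * (n : R⟦X⟧) + 1) * X *
          ((1 + 2 * X) * ((tk n k : R⟦X⟧) * (ea X ^ (n - 2 * k) * eb X ^ k)) +
          2 * (1 + X) * th ((tk n k : R⟦X⟧) * (ea X ^ (n - 2 * k) * eb X ^ k)))) =
      4 * (1 + X) * ((3 + 4 * X) * ea X - 2 * (-4 * X - 16 * X ^ 2) * (1 + X)) ^ 2 * ea X ^ 2 *
        ((k : R⟦X⟧) ^ 2 * (tk n k : R⟦X⟧) * (ea X ^ (n - 2 * k) * eb X ^ k) -
        ((k + 1 : ℕ) : R⟦X⟧) ^ 2 * (tk n (k + 1) : R⟦X⟧) *
          (ea X ^ (n - 2 * (k + 1)) * eb X ^ (k + 1))) := by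
    intro k hk
    have hk2 : 2 * k ≤ n := by
      have := Finset.mem_range.1 hk
      omega
    have hrec := congrArg (fun m : ℕ => (m : R⟦X⟧)) (tk_rec n k)
    push_cast at hrec
    have hm : ((n - 2 * k : ℕ) : R⟦X⟧) = (n : R⟦X⟧) - 2 * (k : R⟦X⟧) := by
      rw [Nat.cast_sub hk2]; push_cast; ring
    -- the shifted power
    have hsh : ((n - 2 * k : ℕ) : R⟦X⟧) * ((n - 2 * k - 1 : ℕ) : R⟦X⟧) *
        (ea X ^ 2 * (ea X ^ (n - 2 * (k + 1)) * eb X ^ (k + 1))) =
        ((n : R⟦X⟧) - 2 * (k : R⟦X⟧)) * ((n : R⟦X⟧) - 2 * (k : R⟦X⟧) - 1) *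
          (eb X * (ea X ^ (n - 2 * k) * eb X ^ k)) := by
      rcases Nat.lt_or_ge n (2 * k + 2) with h | h
      · rcases Nat.eq_or_lt_of_le hk2 with h' | h'
        · have e1 : n - 2 * k = 0 := by omega
          have e2 : (n : R⟦X⟧) - 2 * (k : R⟦X⟧) = 0 := by rw [← hm, e1]; simp
          rw [e1, e2]; simp
        · have e1 : n - 2 * k - 1 = 0 := by omega
          have e3 : n - 2 * k = 1 := by omega
          have e2 : (n : R⟦X⟧) - 2 * (k : R⟦X⟧) - 1 = 0 := by rw [← hm, e3]; simp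
          rw [e1, e2]; simp
      · have e1 : n - 2 * k = n - 2 * (k + 1) + 2 := by omega
        have e2 : ((n - 2 * k - 1 : ℕ) : R⟦X⟧) = (n : R⟦X⟧) - 2 * (k : R⟦X⟧) - 1 := by
          rw [Nat.cast_sub (by omega), hm]; simp
        rw [hm, e2, e1]
        ring
    have hz := th_z (R := R) (n - 2 * k) k
    have hzz := thth_z (R := R) (n - 2 * k) k
    rw [hm] at hz hzz
    have hkey := key (n : R⟦X⟧) (k : R⟦X⟧)
    have hth : ∀ y : R⟦X⟧, th ((tk n k : R⟦X⟧) * y) = (tk n k : R⟦X⟧) * th y := by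
      intro y
      rw [th_mul, th_natCast]; ring
    simp only [L2, hth]
    push_cast
    generalize ea (X : R⟦X⟧) ^ (n - 2 * k) * eb X ^ k = z at *
    generalize ea (X : R⟦X⟧) ^ (n - 2 * (k + 1)) * eb X ^ (k + 1) = z' at *
    generalize th (th z) = z2 at *
    generalize th z = z1 at *
    generalize hK1 : k1 ((n : R⟦X⟧) - 2 * (k : R⟦X⟧)) (k : R⟦X⟧) = K1 at *
    generalize hK2 : k2 ((n : R⟦X⟧) - 2 * (k : R⟦X⟧)) (k : R⟦X⟧) = K2 at *
    generalize (dd : R⟦X⟧) = dd' at *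
    generalize ((3 + 4 * X) * ea X - 2 * (-4 * X - 16 * X ^ 2) * (1 + X) : R⟦X⟧) = ρ at *
    generalize (tk n k : R⟦X⟧) = t at *
    linear_combination (4 * (1 + X) * ρ ^ 2 * ea X ^ 2 * z') * hrec + t * z * hkey +
      4 * al * t * hzz + (4 * be + 16 * (2 * (n : R⟦X⟧) + 1) * X * (1 + X)) * t * dd' * hz +
      4 * (1 + X) * ρ ^ 2 * t * hsh - 16 * X ^ 2 * dd' ^ 2 * t * z * hp2
  have hsum : dd ^ 2 * (4 * L2 (tn n (ea X) (eb X : R⟦X⟧)) +
        8 * (2 * (n : R⟦X⟧) + 1) * X * ((1 + 2 * X) * tn n (ea X) (eb X : R⟦X⟧) +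
          2 * (1 + X) * th (tn n (ea X) (eb X : R⟦X⟧)))) = 0 := by
    have e1 : dd ^ 2 * (4 * L2 (tn n (ea X) (eb X : R⟦X⟧)) +
        8 * (2 * (n : R⟦X⟧) + 1) * X * ((1 + 2 * X) * tn n (ea X) (eb X : R⟦X⟧) +
          2 * (1 + X) * th (tn n (ea X) (eb X : R⟦X⟧)))) =
        ∑ k ∈ range (n / 2 + 1), dd ^ 2 * (4 * L2 ((tk n k : R⟦X⟧) *
          (ea X ^ (n - 2 * k) * eb X ^ k)) + 8 * (2 * (n : R⟦X⟧) + 1) * X *
          ((1 + 2 * X) * ((tk n k : R⟦X⟧) * (ea X ^ (n - 2 * k) * eb X ^ k)) +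
          2 * (1 + X) * th ((tk n k : R⟦X⟧) * (ea X ^ (n - 2 * k) * eb X ^ k)))) := by
      rw [htn]
      simp only [L2, map_sum, Finset.mul_sum, Finset.sum_add_distrib, mul_add]
    rw [e1, Finset.sum_congr rfl hterm, ← Finset.mul_sum, Finset.sum_range_sub']
    simp [tk_zero (show n < 2 * (n / 2 + 1) by omega)]
  have h4 := (hu.pow 2).mul_right_eq_zero.1 hsum
  rw [hpc]
  linear_combination h4

end Pool.Agent.Lib.MP_d4c4f0_nt
end

section

section

/-!
# A05: uniqueness of polynomial solutions of `L2`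

If `y` has no coefficient in degrees `≥ p` and `L2 y = 0`, where `1, ..., p-1` are units of `R`, then `coeff k y` is
determined for `k < p` by `coeff 0 y` through `coeff_L2` (`k^2` is a unit), and `FA p X` satisfies the same recursion
(`fr_rec`) with `coeff 0 = 1`. So `y = y_0 * FA p X`.
-/

set_option autoImplicit false

open Finset PowerSeries

namespace Pool.Agent.Lib.MP_d4c4f0_nt

variable {R : Type*} [CommRing R]

theorem coeff_FA (p k : ℕ) : coeff k (FA p (X : R⟦X⟧)) = if k < p then (fr k : R) else 0 :=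
  coeff_FA' p k

theorem L2_unique {p : ℕ} (hu : ∀ k : ℕ, 0 < k → k < p → IsUnit (k : R)) {y : R⟦X⟧}
    (hy : L2 y = 0) (hd : ∀ k, p ≤ k → coeff k y = 0) : y = C (coeff 0 y) * FA p (X : R⟦X⟧) := by
  have key : ∀ k, (k < p → coeff k y = coeff 0 y * (fr k : R)) ∧
      (k + 1 < p → coeff (k + 1) y = coeff 0 y * (fr (k + 1) : R)) := by
    intro k
    induction k with
    | zero =>
      refine ⟨fun _ => by rw [fr_zero]; push_cast; ring, fun _ => ?_⟩
      have h1 := coeff_L2_one y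
      rw [hy, map_zero] at h1
      rw [zero_add, fr_one]
      push_cast
      linear_combination -h1
    | succ k ih =>
      refine ⟨ih.2, fun hk => ?_⟩
      have e0 := ih.1 (by omega)
      have e1 := ih.2 (by omega)
      have h1 := coeff_L2 y k
      rw [hy, map_zero, e0, e1] at h1
      have h3 := fr_recR (R := R) k
      have h4 : ((k : R) + 2) ^ 2 * coeff (k + 1 + 1) y =
          ((k : R) + 2) ^ 2 * (coeff 0 y * (fr (k + 1 + 1) : R)) := by
        rw [show k + 1 + 1 = k + 2 from rfl]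
        linear_combination -h1 - coeff 0 y * h3
      have h5 : IsUnit ((k : R) + 2) := by
        have := hu (k + 2) (by omega) hk
        push_cast at this
        exact this
      exact (h5.pow 2).mul_left_cancel h4
  ext k
  rw [coeff_C_mul, coeff_FA]
  by_cases hk : k < p
  · rw [if_pos hk]
    exact (key k).1 hk
  · rw [if_neg hk, mul_zero]
    exact hd k (not_lt.1 hk)

end Pool.Agent.Lib.MP_d4c4f0_nt
end

section

/-!
# A08: the four polynomials modulo `p`

In a commutative ring `S` with `p = 0` (`p > 3` prime, `2` not needed), for all `x`: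
`tn n (ea x) (eb x) = FA p x` (`n = (p-1)/2`), `FH p (-w) x = FA p x` (`8w = 1`),
`FH p (-(1+x)) (1-8x) = ε FA p x` with `ε = (-3)^n`.
Proof. It suffices to treat `S = (ZMod p)[X]`, `x = X` (for the second: `w` is then the constant `8⁻¹`; the general case
by `Polynomial.eval₂` along `ZMod.castHom`, see `map_FH` etc.; `w` is unique as inverse of `8`), and for this
`(ZMod p)⟦X⟧` (`Polynomial.coe_injective`). There all three solve `L2 y = 0` (`L2_tn`, `L2_FB`, `L2_A3` with `p = 0`;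
`4` is a unit) and have no coefficients in degree `≥ p`, so by `L2_unique` they are `y_0 * FA`:
`y_0 = 1` for `tn` (`tn n 1 0 = 1`), `y_0 = f_{p-1} (-w)^(p-1) = 1` (`fr_last`, Fermat) for `FB`, and
`y_0 = FA p (-1)` for `A3`; from the first identity at `x = -1` (`ea (-1) = -3`, `eb (-1) = 0`):
`FA p (-1) = tn n (-3) 0 = (-3)^n`.
(`S` with `p = 0` is an algebra over `ZMod p`: `CharP S (ringChar S)`, `ringChar S ∣ p`, `ZMod.castHom`.)
-/

set_option autoImplicit false

open Finset PowerSeries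

namespace Pool.Agent.Lib.MP_d4c4f0_nt

variable {S : Type*} [CommRing S]

/-- The structure map from `ZMod m` to a ring with `m = 0`. -/
theorem exists_zmod_hom {m : ℕ} (hm : (m : S) = 0) : Nonempty (ZMod m →+* S) :=
  ⟨ZMod.castHom (ringChar.dvd hm) S⟩

private theorem A08_tn_zero (n : ℕ) (A : S) : tn n A 0 = A ^ n := by
  unfold tn
  rw [Finset.sum_eq_single 0]
  · simp
  · intro k _ hk
    rw [zero_pow hk, mul_zero]
  · intro h
    simp at h

private theorem A08_FH_zero {p : ℕ} (hp : 0 < p) (u : S) :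
    FH p u 0 = (fr (p - 1) : S) * u ^ (p - 1) := by
  unfold FH
  rw [Finset.sum_eq_single (p - 1)]
  · simp
  · intro k hk hk'
    rw [Finset.mem_range] at hk
    rw [zero_pow (by omega), mul_zero]
  · intro h
    rw [Finset.mem_range] at h
    omega

private theorem A08_FH_one (p : ℕ) (u : S) : FH p u 1 = FA p u := by
  unfold FH FA
  simp

private theorem A08_deg_FH {p : ℕ} (hp : 0 < p) {u v : Polynomial S} (hu : u.natDegree ≤ 1)
    (hv : v.natDegree ≤ 1) : (FH p u v).natDegree < p := by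
  have h1 : (FH p u v).natDegree ≤ p - 1 := by
    unfold FH
    refine Polynomial.natDegree_sum_le_of_forall_le _ _ fun k hk => ?_
    rw [Finset.mem_range] at hk
    have h2 : (u ^ k).natDegree ≤ k * 1 := Polynomial.natDegree_pow_le_of_le k hu
    have h3 : (v ^ (p - 1 - k)).natDegree ≤ (p - 1 - k) * 1 :=
      Polynomial.natDegree_pow_le_of_le _ hv
    have h4 : ((fr k : ℕ) : Polynomial S).natDegree ≤ 0 := by
      rw [Polynomial.natDegree_natCast]
    have h5 := Polynomial.natDegree_mul_le_of_le (Polynomial.natDegree_mul_le_of_le h4 h2) h3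
    refine h5.trans ?_
    omega
  omega

private theorem A08_deg_tn (n : ℕ) {A B : Polynomial S} (hA : A.natDegree ≤ 2)
    (hB : B.natDegree ≤ 4) : (tn n A B).natDegree ≤ 2 * n := by
  unfold tn
  refine Polynomial.natDegree_sum_le_of_forall_le _ _ fun k hk => ?_
  rw [Finset.mem_range] at hk
  have h2 : (A ^ (n - 2 * k)).natDegree ≤ (n - 2 * k) * 2 :=
    Polynomial.natDegree_pow_le_of_le _ hA
  have h3 : (B ^ k).natDegree ≤ k * 4 := Polynomial.natDegree_pow_le_of_le _ hB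
  have h4 : (((n.choose (2 * k) * (2 * k).choose k : ℕ)) : Polynomial S).natDegree ≤ 0 := by
    rw [Polynomial.natDegree_natCast]
  have h5 := Polynomial.natDegree_mul_le_of_le (Polynomial.natDegree_mul_le_of_le h4 h2) h3
  refine h5.trans ?_
  omega

private theorem A08_unit {p : ℕ} [Fact p.Prime] (k : ℕ) (hk : 0 < k) (hkp : k < p) :
    IsUnit (k : ZMod p) := by
  rw [isUnit_iff_ne_zero]
  intro h
  rw [ZMod.natCast_eq_zero_iff] at h
  exact absurd (Nat.le_of_dvd hk h) (by omega)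

private theorem A08_key {p : ℕ} [Fact p.Prime] (P : Polynomial (ZMod p)) (hdeg : P.natDegree < p)
    (hL : L2 (P : (ZMod p)⟦X⟧) = 0) :
    P = Polynomial.C (P.coeff 0) * FA p Polynomial.X := by
  have h1 := L2_unique (fun k hk hkp => A08_unit k hk hkp) hL (fun k hk => by
    rw [Polynomial.coeff_coe]
    exact Polynomial.coeff_eq_zero_of_natDegree_lt (by omega))
  apply Polynomial.coe_injective
  rw [h1, Polynomial.coeff_coe, Polynomial.coe_mul, Polynomial.coe_C]
  congr 1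
  have h2 := map_FA (Polynomial.coeToPowerSeries.ringHom (R := ZMod p)) p Polynomial.X
  simp only [Polynomial.coeToPowerSeries.ringHom_apply, Polynomial.coe_X] at h2
  exact h2.symm

private theorem A08_cast_zero (p : ℕ) : ((p : ℕ) : (ZMod p)⟦X⟧) = 0 := by
  have h : ((p : ℕ) : (ZMod p)⟦X⟧) = C ((p : ℕ) : ZMod p) := by rw [map_natCast]
  rw [h, ZMod.natCast_self, map_zero]

private theorem A08_tn_poly {p : ℕ} [Fact p.Prime] (h3 : 3 < p) :
    tn ((p - 1) / 2) (ea Polynomial.X) (eb (Polynomial.X : Polynomial (ZMod p))) =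
      FA p Polynomial.X := by
  have hp : p.Prime := Fact.out
  have hodd : p = 2 * ((p - 1) / 2) + 1 := by
    have := hp.eq_two_or_odd
    omega
  set n := (p - 1) / 2 with hn
  have hA : (ea (Polynomial.X : Polynomial (ZMod p))).natDegree ≤ 2 := by
    unfold ea
    compute_degree
  have hB : (eb (Polynomial.X : Polynomial (ZMod p))).natDegree ≤ 4 := by
    unfold eb
    compute_degree
  have hdeg := A08_deg_tn n hA hB
  have hcoe : ((tn n (ea Polynomial.X) (eb (Polynomial.X : Polynomial (ZMod p))) :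
      Polynomial (ZMod p)) : (ZMod p)⟦X⟧) = tn n (ea X) (eb X) := by
    have h2 := map_tn (Polynomial.coeToPowerSeries.ringHom (R := ZMod p)) n (ea Polynomial.X)
      (eb Polynomial.X)
    rw [map_ea, map_eb] at h2
    simp only [Polynomial.coeToPowerSeries.ringHom_apply, Polynomial.coe_X] at h2
    exact h2
  have hL : L2 (tn n (ea X) (eb X : (ZMod p)⟦X⟧)) = 0 := by
    have h1 := L2_tn (R := ZMod p) (n := n) (p := p) hodd (by
      rw [ZMod.natCast_self]; ring)
    rw [A08_cast_zero] at h1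
    simp only [mul_zero, zero_mul] at h1
    have h4 : (4 : (ZMod p)⟦X⟧) ≠ 0 := by
      have h5 : (4 : (ZMod p)⟦X⟧) = C ((4 : ℕ) : ZMod p) := by
        rw [map_natCast]
        norm_num
      rw [h5]
      intro h6
      have h7 : ((4 : ℕ) : ZMod p) = 0 := by
        have := congrArg (coeff 0) h6
        simpa using this
      exact (A08_unit (p := p) 4 (by norm_num) (by omega)).ne_zero h7
    exact (mul_eq_zero.1 h1).resolve_left h4
  have hkey := A08_key _ (lt_of_le_of_lt hdeg (by omega)) (by rw [hcoe]; exact hL)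
  rw [hkey]
  have h0 : (tn n (ea Polynomial.X) (eb (Polynomial.X : Polynomial (ZMod p)))).coeff 0 = 1 := by
    rw [Polynomial.coeff_zero_eq_eval_zero]
    have h2 := map_tn (Polynomial.evalRingHom (0 : ZMod p)) n (ea Polynomial.X) (eb Polynomial.X)
    rw [map_ea, map_eb] at h2
    simp only [Polynomial.coe_evalRingHom, Polynomial.eval_X] at h2
    rw [h2]
    have h3 : ea (0 : ZMod p) = 1 := by unfold ea; ring
    have h4 : eb (0 : ZMod p) = 0 := by unfold eb; ring
    rw [h3, h4, A08_tn_zero, one_pow]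
  rw [h0, map_one, one_mul]

private theorem A08_eval {p : ℕ} (φ : ZMod p →+* S) (x : S) :
    (Polynomial.eval₂RingHom φ x) Polynomial.X = x := by
  simp

theorem tn_mod {p : ℕ} (hp : p.Prime) (h3 : 3 < p) (hS : (p : S) = 0) (x : S) :
    tn ((p - 1) / 2) (ea x) (eb x) = FA p x := by
  obtain ⟨φ⟩ := exists_zmod_hom hS
  have : Fact p.Prime := ⟨hp⟩
  have h1 := congrArg (Polynomial.eval₂RingHom φ x) (A08_tn_poly (p := p) h3)
  rw [map_tn, map_ea, map_eb, map_FA, A08_eval] at h1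
  exact h1

theorem FB_mod {p : ℕ} (hp : p.Prime) (h3 : 3 < p) (hS : (p : S) = 0) {w : S} (hw : 8 * w = 1)
    (x : S) : FH p (-w) x = FA p x := by
  obtain ⟨φ⟩ := exists_zmod_hom hS
  have : Fact p.Prime := ⟨hp⟩
  have h8 : (8 : ZMod p) ≠ 0 := by
    have h5 : IsUnit ((2 : ℕ) : ZMod p) := A08_unit 2 (by norm_num) (by omega)
    have h6 : (8 : ZMod p) = ((2 : ℕ) : ZMod p) ^ 3 := by norm_num
    rw [h6]
    exact pow_ne_zero _ h5.ne_zero
  obtain ⟨w', hw'⟩ : ∃ w' : ZMod p, 8 * w' = 1 := ⟨8⁻¹, mul_inv_cancel₀ h8⟩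
  have hw'0 : w' ≠ 0 := by
    rintro rfl
    rw [mul_zero] at hw'
    exact zero_ne_one hw'
  have hww : φ w' = w := by
    have h5 : 8 * φ w' = 1 := by
      have := congrArg φ hw'
      rwa [map_mul, map_one, map_ofNat] at this
    calc φ w' = (8 * w) * φ w' := by rw [hw, one_mul]
      _ = w * (8 * φ w') := by ring
      _ = w := by rw [h5, mul_one]
  have hpoly : FH p (-(Polynomial.C w')) (Polynomial.X : Polynomial (ZMod p)) =
      FA p Polynomial.X := by
    have hcoe : ((FH p (-(Polynomial.C w')) (Polynomial.X : Polynomial (ZMod p)) :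
        Polynomial (ZMod p)) : (ZMod p)⟦X⟧) = FH p (-(C w')) X := by
      have h2 := map_FH (Polynomial.coeToPowerSeries.ringHom (R := ZMod p)) p
        (-(Polynomial.C w')) Polynomial.X
      rw [map_neg] at h2
      simp only [Polynomial.coeToPowerSeries.ringHom_apply, Polynomial.coe_X,
        Polynomial.coe_C] at h2
      exact h2
    have hL : L2 (FH p (-(C w')) (X : (ZMod p)⟦X⟧)) = 0 := by
      rw [L2_FB (by omega) (by rw [ZMod.natCast_self]; ring) hw', A08_cast_zero, zero_mul]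
    have hdeg : (FH p (-(Polynomial.C w')) (Polynomial.X : Polynomial (ZMod p))).natDegree < p :=
      A08_deg_FH (by omega) (by
        rw [Polynomial.natDegree_neg, Polynomial.natDegree_C]; omega) Polynomial.natDegree_X_le
    have hkey := A08_key _ hdeg (by rw [hcoe]; exact hL)
    rw [hkey]
    have h0 : (FH p (-(Polynomial.C w')) (Polynomial.X : Polynomial (ZMod p))).coeff 0 = 1 := by
      rw [Polynomial.coeff_zero_eq_eval_zero]
      have h2 := map_FH (Polynomial.evalRingHom (0 : ZMod p)) p (-(Polynomial.C w')) Polynomial.X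
      rw [map_neg] at h2
      simp only [Polynomial.coe_evalRingHom, Polynomial.eval_X, Polynomial.eval_C] at h2
      rw [h2, A08_FH_zero (by omega), fr_last hp (by omega), one_mul]
      exact ZMod.pow_card_sub_one_eq_one (neg_ne_zero.2 hw'0)
    rw [h0, map_one, one_mul]
  have h1 := congrArg (Polynomial.eval₂RingHom φ x) hpoly
  rw [map_FH, map_FA, A08_eval, map_neg] at h1
  have h2 : (Polynomial.eval₂RingHom φ x) (Polynomial.C w') = w := by
    rw [Polynomial.coe_eval₂RingHom, Polynomial.eval₂_C, hww]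
  rw [h2] at h1
  exact h1

theorem A3_mod {p : ℕ} (hp : p.Prime) (h3 : 3 < p) (hS : (p : S) = 0) (x : S) :
    FH p (-(1 + x)) (1 - 8 * x) = (-3) ^ ((p - 1) / 2) * FA p x := by
  obtain ⟨φ⟩ := exists_zmod_hom hS
  have : Fact p.Prime := ⟨hp⟩
  have hpoly : FH p (-(1 + Polynomial.X)) (1 - 8 * Polynomial.X : Polynomial (ZMod p)) =
      (-3) ^ ((p - 1) / 2) * FA p Polynomial.X := by
    have hcoe : ((FH p (-(1 + Polynomial.X)) (1 - 8 * Polynomial.X : Polynomial (ZMod p)) :
        Polynomial (ZMod p)) : (ZMod p)⟦X⟧) = FH p (-(1 + X)) (1 - 8 * X) := by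
      have h2 := map_FH (Polynomial.coeToPowerSeries.ringHom (R := ZMod p)) p
        (-(1 + Polynomial.X)) (1 - 8 * Polynomial.X)
      rw [map_neg, map_add, map_one, map_sub, map_one, map_mul, map_ofNat] at h2
      simp only [Polynomial.coeToPowerSeries.ringHom_apply, Polynomial.coe_X] at h2
      exact h2
    have hL : L2 (FH p (-(1 + X)) (1 - 8 * X : (ZMod p)⟦X⟧)) = 0 := by
      rw [L2_A3 (by omega) (by rw [ZMod.natCast_self]; ring), A08_cast_zero]
      ring
    have hdeg : (FH p (-(1 + Polynomial.X)) (1 - 8 * Polynomial.X :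
        Polynomial (ZMod p))).natDegree < p :=
      A08_deg_FH (by omega) (by compute_degree) (by compute_degree)
    have hkey := A08_key _ hdeg (by rw [hcoe]; exact hL)
    rw [hkey]
    have h0 : (FH p (-(1 + Polynomial.X)) (1 - 8 * Polynomial.X :
        Polynomial (ZMod p))).coeff 0 = (-3) ^ ((p - 1) / 2) := by
      rw [Polynomial.coeff_zero_eq_eval_zero]
      have h2 := map_FH (Polynomial.evalRingHom (0 : ZMod p)) p (-(1 + Polynomial.X))
        (1 - 8 * Polynomial.X)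
      rw [map_neg, map_add, map_one, map_sub, map_one, map_mul, map_ofNat] at h2
      simp only [Polynomial.coe_evalRingHom, Polynomial.eval_X, mul_zero, sub_zero,
        add_zero] at h2
      rw [h2, A08_FH_one]
      have h4 := congrArg (Polynomial.evalRingHom (-1 : ZMod p)) (A08_tn_poly (p := p) h3)
      rw [map_tn, map_ea, map_eb, map_FA] at h4
      simp only [Polynomial.coe_evalRingHom, Polynomial.eval_X] at h4
      rw [← h4]
      have h5 : ea (-1 : ZMod p) = -3 := by unfold ea; ring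
      have h6 : eb (-1 : ZMod p) = 0 := by unfold eb; ring
      rw [h5, h6, A08_tn_zero]
    rw [h0, map_pow, map_neg, map_ofNat]
  have h1 := congrArg (Polynomial.eval₂RingHom φ x) hpoly
  rw [map_FH, map_mul, map_FA, A08_eval, map_neg, map_add, map_one, map_sub, map_one, map_mul,
    map_ofNat, A08_eval, map_pow, map_neg, map_ofNat] at h1
  exact h1

end Pool.Agent.Lib.MP_d4c4f0_nt
end
end
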