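import Pool.Agent.Lib.MP_d4c4f0_nt.ZS.A06

section

/-!
# B02b: the identity and solutions from a polynomial differential equation

* `IsSol.one`: the identity `T = X`, `S = om * sg a b` (from `om^2 sg = 1`: `2 om om' sg + om^2 sg' = 0`, so
  `(om sg)' = om sg'/2 = om (a T + 2b T^3)`).
* `sol_of_ode`: `D` is a unit of `K⟦X⟧`; `T = N/D`, `W = N'D - ND'`, `T' = W/D^2`, `S = W (sg a1 b1) om /(mu D^2)`; then
  `T' = mu om S` as `om^2 sg = 1`, `S^2 = W^2 sg /(mu^2 D^4) = 1 + aT^2 + bT^4`; `W(0) = N_1 D_0 = mu D_0^2`, so `S(0) = 1`.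
  Conclude with `of_sq`.
-/

set_option autoImplicit false

namespace Pool.Agent.Lib.MP_d4c4f0_nt

open PowerSeries

variable {K : Type*} [Field K] [CharZero K] {om : K⟦X⟧} {a b mu : K} {T S : K⟦X⟧}

omit [CharZero K] in
private theorem dmul (f g : K⟦X⟧) : d⁄dX K (f * g) = f * d⁄dX K g + g * d⁄dX K f := by
  rw [Derivation.leibniz]
  simp [smul_eq_mul]

omit [CharZero K] in
private theorem sg_coe (a b : K) : (sg a b : K⟦X⟧) = 1 + C a * X ^ 2 + C b * X ^ 4 := by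
  simp [sg]

theorem IsSol.one (ho : Om a b om) : IsSol om a b 1 X (om * (sg a b : K⟦X⟧)) := by
  have hsq := ho.sq
  have hcc := ho.cc
  refine IsSol.of_sq (by simp) ?_ ?_ ?_
  · rw [map_mul, hcc, sg_coe]
    simp
  · rw [PowerSeries.derivative_X, map_one, one_mul, ← mul_assoc, ← pow_two, hsq]
  · calc (om * (sg a b : K⟦X⟧)) ^ 2 = (om ^ 2 * (sg a b : K⟦X⟧)) * (sg a b : K⟦X⟧) := by ring
      _ = 1 + C a * X ^ 2 + C b * X ^ 4 := by rw [hsq, one_mul, sg_coe]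

theorem sol_of_ode {a1 b1 : K} (ho : Om a1 b1 om) (hmu : mu ≠ 0) {N D : Polynomial K}
    (hN0 : N.coeff 0 = 0) (hD0 : D.coeff 0 ≠ 0) (hN1 : N.coeff 1 = mu * D.coeff 0)
    (hode : (Polynomial.derivative N * D - N * Polynomial.derivative D) ^ 2 * sg a1 b1 =
      Polynomial.C (mu ^ 2) * (D ^ 4 + Polynomial.C a * N ^ 2 * D ^ 2 + Polynomial.C b * N ^ 4)) :
    ∃ T S : K⟦X⟧, IsSol om a b mu T S ∧ (D : K⟦X⟧) * T = (N : K⟦X⟧) ∧
      C mu * om * (D : K⟦X⟧) ^ 2 * S =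
        ((Polynomial.derivative N * D - N * Polynomial.derivative D : Polynomial K) : K⟦X⟧) := by
  have hsq := ho.sq
  have hcc := ho.cc
  set W : Polynomial K := Polynomial.derivative N * D - N * Polynomial.derivative D with hW
  have hDc : constantCoeff (D : K⟦X⟧) = D.coeff 0 := by simp
  have hNc : constantCoeff (N : K⟦X⟧) = 0 := by
    rw [← hN0]
    simp
  have hWc : constantCoeff (W : K⟦X⟧) = mu * D.coeff 0 ^ 2 := by
    have h1 : constantCoeff (W : K⟦X⟧) = W.coeff 0 := by simp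
    rw [h1, hW, Polynomial.coeff_sub, Polynomial.mul_coeff_zero, Polynomial.mul_coeff_zero,
      Polynomial.coeff_derivative, hN0]
    simp only [zero_add, hN1]
    push_cast
    ring
  have hDne : constantCoeff (D : K⟦X⟧) ≠ 0 := by rw [hDc]; exact hD0
  have hD0' : (D : K⟦X⟧) ≠ 0 := by
    intro h
    rw [h] at hDne
    simp at hDne
  set u : K⟦X⟧ := (D : K⟦X⟧)⁻¹ with hu
  have huD : (D : K⟦X⟧) * u = 1 := PowerSeries.mul_inv_cancel _ hDne
  have hu0 : D.coeff 0 * constantCoeff u = 1 := by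
    have h := congrArg constantCoeff huD
    rw [map_mul, hDc] at h
    simpa using h
  set σ : K⟦X⟧ := (sg a1 b1 : K⟦X⟧) with hσ
  have hσ0 : constantCoeff σ = 1 := by
    rw [hσ, sg_coe]
    simp
  have hmuC : (C mu : K⟦X⟧) * C mu⁻¹ = 1 := by
    rw [← map_mul, mul_inv_cancel₀ hmu, map_one]
  -- the polynomial identity in power series
  have hode' : (W : K⟦X⟧) ^ 2 * σ = C mu ^ 2 * ((D : K⟦X⟧) ^ 4 +
      C a * (N : K⟦X⟧) ^ 2 * (D : K⟦X⟧) ^ 2 + C b * (N : K⟦X⟧) ^ 4) := by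
    have h := congrArg (fun q : Polynomial K => (q : K⟦X⟧)) hode
    simpa [hσ] using h
  refine ⟨(N : K⟦X⟧) * u, C mu⁻¹ * (W : K⟦X⟧) * σ * om * u ^ 2, ?_, ?_, ?_⟩
  · refine IsSol.of_sq ?_ ?_ ?_ ?_
    · rw [map_mul, hNc, zero_mul]
    · rw [map_mul, map_mul, map_mul, map_mul, map_pow, hσ0, hcc, hWc]
      have h2 : constantCoeff (C mu⁻¹ : K⟦X⟧) = mu⁻¹ := by simp
      rw [h2]
      have h3 : mu⁻¹ * (mu * D.coeff 0 ^ 2) * 1 * 1 * constantCoeff u ^ 2 =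
          (mu⁻¹ * mu) * (D.coeff 0 * constantCoeff u) ^ 2 := by ring
      rw [h3, hu0, inv_mul_cancel₀ hmu]
      ring
    · have d1 : (D : K⟦X⟧) * d⁄dX K ((N : K⟦X⟧) * u) +
          ((N : K⟦X⟧) * u) * d⁄dX K (D : K⟦X⟧) = d⁄dX K (N : K⟦X⟧) := by
        rw [← dmul]
        congr 1
        calc (D : K⟦X⟧) * ((N : K⟦X⟧) * u) = (N : K⟦X⟧) * ((D : K⟦X⟧) * u) := by ring
          _ = (N : K⟦X⟧) := by rw [huD, mul_one]
      have dN : d⁄dX K (N : K⟦X⟧) = ((Polynomial.derivative N : Polynomial K) : K⟦X⟧) := by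
        simp [PowerSeries.derivative_coe]
      have dD : d⁄dX K (D : K⟦X⟧) = ((Polynomial.derivative D : Polynomial K) : K⟦X⟧) := by
        simp [PowerSeries.derivative_coe]
      have hWs : (W : K⟦X⟧) = d⁄dX K (N : K⟦X⟧) * (D : K⟦X⟧) -
          (N : K⟦X⟧) * d⁄dX K (D : K⟦X⟧) := by
        rw [dN, dD, hW]
        simp
      have h3 : (D : K⟦X⟧) ^ 2 * d⁄dX K ((N : K⟦X⟧) * u) = (D : K⟦X⟧) ^ 2 *
          (C mu * om * (C mu⁻¹ * (W : K⟦X⟧) * σ * om * u ^ 2)) := by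
        have h4 : (D : K⟦X⟧) ^ 2 * (C mu * om * (C mu⁻¹ * (W : K⟦X⟧) * σ * om * u ^ 2)) =
            (C mu * C mu⁻¹) * (om ^ 2 * σ) * ((D : K⟦X⟧) * u) ^ 2 * (W : K⟦X⟧) := by ring
        rw [h4, hmuC, hsq, huD, hWs]
        have h5 : (N : K⟦X⟧) * d⁄dX K (D : K⟦X⟧) =
            ((D : K⟦X⟧) * u) * ((N : K⟦X⟧) * d⁄dX K (D : K⟦X⟧)) := by rw [huD, one_mul]
        rw [h5]
        linear_combination (D : K⟦X⟧) * d1
      exact mul_left_cancel₀ (pow_ne_zero 2 hD0') h3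
    · calc (C mu⁻¹ * (W : K⟦X⟧) * σ * om * u ^ 2) ^ 2
          = C mu⁻¹ ^ 2 * ((W : K⟦X⟧) ^ 2 * σ) * (om ^ 2 * σ) * u ^ 4 := by ring
        _ = (C mu * C mu⁻¹) ^ 2 * (((D : K⟦X⟧) * u) ^ 4 +
            C a * ((N : K⟦X⟧) * u) ^ 2 * ((D : K⟦X⟧) * u) ^ 2 +
            C b * ((N : K⟦X⟧) * u) ^ 4) := by
            rw [hode', hsq]
            ring
        _ = 1 + C a * ((N : K⟦X⟧) * u) ^ 2 + C b * ((N : K⟦X⟧) * u) ^ 4 := by
            rw [hmuC, huD]
            ring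
  · calc (D : K⟦X⟧) * ((N : K⟦X⟧) * u) = (N : K⟦X⟧) * ((D : K⟦X⟧) * u) := by ring
      _ = (N : K⟦X⟧) := by rw [huD, mul_one]
  · calc C mu * om * (D : K⟦X⟧) ^ 2 * (C mu⁻¹ * (W : K⟦X⟧) * σ * om * u ^ 2)
        = (C mu * C mu⁻¹) * (om ^ 2 * σ) * ((D : K⟦X⟧) * u) ^ 2 * (W : K⟦X⟧) := by ring
      _ = (W : K⟦X⟧) := by
          rw [hmuC, hsq, huD]
          ring

end Pool.Agent.Lib.MP_d4c4f0_nt
end

section

/-!
# B16: estimates for an isogeny of degree `p`, first part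

`hk`: `‖k‖ = 1` for `0 < k < p`; `π = ‖p‖ < 1`.
* `est_T`: `k T_k = coeff (k-1) (mu om S)`, so `‖T_k‖ ≤ ‖mu‖` for `0 < k < p`; `T_0 = 0`.
* `est_ND`: put `M = max_j ‖d_j‖ ≥ 1` (over `j < p`, `d_0 = 1`). `N = T D`: for `k < p`: `n_k = ∑_{j ≤ k} T_{k-j} d_j`, so
  `‖n_k‖ ≤ π M`. For `1 ≤ j ≤ p`: `‖d_j‖ = ‖κ‖ ‖β1‖^j ‖n_{p-j}‖ ≤ π M < M`. So the maximum is `‖d_0‖ = 1`, `M = 1`, and
  `‖d_j‖ ≤ π` (`j ≥ 1`), `‖n_k‖ ≤ π` (`k < p`).
* `est_S`: `S^2 = 1 + aT^2 + bT^4`, and the coefficients of `T^2`, `T^4` in degree `< p` are `≤ π^2` (products of two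
  coefficients `T_i`, `i < p`), so `2 S_k = (aT^2+bT^4)_k - ∑_{0<i<k} S_i S_{k-i}` gives `‖S_k‖ ≤ π^2` for `0 < k < p`.
-/

set_option autoImplicit false

namespace Pool.Agent.Lib.MP_d4c4f0_nt

open PowerSeries

variable {K : Type*} [NormedField K] [IsUltrametricDist K] [CharZero K] {om T S : K⟦X⟧}
  {a b mu β1 κ : K} {p : ℕ} {N D : Polynomial K}

omit [CharZero K] in
private theorem coeff_mul_le {y z : K⟦X⟧} {A B : ℝ} (k : ℕ) (hA : 0 ≤ A) (hB : 0 ≤ B)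
    (hy : ∀ i ≤ k, ‖coeff i y‖ ≤ A) (hz : ∀ i ≤ k, ‖coeff i z‖ ≤ B) :
    ‖coeff k (y * z)‖ ≤ A * B := by
  rw [coeff_mul]
  refine IsUltrametricDist.norm_sum_le_of_forall_le_of_nonneg (mul_nonneg hA hB) ?_
  rintro ⟨i, j⟩ hij
  rw [Finset.HasAntidiagonal.mem_antidiagonal] at hij
  simp only at hij
  rw [norm_mul]
  exact mul_le_mul (hy i (by omega)) (hz j (by omega)) (norm_nonneg _) hA

theorem est_T (hk : ∀ k : ℕ, 0 < k → k < p → ‖(k : K)‖ = 1) (h : IsSol om a b mu T S)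
    (ho : Intg om) (hS : Intg S) : ∀ k < p, ‖coeff k T‖ ≤ ‖mu‖ := by
  intro k hkp
  rcases Nat.eq_zero_or_pos k with h0 | h0
  · subst h0
    rw [coeff_zero_eq_constantCoeff_apply, h.T0, norm_zero]
    exact norm_nonneg _
  · obtain ⟨n, rfl⟩ : ∃ n, k = n + 1 := ⟨k - 1, by omega⟩
    have h1 := congrArg (coeff n) h.dT
    rw [coeff_derivative, mul_assoc, coeff_C_mul] at h1
    have h2 := hk (n + 1) h0 hkp
    have h3 := congrArg norm h1
    rw [norm_mul, norm_mul] at h3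
    have h4 : ‖((n : K) + 1)‖ = 1 := by
      rw [← h2]
      push_cast
      rfl
    rw [h4, mul_one] at h3
    rw [h3]
    have h5 := (ho.mul hS) n
    calc ‖mu‖ * ‖coeff n (om * S)‖ ≤ ‖mu‖ * 1 :=
          mul_le_mul_of_nonneg_left h5 (norm_nonneg _)
      _ = ‖mu‖ := mul_one _

theorem est_ND {π : ℝ} (h0 : 0 ≤ π) (h1 : π < 1) (hT : ∀ k < p, ‖coeff k T‖ ≤ π)
    (e : (D : K⟦X⟧) * T = (N : K⟦X⟧)) (hD : D.natDegree < p) (hD0 : D.coeff 0 = 1)
    (hκ : ‖κ‖ = 1) (hβ : ‖β1‖ = 1) (hs : ∀ j ≤ p, D.coeff j = κ * β1 ^ j * N.coeff (p - j)) :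
    (∀ j, 1 ≤ j → ‖D.coeff j‖ ≤ π) ∧ ∀ k < p, ‖N.coeff k‖ ≤ π := by
  have hp : 0 < p := lt_of_le_of_lt (Nat.zero_le _) hD
  obtain ⟨j0, hj0, hmax⟩ := Finset.exists_max_image (Finset.range p) (fun j => ‖D.coeff j‖)
    ⟨0, Finset.mem_range.2 hp⟩
  rw [Finset.mem_range] at hj0
  have hM1 : 1 ≤ ‖D.coeff j0‖ := by
    have h := hmax 0 (Finset.mem_range.2 hp)
    simpa [hD0] using h
  have hN : ∀ k < p, ‖N.coeff k‖ ≤ ‖D.coeff j0‖ * π := by
    intro k hk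
    have h2 : coeff k (N : K⟦X⟧) = N.coeff k := Polynomial.coeff_coe N k
    rw [← h2, ← e]
    refine coeff_mul_le k (norm_nonneg _) h0 ?_ ?_
    · intro i hi
      rw [Polynomial.coeff_coe]
      exact hmax i (Finset.mem_range.2 (by omega))
    · intro i hi
      exact hT i (by omega)
  have hDj : ∀ j, 1 ≤ j → j ≤ p → ‖D.coeff j‖ ≤ ‖D.coeff j0‖ * π := by
    intro j h2 h3
    rw [hs j h3, norm_mul, norm_mul, norm_pow, hκ, hβ, one_pow, one_mul, one_mul]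
    exact hN _ (by omega)
  have hj00 : j0 = 0 := by
    by_contra hne
    have h2 := hDj j0 (by omega) hj0.le
    have h3 : 0 < ‖D.coeff j0‖ := by linarith
    nlinarith
  rw [hj00, hD0, norm_one, one_mul] at hDj
  rw [hj00, hD0, norm_one, one_mul] at hN
  refine ⟨fun j hj => ?_, hN⟩
  rcases le_or_gt j p with h2 | h2
  · exact hDj j hj h2
  · rw [Polynomial.coeff_eq_zero_of_natDegree_lt (by omega), norm_zero]
    exact h0

theorem est_S {π : ℝ} (h0 : 0 ≤ π) (h1 : π < 1) (h2 : ‖(2 : K)‖ = 1) (ha : ‖a‖ ≤ 1)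
    (hb : ‖b‖ ≤ 1) (h : IsSol om a b mu T S) (hTi : Intg T) (hT : ∀ k < p, ‖coeff k T‖ ≤ π) :
    ∀ k, 0 < k → k < p → ‖coeff k S‖ ≤ π ^ 2 := by
  have hπ2 : π ^ 2 ≤ 1 := by nlinarith
  have hπ0 : 0 ≤ π ^ 2 := by positivity
  have hT2 : ∀ k < p, ‖coeff k (T ^ 2)‖ ≤ π ^ 2 := by
    intro k hk
    rw [pow_two, pow_two]
    exact coeff_mul_le k h0 h0 (fun i hi => hT i (by omega)) (fun i hi => hT i (by omega))
  have hT4 : ∀ k < p, ‖coeff k (T ^ 4)‖ ≤ π ^ 2 := by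
    intro k hk
    have h3 : T ^ 4 = T ^ 2 * T ^ 2 := by ring
    rw [h3]
    refine (coeff_mul_le k hπ0 hπ0 (fun i hi => hT2 i (by omega))
      (fun i hi => hT2 i (by omega))).trans ?_
    nlinarith
  have hSk : ∀ k, 0 < k → k < p → ‖coeff k (S ^ 2)‖ ≤ π ^ 2 := by
    intro k hk0 hk
    rw [h.sq, map_add, map_add, coeff_C_mul, coeff_C_mul, coeff_one, if_neg (by omega), zero_add]
    refine (IsUltrametricDist.norm_add_le_max _ _).trans (max_le ?_ ?_)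
    · rw [norm_mul]
      calc ‖a‖ * ‖coeff k (T ^ 2)‖ ≤ 1 * π ^ 2 :=
            mul_le_mul ha (hT2 k hk) (norm_nonneg _) zero_le_one
        _ = π ^ 2 := one_mul _
    · rw [norm_mul]
      calc ‖b‖ * ‖coeff k (T ^ 4)‖ ≤ 1 * π ^ 2 :=
            mul_le_mul hb (hT4 k hk) (norm_nonneg _) zero_le_one
        _ = π ^ 2 := one_mul _
  intro k
  induction k using Nat.strong_induction_on with
  | _ k ih =>
    intro hk0 hk
    have hS0 : coeff 0 S = 1 := by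
      rw [coeff_zero_eq_constantCoeff_apply]
      exact h.S0
    have h3 := hSk k hk0 hk
    rw [pow_two, coeff_mul] at h3
    have m1 : ((0, k) : ℕ × ℕ) ∈ Finset.HasAntidiagonal.antidiagonal k := by
      rw [Finset.HasAntidiagonal.mem_antidiagonal]
      simp
    have m2 : ((k, 0) : ℕ × ℕ) ∈ (Finset.HasAntidiagonal.antidiagonal k).erase (0, k) := by
      rw [Finset.mem_erase, Finset.HasAntidiagonal.mem_antidiagonal]
      refine ⟨?_, by simp⟩
      intro h4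
      rw [Prod.mk.injEq] at h4
      omega
    rw [← Finset.add_sum_erase _ _ m1, ← Finset.add_sum_erase _ _ m2] at h3
    simp only [hS0, one_mul, mul_one] at h3
    set r : K := ∑ x ∈ ((Finset.HasAntidiagonal.antidiagonal k).erase (0, k)).erase (k, 0),
      coeff x.1 S * coeff x.2 S with hr
    have hr2 : ‖r‖ ≤ π ^ 2 := by
      rw [hr]
      refine IsUltrametricDist.norm_sum_le_of_forall_le_of_nonneg hπ0 ?_
      rintro ⟨i, j⟩ hij
      rw [Finset.mem_erase, Finset.mem_erase, Finset.HasAntidiagonal.mem_antidiagonal] at hij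
      obtain ⟨h4, h5, h6⟩ := hij
      simp only at h6
      have hi : 0 < i := by
        rcases Nat.eq_zero_or_pos i with h7 | h7
        · exfalso
          apply h5
          rw [Prod.mk.injEq]
          omega
        · exact h7
      have hj : 0 < j := by
        rcases Nat.eq_zero_or_pos j with h7 | h7
        · exfalso
          apply h4
          rw [Prod.mk.injEq]
          omega
        · exact h7
      have h7 := ih i (by omega) hi (by omega)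
      have h8 := ih j (by omega) hj (by omega)
      rw [norm_mul]
      calc ‖coeff i S‖ * ‖coeff j S‖ ≤ π ^ 2 * π ^ 2 :=
            mul_le_mul h7 h8 (norm_nonneg _) hπ0
        _ ≤ π ^ 2 := by nlinarith
    have h9 : 2 * coeff k S = (coeff k S + (coeff k S + r)) - r := by ring
    have h10 : ‖2 * coeff k S‖ ≤ π ^ 2 := by
      rw [h9, sub_eq_add_neg]
      refine (IsUltrametricDist.norm_add_le_max _ _).trans (max_le h3 ?_)
      rw [norm_neg]
      exact hr2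
    rw [norm_mul, h2, one_mul] at h10
    exact h10

end Pool.Agent.Lib.MP_d4c4f0_nt
end
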