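import Pool.Agent.Lib.MP_d4c4f0_nt.ZS.Defs
import Pool.Agent.Lib.MP_d4c4f0_nt.ZS.A08
import Pool.Agent.Lib.MP_d4c4f0_nt.ZS.A03
import Pool.Agent.Lib.MP_d4c4f0_nt.ZS.B11b
import Pool.Agent.Lib.MP_d4c4f0_nt.ZS.B16

section

section

/-!
# C02: small algebra lemmas in a ring with `π^2 = 0`

* `four_root`: `X = Y + πz`: `X^4 = Y^4 + 4Y^3 π z`, so `4 Y^3 π z = 0`, `π z = 0`.
* `alg_eight`: put `α = c + πz` and `α3 = c3 + πz3`: `ε β α3 = 4c - 3α = c - 3πz`, so `α^3 (ε β α3) = (c+πz)^3 (c-3πz) = c^4`;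
  similarly `α3^3 (ε β3 α) = c3^4`. Then `c^12 β3 = α^9 ε^3 β^3 α3^3 β3 = α^8 β^3 (α3^3 ε β3 α) = α^8 β^3 c3^4` (`ε^2 = 1`).
* `two_step`: `(1+πz)^2 = 2(1+πz) - 1`.
-/

set_option autoImplicit false

namespace Pool.Agent.Lib.MP_d4c4f0_nt

variable {S : Type*} [CommRing S] {π : S}

theorem four_root (hπ : π ^ 2 = 0) {X Y z : S} (hXY : X - Y = π * z) (hY : IsUnit Y)
    (h4 : IsUnit (4 : S)) (h : X ^ 4 = Y ^ 4) : X = Y := by
  have hX : X = Y + π * z := by rw [← hXY]; ring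
  subst hX
  have h1 : (4 * Y ^ 3) * (π * z) = (4 * Y ^ 3) * 0 := by
    linear_combination h - z ^ 2 * (6 * Y ^ 2 + 4 * Y * π * z + π ^ 2 * z ^ 2) * hπ
  have h2 := (h4.mul (hY.pow 3)).mul_left_cancel h1
  rw [h2, add_zero]

theorem alg_eight (hπ : π ^ 2 = 0) {α α3 c c3 β β3 ε z z3 : S} (hε : ε ^ 2 = 1)
    (h1 : 4 * c = 3 * α + ε * (β * α3)) (h2 : 4 * c3 = 3 * α3 + ε * (β3 * α))
    (hz : c - α = π * z) (hz3 : c3 - α3 = π * z3) :
    α ^ 8 * β ^ 3 * c3 ^ 4 = c ^ 12 * β3 := by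
  have hα : α = c - π * z := by rw [← hz]; ring
  have hα3 : α3 = c3 - π * z3 := by rw [← hz3]; ring
  -- `ε β α3 = c + 3 π z`
  have e1 : ε * (β * α3) = c + 3 * (π * z) := by rw [hα] at h1; linear_combination -h1
  have e2 : ε * (β3 * α) = c3 + 3 * (π * z3) := by rw [hα3] at h2; linear_combination -h2
  have f1 : α ^ 3 * (ε * (β * α3)) = c ^ 4 := by
    rw [e1, hα]
    linear_combination z ^ 2 * (-6 * c ^ 2 + 8 * c * π * z - 3 * π ^ 2 * z ^ 2) * hπ
  have f2 : α3 ^ 3 * (ε * (β3 * α)) = c3 ^ 4 := by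
    rw [e2, hα3]
    linear_combination z3 ^ 2 * (-6 * c3 ^ 2 + 8 * c3 * π * z3 - 3 * π ^ 2 * z3 ^ 2) * hπ
  have f3 : ε ^ 4 = 1 := by
    calc ε ^ 4 = (ε ^ 2) ^ 2 := by ring
      _ = 1 := by rw [hε]; ring
  calc α ^ 8 * β ^ 3 * c3 ^ 4 = α ^ 8 * β ^ 3 * (α3 ^ 3 * (ε * (β3 * α))) := by rw [f2]
    _ = ε * (α ^ 9 * β ^ 3 * α3 ^ 3 * β3) := by ring
    _ = (α ^ 3 * (ε * (β * α3))) ^ 3 * β3 := by
      linear_combination (-(ε * (α ^ 9 * β ^ 3 * α3 ^ 3 * β3))) * hε
    _ = c ^ 12 * β3 := by rw [f1]; ring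

theorem two_step (hπ : π ^ 2 = 0) {f z : S} (h : f - 1 = π * z) : f ^ 2 = 2 * f - 1 := by
  have h1 : (f - 1) ^ 2 = 0 := by rw [h, mul_pow, hπ, zero_mul]
  linear_combination h1

end Pool.Agent.Lib.MP_d4c4f0_nt
end

section

/-!
# A09: the linear identity modulo `p^2`

`S` a commutative ring with `p^2 = 0`, `p > 3` prime, `n = (p-1)/2`, `ε = ±1` the integer with `ε ≡ (-3)^n mod p`:
`4 tn n (ea x) (eb x) = 3 FA p x + ε FH p (-(1+x)) (1-8x)`.
Proof. As in A08 it suffices to treat `S = (ZMod (p^2))[X]`, `x = X`, and this in `(ZMod (p^2))⟦X⟧`. Put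
`c = tn .. X`, `A = FA p X`, `A3 = FH ..`. By `L2_FA`, `L2_A3`, `L2_tn`:
`L2 (4c - 3A - ε A3) = -8pX ((1+2X) + 2(1+X)θ) (c - ε A3)`, and `p (c - ε A3) = 0` because `c = A`, `A3 = ε A` modulo `p`
(A08 over `ZMod p`; a series over `ZMod (p^2)` that vanishes in `ZMod p` is killed by `p`). So `F = 4c - 3A - εA3`
satisfies `L2 F = 0` and has no coefficient in degree `≥ p` (`deg c ≤ 2n = p - 1`), hence `F = F_0 * A` (`L2_unique`; the
numbers `1, ..., p-1` are units), i.e. as polynomials, `F(x) = F(0) A(x)` for all `x`.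
`F(0) = 4 - 3 - ε A(-1)` (`A3(0) = A(-1)`), and at `x = -1`: `c(-1) = (-3)^n =: h`, `A3(-1) = 9^(p-1) A(0) = h^4`
(as `h^2 = (-3)^(p-1)`), so with `y = A(-1)`: `4h - 3y - ε h^4 = (1 - ε y) y`. Multiply by `ε`:
`y^2 - 4εy + 4εh - h^4 = 0` (here `ε^2 = 1`). Modulo `p`: `y = h = ε` (A08). Write `y = ε + a`, `h = ε + b`,
`a^2 = b^2 = ab = 0`: `y^2 - 4εy = -3 - 2εa`, `4εh - h^4 = 4 + 4εb - 1 - 4εb = 3`. So `2εa = 0`, `y = ε`, `F(0) = 0`.
-/

set_option autoImplicit false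

open Finset PowerSeries

namespace Pool.Agent.Lib.MP_d4c4f0_nt

variable {S : Type*} [CommRing S]

private theorem tn_zero_right (n : ℕ) (A : S) : tn n A 0 = A ^ n := by
  unfold tn
  rw [sum_eq_single 0]
  · simp
  · intro k _ hk
    rw [zero_pow hk, mul_zero]
  · intro h
    exact absurd (mem_range.2 (Nat.succ_pos _)) h

private theorem FA_zero' {p : ℕ} (hp : 0 < p) : FA p (0 : S) = 1 := by
  unfold FA
  rw [sum_eq_single 0]
  · simp [fr_zero]
  · intro k _ hk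
    rw [zero_pow hk, mul_zero]
  · intro h
    exact absurd (mem_range.2 hp) h

private theorem FH_zero_left {p : ℕ} (hp : 0 < p) (v : S) : FH p 0 v = v ^ (p - 1) := by
  unfold FH
  rw [sum_eq_single 0]
  · simp [fr_zero]
  · intro k _ hk
    rw [zero_pow hk, mul_zero, zero_mul]
  · intro h
    exact absurd (mem_range.2 hp) h

private theorem FH_one_right (p : ℕ) (u : S) : FH p u 1 = FA p u := by
  unfold FH FA
  apply sum_congr rfl
  intro k _
  rw [one_pow, mul_one]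

private theorem L2_add' {R : Type*} [CommRing R] (f g : R⟦X⟧) : L2 (f + g) = L2 f + L2 g := by
  unfold L2
  rw [map_add, map_add]
  ring

private theorem L2_C' {R : Type*} [CommRing R] (r : ℤ) (f : R⟦X⟧) :
    L2 ((r : R⟦X⟧) * f) = (r : R⟦X⟧) * L2 f := by
  have h1 : th ((r : R⟦X⟧)) = 0 := Derivation.map_intCast _ _
  have h2 : ∀ g : R⟦X⟧, th ((r : R⟦X⟧) * g) = (r : R⟦X⟧) * th g := by
    intro g
    rw [th_mul, h1]; ring
  unfold L2
  rw [h2, h2]
  ring

/-- elements of `ZMod (p^2)` vanishing modulo `p` are multiples of `p` -/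
private theorem dvd_of_cast {p : ℕ} (hp : p.Prime) (a : ZMod (p ^ 2))
    (h : ZMod.castHom (dvd_pow_self p two_ne_zero) (ZMod p) a = 0) :
    ∃ k : ZMod (p ^ 2), a = (p : ZMod (p ^ 2)) * k := by
  have : NeZero (p ^ 2) := ⟨pow_ne_zero _ hp.ne_zero⟩
  have h1 : ((a.val : ℕ) : ZMod (p ^ 2)) = a := ZMod.natCast_zmod_val a
  rw [← h1, map_natCast, ZMod.natCast_eq_zero_iff] at h
  obtain ⟨k, hk⟩ := h
  refine ⟨(k : ZMod (p ^ 2)), ?_⟩
  rw [← h1, hk]
  push_cast
  ring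

private theorem natDegree_fun {R : Type*} [CommRing R] (p : ℕ) :
    (FH p (-(1 + Polynomial.X)) (1 - 8 * Polynomial.X) : Polynomial R).natDegree ≤ p - 1 := by
  unfold FH
  apply Polynomial.natDegree_sum_le_of_forall_le
  intro k hk
  have hk' := mem_range.1 hk
  have e1 : (-(1 + Polynomial.X) : Polynomial R).natDegree ≤ 1 := by compute_degree
  have e2 : (1 - 8 * Polynomial.X : Polynomial R).natDegree ≤ 1 := by compute_degree
  have h1 : ((fr k : Polynomial R) * (-(1 + Polynomial.X)) ^ k).natDegree ≤ k := by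
    refine Polynomial.natDegree_mul_le.trans ?_
    have h3 := Polynomial.natDegree_natCast (R := R) (fr k)
    have h4 := Polynomial.natDegree_pow_le_of_le k e1
    omega
  have h2 := Polynomial.natDegree_pow_le_of_le (p - 1 - k) e2
  refine Polynomial.natDegree_mul_le.trans ?_
  omega

private theorem natDegree_FA {R : Type*} [CommRing R] (p : ℕ) :
    (FA p Polynomial.X : Polynomial R).natDegree ≤ p - 1 := by
  unfold FA
  apply Polynomial.natDegree_sum_le_of_forall_le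
  intro k hk
  have hk' := mem_range.1 hk
  refine Polynomial.natDegree_mul_le.trans ?_
  have h3 := Polynomial.natDegree_natCast (R := R) (fr k)
  have h4 := Polynomial.natDegree_X_pow_le (R := R) k
  omega

private theorem natDegree_tn {R : Type*} [CommRing R] (n : ℕ) :
    (tn n (ea Polynomial.X) (eb Polynomial.X) : Polynomial R).natDegree ≤ 2 * n := by
  unfold tn
  apply Polynomial.natDegree_sum_le_of_forall_le
  intro k hk
  have hk' := mem_range.1 hk
  have e1 : (ea Polynomial.X : Polynomial R).natDegree ≤ 2 := by unfold ea; compute_degree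
  have e2 : (eb Polynomial.X : Polynomial R).natDegree ≤ 4 := by unfold eb; compute_degree
  have h1 : (((n.choose (2 * k) * (2 * k).choose k : ℕ) : Polynomial R) *
      (ea Polynomial.X) ^ (n - 2 * k)).natDegree ≤ (n - 2 * k) * 2 := by
    refine Polynomial.natDegree_mul_le.trans ?_
    have h3 := Polynomial.natDegree_natCast (R := R) (n.choose (2 * k) * (2 * k).choose k)
    have h4 := Polynomial.natDegree_pow_le_of_le (n - 2 * k) e1
    omega
  have h2 := Polynomial.natDegree_pow_le_of_le k e2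
  refine Polynomial.natDegree_mul_le.trans ?_
  omega

private theorem lin_poly {p : ℕ} (hp : p.Prime) (h3 : 3 < p)
    {ε : ℤ} (hε : ε ^ 2 = 1) (hε' : (p : ℤ) ∣ (-3) ^ ((p - 1) / 2) - ε) :
    4 * tn ((p - 1) / 2) (ea Polynomial.X) (eb Polynomial.X) =
      3 * FA p Polynomial.X + (ε : Polynomial (ZMod (p ^ 2))) *
        FH p (-(1 + Polynomial.X)) (1 - 8 * Polynomial.X) := by
  set n := (p - 1) / 2 with hn
  have : NeZero (p ^ 2) := ⟨pow_ne_zero _ hp.ne_zero⟩
  have : Fact p.Prime := ⟨hp⟩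
  have hodd : p % 2 = 1 := by
    rcases hp.eq_two_or_odd with h | h
    · omega
    · exact h
  have hpn : p = 2 * n + 1 := by omega
  have hp2 : ((p : ℕ) : ZMod (p ^ 2)) ^ 2 = 0 := by
    have := ZMod.natCast_self (p ^ 2)
    push_cast at this
    exact this
  have hpS : ((p : ℕ) : (ZMod (p ^ 2))⟦X⟧) ^ 2 = 0 := by
    have h1 : ((p : ℕ) : (ZMod (p ^ 2))⟦X⟧) = C ((p : ℕ) : ZMod (p ^ 2)) := by simp
    rw [h1, ← map_pow, hp2, map_zero]
  let f : ZMod (p ^ 2) →+* ZMod p := ZMod.castHom (dvd_pow_self p two_ne_zero) (ZMod p)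
  have hpz : ((p : ℕ) : ZMod p) = 0 := ZMod.natCast_self p
  have hpz' : ((p : ℕ) : Polynomial (ZMod p)) = 0 := by
    have h1 : ((p : ℕ) : Polynomial (ZMod p)) = Polynomial.C ((p : ℕ) : ZMod p) := by simp
    rw [h1, hpz, map_zero]
  have hεp : ((-3 : ZMod p)) ^ n = ((ε : ℤ) : ZMod p) := by
    have h1 := (ZMod.intCast_zmod_eq_zero_iff_dvd ((-3) ^ n - ε) p).2 hε'
    push_cast at h1
    exact sub_eq_zero.1 h1
  have hε2 : ∀ (T : Type) [CommRing T], ((ε : ℤ) : T) ^ 2 = 1 := by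
    intro T _
    rw [← Int.cast_pow, hε, Int.cast_one]
  set c : Polynomial (ZMod (p ^ 2)) := tn n (ea Polynomial.X) (eb Polynomial.X) with hc
  set A : Polynomial (ZMod (p ^ 2)) := FA p Polynomial.X with hA
  set A3 : Polynomial (ZMod (p ^ 2)) := FH p (-(1 + Polynomial.X)) (1 - 8 * Polynomial.X) with hA3
  -- p kills c - ε A3
  have hkill : ((p : ℕ) : Polynomial (ZMod (p ^ 2))) * (c - ((ε : ℤ) : Polynomial (ZMod (p ^ 2))) * A3) = 0 := by
    have h1 : (c - ((ε : ℤ) : Polynomial (ZMod (p ^ 2))) * A3).map f = 0 := by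
      have e1 : c.map f = tn n (ea Polynomial.X) (eb Polynomial.X) := by
        have := map_tn (Polynomial.mapRingHom f) n (ea Polynomial.X) (eb Polynomial.X)
        rw [map_ea, map_eb] at this
        simpa [hc] using this
      have e2 : A3.map f = FH p (-(1 + Polynomial.X)) (1 - 8 * Polynomial.X) := by
        have := map_FH (Polynomial.mapRingHom f) p (-(1 + Polynomial.X)) (1 - 8 * Polynomial.X)
        simpa [hA3] using this
      rw [Polynomial.map_sub, Polynomial.map_mul, e1, e2, Polynomial.map_intCast,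
        hn, tn_mod hp h3 hpz', A3_mod hp h3 hpz', ← hn]
      have e3 : ((-3 : Polynomial (ZMod p))) ^ n = ((ε : ℤ) : Polynomial (ZMod p)) := by
        have := congrArg (Polynomial.C : ZMod p →+* Polynomial (ZMod p)) hεp
        rwa [map_pow, map_neg, map_ofNat, map_intCast] at this
      rw [e3]
      have e4 := hε2 (Polynomial (ZMod p))
      linear_combination (-(FA p Polynomial.X : Polynomial (ZMod p))) * e4
    ext k
    have h2 : f ((c - ((ε : ℤ) : Polynomial (ZMod (p ^ 2))) * A3).coeff k) = 0 := by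
      rw [← Polynomial.coeff_map, h1, Polynomial.coeff_zero]
    obtain ⟨u, hu⟩ := dvd_of_cast hp _ h2
    have h4 : ((p : ℕ) : Polynomial (ZMod (p ^ 2))) = Polynomial.C ((p : ℕ) : ZMod (p ^ 2)) := by
      simp
    rw [h4, Polynomial.coeff_C_mul, hu, Polynomial.coeff_zero, ← mul_assoc, ← pow_two, hp2,
      zero_mul]
  -- power series
  let ψ : Polynomial (ZMod (p ^ 2)) →+* (ZMod (p ^ 2))⟦X⟧ := Polynomial.coeToPowerSeries.ringHom
  have hψX : ψ Polynomial.X = (X : (ZMod (p ^ 2))⟦X⟧) := by simp [ψ]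
  have ec : ψ c = tn n (ea X) (eb X) := by
    rw [hc, map_tn, map_ea, map_eb, hψX]
  have eA : ψ A = FA p X := by
    rw [hA, map_FA, hψX]
  have eA3 : ψ A3 = FH p (-(1 + X)) (1 - 8 * X) := by
    rw [hA3, map_FH]
    congr 1
    · rw [map_neg, map_add, hψX, map_one]
    · rw [map_sub, map_mul, hψX, map_one, map_ofNat]
  have hkillS : ((p : ℕ) : (ZMod (p ^ 2))⟦X⟧) * (ψ c - ((ε : ℤ) : (ZMod (p ^ 2))⟦X⟧) * ψ A3) = 0 := by
    have := congrArg ψ hkill
    rwa [map_mul, map_natCast, map_sub, map_mul, map_intCast, map_zero] at this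
  have hkillT : ((p : ℕ) : (ZMod (p ^ 2))⟦X⟧) *
      (th (ψ c) - ((ε : ℤ) : (ZMod (p ^ 2))⟦X⟧) * th (ψ A3)) = 0 := by
    have h1 := congrArg th hkillS
    have h2 : th (((p : ℕ) : (ZMod (p ^ 2))⟦X⟧)) = 0 := th_natCast _
    have h3 : th ((ε : ℤ) : (ZMod (p ^ 2))⟦X⟧) = 0 := Derivation.map_intCast _ _
    rw [th_mul, h2, map_sub, th_mul, h3, map_zero] at h1
    linear_combination h1
  set F : Polynomial (ZMod (p ^ 2)) := 4 * c - (3 * A + ((ε : ℤ) : Polynomial (ZMod (p ^ 2))) * A3)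
    with hF
  have hL : L2 (ψ F) = 0 := by
    have e1 : ψ F = ((4 : ℤ) : (ZMod (p ^ 2))⟦X⟧) * ψ c + (((-3 : ℤ) : (ZMod (p ^ 2))⟦X⟧) * ψ A +
        ((-ε : ℤ) : (ZMod (p ^ 2))⟦X⟧) * ψ A3) := by
      rw [hF, map_sub, map_add, map_mul, map_mul, map_mul, map_intCast]
      push_cast
      rw [map_ofNat, map_ofNat]
      ring
    rw [e1, L2_add', L2_add', L2_C', L2_C', L2_C']
    have h1 := L2_tn (R := ZMod (p ^ 2)) hpn hp2
    have h2 := L2_FA (R := ZMod (p ^ 2)) hp.two_le hp2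
    have h4 := L2_A3 (R := ZMod (p ^ 2)) hp.two_le hp2
    rw [← ec] at h1
    rw [← eA] at h2
    rw [← eA3] at h4
    push_cast
    rw [h1, h2, h4]
    linear_combination (-8 * X * (1 + 2 * X)) * hkillS + (-8 * X * 2 * (1 + X)) * hkillT
  have hdeg : F.natDegree ≤ p - 1 := by
    rw [hF]
    have d1 : (4 * c).natDegree ≤ p - 1 := by
      have h1 := natDegree_tn (R := ZMod (p ^ 2)) n
      have h2 : ((4 : Polynomial (ZMod (p ^ 2))) * c).natDegree ≤ 0 + 2 * n := by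
        refine Polynomial.natDegree_mul_le_of_le ?_ h1
        exact (Polynomial.natDegree_ofNat 4).le
      omega
    have d2 : (3 * A).natDegree ≤ p - 1 := by
      have h1 := natDegree_FA (R := ZMod (p ^ 2)) p
      have h2 : ((3 : Polynomial (ZMod (p ^ 2))) * A).natDegree ≤ 0 + (p - 1) := by
        refine Polynomial.natDegree_mul_le_of_le ?_ h1
        exact (Polynomial.natDegree_ofNat 3).le
      omega
    have d3 : (((ε : ℤ) : Polynomial (ZMod (p ^ 2))) * A3).natDegree ≤ p - 1 := by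
      have h1 := natDegree_fun (R := ZMod (p ^ 2)) p
      have h2 : (((ε : ℤ) : Polynomial (ZMod (p ^ 2))) * A3).natDegree ≤ 0 + (p - 1) := by
        refine Polynomial.natDegree_mul_le_of_le ?_ h1
        exact (Polynomial.natDegree_intCast ε).le
      omega
    refine (Polynomial.natDegree_sub_le _ _).trans (max_le d1 ?_)
    exact (Polynomial.natDegree_add_le _ _).trans (max_le d2 d3)
  have hcoe : ∀ k, coeff k (ψ F) = F.coeff k := by
    intro k
    simp [ψ]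
  have hunit : ∀ k : ℕ, 0 < k → k < p → IsUnit ((k : ℕ) : ZMod (p ^ 2)) := by
    intro k hk0 hkp
    rw [ZMod.isUnit_iff_coprime]
    exact (Nat.coprime_pow_right_iff (by norm_num) k p).2
      ((Nat.coprime_of_lt_prime hk0.ne' hkp hp).symm)
  have hU := L2_unique hunit hL (by
    intro k hk
    rw [hcoe]
    apply Polynomial.coeff_eq_zero_of_natDegree_lt
    have := hp.pos
    omega)
  have hFp : F = Polynomial.C (F.coeff 0) * A := by
    have hinj : Function.Injective ψ := Polynomial.coe_injective _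
    apply hinj
    rw [hU, hcoe, map_mul, eA]
    congr 1
    simp [ψ]
  -- evaluation
  have ev : ∀ x : ZMod (p ^ 2), F.eval x = 4 * tn n (ea x) (eb x) - (3 * FA p x +
      ((ε : ℤ) : ZMod (p ^ 2)) * FH p (-(1 + x)) (1 - 8 * x)) := by
    intro x
    have g1 : (Polynomial.evalRingHom x) c = tn n (ea x) (eb x) := by
      rw [hc, map_tn, map_ea, map_eb]; simp
    have g2 : (Polynomial.evalRingHom x) A = FA p x := by
      rw [hA, map_FA]; simp
    have g3 : (Polynomial.evalRingHom x) A3 = FH p (-(1 + x)) (1 - 8 * x) := by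
      rw [hA3, map_FH]; simp
    have g4 : F.eval x = (Polynomial.evalRingHom x) F := rfl
    rw [g4, hF, map_sub, map_add, map_mul, map_mul, map_mul, g1, g2, g3, map_intCast, map_ofNat,
      map_ofNat]
  set y : ZMod (p ^ 2) := FA p (-1) with hy
  set h : ZMod (p ^ 2) := (-3) ^ n with hh
  set e : ZMod (p ^ 2) := ((ε : ℤ) : ZMod (p ^ 2)) with he
  have he2 : e ^ 2 = 1 := hε2 _
  have hF0 : F.coeff 0 = 1 - e * y := by
    rw [Polynomial.coeff_zero_eq_eval_zero, ev]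
    have g1 : ea (0 : ZMod (p ^ 2)) = 1 := by simp [ea]
    have g2 : eb (0 : ZMod (p ^ 2)) = 0 := by simp [eb]
    have g3 : (-(1 + 0) : ZMod (p ^ 2)) = -1 := by ring
    have g4 : (1 - 8 * 0 : ZMod (p ^ 2)) = 1 := by ring
    rw [g1, g2, tn_zero_right, FA_zero' hp.pos, g3, g4, FH_one_right, ← hy]
    ring
  have hF1 : F.eval (-1) = (1 - e * y) * y := by
    rw [hFp, Polynomial.eval_mul, Polynomial.eval_C, hF0]
    congr 1
    have : (Polynomial.evalRingHom (-1)) A = FA p (-1) := by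
      rw [hA, map_FA]; simp
    exact this
  have h9 : (9 : ZMod (p ^ 2)) ^ (p - 1) = h ^ 4 := by
    rw [hh, ← pow_mul]
    have : p - 1 = 2 * n := by omega
    rw [this, pow_mul]
    have : n * 4 = 4 * n := by ring
    rw [this, pow_mul]
    norm_num
  have hF2 : 4 * h - (3 * y + e * h ^ 4) = (1 - e * y) * y := by
    rw [← hF1, ev]
    have g1 : ea (-1 : ZMod (p ^ 2)) = -3 := by simp only [ea]; norm_num
    have g2 : eb (-1 : ZMod (p ^ 2)) = 0 := by simp [eb]
    have g3 : (-(1 + -1) : ZMod (p ^ 2)) = 0 := by ring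
    have g4 : (1 - 8 * -1 : ZMod (p ^ 2)) = 9 := by ring
    rw [g1, g2, tn_zero_right, g3, g4, FH_zero_left hp.pos, h9]
  -- modulo p
  have fy : f (y - e) = 0 := by
    have h1 : f y = FA p (-1) := by rw [hy, map_FA, map_neg, map_one]
    have h2 : f e = ((ε : ℤ) : ZMod p) := by rw [he, map_intCast]
    rw [map_sub, h1, h2, ← tn_mod hp h3 hpz, ← hn]
    have g1 : ea (-1 : ZMod p) = -3 := by simp only [ea]; norm_num
    have g2 : eb (-1 : ZMod p) = 0 := by simp [eb]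
    rw [g1, g2, tn_zero_right, hεp, sub_self]
  have fh : f (h - e) = 0 := by
    have h1 : f h = (-3) ^ n := by rw [hh, map_pow, map_neg, map_ofNat]
    have h2 : f e = ((ε : ℤ) : ZMod p) := by rw [he, map_intCast]
    rw [map_sub, h1, h2, hεp, sub_self]
  obtain ⟨a, ha⟩ := dvd_of_cast hp _ fy
  obtain ⟨b, hb⟩ := dvd_of_cast hp _ fh
  have hy' : y = e + p * a := by linear_combination ha
  have hh' : h = e + p * b := by linear_combination hb
  have hh4 : (e + p * b) ^ 4 = 1 + 4 * e * (p * b) := by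
    linear_combination (e ^ 2 + 1 + 4 * e * (p * b)) * he2 +
      (6 * e ^ 2 * b ^ 2 + 4 * e * b ^ 3 * p + b ^ 4 * p ^ 2) * hp2
  have hy2 : (e + p * a) ^ 2 = 1 + 2 * e * (p * a) := by
    linear_combination he2 + a ^ 2 * hp2
  have hfin : 2 * (p * a) = 0 := by
    rw [hy', hh'] at hF2
    linear_combination (-1) * hF2 + (2 * p * a - 4 * p * b) * he2 - e * hh4 + e * hy2
  have hu2 : IsUnit ((2 : ℕ) : ZMod (p ^ 2)) := hunit 2 (by norm_num) (by omega)
  have hpa : (p : ZMod (p ^ 2)) * a = 0 := by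
    have := hu2.mul_right_eq_zero.1 (by push_cast; exact hfin)
    exact this
  have hye : y = e := by rw [hy', hpa, add_zero]
  have hF00 : F.coeff 0 = 0 := by
    rw [hF0, hye]
    linear_combination (-1 : ZMod (p ^ 2)) * he2
  have hFzero : F = 0 := by
    rw [hFp, hF00, map_zero, zero_mul]
  exact sub_eq_zero.1 (hF ▸ hFzero)

theorem lin_identity {p : ℕ} (hp : p.Prime) (h3 : 3 < p) (hS : (p : S) ^ 2 = 0) (x : S)
    {ε : ℤ} (hε : ε ^ 2 = 1) (hε' : (p : ℤ) ∣ (-3) ^ ((p - 1) / 2) - ε) :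
    4 * tn ((p - 1) / 2) (ea x) (eb x) = 3 * FA p x + (ε : S) * FH p (-(1 + x)) (1 - 8 * x) := by
  have hS' : ((p ^ 2 : ℕ) : S) = 0 := by push_cast; exact hS
  obtain ⟨φ⟩ := exists_zmod_hom hS'
  have h := congrArg (Polynomial.eval₂RingHom φ x) (lin_poly hp h3 hε hε')
  rw [map_mul, map_add, map_mul, map_mul, map_tn, map_FA, map_FH, map_ea, map_eb, map_intCast,
    map_ofNat, map_ofNat, map_neg, map_add, map_sub, map_mul, map_one, map_ofNat] at h
  simpa using h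

end Pool.Agent.Lib.MP_d4c4f0_nt
end

section

/-!
# C04: the eighth power relation

`c(i,r) = tn ((p-1)/2) (ea x) (eb x)`, `x = cxr q i r`, `α(i,r) = FA p x`.
1. `c - α ∈ (p)`: `tn_mod` in the ring `S/(p)` (`Ideal.Quotient`, `Ideal.mem_span_singleton'`; `map_tn`, `map_FA`, `map_ea`, `map_eb`),
   lemma `tn_mod'`. `FB_mod'` the same with `FB_mod`, `map_FH`.
2. `cm_eight`: `lin_identity` at `x` and `x3 = cxr q i (-r)`: `FH p (-(1+x)) (1-8x) = (1-8x)^(p-1) FA p x3` (`FH_eq`, `cxr_w3`), and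
   for `(i, -r)`: `-(-r) = r`. So with `β = (1-8x)^(p-1)`, `β3 = (1-8x3)^(p-1)`, `ε` (the integer `±1` with
   `ε ≡ (-3)^((p-1)/2)` mod `p`, exists by Euler: `ZMod.pow_div_two_eq_neg_one_or_one`): `alg_eight` with `π = p`.
-/

set_option autoImplicit false

open Finset

namespace Pool.Agent.Lib.MP_d4c4f0_nt

variable {S : Type*} [CommRing S] {q i r : S} {p : ℕ}

/-- `tn - FA` is a multiple of `p`. -/
theorem tn_mod' (hp : p.Prime) (h3 : 3 < p) (x : S) :
    ∃ z : S, tn ((p - 1) / 2) (ea x) (eb x) - FA p x = (p : S) * z := by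
  set I : Ideal S := Ideal.span {(p : S)} with hI
  have h0 : ((p : ℕ) : S ⧸ I) = 0 := by
    have h1 : ((p : ℕ) : S ⧸ I) = Ideal.Quotient.mk I (p : S) := by simp
    rw [h1, Ideal.Quotient.eq_zero_iff_mem]
    exact Ideal.mem_span_singleton_self _
  have h2 := tn_mod hp h3 h0 (Ideal.Quotient.mk I x)
  rw [← map_ea, ← map_eb, ← map_tn, ← map_FA, Ideal.Quotient.eq, Ideal.mem_span_singleton'] at h2
  obtain ⟨z, hz⟩ := h2
  exact ⟨z, by rw [← hz]; ring⟩

/-- `FH p (-w) x - FA p x` is a multiple of `p`. -/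
theorem FB_mod' (hp : p.Prime) (h3 : 3 < p) {w : S} (hw : 8 * w = 1) (x : S) :
    ∃ z : S, FH p (-w) x - FA p x = (p : S) * z := by
  set I : Ideal S := Ideal.span {(p : S)} with hI
  have h0 : ((p : ℕ) : S ⧸ I) = 0 := by
    have h1 : ((p : ℕ) : S ⧸ I) = Ideal.Quotient.mk I (p : S) := by simp
    rw [h1, Ideal.Quotient.eq_zero_iff_mem]
    exact Ideal.mem_span_singleton_self _
  have hw' : 8 * (Ideal.Quotient.mk I w) = 1 := by
    rw [← map_ofNat (Ideal.Quotient.mk I) 8, ← map_mul, hw, map_one]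
  have h2 := FB_mod hp h3 h0 hw' (Ideal.Quotient.mk I x)
  rw [← map_neg, ← map_FH, ← map_FA, Ideal.Quotient.eq, Ideal.mem_span_singleton'] at h2
  obtain ⟨z, hz⟩ := h2
  exact ⟨z, by rw [← hz]; ring⟩

/-- The sign `(-3/p)`. -/
theorem exists_eps (hp : p.Prime) (h3 : 3 < p) :
    ∃ ε : ℤ, ε ^ 2 = 1 ∧ (p : ℤ) ∣ (-3) ^ ((p - 1) / 2) - ε := by
  have : Fact p.Prime := ⟨hp⟩
  have hodd : p % 2 = 1 := by
    rcases hp.eq_two_or_odd with h | h
    · omega
    · exact h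
  have hn : p / 2 = (p - 1) / 2 := by omega
  have h30 : (-3 : ZMod p) ≠ 0 := by
    intro h
    have h1 : ((3 : ℕ) : ZMod p) = 0 := by
      push_cast
      rw [← neg_eq_zero]
      exact h
    rw [ZMod.natCast_eq_zero_iff] at h1
    exact absurd (Nat.le_of_dvd (by norm_num) h1) (by omega)
  rcases ZMod.pow_div_two_eq_neg_one_or_one p h30 with h | h
  · refine ⟨1, by norm_num, ?_⟩
    rw [← ZMod.intCast_zmod_eq_zero_iff_dvd]
    push_cast
    rw [← hn, h, sub_self]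
  · refine ⟨-1, by norm_num, ?_⟩
    rw [← ZMod.intCast_zmod_eq_zero_iff_dvd]
    push_cast
    rw [← hn, h, sub_self]

/-- The eighth power relation at a CM point. -/
theorem cm_eight (hp : p.Prime) (h3 : 3 < p) (hS : (p : S) ^ 2 = 0) (hq : 4 * q = 1)
    (hi : i ^ 2 = -1) (hr : r ^ 2 = 5) :
    FA p (cxr q i r) ^ 8 * ((1 - 8 * cxr q i r) ^ (p - 1)) ^ 3 *
        tn ((p - 1) / 2) (ea (cxr q i (-r))) (eb (cxr q i (-r))) ^ 4 =
      tn ((p - 1) / 2) (ea (cxr q i r)) (eb (cxr q i r)) ^ 12 *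
        (1 - 8 * cxr q i (-r)) ^ (p - 1) := by
  obtain ⟨ε, hε, hε'⟩ := exists_eps hp h3
  have hr' : (-r) ^ 2 = 5 := by rw [neg_sq]; exact hr
  have h1 := lin_identity hp h3 hS (cxr q i r) hε hε'
  have h2 := lin_identity hp h3 hS (cxr q i (-r)) hε hε'
  rw [FH_eq (cxr_w3 hq hi hr)] at h1
  have h4 := cxr_w3 hq hi hr'
  rw [neg_neg] at h4
  rw [FH_eq h4] at h2
  obtain ⟨z, hz⟩ := tn_mod' hp h3 (cxr q i r)
  obtain ⟨z3, hz3⟩ := tn_mod' hp h3 (cxr q i (-r))
  have hε2 : ((ε : ℤ) : S) ^ 2 = 1 := by rw [← Int.cast_pow, hε, Int.cast_one]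
  exact alg_eight hS hε2 h1 h2 hz hz3

end Pool.Agent.Lib.MP_d4c4f0_nt
end
end

section

/-!
# B09: the identity and the 2-isogeny

* `oddDeg_one`: `T = X`, `S = om * sg a b` (`IsSol.one`), `N = X`, `D = 1`; `om S = om^2 sg = 1`.
* `two_isog`: source curve `(a1, b1)`, `T = nu t om`, `S = (1 - b1 t^4) om^2`, target `(a2, b2)` with `nu^2 a2 = -2 a1`,
  `nu^4 b2 = a1^2 - 4 b1`. From `om^2 sg = 1`: `om' = -om^3 sg'/2`, so `T' = nu om (1 - t om^2 sg'/2)
  = nu om om^2 (sg - t sg'/2) = nu om om^2 (1 - b1 t^4) = nu om S`. `S^2 = 1 + a2 T^2 + b2 T^4`: multiply by `sg^2`: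
  `(1 - b1 t^4)^2 = sg^2 + a2 nu^2 t^2 sg + b2 nu^4 t^4`, `ring`. Use `IsSol.of_sq`.
  `q0 = sg a1 b1`, `q1 = nu^2 X^2`, `q3 = 1 - b1 X^4`, coprime since `sg(0) = 1`; `deg q0 = 4` (`b1 ≠ 0`).
* `two_isog'`: also the formulas for `T` and `S` (used for compositions).
-/

set_option autoImplicit false

namespace Pool.Agent.Lib.MP_d4c4f0_nt

open PowerSeries

variable {K : Type*} [Field K] [CharZero K] {om : K⟦X⟧} {a1 b1 a2 b2 nu : K}

private lemma coe_sg_b09 (a b : K) :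
    ((sg a b : Polynomial K) : K⟦X⟧) = 1 + C a * X ^ 2 + C b * X ^ 4 := by
  simp [sg]

private lemma d_sg_b09 (a b : K) :
    d⁄dX K ((sg a b : Polynomial K) : K⟦X⟧) = C (2 * a) * X + C (4 * b) * X ^ 3 := by
  rw [coe_sg_b09]
  simp only [map_add, Derivation.leibniz, Derivation.leibniz_pow, PowerSeries.derivative_C,
    PowerSeries.derivative_X, smul_eq_mul, map_mul, Derivation.map_one_eq_zero]
  have e2 : (C (2 : K) : K⟦X⟧) = 2 := map_ofNat C 2
  have e4 : (C (4 : K) : K⟦X⟧) = 4 := map_ofNat C 4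
  rw [e2, e4]
  simp
  ring

theorem oddDeg_one (ho : Om a1 b1 om) : OddDeg om a1 b1 1 1 := by
  refine ⟨X, om * (sg a1 b1 : K⟦X⟧), Polynomial.X, 1, IsSol.one ho, ?_, isCoprime_one_right,
    ?_, Polynomial.natDegree_X, ?_⟩
  · refine ⟨1, 1, one_ne_zero, ?_⟩
    have h := ho.sq
    simp only [Polynomial.coe_one]
    linear_combination h
  · simp
  · simp

theorem two_isog' (ho : Om a1 b1 om) (h1 : nu ^ 2 * a2 = -2 * a1)
    (h2 : nu ^ 4 * b2 = a1 ^ 2 - 4 * b1) :
    IsSol om a2 b2 nu (C nu * X * om) ((1 - C b1 * X ^ 4) * om ^ 2) := by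
  have hsq := ho.sq
  have hcc := ho.cc
  have hom0 : om ≠ 0 := by
    intro h
    rw [h] at hcc
    simp at hcc
  have hd0 : d⁄dX K (om ^ 2 * ((sg a1 b1 : Polynomial K) : K⟦X⟧)) = 0 := by
    rw [hsq]; simp
  have hd1 : 2 * (d⁄dX K om) = - om ^ 3 * (C (2 * a1) * X + C (4 * b1) * X ^ 3) := by
    rw [Derivation.leibniz, d_sg_b09, Derivation.leibniz_pow] at hd0
    simp only [smul_eq_mul, nsmul_eq_mul, Nat.cast_ofNat] at hd0
    have h3 : om * (2 * (d⁄dX K om) * ((sg a1 b1 : Polynomial K) : K⟦X⟧) +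
        om * (C (2 * a1) * X + C (4 * b1) * X ^ 3)) = 0 := by
      rw [← hd0]; ring
    have h4 := (mul_eq_zero.mp h3).resolve_left hom0
    linear_combination om ^ 2 * h4 - 2 * (d⁄dX K om) * hsq
  rw [coe_sg_b09] at hsq
  have e2 : (C (2 : K) : K⟦X⟧) = 2 := map_ofNat C 2
  have e4 : (C (4 : K) : K⟦X⟧) = 4 := map_ofNat C 4
  have H1 : (C nu : K⟦X⟧) ^ 2 * C a2 = -2 * C a1 := by
    have := congrArg (C : K →+* K⟦X⟧) h1
    simp only [map_mul, map_pow, map_neg, e2] at this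
    exact this
  have H2 : (C nu : K⟦X⟧) ^ 4 * C b2 = C a1 ^ 2 - 4 * C b1 := by
    have := congrArg (C : K →+* K⟦X⟧) h2
    simp only [map_mul, map_pow, map_sub, e4] at this
    exact this
  refine IsSol.of_sq ?_ ?_ ?_ ?_
  · simp
  · simp [hcc]
  · have h2ne : (2 : K⟦X⟧) ≠ 0 := by
      rw [← e2]
      intro h
      have := (map_eq_zero_iff (C : K →+* K⟦X⟧) (PowerSeries.C_injective)).mp h
      exact two_ne_zero this
    apply mul_left_cancel₀ h2ne
    rw [Derivation.leibniz, Derivation.leibniz, PowerSeries.derivative_C, PowerSeries.derivative_X]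
    simp only [smul_eq_mul, map_mul, e2, e4] at hd1 ⊢
    linear_combination (C nu * X) * hd1 - 2 * C nu * om * hsq
  · linear_combination ((1 + om ^ 2 * (1 + C a1 * X ^ 2 + C b1 * X ^ 4)) +
        C a2 * C nu ^ 2 * X ^ 2 * om ^ 2) * hsq -
      om ^ 4 * X ^ 2 * (1 + C a1 * X ^ 2 + C b1 * X ^ 4) * H1 - om ^ 4 * X ^ 4 * H2

theorem two_isog (ho : Om a1 b1 om) (hb1 : b1 ≠ 0) (hnu : nu ≠ 0) (h1 : nu ^ 2 * a2 = -2 * a1)
    (h2 : nu ^ 4 * b2 = a1 ^ 2 - 4 * b1) : EvenDeg om a2 b2 nu 2 := by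
  have hsol := two_isog' ho h1 h2
  have hsq := ho.sq
  have hc0 : (sg a1 b1).coeff 0 = 1 := by
    simp [sg, Polynomial.coeff_X_pow, Polynomial.coeff_one]
  have hdeg : (sg a1 b1).natDegree = 4 := by
    unfold sg
    compute_degree!
  refine ⟨_, _, sg a1 b1, Polynomial.C (nu ^ 2) * Polynomial.X ^ 2,
    1 - Polynomial.C b1 * Polynomial.X ^ 4, hsol, ?_, ?_, ?_, ?_, hdeg, ?_⟩
  · refine ⟨sg a1 b1, Polynomial.C nu * Polynomial.X, ?_, ?_⟩
    · intro h
      rw [h] at hc0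
      simp at hc0
    · simp only [Polynomial.coe_mul, Polynomial.coe_C, Polynomial.coe_X]
      linear_combination (C nu * X) * hsq
  · refine IsCoprime.mul_right ?_ ?_
    · refine ⟨0, Polynomial.C ((nu ^ 2)⁻¹), ?_⟩
      rw [zero_mul, zero_add, ← Polynomial.C_mul, inv_mul_cancel₀ (pow_ne_zero 2 hnu),
        Polynomial.C_1]
    · apply IsCoprime.pow_right
      rw [sg]
      refine ⟨1, -(Polynomial.C a1 * Polynomial.X + Polynomial.C b1 * Polynomial.X ^ 3), ?_⟩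
      ring
  · simp only [Polynomial.coe_mul, Polynomial.coe_C, Polynomial.coe_X, Polynomial.coe_pow, map_pow]
    linear_combination (C nu ^ 2 * X ^ 2) * hsq
  · simp only [Polynomial.coe_mul, Polynomial.coe_C, Polynomial.coe_X, Polynomial.coe_pow,
      Polynomial.coe_sub, Polynomial.coe_one]
    linear_combination (1 - C b1 * X ^ 4) * hsq
  · calc (Polynomial.C (nu ^ 2) * Polynomial.X ^ 2).natDegree ≤ 2 := by compute_degree
      _ < 2 * 2 := by norm_num

end Pool.Agent.Lib.MP_d4c4f0_nt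
end
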