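import Pool.Agent.Lib.MP_d4c4f0_nt.ZS.A06
import Pool.Agent.Lib.MP_d4c4f0_nt.ZS.A12
import Pool.Agent.Lib.MP_d4c4f0_nt.ZS.B16

/-!
# B14b: integral solutions

* `IntSol`: `IntSol.of_T`: `S^2 = 1 + aT^2 + bT^4`. `add` (formula of `IsSol.add` for `T`, then `of_T`), `neg`, `zero`
  (`T = 0, S = 1`), `comb`: integer combinations.
  For `zero`: `IsSol om a b 0 0 1`. For natural number multiples use induction with `add`; then `neg` for integers.
-/

set_option autoImplicit false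

namespace Pool.Agent.Lib.MP_d4c4f0_nt

open PowerSeries

variable {K : Type*} [NormedField K] [IsUltrametricDist K]

variable [CharZero K] {om : K⟦X⟧} {a b mu nu : K}

theorem IntSol.of_T (h2 : ‖(2 : K)‖ = 1) (ha : ‖a‖ ≤ 1) (hb : ‖b‖ ≤ 1) {T S : K⟦X⟧}
    (h : IsSol om a b mu T S) (hT : Intg T) : IntSol om a b mu := by
  refine ⟨T, S, h, hT, Intg.of_sq h2 h.S0 ?_⟩
  rw [h.sq]
  have h1 : Intg (1 : K⟦X⟧) := by
    have := Intg.const (K := K) (a := 1) (by simp)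
    rwa [map_one] at this
  exact (h1.add ((Intg.const ha).mul (hT.pow 2))).add ((Intg.const hb).mul (hT.pow 4))

theorem IntSol.add (h2 : ‖(2 : K)‖ = 1) (ha : ‖a‖ ≤ 1) (hb : ‖b‖ ≤ 1)
    (h : IntSol om a b mu) (h' : IntSol om a b nu) : IntSol om a b (mu + nu) := by
  obtain ⟨T1, S1, h1, i1, j1⟩ := h
  obtain ⟨T2, S2, h3, i2, j2⟩ := h'
  obtain ⟨T, S, hTS, e1, -⟩ := h1.add h3
  refine IntSol.of_T h2 ha hb hTS (Intg.of_mul (u := 1 - C b * T1 ^ 2 * T2 ^ 2) ?_ ?_ ?_)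
  · have h1 : Intg (1 : K⟦X⟧) := by
      have := Intg.const (K := K) (a := 1) (by simp)
      rwa [map_one] at this
    rw [sub_eq_add_neg]
    exact h1.add (((Intg.const hb).mul (i1.pow 2)).mul (i2.pow 2)).neg
  · simp [h1.T0]
  · rw [e1]
    exact (i1.mul j2).add (i2.mul j1)

theorem IntSol.neg (h : IntSol om a b mu) : IntSol om a b (-mu) := by
  obtain ⟨T, S, h1, i1, j1⟩ := h
  exact ⟨-T, S, h1.neg, i1.neg, j1⟩

omit [IsUltrametricDist K] [CharZero K] in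
private theorem IntSol.zero : IntSol om a b 0 := by
  refine ⟨0, 1, ⟨by simp, by simp, by simp, ?_⟩, fun n => by simp, fun n => ?_⟩
  · simp [Derivation.map_one_eq_zero]
  · rw [PowerSeries.coeff_one]
    split_ifs <;> simp

private theorem IntSol.nsmul (h2 : ‖(2 : K)‖ = 1) (ha : ‖a‖ ≤ 1) (hb : ‖b‖ ≤ 1)
    (h : IntSol om a b mu) (m : ℕ) : IntSol om a b ((m : K) * mu) := by
  induction m with
  | zero =>
    rw [Nat.cast_zero, zero_mul]
    exact IntSol.zero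
  | succ m ih =>
    rw [Nat.cast_succ, add_mul, one_mul]
    exact ih.add h2 ha hb h

private theorem IntSol.zsmul (h2 : ‖(2 : K)‖ = 1) (ha : ‖a‖ ≤ 1) (hb : ‖b‖ ≤ 1)
    (h : IntSol om a b mu) (m : ℤ) : IntSol om a b ((m : K) * mu) := by
  obtain ⟨n, rfl | rfl⟩ := m.eq_nat_or_neg
  · simpa using h.nsmul h2 ha hb n
  · have := (h.nsmul h2 ha hb n).neg
    simpa using this

theorem IntSol.comb (h2 : ‖(2 : K)‖ = 1) (ha : ‖a‖ ≤ 1) (hb : ‖b‖ ≤ 1)
    (h : IntSol om a b mu) (h' : IntSol om a b nu) (m n : ℤ) :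
    IntSol om a b ((m : K) * mu + (n : K) * nu) :=
  (h.zsmul h2 ha hb m).add h2 ha hb (h'.zsmul h2 ha hb n)

end Pool.Agent.Lib.MP_d4c4f0_nt
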