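import Pool.Agent.Lib.MP_d4c4f0_nt.ZS.B16
import Pool.Agent.Lib.MP_d4c4f0_nt.ZS.B11b

/-!
# B10: 3-isogenies

* `Iso3.sol`, `Iso3.oddDeg`: `N = X (mu + c X^2)`, `D = 1 + d X^2`, `N'D - ND' = mu + (3c - mu d) X^2 + c d X^4`; the
  differential equation of `sol_of_ode` is `Iso3` with `X` replaced by `X^2` (`Polynomial.expand` or `aeval (X^2)`). Coprime:
  `D` is coprime to `X` and `d (mu + c X^2) - c D = mu d - c ≠ 0`. `om S` rational: `mu om D^2 S = W` (`sol_of_ode`).
-/

set_option autoImplicit false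

namespace Pool.Agent.Lib.MP_d4c4f0_nt

open PowerSeries

variable {K : Type*} [Field K] [CharZero K] {om : K⟦X⟧} {a1 b1 a' b' a2 b2 mu nu c d : K}

/-- The substitution `u = t^2` in `Iso3`. -/
private lemma iso3_ode_b10 (h : Iso3 a1 b1 a2 b2 mu c d) :
    (Polynomial.derivative (Polynomial.X * (Polynomial.C mu + Polynomial.C c * Polynomial.X ^ 2)) *
        (1 + Polynomial.C d * Polynomial.X ^ 2) -
      (Polynomial.X * (Polynomial.C mu + Polynomial.C c * Polynomial.X ^ 2)) *
        Polynomial.derivative (1 + Polynomial.C d * Polynomial.X ^ 2)) ^ 2 * sg a1 b1 =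
      Polynomial.C (mu ^ 2) * ((1 + Polynomial.C d * Polynomial.X ^ 2) ^ 4 +
        Polynomial.C a2 * (Polynomial.X * (Polynomial.C mu + Polynomial.C c * Polynomial.X ^ 2)) ^ 2 *
          (1 + Polynomial.C d * Polynomial.X ^ 2) ^ 2 +
        Polynomial.C b2 *
          (Polynomial.X * (Polynomial.C mu + Polynomial.C c * Polynomial.X ^ 2)) ^ 4) := by
  have h' := congrArg (fun P : Polynomial K => P.comp (Polynomial.X ^ 2)) h
  simp only [Polynomial.mul_comp, Polynomial.add_comp, Polynomial.pow_comp, Polynomial.C_comp,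
    Polynomial.X_comp, Polynomial.one_comp, Polynomial.C_sub, Polynomial.C_mul,
    Polynomial.sub_comp] at h'
  have e3 : (Polynomial.C (3 : K) : Polynomial K) = 3 := map_ofNat Polynomial.C 3
  rw [e3] at h'
  have hN : Polynomial.derivative
      (Polynomial.X * (Polynomial.C mu + Polynomial.C c * Polynomial.X ^ 2)) =
      Polynomial.C mu + 3 * Polynomial.C c * Polynomial.X ^ 2 := by
    simp only [Polynomial.derivative_mul, Polynomial.derivative_X, Polynomial.derivative_add,
      Polynomial.derivative_C, Polynomial.derivative_X_pow]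
    have e2 : (Polynomial.C ((2 : ℕ) : K) : Polynomial K) = 2 := map_ofNat Polynomial.C 2
    rw [e2]
    ring
  have hD : Polynomial.derivative (1 + Polynomial.C d * Polynomial.X ^ 2) =
      2 * Polynomial.C d * Polynomial.X := by
    simp only [Polynomial.derivative_mul, Polynomial.derivative_one, Polynomial.derivative_add,
      Polynomial.derivative_C, Polynomial.derivative_X_pow]
    have e2 : (Polynomial.C ((2 : ℕ) : K) : Polynomial K) = 2 := map_ofNat Polynomial.C 2
    rw [e2]
    ring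
  rw [hN, hD]
  unfold sg
  simp only [Polynomial.C_pow] at h' ⊢
  linear_combination h'

private lemma iso3_sol_b10 (ho : Om a1 b1 om) (h : Iso3 a1 b1 a2 b2 mu c d) (hmu : mu ≠ 0) :
    ∃ (T S : K⟦X⟧) (W : Polynomial K), IsSol om a2 b2 mu T S ∧
      ((1 + Polynomial.C d * Polynomial.X ^ 2 : Polynomial K) : K⟦X⟧) * T =
        ((Polynomial.X * (Polynomial.C mu + Polynomial.C c * Polynomial.X ^ 2) : Polynomial K) :
          K⟦X⟧) ∧
      C mu * om * ((1 + Polynomial.C d * Polynomial.X ^ 2 : Polynomial K) : K⟦X⟧) ^ 2 * S =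
        (W : K⟦X⟧) := by
  obtain ⟨T, S, h1, h2, h3⟩ := sol_of_ode (N := Polynomial.X *
    (Polynomial.C mu + Polynomial.C c * Polynomial.X ^ 2))
    (D := 1 + Polynomial.C d * Polynomial.X ^ 2) ho hmu (by simp) (by simp)
    (by simp [Polynomial.coeff_X_mul]) (iso3_ode_b10 h)
  exact ⟨T, S, _, h1, h2, h3⟩

theorem Iso3.sol (ho : Om a1 b1 om) (h : Iso3 a1 b1 a2 b2 mu c d) (hmu : mu ≠ 0) :
    ∃ T S : K⟦X⟧, IsSol om a2 b2 mu T S ∧ (1 + C d * X ^ 2) * T = X * (C mu + C c * X ^ 2) := by
  obtain ⟨T, S, -, h1, h2, -⟩ := iso3_sol_b10 ho h hmu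
  refine ⟨T, S, h1, ?_⟩
  simpa only [Polynomial.coe_mul, Polynomial.coe_C, Polynomial.coe_X, Polynomial.coe_pow,
    Polynomial.coe_add, Polynomial.coe_one] using h2

theorem Iso3.oddDeg (ho : Om a1 b1 om) (h : Iso3 a1 b1 a2 b2 mu c d) (hmu : mu ≠ 0) (hc : c ≠ 0)
    (hcd : c - mu * d ≠ 0) :
    OddDeg om a2 b2 mu 3 := by
  obtain ⟨T, S, W, h1, h2, h3⟩ := iso3_sol_b10 ho h hmu
  refine ⟨T, S, _, _, h1, ?_, ?_, h2, ?_, ?_⟩
  · refine ⟨Polynomial.C mu * (1 + Polynomial.C d * Polynomial.X ^ 2) ^ 2, W, ?_, ?_⟩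
    · intro hz
      have := congrArg (Polynomial.eval 0) hz
      simp [hmu] at this
    · rw [← h3]
      simp only [Polynomial.coe_mul, Polynomial.coe_C, Polynomial.coe_pow]
      ring
  · have hX : IsCoprime (Polynomial.X : Polynomial K) (1 + Polynomial.C d * Polynomial.X ^ 2) :=
      ⟨-(Polynomial.C d * Polynomial.X), 1, by ring⟩
    refine IsCoprime.mul_left hX ?_
    have hu : mu * d - c ≠ 0 := by
      intro h0
      apply hcd
      linear_combination -h0
    have hC : (Polynomial.C ((mu * d - c)⁻¹) : Polynomial K) *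
        (Polynomial.C mu * Polynomial.C d - Polynomial.C c) = 1 := by
      rw [← Polynomial.C_mul, ← Polynomial.C_sub, ← Polynomial.C_mul, inv_mul_cancel₀ hu,
        Polynomial.C_1]
    refine ⟨Polynomial.C ((mu * d - c)⁻¹) * Polynomial.C d,
      -(Polynomial.C ((mu * d - c)⁻¹) * Polynomial.C c), ?_⟩
    linear_combination hC
  · have : (Polynomial.X * (Polynomial.C mu + Polynomial.C c * Polynomial.X ^ 2) :
        Polynomial K).natDegree = 3 := by
      rw [Polynomial.natDegree_mul Polynomial.X_ne_zero, Polynomial.natDegree_X]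
      · have : (Polynomial.C mu + Polynomial.C c * Polynomial.X ^ 2 : Polynomial K).natDegree = 2 := by
          compute_degree!
        rw [this]
      · intro hz
        have := congrArg (fun P : Polynomial K => P.coeff 0) hz
        simp at this
        exact hmu this
    exact this
  · calc (1 + Polynomial.C d * Polynomial.X ^ 2 : Polynomial K).natDegree ≤ 2 := by compute_degree
      _ < 3 := by norm_num

end Pool.Agent.Lib.MP_d4c4f0_nt
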