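import Mathlib
import Pool.Agent.Lib.MP_d4c4f0_nt.ZS.B09
import Pool.Agent.Lib.MP_d4c4f0_nt.ZS.A03

section

/-!
# D02b: Frobenius on the square root of five

* `frob_r`: `r^p = r 5^((p-1)/2)` and `5^((p-1)/2) = ±1` in `ZMod p` by Euler's criterion and quadratic reciprocity:
  `5` is a square mod `p` iff `p` is a square mod `5` iff `p % 5 = 1` or `4` (`ZMod.euler_criterion`,
  `legendreSym.quadratic_reciprocity'`, or `ZMod.exists_sq_eq_prime_iff_of_mod_four_eq_one`).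
-/

set_option autoImplicit false

namespace Pool.Agent.Lib.MP_d4c4f0_nt

variable {S : Type*} [CommRing S] {r : S} {p : ℕ}

theorem fact_prime_five : Fact (Nat.Prime 5) := ⟨by norm_num⟩

attribute [local instance] fact_prime_five

theorem leg_five_one : legendreSym 5 ((1 : ℕ) : ℤ) = 1 := by decide

theorem leg_five_two : legendreSym 5 ((2 : ℕ) : ℤ) = -1 := by decide

theorem leg_five_three : legendreSym 5 ((3 : ℕ) : ℤ) = -1 := by decide

theorem leg_five_four : legendreSym 5 ((4 : ℕ) : ℤ) = 1 := by decide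

theorem five_pow_half (hp : p.Prime) (h5 : 5 < p) :
    (5 : ZMod p) ^ (p / 2) = if p % 5 = 1 ∨ p % 5 = 4 then 1 else -1 := by
  have : Fact p.Prime := ⟨hp⟩
  have h2 : p ≠ 2 := by omega
  have h5' : p ≠ 5 := by omega
  have e1 := legendreSym.quadratic_reciprocity' (p := 5) (q := p) (by norm_num) h2
  have e2 := legendreSym.eq_pow p 5
  have e3 : legendreSym p ((5 : ℕ) : ℤ) = legendreSym 5 (p : ℤ) := by
    rw [e1]
    have : (-1 : ℤ) ^ (5 / 2 * (p / 2)) = 1 := by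
      rw [show 5 / 2 = 2 from rfl, pow_mul]
      simp
    rw [this, one_mul]
  have e4 : legendreSym 5 (p : ℤ) = if p % 5 = 1 ∨ p % 5 = 4 then 1 else -1 := by
    rw [legendreSym.mod]
    have hne : p % 5 ≠ 0 := by
      intro h
      have := (Nat.prime_dvd_prime_iff_eq (by norm_num) hp).1 (Nat.dvd_of_mod_eq_zero h)
      omega
    have hlt : p % 5 < 5 := Nat.mod_lt _ (by norm_num)
    have hc : ((p : ℤ) % ((5 : ℕ) : ℤ)) = ((p % 5 : ℕ) : ℤ) := by push_cast; rfl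
    rw [hc]
    generalize p % 5 = m at *
    interval_cases m
    · exact absurd rfl hne
    · exact leg_five_one
    · exact leg_five_two
    · exact leg_five_three
    · exact leg_five_four
  have e5 : ((legendreSym p 5 : ℤ) : ZMod p) = (5 : ZMod p) ^ (p / 2) := by
    simpa using e2
  rw [← e5]
  have e6 : legendreSym p 5 = legendreSym 5 (p : ℤ) := by exact_mod_cast e3
  rw [e6, e4]
  split_ifs <;> simp

theorem five_pow_ring (hp : p.Prime) (h5 : 5 < p) (hS : (p : S) = 0) :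
    (5 : S) ^ (p / 2) = if p % 5 = 1 ∨ p % 5 = 4 then 1 else -1 := by
  have : Fact p.Prime := ⟨hp⟩
  have h := five_pow_half hp h5
  have h1 : ((5 ^ (p / 2) - (if p % 5 = 1 ∨ p % 5 = 4 then 1 else -1) : ℤ) : ZMod p) = 0 := by
    push_cast
    rw [h]
    split_ifs <;> simp
  obtain ⟨k, hk⟩ := (ZMod.intCast_zmod_eq_zero_iff_dvd _ p).1 h1
  have h2 := congrArg (fun t : ℤ => (t : S)) hk
  simp only [Int.cast_mul, Int.cast_natCast, hS, zero_mul, Int.cast_sub, Int.cast_pow,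
    Int.cast_ofNat] at h2
  rw [sub_eq_zero] at h2
  rw [h2]
  split_ifs <;> simp

theorem frob_r_pos (hp : p.Prime) (h5 : 5 < p) (hS : (p : S) = 0) (h : p % 5 = 1 ∨ p % 5 = 4)
    (hr : r ^ 2 = 5) : r ^ p = r := by
  have ho : p % 2 = 1 := (hp.eq_two_or_odd).resolve_left (by omega)
  have e : p = 2 * (p / 2) + 1 := by omega
  have h1 := five_pow_ring (S := S) hp h5 hS
  rw [if_pos h] at h1
  rw [e, pow_succ, pow_mul, hr, h1, one_mul]

theorem frob_r_neg (hp : p.Prime) (h5 : 5 < p) (hS : (p : S) = 0) (h : p % 5 = 2 ∨ p % 5 = 3)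
    (hr : r ^ 2 = 5) : r ^ p = -r := by
  have ho : p % 2 = 1 := (hp.eq_two_or_odd).resolve_left (by omega)
  have e : p = 2 * (p / 2) + 1 := by omega
  have h1 := five_pow_ring (S := S) hp h5 hS
  rw [if_neg (by omega)] at h1
  rw [e, pow_succ, pow_mul, hr, h1, neg_one_mul]

end Pool.Agent.Lib.MP_d4c4f0_nt
end

section

/-!
# B10b: composition of a 2-isogeny and a 3-isogeny

* `Iso3.comp_sol`, `Iso3.comp`: source `(a1, b1)`, first the solution `T2 = nu t om`, `S2 = (1 - b1 t^4) om^2` of multiplier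
  `nu` to `(a', b')` (`two_isog'`), then `Iso3 a' b' a2 b2 mu c d`:
  `T = T2 (mu + c T2^2)/(1 + d T2^2)`, `S = S2 W(T2^2)/(mu (1 + d T2^2)^2)` with `W(u) = mu + (3c - mu d) u + c d u^2`.
  `T' = W(T2^2)/(1+dT2^2)^2 T2' = nu mu om S`; `S^2 = 1 + a2T^2 + b2T^4` by `Iso3` evaluated at `u = T2^2` (aeval) and
  `S2^2 = 1 + a' T2^2 + b' T2^4` (`IsSol.sq`). Multiplier `nu mu`. With `sg = sg a1 b1`, `T2^2 sg = nu^2 X^2`, `S2 sg = 1 - b1X^4`:
  `q0 = sg (sg + d nu^2 X^2)^2`, `q1 = nu^2 X^2 (mu sg + c nu^2 X^2)^2`,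
  `q3 = mu⁻¹ (1 - b1 X^4) (mu sg^2 + (3c - mu d) nu^2 X^2 sg + c d nu^4 X^4)`.
  Coprime: a common irreducible factor `g`: if `g ∣ X` then `q0(0) = 1`; if `g ∣ mu sg + c nu^2X^2`: `g ∣ sg` gives `g ∣ X` (as
  `c nu ≠ 0`); `g ∣ sg + d nu^2X^2` gives `g ∣ (c - mu d) nu^2 X^2`, `g ∣ X`. Degrees `12` and `2 + 8 = 10` (`deg ≤`).
  `om T` rational: `om T = nu X om^2 (mu + c T2^2)/(1 + d T2^2)`.
-/

set_option autoImplicit false

namespace Pool.Agent.Lib.MP_d4c4f0_nt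

open PowerSeries

variable {K : Type*} [Field K] [CharZero K] {om : K⟦X⟧} {a1 b1 a' b' a2 b2 mu nu c d : K}

omit [CharZero K] in
private theorem sg_coe_b10 (a b : K) : (sg a b : K⟦X⟧) = 1 + C a * X ^ 2 + C b * X ^ 4 := by
  simp [sg]

omit [CharZero K] in
private theorem iso3_eval (h : Iso3 a' b' a2 b2 mu c d) (u : K⟦X⟧) :
    (C mu + C (3 * c - mu * d) * u + C (c * d) * u ^ 2) ^ 2 * (1 + C a' * u + C b' * u ^ 2) =
      C (mu ^ 2) * ((1 + C d * u) ^ 4 + C a2 * u * (C mu + C c * u) ^ 2 * (1 + C d * u) ^ 2 +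
        C b2 * u ^ 2 * (C mu + C c * u) ^ 4) := by
  have h1 := congrArg (Polynomial.aeval u) h
  have hA : ∀ r : K, algebraMap K K⟦X⟧ r = C r := fun r => by
    rw [PowerSeries.algebraMap_apply, Algebra.algebraMap_self_apply]
  simp only [map_add, map_mul, map_pow, map_one, Polynomial.aeval_C, Polynomial.aeval_X, hA] at h1
  simp only [map_mul, map_pow]
  exact h1

private theorem comp_aux (ho : Om a1 b1 om) (h1 : nu ^ 2 * a' = -2 * a1)
    (h2 : nu ^ 4 * b' = a1 ^ 2 - 4 * b1) (h : Iso3 a' b' a2 b2 mu c d) (hmu : mu ≠ 0) :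
    ∃ T S : K⟦X⟧, IsSol om a2 b2 (nu * mu) T S ∧
      (1 + C d * (C nu * X * om) ^ 2) * T =
        (C nu * X * om) * (C mu + C c * (C nu * X * om) ^ 2) ∧
      (1 + C d * (C nu * X * om) ^ 2) ^ 2 * S = C mu⁻¹ * ((1 - C b1 * X ^ 4) * om ^ 2) *
        (C mu + C (3 * c - mu * d) * (C nu * X * om) ^ 2 +
          C (c * d) * ((C nu * X * om) ^ 2) ^ 2) := by
  have hsol := two_isog' ho h1 h2
  set T2 : K⟦X⟧ := C nu * X * om with hT2
  set S2 : K⟦X⟧ := (1 - C b1 * X ^ 4) * om ^ 2 with hS2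
  have hsq2 := hsol.sq
  have hev := iso3_eval h (T2 ^ 2)
  set Dn : K⟦X⟧ := 1 + C d * T2 ^ 2 with hDn
  set W : K⟦X⟧ := C mu + C (3 * c - mu * d) * T2 ^ 2 + C (c * d) * (T2 ^ 2) ^ 2 with hW
  have hDn0 : constantCoeff Dn = 1 := by
    rw [hDn]
    simp [hsol.T0]
  have hDne : constantCoeff Dn ≠ 0 := by
    rw [hDn0]
    exact one_ne_zero
  have hDn0' : Dn ≠ 0 := by
    intro h
    rw [h] at hDne
    simp at hDne
  set v : K⟦X⟧ := Dn⁻¹ with hv
  have hvD : Dn * v = 1 := PowerSeries.mul_inv_cancel Dn hDne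
  have hv0 : constantCoeff v = 1 := by
    have h := congrArg constantCoeff hvD
    rw [map_mul, hDn0, one_mul] at h
    simpa using h
  have hmuC : (C mu : K⟦X⟧) * C mu⁻¹ = 1 := by
    rw [← map_mul, mul_inv_cancel₀ hmu, map_one]
  have e1 : Dn * (T2 * (C mu + C c * T2 ^ 2) * v) = T2 * (C mu + C c * T2 ^ 2) := by
    linear_combination (T2 * (C mu + C c * T2 ^ 2)) * hvD
  have e2 : Dn ^ 2 * (C mu⁻¹ * S2 * W * v ^ 2) = C mu⁻¹ * S2 * W := by
    linear_combination (C mu⁻¹ * S2 * W) * (Dn * v + 1) * hvD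
  refine ⟨T2 * (C mu + C c * T2 ^ 2) * v, C mu⁻¹ * S2 * W * v ^ 2, ?_, e1, e2⟩
  have hW0 : constantCoeff W = mu := by
    rw [hW]
    simp [hsol.T0]
  refine IsSol.of_sq ?_ ?_ ?_ ?_
  · simp [hsol.T0]
  · rw [map_mul, map_mul, map_mul, map_pow, hv0, hW0, hsol.S0]
    simp [hmu]
  · -- derivative
    set N : K⟦X⟧ := T2 * (C mu + C c * T2 ^ 2) with hN
    set T : K⟦X⟧ := N * v with hT
    have d1 : Dn * d⁄dX K T + T * d⁄dX K Dn = d⁄dX K N := by
      have h := congrArg (d⁄dX K) e1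
      rw [Derivation.leibniz, smul_eq_mul, smul_eq_mul] at h
      exact h
    have dD : d⁄dX K Dn = 2 * C d * T2 * d⁄dX K T2 := by
      rw [hDn, map_add, Derivation.map_one_eq_zero, Derivation.leibniz, Derivation.leibniz_pow,
        PowerSeries.derivative_C]
      simp only [smul_eq_mul, nsmul_eq_mul]
      push_cast
      ring
    have dN : d⁄dX K N = (C mu + 3 * C c * T2 ^ 2) * d⁄dX K T2 := by
      rw [hN, Derivation.leibniz, map_add, Derivation.leibniz, Derivation.leibniz_pow,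
        PowerSeries.derivative_C, PowerSeries.derivative_C]
      simp only [smul_eq_mul, nsmul_eq_mul]
      push_cast
      ring
    have dT2 := hsol.dT
    have e3 : (C (3 * c - mu * d) : K⟦X⟧) = 3 * C c - C mu * C d := by
      rw [map_sub, map_mul, map_mul, map_ofNat]
    have e4 : (C (c * d) : K⟦X⟧) = C c * C d := map_mul _ _ _
    have key : Dn ^ 2 * d⁄dX K T = Dn ^ 2 * (C (nu * mu) * om * (C mu⁻¹ * S2 * W * v ^ 2)) := by
      have hr : Dn ^ 2 * (C (nu * mu) * om * (C mu⁻¹ * S2 * W * v ^ 2)) =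
          (C mu * C mu⁻¹) * (Dn * v) ^ 2 * (C nu * om * S2 * W) := by
        rw [map_mul]
        ring
      rw [hr, hmuC, hvD, ← dT2]
      have hl : Dn ^ 2 * d⁄dX K T = Dn * d⁄dX K N - N * d⁄dX K Dn := by
        linear_combination Dn * d1 - (d⁄dX K Dn) * e1
      rw [hl, dN, dD, hW, hDn, hN, e3, e4]
      ring
    exact mul_left_cancel₀ (pow_ne_zero 2 hDn0') key
  · have hsq2' : S2 ^ 2 = 1 + C a' * T2 ^ 2 + C b' * (T2 ^ 2) ^ 2 := by
      rw [hsq2]
      ring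
    calc (C mu⁻¹ * S2 * W * v ^ 2) ^ 2
        = C mu⁻¹ ^ 2 * (W ^ 2 * S2 ^ 2) * v ^ 4 := by ring
      _ = C mu⁻¹ ^ 2 * (C (mu ^ 2) * (Dn ^ 4 + C a2 * T2 ^ 2 * (C mu + C c * T2 ^ 2) ^ 2 *
            Dn ^ 2 + C b2 * (T2 ^ 2) ^ 2 * (C mu + C c * T2 ^ 2) ^ 4)) * v ^ 4 := by
          rw [hsq2', hev]
      _ = (C mu * C mu⁻¹) ^ 2 * ((Dn * v) ^ 4 +
            C a2 * (T2 * (C mu + C c * T2 ^ 2) * v) ^ 2 * (Dn * v) ^ 2 +
            C b2 * (T2 * (C mu + C c * T2 ^ 2) * v) ^ 4) := by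
          rw [map_pow]
          ring
      _ = 1 + C a2 * (T2 * (C mu + C c * T2 ^ 2) * v) ^ 2 +
            C b2 * (T2 * (C mu + C c * T2 ^ 2) * v) ^ 4 := by
          rw [hmuC, hvD]
          ring

theorem Iso3.comp_sol (ho : Om a1 b1 om) (h1 : nu ^ 2 * a' = -2 * a1)
    (h2 : nu ^ 4 * b' = a1 ^ 2 - 4 * b1) (h : Iso3 a' b' a2 b2 mu c d) (hmu : mu ≠ 0) :
    ∃ T S : K⟦X⟧, IsSol om a2 b2 (nu * mu) T S ∧
      (1 + C d * (C nu * X * om) ^ 2) * T =
        (C nu * X * om) * (C mu + C c * (C nu * X * om) ^ 2) := by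
  obtain ⟨T, S, hs, hT, -⟩ := comp_aux ho h1 h2 h hmu
  exact ⟨T, S, hs, hT⟩

omit [CharZero K] in
private theorem cop_X {P : Polynomial K} (h : P.coeff 0 = 1) {e : K} (he : e ≠ 0) :
    IsCoprime P (Polynomial.C e * Polynomial.X ^ 2) := by
  refine IsCoprime.mul_right ?_ ?_
  · refine ⟨0, Polynomial.C e⁻¹, ?_⟩
    rw [zero_mul, zero_add, ← Polynomial.C_mul, inv_mul_cancel₀ he, Polynomial.C_1]
  · apply IsCoprime.pow_right
    refine ⟨1, -P.divX, ?_⟩
    have h1 := Polynomial.divX_mul_X_add P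
    rw [h, Polynomial.C_1] at h1
    linear_combination -h1

theorem Iso3.comp (ho : Om a1 b1 om) (hb1 : b1 ≠ 0) (hnu : nu ≠ 0) (h1 : nu ^ 2 * a' = -2 * a1)
    (h2 : nu ^ 4 * b' = a1 ^ 2 - 4 * b1) (h : Iso3 a' b' a2 b2 mu c d) (hmu : mu ≠ 0)
    (hc : c ≠ 0) (hcd : c - mu * d ≠ 0) :
    EvenDeg om a2 b2 (nu * mu) 6 := by
  obtain ⟨T, S, hs, hT, hS⟩ := comp_aux ho h1 h2 h hmu
  have hsq := ho.sq
  have hnu2 : nu ^ 2 ≠ 0 := pow_ne_zero 2 hnu
  have hsg0 : (sg a1 b1).coeff 0 = 1 := by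
    simp [sg, Polynomial.coeff_X_pow, Polynomial.coeff_one]
  have hdeg1 : (sg a1 b1).natDegree = 4 := by
    unfold sg
    compute_degree!
  have hdeg2 : (sg a1 b1 + Polynomial.C (d * nu ^ 2) * Polynomial.X ^ 2).natDegree = 4 := by
    unfold sg
    compute_degree!
  have hdeg3 : (Polynomial.C mu * sg a1 b1 +
      Polynomial.C (c * nu ^ 2) * Polynomial.X ^ 2).natDegree ≤ 4 := by
    unfold sg
    compute_degree!
  have hc2 : (sg a1 b1 + Polynomial.C (d * nu ^ 2) * Polynomial.X ^ 2).coeff 0 = 1 := by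
    rw [Polynomial.coeff_add, hsg0]
    simp [Polynomial.coeff_X_pow]
  have hsgne : sg a1 b1 ≠ 0 := by
    intro h
    rw [h] at hsg0
    simp at hsg0
  have hD2ne : sg a1 b1 + Polynomial.C (d * nu ^ 2) * Polynomial.X ^ 2 ≠ 0 := by
    intro h
    rw [h] at hc2
    simp at hc2
  have hmuC : (C mu : K⟦X⟧) * C mu⁻¹ = 1 := by
    rw [← map_mul, mul_inv_cancel₀ hmu, map_one]
  refine ⟨T, S, sg a1 b1 * (sg a1 b1 + Polynomial.C (d * nu ^ 2) * Polynomial.X ^ 2) ^ 2,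
    Polynomial.C (nu ^ 2) * Polynomial.X ^ 2 *
      (Polynomial.C mu * sg a1 b1 + Polynomial.C (c * nu ^ 2) * Polynomial.X ^ 2) ^ 2,
    Polynomial.C mu⁻¹ * (1 - Polynomial.C b1 * Polynomial.X ^ 4) *
      (Polynomial.C mu * sg a1 b1 ^ 2 +
        Polynomial.C ((3 * c - mu * d) * nu ^ 2) * Polynomial.X ^ 2 * sg a1 b1 +
        Polynomial.C (c * d * nu ^ 4) * Polynomial.X ^ 4), hs, ?_, ?_, ?_, ?_, ?_, ?_⟩
  · refine ⟨(sg a1 b1 + Polynomial.C (d * nu ^ 2) * Polynomial.X ^ 2) * sg a1 b1,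
      Polynomial.C nu * Polynomial.X *
        (Polynomial.C mu * sg a1 b1 + Polynomial.C (c * nu ^ 2) * Polynomial.X ^ 2),
      mul_ne_zero hD2ne hsgne, ?_⟩
    simp only [Polynomial.coe_mul, Polynomial.coe_add, Polynomial.coe_C, Polynomial.coe_X,
      Polynomial.coe_pow, map_mul, map_pow]
    set σ : K⟦X⟧ := (sg a1 b1 : K⟦X⟧) with hσ
    have hl : (σ + C d * C nu ^ 2 * X ^ 2) = σ * (1 + C d * (C nu * X * om) ^ 2) := by
      linear_combination (-(C d * C nu ^ 2 * X ^ 2)) * hsq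
    rw [hl]
    have hl2 : σ * (1 + C d * (C nu * X * om) ^ 2) * σ * (om * T) =
        σ * σ * om * ((1 + C d * (C nu * X * om) ^ 2) * T) := by ring
    rw [hl2, hT]
    linear_combination (C nu * X * (C mu * σ) + C nu * X * C c * C nu ^ 2 * X ^ 2 *
      (om ^ 2 * σ + 1)) * hsq
  · refine IsCoprime.mul_left ?_ (IsCoprime.pow_left ?_)
    · refine IsCoprime.mul_right (cop_X hsg0 hnu2) (IsCoprime.pow_right ?_)
      have h3 := cop_X hsg0 (mul_ne_zero hc hnu2)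
      have h4 : Polynomial.C mu * sg a1 b1 + Polynomial.C (c * nu ^ 2) * Polynomial.X ^ 2 =
          Polynomial.C (c * nu ^ 2) * Polynomial.X ^ 2 + sg a1 b1 * Polynomial.C mu := by ring
      rw [h4]
      exact h3.add_mul_left_right _
    · refine IsCoprime.mul_right (cop_X hc2 hnu2) (IsCoprime.pow_right ?_)
      have h3 := cop_X hc2 (mul_ne_zero hcd hnu2)
      have h4 : Polynomial.C mu * sg a1 b1 + Polynomial.C (c * nu ^ 2) * Polynomial.X ^ 2 =
          Polynomial.C ((c - mu * d) * nu ^ 2) * Polynomial.X ^ 2 +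
            (sg a1 b1 + Polynomial.C (d * nu ^ 2) * Polynomial.X ^ 2) * Polynomial.C mu := by
        simp only [map_mul, map_sub]
        ring
      rw [h4]
      exact h3.add_mul_left_right _
  · simp only [Polynomial.coe_mul, Polynomial.coe_add, Polynomial.coe_C, Polynomial.coe_X,
      Polynomial.coe_pow, map_mul, map_pow]
    set σ : K⟦X⟧ := (sg a1 b1 : K⟦X⟧) with hσ
    have hl : (σ + C d * C nu ^ 2 * X ^ 2) = σ * (1 + C d * (C nu * X * om) ^ 2) := by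
      linear_combination (-(C d * C nu ^ 2 * X ^ 2)) * hsq
    rw [hl]
    have hl2 : σ * (σ * (1 + C d * (C nu * X * om) ^ 2)) ^ 2 * T ^ 2 =
        σ ^ 3 * ((1 + C d * (C nu * X * om) ^ 2) * T) ^ 2 := by ring
    rw [hl2, hT]
    have hl3 : σ ^ 3 * (C nu * X * om * (C mu + C c * (C nu * X * om) ^ 2)) ^ 2 =
        C nu ^ 2 * X ^ 2 * (om ^ 2 * σ) *
          (C mu * σ + C c * C nu ^ 2 * X ^ 2 * (om ^ 2 * σ)) ^ 2 := by ring
    rw [hl3, hsq]
    ring
  · simp only [Polynomial.coe_mul, Polynomial.coe_add, Polynomial.coe_C, Polynomial.coe_X,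
      Polynomial.coe_pow, Polynomial.coe_sub, Polynomial.coe_one, map_mul, map_pow]
    set σ : K⟦X⟧ := (sg a1 b1 : K⟦X⟧) with hσ
    have hl : (σ + C d * C nu ^ 2 * X ^ 2) = σ * (1 + C d * (C nu * X * om) ^ 2) := by
      linear_combination (-(C d * C nu ^ 2 * X ^ 2)) * hsq
    rw [hl]
    have hl2 : σ * (σ * (1 + C d * (C nu * X * om) ^ 2)) ^ 2 * S =
        σ ^ 3 * ((1 + C d * (C nu * X * om) ^ 2) ^ 2 * S) := by ring
    rw [hl2, hS, map_mul]
    have hl3 : σ ^ 3 * (C mu⁻¹ * ((1 - C b1 * X ^ 4) * om ^ 2) *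
        (C mu + C (3 * c - mu * d) * (C nu * X * om) ^ 2 +
          C c * C d * ((C nu * X * om) ^ 2) ^ 2)) =
        C mu⁻¹ * (1 - C b1 * X ^ 4) * (om ^ 2 * σ) *
        (C mu * σ ^ 2 + C (3 * c - mu * d) * C nu ^ 2 * X ^ 2 * σ * (om ^ 2 * σ) +
          C c * C d * C nu ^ 4 * X ^ 4 * (om ^ 2 * σ) ^ 2) := by ring
    rw [hl3, hsq]
    ring
  · rw [Polynomial.natDegree_mul hsgne (pow_ne_zero 2 hD2ne), Polynomial.natDegree_pow, hdeg1,
      hdeg2]
  · have e1 : (Polynomial.C (nu ^ 2) * Polynomial.X ^ 2 : Polynomial K).natDegree ≤ 2 := by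
      compute_degree
    have e2 : ((Polynomial.C mu * sg a1 b1 +
        Polynomial.C (c * nu ^ 2) * Polynomial.X ^ 2) ^ 2).natDegree ≤ 8 := by
      refine le_trans Polynomial.natDegree_pow_le ?_
      omega
    have e3 := Polynomial.natDegree_mul_le (p := (Polynomial.C (nu ^ 2) * Polynomial.X ^ 2 :
      Polynomial K)) (q := (Polynomial.C mu * sg a1 b1 +
        Polynomial.C (c * nu ^ 2) * Polynomial.X ^ 2) ^ 2)
    omega

end Pool.Agent.Lib.MP_d4c4f0_nt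
end

section

/-!
# D02: Frobenius on the CM points

`S` a commutative ring with `p = 0`, `p` prime. The map `a ↦ a^p` is a ring homomorphism (`frobenius` if `S` is nontrivial:
`CharP S p`; trivial case: `Subsingleton`; or use `exists_add_pow_prime_eq`); it fixes the images of integers.
* `frob_cxr`: `(cxr q i r)^p = cxr q (i^p) (r^p)`, as `q^p = q` (`4 q^p = 4^p q^p = 1`).
* `frob_i`: `i^p = i (i^2)^((p-1)/2) = i (-1)^((p-1)/2)`.
-/

set_option autoImplicit false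

namespace Pool.Agent.Lib.MP_d4c4f0_nt

variable {S : Type*} [CommRing S] {q i r : S} {p : ℕ}

theorem frob_add (hp : p.Prime) (hS : (p : S) = 0) (x y : S) : (x + y) ^ p = x ^ p + y ^ p := by
  obtain ⟨t, ht⟩ := exists_add_pow_prime_eq hp x y
  rw [ht, hS]
  ring

theorem frob_neg (hp : p.Prime) (hS : (p : S) = 0) (x : S) : (-x) ^ p = -x ^ p := by
  have h := frob_add hp hS x (-x)
  rw [add_neg_cancel, zero_pow hp.ne_zero] at h
  exact (neg_eq_of_add_eq_zero_right h.symm).symm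

theorem frob_sub (hp : p.Prime) (hS : (p : S) = 0) (x y : S) : (x - y) ^ p = x ^ p - y ^ p := by
  rw [sub_eq_add_neg, frob_add hp hS, frob_neg hp hS, sub_eq_add_neg]

theorem frob_nat (hp : p.Prime) (hS : (p : S) = 0) (n : ℕ) : (n : S) ^ p = n := by
  induction n with
  | zero => simp [hp.ne_zero]
  | succ n ih =>
    push_cast
    rw [frob_add hp hS, ih, one_pow]

theorem frob_ofNat (hp : p.Prime) (hS : (p : S) = 0) (n : ℕ) [n.AtLeastTwo] :
    (ofNat(n) : S) ^ p = ofNat(n) := by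
  have h := frob_nat hp hS (ofNat(n) : ℕ)
  rwa [Nat.cast_ofNat] at h

theorem frob_cxr (hp : p.Prime) (hS : (p : S) = 0) (hq : 4 * q = 1) :
    cxr q i r ^ p = cxr q (i ^ p) (r ^ p) := by
  have h4 : (4 : S) ^ p = 4 := frob_ofNat hp hS 4
  have hqp : q ^ p = q := by
    have h1 : (4 : S) * q ^ p = 1 := by
      calc (4 : S) * q ^ p = 4 ^ p * q ^ p := by rw [h4]
        _ = (4 * q) ^ p := by rw [mul_pow]
        _ = 1 := by rw [hq, one_pow]
    calc q ^ p = (4 * q) * q ^ p := by rw [hq, one_mul]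
      _ = q * (4 * q ^ p) := by ring
      _ = q := by rw [h1, mul_one]
  unfold cxr
  rw [mul_pow, mul_pow, frob_sub hp hS, frob_sub hp hS, hqp, one_pow, frob_ofNat hp hS 2]

theorem frob_ea (hp : p.Prime) (hS : (p : S) = 0) (x : S) : ea x ^ p = ea (x ^ p) := by
  unfold ea
  rw [frob_sub hp hS, frob_sub hp hS, mul_pow, mul_pow, one_pow, frob_ofNat hp hS 4,
    frob_ofNat hp hS 8, ← pow_mul, ← pow_mul, mul_comm 2 p]

theorem frob_E (hp : p.Prime) (hS : (p : S) = 0) (x : S) :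
    (1 + 8 * x ^ 2) ^ p = 1 + 8 * (x ^ p) ^ 2 := by
  rw [frob_add hp hS, mul_pow, one_pow, frob_ofNat hp hS 8, ← pow_mul, ← pow_mul, mul_comm 2 p]

theorem frob_i_one (h : p % 4 = 1) (hi : i ^ 2 = -1) : i ^ p = i := by
  obtain ⟨k, hk⟩ : ∃ k, p = 4 * k + 1 := ⟨p / 4, by omega⟩
  have h4 : i ^ 4 = 1 := by
    rw [show (4 : ℕ) = 2 * 2 from rfl, pow_mul, hi]
    ring
  rw [hk, pow_succ, pow_mul, h4, one_pow, one_mul]

theorem frob_i_three (h : p % 4 = 3) (hi : i ^ 2 = -1) : i ^ p = -i := by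
  obtain ⟨k, hk⟩ : ∃ k, p = 4 * k + 3 := ⟨p / 4, by omega⟩
  have h4 : i ^ 4 = 1 := by
    rw [show (4 : ℕ) = 2 * 2 from rfl, pow_mul, hi]
    ring
  rw [hk, pow_add, pow_mul, h4, one_pow, one_mul, pow_succ, hi]
  ring

end Pool.Agent.Lib.MP_d4c4f0_nt
end
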