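import Pool.Agent.Lib.MP_d4c4f0_nt.ZS.B14b
import Pool.Agent.Lib.MP_d4c4f0_nt.ZS.D02
import Pool.Agent.Lib.MP_d4c4f0_nt.ZS.B10
import Pool.Agent.Lib.MP_d4c4f0_nt.ZS.B11b
import Pool.Agent.Lib.MP_d4c4f0_nt.ZS.C01

section

section

/-!
# B15: integrality of the isogenies between the CM curves

`‖2‖ = 1`. `‖i‖ = 1`, `‖r‖ ≤ 1` (from `i^2 = -1`, `r^2 = 5`), so `‖cx i r‖ ≤ 1`, `‖ea‖, ‖eb‖, ‖1-8x‖ ≤ 1` and the same for the
conjugate points. `om = omS (ea x) (eb x)` is integral (`intg_omS`); it satisfies `Om (-2 ea x) (1-8x) om` by `om_omS` and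
`ea_sq`.
* `int_end`: `IntSol 1`: `T = X` (`IsSol.one`, `IntSol.of_T`). `IntSol (1+s)`: `Iso3.comp_sol` with `nu = 4x` and `iso3_plus` for
  `(-i, -r)` has multiplier `-(1+s)` (see B12), `T` integral by `Intg.of_mul` (`u = 1 + d T2^2`, `T2 = nu X om`). So
  `IntSol s` with `s = (1+s) - 1` and then `IntSol (m*1 + n*s)` (`IntSol.comb`).
* `int_hom`: `IntSol (2x(1+s))`, `IntSol (2x(1-s))` by `Iso3.sol` and `Intg.of_mul`; then `IntSol.comb`.
-/

set_option autoImplicit false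

namespace Pool.Agent.Lib.MP_d4c4f0_nt

open PowerSeries

variable {K : Type*} [NormedField K] [IsUltrametricDist K] [CharZero K] {i r : K}

omit [CharZero K] in
private theorem nadd {a b : K} (ha : ‖a‖ ≤ 1) (hb : ‖b‖ ≤ 1) : ‖a + b‖ ≤ 1 :=
  (IsUltrametricDist.norm_add_le_max a b).trans (max_le ha hb)

omit [CharZero K] in
private theorem nsub {a b : K} (ha : ‖a‖ ≤ 1) (hb : ‖b‖ ≤ 1) : ‖a - b‖ ≤ 1 := by
  rw [sub_eq_add_neg]
  exact nadd ha (by rwa [norm_neg])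

omit [IsUltrametricDist K] [CharZero K] in
private theorem nmul {a b : K} (ha : ‖a‖ ≤ 1) (hb : ‖b‖ ≤ 1) : ‖a * b‖ ≤ 1 := by
  rw [norm_mul]
  exact mul_le_one₀ ha (norm_nonneg _) hb

omit [IsUltrametricDist K] [CharZero K] in
private theorem npow {a : K} (ha : ‖a‖ ≤ 1) (n : ℕ) : ‖a ^ n‖ ≤ 1 := by
  rw [norm_pow]
  exact pow_le_one₀ (norm_nonneg _) ha

omit [CharZero K] in
private theorem nnat (n : ℕ) [n.AtLeastTwo] : ‖(ofNat(n) : K)‖ ≤ 1 := by
  have := norm_natCast_le (K := K) (OfNat.ofNat n)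
  rwa [Nat.cast_ofNat] at this

theorem cx_norm (h2 : ‖(2 : K)‖ = 1) (hi : i ^ 2 = -1) (hr : r ^ 2 = 5) :
    ‖i‖ ≤ 1 ∧ ‖r‖ ≤ 1 ∧ ‖cx i r‖ ≤ 1 ∧ ‖ea (cx i r)‖ ≤ 1 ∧ ‖eb (cx i r)‖ ≤ 1 ∧
      ‖1 - 8 * cx i r‖ ≤ 1 := by
  have h1 : ‖(1 : K)‖ ≤ 1 := by simp
  have hi1 : ‖i‖ ≤ 1 := by
    by_contra h
    push Not at h
    have h3 := one_lt_pow₀ h (two_ne_zero)
    rw [← norm_pow, hi, norm_neg, norm_one] at h3
    exact lt_irrefl _ h3
  have hr1 : ‖r‖ ≤ 1 := by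
    by_contra h
    push Not at h
    have h3 := one_lt_pow₀ h (two_ne_zero)
    rw [← norm_pow, hr] at h3
    exact absurd (nnat (K := K) 5) (not_le.mpr h3)
  have h4 : ‖(4 : K)‖ = 1 := by
    rw [show (4 : K) = 2 * 2 by norm_num, norm_mul, h2, one_mul]
  have hx : ‖cx i r‖ ≤ 1 := by
    rw [cx, norm_div, h4, div_one]
    exact nmul (nsub hr1 (nnat 2)) (nsub h1 hi1)
  refine ⟨hi1, hr1, hx, ?_, ?_, ?_⟩
  · exact nsub (nsub h1 (nmul (nnat 4) hx)) (nmul (nnat 8) (npow hx 2))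
  · exact nmul (nmul (nnat 16) (npow hx 3)) (nadd h1 hx)
  · exact nsub h1 (nmul (nnat 8) hx)

theorem om_cx (i r : K) : Om (-2 * ea (cx i r)) (1 - 8 * cx i r)
    (omS (ea (cx i r)) (eb (cx i r))) := by
  have h := om_omS (ea (cx i r)) (eb (cx i r))
  rwa [ea_sq] at h

private theorem int_iso {om : K⟦X⟧} {a1 b1 a2 b2 mu c d : K} (h2 : ‖(2 : K)‖ = 1)
    (ho : Om a1 b1 om) (h : Iso3 a1 b1 a2 b2 mu c d) (hmu : mu ≠ 0) (ha : ‖a2‖ ≤ 1)
    (hb : ‖b2‖ ≤ 1) (n1 : ‖mu‖ ≤ 1) (n2 : ‖c‖ ≤ 1) (n3 : ‖d‖ ≤ 1) : IntSol om a2 b2 mu := by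
  obtain ⟨T, S, hTS, e⟩ := Iso3.sol ho h hmu
  have h1 : Intg (1 : K⟦X⟧) := by
    have := Intg.const (K := K) (a := 1) (by simp)
    rwa [map_one] at this
  refine IntSol.of_T h2 ha hb hTS (Intg.of_mul (u := 1 + C d * PowerSeries.X ^ 2) ?_ ?_ ?_)
  · exact h1.add ((Intg.const n3).mul (Intg.X.pow 2))
  · simp
  · rw [e]
    exact Intg.X.mul ((Intg.const n1).add ((Intg.const n2).mul (Intg.X.pow 2)))

theorem int_end (h2 : ‖(2 : K)‖ = 1) (hi : i ^ 2 = -1) (hr : r ^ 2 = 5) (m n : ℤ) :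
    IntSol (omS (ea (cx i r)) (eb (cx i r))) (-2 * ea (cx i r)) (1 - 8 * cx i r)
      ((m : K) + (n : K) * (i * r)) := by
  have hi' : (-i) ^ 2 = -1 := by rw [neg_pow_two, hi]
  have hr' : (-r) ^ 2 = 5 := by rw [neg_pow_two, hr]
  obtain ⟨ni, nr, nx, na, nb, nb'⟩ := cx_norm h2 hi hr
  obtain ⟨-, -, ny, -, -, -⟩ := cx_norm h2 hi' hr'
  have n1 : ‖(1 : K)‖ ≤ 1 := by simp
  have n2 : ‖(-2 : K)‖ ≤ 1 := by rw [norm_neg, h2]
  have n5 : ‖(-5 : K)‖ ≤ 1 := by rw [norm_neg]; exact nnat 5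
  have ha : ‖-2 * ea (cx i r)‖ ≤ 1 := nmul n2 na
  have ho := om_cx i r
  have hom : Intg (omS (ea (cx i r)) (eb (cx i r))) := intg_omS na nb
  have h1 : Intg (1 : K⟦X⟧) := by
    have := Intg.const (K := K) (a := 1) (by simp)
    rwa [map_one] at this
  -- multiplier 1
  have k1 : IntSol (omS (ea (cx i r)) (eb (cx i r))) (-2 * ea (cx i r)) (1 - 8 * cx i r) 1 :=
    IntSol.of_T h2 ha nb' (IsSol.one ho) Intg.X
  -- multiplier -(1 + i r)
  obtain ⟨t1, t2⟩ := cx_two hi hr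
  have hiso := iso3_plus hi' hr'
  rw [neg_neg, neg_neg] at hiso
  have hs : -i * -r = i * r := by ring
  rw [hs] at hiso
  have hmu := (iso3_nz hi' hr').1
  rw [hs] at hmu
  obtain ⟨T, S, hTS, e⟩ := Iso3.comp_sol ho t1 t2 hiso hmu
  have hsr : ‖1 + i * r‖ ≤ 1 := nadd n1 (nmul ni nr)
  have nmu : ‖2 * cx (-i) (-r) * (1 + i * r)‖ ≤ 1 := nmul (nmul h2.le ny) hsr
  have nc : ‖-2 * cx (-i) (-r) * (1 + i * r)‖ ≤ 1 := nmul (nmul n2 ny) hsr
  have nd : ‖-5 + 4 * -i + 2 * -r - 2 * -i * -r‖ ≤ 1 :=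
    nsub (nadd (nadd n5 (nmul (nnat 4) (by rwa [norm_neg]))) (nmul h2.le (by rwa [norm_neg])))
      (nmul (nmul h2.le (by rwa [norm_neg])) (by rwa [norm_neg]))
  have hT2 : Intg (C (4 * cx i r) * PowerSeries.X * omS (ea (cx i r)) (eb (cx i r))) :=
    ((Intg.const (nmul (nnat 4) nx)).mul Intg.X).mul hom
  have k2 : IntSol (omS (ea (cx i r)) (eb (cx i r))) (-2 * ea (cx i r)) (1 - 8 * cx i r)
      (4 * cx i r * (2 * cx (-i) (-r) * (1 + i * r))) := by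
    refine IntSol.of_T h2 ha nb' hTS (Intg.of_mul (u := 1 + C (-5 + 4 * -i + 2 * -r - 2 * -i * -r) *
      (C (4 * cx i r) * PowerSeries.X * omS (ea (cx i r)) (eb (cx i r))) ^ 2) ?_ ?_ ?_)
    · exact h1.add ((Intg.const nd).mul (hT2.pow 2))
    · simp
    · rw [e]
      exact hT2.mul ((Intg.const nmu).add ((Intg.const nc).mul (hT2.pow 2)))
  have k3 := k2.neg
  have k4 := IntSol.comb h2 ha nb' k1 k3 (m - n) n
  have hmul : ((m - n : ℤ) : K) * 1 + (n : K) * -(4 * cx i r * (2 * cx (-i) (-r) * (1 + i * r))) =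
      (m : K) + (n : K) * (i * r) := by
    have h3 := cx_w2 hi hr
    push_cast
    linear_combination (-(n : K) * (1 + i * r)) * h3
  rwa [hmul] at k4

theorem int_hom (h2 : ‖(2 : K)‖ = 1) (hi : i ^ 2 = -1) (hr : r ^ 2 = 5) (m n : ℤ) :
    IntSol (omS (ea (cx i r)) (eb (cx i r))) (-2 * ea (cx (-i) (-r))) (1 - 8 * cx (-i) (-r))
      ((m : K) * (2 * cx i r * (1 + i * r)) + (n : K) * (2 * cx i r * (1 - i * r))) := by
  have hi' : (-i) ^ 2 = -1 := by rw [neg_pow_two, hi]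
  have hr' : (-r) ^ 2 = 5 := by rw [neg_pow_two, hr]
  obtain ⟨ni, nr, nx, -, -, -⟩ := cx_norm h2 hi hr
  obtain ⟨-, -, -, na, -, nb'⟩ := cx_norm h2 hi' hr'
  have n1 : ‖(1 : K)‖ ≤ 1 := by simp
  have n2 : ‖(-2 : K)‖ ≤ 1 := by rw [norm_neg, h2]
  have n5 : ‖(-5 : K)‖ ≤ 1 := by rw [norm_neg]; exact nnat 5
  have n7 : ‖(-7 : K)‖ ≤ 1 := by rw [norm_neg]; exact nnat 7
  have ha : ‖-2 * ea (cx (-i) (-r))‖ ≤ 1 := nmul n2 na
  have ho := om_cx i r
  obtain ⟨z1, z2, -⟩ := iso3_nz hi hr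
  have nir : ‖i * r‖ ≤ 1 := nmul ni nr
  have k1 := int_iso h2 ho (iso3_plus hi hr) z1 ha nb'
    (nmul (nmul h2.le nx) (nadd n1 nir)) (nmul (nmul n2 nx) (nadd n1 nir))
    (nsub (nadd (nadd n5 (nmul (nnat 4) ni)) (nmul h2.le nr)) (nmul (nmul h2.le ni) nr))
  have k2 := int_iso h2 ho (iso3_minus hi hr) z2 ha nb'
    (nmul (nmul h2.le nx) (nsub n1 nir))
    (by
      rw [norm_div, h2, div_one]
      exact nsub (nadd (nadd n7 (nmul (nnat 3) ni)) (nmul (nnat 3) nr)) nir)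
    (nsub (nnat 6) (nmul (nnat 3) nr))
  exact IntSol.comb h2 ha nb' k1 k2 m n

end Pool.Agent.Lib.MP_d4c4f0_nt
end

section

/-!
# B18: units at the CM points

`K` algebraically closed (for the square roots `β1`, `β2`). `x = cx i r`, `s = i r`, `c = tn ((p-1)/2) (ea x) (eb x)`.
`‖k‖ = 1` for `0 < k < p`; in particular `‖2‖ = ‖3‖ = ‖5‖ = 1`. Norms `= 1`: `1 - 8x` (`cx_b3`: product of two integral elements
is `9`), `ea x` (its product with integral conjugates is `144`; e.g. `ea x * ea(cx (-i) r)` etc., or an explicit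
cofactor polynomial in `i, r` with value `144`), `x` (`cx_w2`).
`1 + 8x^2 = 1-9i+4ir`, times the integral element `(1+9i-4ir)(9+4r)` is `18`. (If `p = 7`: `5 < 7`, so `2, 3, 5` are all `< p`.)
-/

set_option autoImplicit false

namespace Pool.Agent.Lib.MP_d4c4f0_nt

open PowerSeries

variable {K : Type*} [NormedField K] [IsUltrametricDist K] [CharZero K] 
  {i r : K} {p : ℕ}

omit [CharZero K] in
private theorem b18_add {a b : K} (ha : ‖a‖ ≤ 1) (hb : ‖b‖ ≤ 1) : ‖a + b‖ ≤ 1 :=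
  (IsUltrametricDist.norm_add_le_max a b).trans (max_le ha hb)

omit [CharZero K] in
private theorem b18_sub {a b : K} (ha : ‖a‖ ≤ 1) (hb : ‖b‖ ≤ 1) : ‖a - b‖ ≤ 1 := by
  rw [sub_eq_add_neg]
  exact b18_add ha (by rwa [norm_neg])

omit [IsUltrametricDist K] [CharZero K] in
private theorem b18_mul {a b : K} (ha : ‖a‖ ≤ 1) (hb : ‖b‖ ≤ 1) : ‖a * b‖ ≤ 1 := by
  rw [norm_mul]
  exact mul_le_one₀ ha (norm_nonneg _) hb

omit [IsUltrametricDist K] [CharZero K] in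
private theorem b18_unit {a b c : K} (ha : ‖a‖ ≤ 1) (hb : ‖b‖ ≤ 1) (h : a * b = c)
    (hc : ‖c‖ = 1) : ‖a‖ = 1 := by
  rw [← h, norm_mul] at hc
  refine le_antisymm ha ?_
  by_contra hlt
  push Not at hlt
  have h0 := norm_nonneg a
  have h1 := norm_nonneg b
  nlinarith

theorem cx_units (hp : p.Prime) (h5 : 5 < p) (hk : ∀ k : ℕ, 0 < k → k < p → ‖(k : K)‖ = 1)
    (hi : i ^ 2 = -1) (hr : r ^ 2 = 5) :
    ‖cx i r‖ = 1 ∧ ‖1 - 8 * cx i r‖ = 1 ∧ ‖ea (cx i r)‖ = 1 ∧ ‖1 + 8 * cx i r ^ 2‖ = 1 := by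
  have _ := hp
  have h2 : ‖(2 : K)‖ = 1 := by simpa using hk 2 (by norm_num) (by omega)
  have h3 : ‖(3 : K)‖ = 1 := by simpa using hk 3 (by norm_num) (by omega)
  have hn : ∀ n : ℕ, ‖(n : K)‖ ≤ 1 := fun n => IsUltrametricDist.norm_natCast_le_one K n
  have hi' : (-i) ^ 2 = -1 := by rw [neg_sq, hi]
  have hr' : (-r) ^ 2 = 5 := by rw [neg_sq, hr]
  obtain ⟨ni, nr, nx, nea, -, nd⟩ := cx_norm h2 hi hr
  obtain ⟨-, -, nx', -, -, -⟩ := cx_norm h2 hi' hr'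
  obtain ⟨-, -, -, -, -, nd'⟩ := cx_norm h2 hi hr'
  have n8 : ‖(8 : K)‖ ≤ 1 := by simpa using hn 8
  have n3 : ‖(3 : K)‖ ≤ 1 := h3.le
  have n7 : ‖(7 : K)‖ ≤ 1 := by simpa using hn 7
  have n9 : ‖(9 : K)‖ ≤ 1 := by simpa using hn 9
  have n4 : ‖(4 : K)‖ ≤ 1 := by simpa using hn 4
  have n1 : ‖(1 : K)‖ ≤ 1 := by simp
  have hx8 : 8 * cx i r ^ 2 = -(i * (9 - 4 * r)) := by
    have h4 : (4 : K) ≠ 0 := by norm_num
    unfold cx
    field_simp
    linear_combination (r - 2) ^ 2 * hi * (8 : K) - 16 * i * hr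
  refine ⟨?_, ?_, ?_, ?_⟩
  · have h := cx_w2 hi hr
    refine b18_unit (b := 8 * cx (-i) (-r)) nx (b18_mul n8 nx') (c := -1) ?_ (by simp)
    rw [← h]
    ring
  · refine b18_unit (b := 1 - 8 * cx i (-r)) nd nd' (c := 9) (cx_b3 hi hr) ?_
    rw [show (9 : K) = 3 * 3 by norm_num, norm_mul, h3, one_mul]
  · refine b18_unit (b := ((3 - r) - i * (7 - 3 * r)) * (9 + 4 * r)) nea ?_ (c := 12) ?_ ?_
    · exact b18_mul (b18_sub (b18_sub n3 nr) (b18_mul ni (b18_sub n7 (b18_mul n3 nr))))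
        (b18_add n9 (b18_mul n4 nr))
    · have h1 : ea (cx i r) = (3 - r) + i * (7 - 3 * r) := by
        have h4 : 4 * cx i r = (r - 2) * (1 - i) := by
          unfold cx
          field_simp
        unfold ea
        rw [h4, hx8]
        ring
      rw [h1]
      have e1 : ((3 - r) + i * (7 - 3 * r)) * ((3 - r) - i * (7 - 3 * r)) = 12 * (9 - 4 * r) := by
        linear_combination (-(7 - 3 * r) ^ 2) * hi + 10 * hr
      rw [← mul_assoc, e1]
      linear_combination (-192 : K) * hr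
    · rw [show (12 : K) = 2 * 2 * 3 by norm_num, norm_mul, norm_mul, h2, h3]
      norm_num
  · refine b18_unit (b := (1 + i * (9 - 4 * r)) * (9 + 4 * r)) ?_ ?_ (c := 18) ?_ ?_
    · exact b18_add n1 (b18_mul n8 (by rw [norm_pow]; exact pow_le_one₀ (norm_nonneg _) nx))
    · exact b18_mul (b18_add n1 (b18_mul ni (b18_sub n9 (b18_mul n4 nr))))
        (b18_add n9 (b18_mul n4 nr))
    · rw [hx8]
      have e1 : (1 + -(i * (9 - 4 * r))) * (1 + i * (9 - 4 * r)) = 18 * (9 - 4 * r) := by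
        linear_combination (-(9 - 4 * r) ^ 2) * hi + 16 * hr
      rw [← mul_assoc, e1]
      linear_combination (-288 : K) * hr
    · rw [show (18 : K) = 2 * (3 * 3) by norm_num, norm_mul, norm_mul, h2, h3]
      norm_num

end Pool.Agent.Lib.MP_d4c4f0_nt
end
end

section

/-!
# D00: transfer between the field and the quotients of its ring of integers
-/

set_option autoImplicit false

open Finset

namespace Pool.Agent.Lib.MP_d4c4f0_nt

variable {K : Type*} [NormedField K] [IsUltrametricDist K] [CharZero K] {p : ℕ}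

/-- Reduction map. -/
noncomputable def rd (K : Type*) [NormedField K] [IsUltrametricDist K] (p n : ℕ) :
    OK K →+* Rq K p n :=
  Ideal.Quotient.mk (Ideal.span {((p : ℕ) : OK K) ^ n})

theorem map_cxr {A B : Type*} [CommRing A] [CommRing B] (f : A →+* B) (q i r : A) :
    f (cxr q i r) = cxr (f q) (f i) (f r) := by
  simp [cxr, map_ofNat]

theorem coe_OK_ofNat (n : ℕ) [n.AtLeastTwo] : ((ofNat(n) : OK K) : K) = ofNat(n) :=
  map_ofNat (OK K).subtype n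

theorem coe_quarter {q : OK K} (hq : 4 * q = 1) : (q : K) = 1 / 4 := by
  have h : (4 : K) * (q : K) = 1 := by
    have := congrArg (fun x : OK K => (x : K)) hq
    simpa [coe_OK_ofNat] using this
  field_simp
  linear_combination h

theorem coe_cxr {q i r : OK K} (hq : 4 * q = 1) :
    ((cxr q i r : OK K) : K) = cx (i : K) (r : K) := by
  have h4 := coe_quarter hq
  simp only [cxr, cx]
  push_cast
  rw [h4, coe_OK_ofNat]
  ring

theorem rd_eq_iff {n : ℕ} (hp : 0 < p) (x y : OK K) :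
    rd K p n x = rd K p n y ↔ ‖(x : K) - (y : K)‖ ≤ ‖(p : K)‖ ^ n :=
  quot_eq_iff hp x y

theorem rd_p_one : ((p : ℕ) : Rq K p 1) = 0 := by
  have := quot_pow_zero (K := K) (p := p) (n := 1)
  simpa using this

theorem frob_norm {x y : OK K} (hp : 0 < p) (h : rd K p 1 x ^ p = rd K p 1 y) :
    ‖(x : K) ^ p - (y : K)‖ ≤ ‖(p : K)‖ := by
  rw [← map_pow] at h
  have := (rd_eq_iff hp (x ^ p) y).1 h
  simpa using this

theorem exists_mul_rd {n : ℕ} (hp : 0 < p) {x y : OK K} (h : ‖(x : K) - (y : K)‖ ≤ ‖(p : K)‖) :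
    ∃ z : Rq K p n, rd K p n x - rd K p n y = (p : Rq K p n) * z :=
  exists_mul_p hp x y h

/-- The constants. -/
theorem exists_four (h2 : ‖(2 : K)‖ = 1) : ∃ q : OK K, 4 * q = 1 := by
  have h4 : ‖(4 : K)‖ = 1 := by
    rw [show (4 : K) = 2 ^ 2 by norm_num, norm_pow, h2]; norm_num
  refine ⟨⟨1 / 4, ?_⟩, ?_⟩
  · change ‖(1 / 4 : K)‖ ≤ 1
    rw [norm_div, h4]; simp
  · apply Subtype.ext
    push_cast
    rw [coe_OK_ofNat]
    norm_num

theorem exists_ir [IsAlgClosed K] (h5 : ‖(5 : K)‖ = 1) :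
    ∃ i r : OK K, i ^ 2 = -1 ∧ r ^ 2 = 5 := by
  obtain ⟨i, hi⟩ := IsAlgClosed.exists_pow_nat_eq (-1 : K) (n := 2) (by norm_num)
  obtain ⟨r, hr⟩ := IsAlgClosed.exists_pow_nat_eq (5 : K) (n := 2) (by norm_num)
  have hi1 : ‖i‖ ≤ 1 := by
    have := congrArg norm hi
    rw [norm_pow, norm_neg, norm_one] at this
    exact ((pow_eq_one_iff_of_nonneg (norm_nonneg _) (by norm_num)).1 this).le
  have hr1 : ‖r‖ ≤ 1 := by
    have := congrArg norm hr
    rw [norm_pow, h5] at this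
    exact ((pow_eq_one_iff_of_nonneg (norm_nonneg _) (by norm_num)).1 this).le
  refine ⟨⟨i, hi1⟩, ⟨r, hr1⟩, ?_, ?_⟩
  · apply Subtype.ext
    push_cast
    exact hi
  · apply Subtype.ext
    push_cast
    rw [coe_OK_ofNat]
    exact hr

theorem coe_sq_neg_one {i : OK K} (hi : i ^ 2 = -1) : (i : K) ^ 2 = -1 := by
  have := congrArg (fun x : OK K => (x : K)) hi
  simpa using this

theorem coe_sq_five {r : OK K} (hr : r ^ 2 = 5) : (r : K) ^ 2 = 5 := by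
  have := congrArg (fun x : OK K => (x : K)) hr
  simpa [coe_OK_ofNat] using this

theorem frob_cx_i (hp : p.Prime) (h5 : 5 < p) (h4 : p % 4 = 1) (h5' : p % 5 = 1 ∨ p % 5 = 4)
    {q i r : OK K} (hq : 4 * q = 1) (hi : i ^ 2 = -1) (hr : r ^ 2 = 5) :
    rd K p 1 (cxr q i r) ^ p = rd K p 1 (cxr q i r) := by
  have hq' : 4 * rd K p 1 q = 1 := by
    have := congrArg (rd K p 1) hq
    simpa [map_ofNat] using this
  have hi' : rd K p 1 i ^ 2 = -1 := by rw [← map_pow, hi]; simp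
  have hr' : rd K p 1 r ^ 2 = 5 := by rw [← map_pow, hr]; simp [map_ofNat]
  rw [map_cxr, frob_cxr hp rd_p_one hq', frob_i_one h4 hi', frob_r_pos hp h5 rd_p_one h5' hr']

theorem frob_cx_ii (hp : p.Prime) (h5 : 5 < p) (h4 : p % 4 = 3) (h5' : p % 5 = 2 ∨ p % 5 = 3)
    {q i r : OK K} (hq : 4 * q = 1) (hi : i ^ 2 = -1) (hr : r ^ 2 = 5) :
    rd K p 1 (cxr q i r) ^ p = rd K p 1 (cxr q (-i) (-r)) := by
  have hq' : 4 * rd K p 1 q = 1 := by
    have := congrArg (rd K p 1) hq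
    simpa [map_ofNat] using this
  have hi' : rd K p 1 i ^ 2 = -1 := by rw [← map_pow, hi]; simp
  have hr' : rd K p 1 r ^ 2 = 5 := by rw [← map_pow, hr]; simp [map_ofNat]
  rw [map_cxr, map_cxr, frob_cxr hp rd_p_one hq', frob_i_three h4 hi',
    frob_r_neg hp h5 rd_p_one h5' hr', map_neg, map_neg]

theorem coe_ea (x : OK K) : ((ea x : OK K) : K) = ea (x : K) := map_ea (OK K).subtype x

theorem coe_eb (x : OK K) : ((eb x : OK K) : K) = eb (x : K) := map_eb (OK K).subtype x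

theorem coe_tn (n : ℕ) (A B : OK K) : ((tn n A B : OK K) : K) = tn n (A : K) (B : K) :=
  map_tn (OK K).subtype n A B

theorem sum_rd {q : OK K} (hq : 4 * q = 1) (m : ℕ) :
    rd K p 2 (∑ j ∈ range m, (vr j : OK K) * (q ^ 2) ^ j) =
      ∑ j ∈ range m, (vr j : Rq K p 2) * (rd K p 2 q ^ 2) ^ j ∧
    ((∑ j ∈ range m, (vr j : OK K) * (q ^ 2) ^ j : OK K) : K) =
      ∑ j ∈ range m, (vr j : K) / 16 ^ j := by
  constructor
  · simp [map_sum]
  · have h4 := coe_quarter hq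
    push_cast
    apply Finset.sum_congr rfl
    intro j _
    rw [h4, show ((1 : K) / 4) ^ 2 = 1 / 16 by norm_num, div_pow, one_pow, mul_one_div]

/-- Norms of integers. -/
theorem norm_int_unit (hp : p.Prime) (hk : ∀ k : ℕ, 0 < k → k < p → ‖(k : K)‖ = 1)
    (h1 : ‖(p : K)‖ < 1) {m : ℤ} (hm : ¬ (p : ℤ) ∣ m) : ‖(m : K)‖ = 1 := by
  have hp0 : (0 : ℤ) < p := by exact_mod_cast hp.pos
  have h0 : 0 ≤ m % p := Int.emod_nonneg _ hp0.ne'
  have h2 : m % p < p := Int.emod_lt_of_pos _ hp0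
  have h3 : m % p ≠ 0 := fun h => hm (Int.dvd_of_emod_eq_zero h)
  obtain ⟨k, hk'⟩ := Int.eq_ofNat_of_zero_le h0
  have hk0 : 0 < k := by omega
  have hkp : k < p := by omega
  have hm' : (m : K) = k + p * ((m / p : ℤ) : K) := by
    have := Int.emod_add_mul_ediv m p
    rw [hk'] at this
    have h := congrArg (fun z : ℤ => (z : K)) this
    push_cast at h
    linear_combination -h
  have hz : ‖((m / p : ℤ) : K)‖ ≤ 1 := IsUltrametricDist.norm_intCast_le_one K _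
  have hlt : ‖(p : K) * ((m / p : ℤ) : K)‖ < ‖(k : K)‖ := by
    rw [hk k hk0 hkp, norm_mul]
    calc ‖(p : K)‖ * ‖((m / p : ℤ) : K)‖ ≤ ‖(p : K)‖ * 1 :=
          mul_le_mul_of_nonneg_left hz (norm_nonneg _)
      _ < 1 := by rw [mul_one]; exact h1
  rw [hm', IsUltrametricDist.norm_add_eq_max_of_norm_ne_norm hlt.ne', max_eq_left hlt.le,
    hk k hk0 hkp]

theorem isUnit_OK {x : OK K} (h : ‖(x : K)‖ = 1) : IsUnit x := by
  have hx0 : (x : K) ≠ 0 := by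
    intro h0
    rw [h0, norm_zero] at h
    exact zero_ne_one h
  have hinv : ‖(x : K)⁻¹‖ ≤ 1 := by rw [norm_inv, h]; simp
  refine ⟨⟨x, ⟨(x : K)⁻¹, hinv⟩, ?_, ?_⟩, rfl⟩
  · apply Subtype.ext
    push_cast
    exact mul_inv_cancel₀ hx0
  · apply Subtype.ext
    push_cast
    exact inv_mul_cancel₀ hx0

/-- The two factors. -/
theorem norm_factors (hp : p.Prime) (h5 : 5 < p) (hk : ∀ k : ℕ, 0 < k → k < p → ‖(k : K)‖ = 1)
    (h1 : ‖(p : K)‖ < 1) {s : K} (hs : s ^ 2 = -5) {m n : ℤ} {c : ℕ} (hc0 : 0 < c) (hc : c < p)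
    (hmn : m ^ 2 + 5 * n ^ 2 = c * p) (hlt : ‖(m : K) + n * s‖ < 1) :
    ‖(m : K) - n * s‖ = 1 ∧ ‖(m : K) + n * s‖ = ‖(p : K)‖ := by
  have hpZ : Prime (p : ℤ) := Nat.prime_iff_prime_int.1 hp
  have hm : ¬ (p : ℤ) ∣ 2 * m := by
    intro h
    have h2 : ¬ (p : ℤ) ∣ 2 := by
      intro h'
      have := Int.le_of_dvd (by norm_num) h'
      omega
    have hm' : (p : ℤ) ∣ m := (hpZ.dvd_or_dvd h).resolve_left h2
    have h5n : (p : ℤ) ∣ 5 * n ^ 2 := by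
      have : 5 * n ^ 2 = c * p - m * m := by linear_combination hmn
      rw [this]
      exact dvd_sub (Dvd.intro_left _ rfl) (Dvd.dvd.mul_left hm' _)
    have h5' : ¬ (p : ℤ) ∣ 5 := by
      intro h'
      have := Int.le_of_dvd (by norm_num) h'
      omega
    have hn : (p : ℤ) ∣ n := hpZ.dvd_of_dvd_pow ((hpZ.dvd_or_dvd h5n).resolve_left h5')
    obtain ⟨m', rfl⟩ := hm'
    obtain ⟨n', rfl⟩ := hn
    have hp0 : (p : ℤ) ≠ 0 := hpZ.ne_zero
    have : (c : ℤ) = p * (m' ^ 2 + 5 * n' ^ 2) := by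
      apply mul_right_cancel₀ hp0
      linear_combination -hmn
    have hdvd : (p : ℤ) ∣ c := Dvd.intro _ this.symm
    have := Int.le_of_dvd (by exact_mod_cast hc0) hdvd
    omega
  have h2m : ‖((2 * m : ℤ) : K)‖ = 1 := norm_int_unit hp hk h1 hm
  have e : (m : K) - n * s = ((2 * m : ℤ) : K) + -((m : K) + n * s) := by
    push_cast; ring
  have hlt' : ‖-((m : K) + n * s)‖ < ‖((2 * m : ℤ) : K)‖ := by rw [norm_neg, h2m]; exact hlt
  have hP : ‖(m : K) - n * s‖ = 1 := by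
    rw [e, IsUltrametricDist.norm_add_eq_max_of_norm_ne_norm hlt'.ne', max_eq_left hlt'.le, h2m]
  refine ⟨hP, ?_⟩
  have hprod : ((m : K) + n * s) * ((m : K) - n * s) = (c : K) * p := by
    have h := congrArg (fun z : ℤ => (z : K)) hmn
    push_cast at h
    linear_combination h - (n : K) ^ 2 * hs
  have := congrArg norm hprod
  rw [norm_mul, norm_mul, hP, mul_one, hk c hc0 hc, one_mul] at this
  exact this

end Pool.Agent.Lib.MP_d4c4f0_nt
end
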