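import Pool.Agent.Lib.MP_d4c4f0_nt.ZS.A12
import Pool.Agent.Lib.MP_d4c4f0_nt.ZS.A06

/-!
# A12b: the right hand side solves the third order equation modulo `p^2`

`R` with `p^2 = 0`, `A = FA p X`, `B = FH p (-C w) X = A + N`, `N = p e`, so `pN = 0`, `N^2 = 0`. `E = 1+8X^2`, `ie = E⁻¹`,
`W = E^p`, `Es = 1 + 8 X^(2p)`; `W = Es + p w1` (`exists_add_pow_prime_eq` and `8^p = 8 + p*..`), `Es` is a unit, `is`
its inverse. `Hp = (2W - Es) A^2 + 8 X^(2p) (B^2 - A^2)`, `B^2 - A^2 = 2AN`. Using `p^2 = 0`: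
`Hp * ie^(2p) = A^2 * is + 16 X^(2p) A N * is^2` (multiply by the unit `W^2 Es^2`: `(2W-Es) Es = W^2` because
`(W-Es)^2 = 0`, and `N W = N Es`).
Now `MM` is `R`-linear and for `g` with `θg = p h`, `p θh = 0`: `MM (g y) = g MM y + p h (3 al^2 θθy + 6 al be θy + Q y)`,
`Q = be^2 + al be1 + 4 al ga`. For `g = is`: `θ Es = 16 p X^(2p)`, `θ is = -16 p X^(2p) is^2 = -16 p ζ`,
`ζ = X^(2p) is^2`, `p θζ = 0`. And `N θ(ζ) = 0` (as `θζ ∈ p R⟦X⟧`), so `MM (16 ζ A N) = 16 ζ MM (A N)`.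
* `MM (A^2) = 0`: from `L2 A = 0` (identity: `MM (u v) = 3 al θu (L2 v) + al u θ(L2 v) + be u (L2 v) + 3 al θv (L2 u) +
  al v θ(L2 u) + be v (L2 u) + (terms with products that vanish)`; for `L2 u = 0` the exact identity is
  `MM (u v) = 3 al θu ρ + al u θρ + be u ρ` with `ρ = L2 v`; please check/derive with `linear_combination`: use
  `al θθu = -be θu - ga u`, and its `θ`: `al θθθu = -be θθu - be θθu - be1 θu - ga θu - ga1 u`, similarly for `v` with
  `ρ`). For `v = A`: `ρ = 0`.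
* `ρ = L2 N = p (2 al θA + be A)` (from `L2_FA`, `L2_FB`, `p N = 0`). So
  `MM (A N) = 3 al θA ρ + al A θρ + be A ρ = p (6 al^2 (θA)^2 + 6 al be A θA + (al be1 - 2 al ga + be^2) A^2)`, and
  `p (3 al^2 θθ(A^2) + 6 al be θ(A^2) + Q A^2)` is the same (use `al θθA = -be θA - ga A`).
Hence `MM (Hp ie^(2p)) = -16 ζ p(...) + 16 ζ p(...) = 0`.
-/

set_option autoImplicit false

open Finset PowerSeries

namespace Pool.Agent.Lib.MP_d4c4f0_nt

variable {R : Type*} [CommRing R]

private theorem aux12b_MM_add' (y z : R⟦X⟧) : MM (y + z) = MM y + MM z := by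
  unfold MM
  rw [map_add, map_add, map_add]
  ring

/-- Multiplication by a series with derivative divisible by `p`. -/
private theorem aux12b_MM_mul_p {q g h y : R⟦X⟧} (hq : th q = 0) (hg : th g = q * h)
    (hh : q * th h = 0) (hq2 : q ^ 2 = 0) :
    MM (y * g) = g * MM y + q * h * (3 * al ^ 2 * th (th y) + 6 * al * be * th y +
      (be ^ 2 + al * be1 + 4 * al * ga) * y) := by
  have h1 : th (y * g) = g * th y + q * (h * y) := by
    rw [th_mul, hg]
    ring
  have h2 : th (th (y * g)) = g * th (th y) + 2 * (q * (h * th y)) := by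
    rw [h1, map_add, th_mul, th_mul q, hq, th_mul h, hg]
    linear_combination y * hh
  have h3 : th (th (th (y * g))) = g * th (th (th y)) + 3 * (q * (h * th (th y))) := by
    have h2' : (2 : R⟦X⟧) * (q * (h * th y)) = q * (h * th y) + q * (h * th y) := by ring
    rw [h2, h2', map_add, map_add, th_mul, th_mul q, hq, th_mul h, hg]
    linear_combination 2 * th y * hh
  unfold MM
  rw [h3, h2, h1]
  ring

theorem MM_Hp {p : ℕ} (hp : p.Prime) (h3 : 3 < p) (h2 : (p : R) ^ 2 = 0) {w : R}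
    (hw : 8 * w = 1) {ie : R⟦X⟧} (hie : ie * (1 + 8 * X ^ 2) = 1) {e : R⟦X⟧}
    (he : FH p (-(C w)) (X : R⟦X⟧) = FA p X + (p : R⟦X⟧) * e) :
    MM (Hp p (C w) (X : R⟦X⟧) * ie ^ (2 * p)) = 0 := by
  have hq2 : ((p : ℕ) : R⟦X⟧) ^ 2 = 0 := by
    have : ((p : ℕ) : R⟦X⟧) = C ((p : ℕ) : R) := by simp
    rw [this, ← map_pow, h2, map_zero]
  have hq : th ((p : ℕ) : R⟦X⟧) = 0 := th_natCast p
  -- the power `E ^ p`
  obtain ⟨w1, hw1⟩ : ∃ w1 : R⟦X⟧, (1 + 8 * X ^ 2 : R⟦X⟧) ^ p =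
      1 + 8 * X ^ (2 * p) + (p : R⟦X⟧) * w1 := by
    obtain ⟨r, hr⟩ := exists_add_pow_prime_eq hp (1 : R⟦X⟧) (8 * X ^ 2)
    obtain ⟨c, hc⟩ : ∃ c : ℤ, (8 : ℤ) ^ p = 8 + p * c := by
      haveI := Fact.mk hp
      have h8 : ((8 : ZMod p)) ^ p = 8 := ZMod.pow_card _
      have h9 : (((8 : ℤ) ^ p - 8 : ℤ) : ZMod p) = 0 := by
        push_cast
        rw [h8, sub_self]
      rw [ZMod.intCast_zmod_eq_zero_iff_dvd] at h9
      obtain ⟨c, hc⟩ := h9
      exact ⟨c, by linear_combination hc⟩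
    have hc' : (8 : R⟦X⟧) ^ p = 8 + (p : R⟦X⟧) * ((c : ℤ) : R⟦X⟧) := by
      have := congrArg (Int.cast : ℤ → R⟦X⟧) hc
      push_cast at this
      exact this
    refine ⟨8 * X ^ 2 * r + ((c : ℤ) : R⟦X⟧) * X ^ (2 * p), ?_⟩
    rw [hr, one_pow, mul_pow, hc', ← pow_mul]
    ring
  -- the inverse of `Es`
  obtain ⟨is, his⟩ : ∃ is : R⟦X⟧, (1 + 8 * X ^ (2 * p)) * is = 1 := by
    have : IsUnit (1 + 8 * X ^ (2 * p) : R⟦X⟧) := by
      rw [PowerSeries.isUnit_iff_constantCoeff, map_add, map_mul, map_pow, map_one,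
        PowerSeries.constantCoeff_X, zero_pow (by omega), mul_zero, add_zero]
      exact isUnit_one
    exact this.exists_right_inv
  set A := FA p (X : R⟦X⟧) with hA
  set q : R⟦X⟧ := ((p : ℕ) : R⟦X⟧) with hqdef
  set Y : R⟦X⟧ := X ^ (2 * p) with hY
  have hthY : th Y = q * (2 * Y) := by
    rw [hY, th_pow, th_X, hqdef]
    have : (X : R⟦X⟧) ^ (2 * p) = X ^ (2 * p - 1) * X := by
      rw [← pow_succ]
      congr 1
      omega
    rw [this]
    push_cast
    ring
  have hthEs : th (1 + 8 * Y) = q * (16 * Y) := by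
    rw [map_add, th_one, th_mul, th_ofNat, hthY]
    ring
  set ζ : R⟦X⟧ := Y * is ^ 2 with hζ
  have hthis : th is = q * (-16 * ζ) := by
    have h4 : th ((1 + 8 * Y) * is) = 0 := by
      rw [his, th_one]
    rw [th_mul, hthEs] at h4
    have h5 : th is = ((1 + 8 * Y) * is) * th is := by
      rw [his, one_mul]
    rw [h5, hζ]
    linear_combination is * h4
  have hthζ : q * th ζ = 0 := by
    rw [hζ, th_mul, sq is, th_mul, hthis, hthY]
    linear_combination (2 * Y * is ^ 2 - 32 * Y * is * ζ) * hq2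
  have hLA : L2 A = 0 := L2_FA (by omega) h2
  have hLB := L2_FB (R := R) (by omega : 2 ≤ p) h2 hw
  rw [he] at hLB
  -- `L2` of the difference
  have hLadd : ∀ y z : R⟦X⟧, L2 (y + z) = L2 y + L2 z := by
    intro y z
    unfold L2
    rw [map_add, map_add]
    ring
  have hρ : L2 (q * e) = q * (2 * al * th A + be * A) := by
    have h6 : L2 (q * e) = L2 (A + q * e) := by
      rw [hLadd, hLA, zero_add]
    rw [h6, hLB, map_add, th_mul q, hq]
    linear_combination (2 * al * th e + be * e) * hq2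
  -- the first term
  have hMA : MM (A ^ 2) = 0 := by
    rw [sq, MM_mul_of_L2 hLA, hLA, map_zero]
    ring
  have hrel : al * th (th A) = -(be * th A) - ga * A := by
    unfold L2 at hLA
    linear_combination hLA
  have hT : 3 * al ^ 2 * th (th (A ^ 2)) + 6 * al * be * th (A ^ 2) +
      (be ^ 2 + al * be1 + 4 * al * ga) * A ^ 2 =
      6 * al ^ 2 * th A ^ 2 + 6 * al * be * A * th A +
        (al * be1 - 2 * al * ga + be ^ 2) * A ^ 2 := by
    have h7 : th (A ^ 2) = A * th A + A * th A := by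
      rw [sq, th_mul]
    rw [h7, map_add, th_mul]
    linear_combination 6 * al * A * hrel
  have h8 : MM (A ^ 2 * is) = q * (-16 * ζ) * (6 * al ^ 2 * th A ^ 2 + 6 * al * be * A * th A +
        (al * be1 - 2 * al * ga + be ^ 2) * A ^ 2) := by
    rw [aux12b_MM_mul_p hq hthis ?_ hq2, hMA, hT]
    · ring
    · rw [th_mul, map_neg, th_ofNat]
      linear_combination -16 * hthζ
  -- the second term
  have h9 : MM (A * (q * e)) = q * (6 * al ^ 2 * th A ^ 2 + 6 * al * be * A * th A +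
        (al * be1 - 2 * al * ga + be ^ 2) * A ^ 2) := by
    rw [MM_mul_of_L2 hLA, hρ, th_mul q, hq, map_add, th_mul be, th_be, th_mul (2 * al), th_mul 2,
      th_ofNat, th_al]
    linear_combination 2 * q * al * A * hrel
  have h10 : MM (A * (q * e) * (16 * ζ)) = 16 * ζ * MM (A * (q * e)) := by
    have h11 : ∀ y : R⟦X⟧, th (q * y * (16 * ζ)) = q * th y * (16 * ζ) := by
      intro y
      rw [th_mul, th_mul q, hq, th_mul, th_ofNat]
      linear_combination 16 * y * hthζ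
    have h12 : ∀ y : R⟦X⟧, th (q * y) = q * th y := by
      intro y
      rw [th_mul, hq]
      ring
    have h13 : A * (q * e) = q * (A * e) := by ring
    rw [h13]
    unfold MM
    rw [h11, h11, h11, h12, h12, h12]
    ring
  -- the product
  have hprod : Hp p (C w) (X : R⟦X⟧) * ie ^ (2 * p) = A ^ 2 * is + A * (q * e) * (16 * ζ) := by
    have hW : ie ^ p * (1 + 8 * Y + q * w1) = 1 := by
      rw [← hw1, ← mul_pow, hie, one_pow]
    have hH : Hp p (C w) (X : R⟦X⟧) = (2 * (1 + 8 * Y + q * w1) - 1 - 8 * Y) * A ^ 2 +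
        8 * Y * ((A + q * e) ^ 2 - A ^ 2) := by
      unfold Hp
      rw [hw1, he]
    have hpow : ie ^ (2 * p) = (ie ^ p) ^ 2 := by
      rw [← pow_mul, mul_comm]
    rw [hH, hpow]
    set iW := ie ^ p with hiW
    have e1 : (2 * (1 + 8 * Y + q * w1) - 1 - 8 * Y) * iW ^ 2 = is := by
      have e2 : (2 * (1 + 8 * Y + q * w1) - 1 - 8 * Y) * (1 + 8 * Y) =
          (1 + 8 * Y + q * w1) ^ 2 := by
        linear_combination -w1 ^ 2 * hq2
      calc (2 * (1 + 8 * Y + q * w1) - 1 - 8 * Y) * iW ^ 2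
          = (2 * (1 + 8 * Y + q * w1) - 1 - 8 * Y) * iW ^ 2 * ((1 + 8 * Y) * is) := by
            rw [his, mul_one]
        _ = (2 * (1 + 8 * Y + q * w1) - 1 - 8 * Y) * (1 + 8 * Y) * iW ^ 2 * is := by ring
        _ = (iW * (1 + 8 * Y + q * w1)) ^ 2 * is := by
            rw [e2]
            ring
        _ = is := by
            rw [hW]
            ring
    have e3 : q * iW ^ 2 = q * is ^ 2 := by
      have e4 : q * (1 + 8 * Y + q * w1) ^ 2 = q * (1 + 8 * Y) ^ 2 := by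
        linear_combination (2 * w1 * (1 + 8 * Y) + q * w1 ^ 2) * hq2
      calc q * iW ^ 2 = q * iW ^ 2 * ((1 + 8 * Y) * is) ^ 2 := by
            rw [his]
            ring
        _ = (q * (1 + 8 * Y) ^ 2) * iW ^ 2 * is ^ 2 := by ring
        _ = q * (iW * (1 + 8 * Y + q * w1)) ^ 2 * is ^ 2 := by
            rw [← e4]
            ring
        _ = q * is ^ 2 := by
            rw [hW]
            ring
    rw [hζ]
    linear_combination A ^ 2 * e1 + 16 * Y * A * e * e3 + 8 * Y * e ^ 2 * iW ^ 2 * hq2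
  rw [hprod, aux12b_MM_add', h8, h10, h9]
  ring

end Pool.Agent.Lib.MP_d4c4f0_nt
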