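import Pool.Agent.Lib.MP_d4c4f0_nt.ZS.A03
import Pool.Agent.Lib.MP_d4c4f0_nt.ZS.A08

section

section

/-!
# A02: the recurrence of `v_n = C(2n,n) f_n`

From `fr_rec` and `(n+1) C(2n+2,n+1) = 2 (2n+1) C(2n,n)` (`Nat.succ_mul_centralBinom_succ`, `vr` uses
`(2*n).choose n = n.centralBinom`): multiply `fr_rec` by `(n+2) C(2n+4,n+2) = 2 (2n+3) C(2n+2,n+1)` and use
`16 (2n+3) (n+1) * (n+1) C(2n+2,n+1) = 32 (n+1) (2n+3) (2n+1) C(2n,n)`.
`vr_last`: `p ∣ C(2(p-1), p-1)` since `p ≤ 2(p-1) < 2p` and `p-1 < p` (`p ∣ (2(p-1))!`, `p ∤ ((p-1)!)^2`), so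
`p * v_{p-1}` is divisible by `p^2`.
-/

set_option autoImplicit false

open Finset

namespace Pool.Agent.Lib.MP_d4c4f0_nt

theorem vr_zero : vr 0 = 1 := by
  simp [vr, fr]

theorem vr_rec (n : ℕ) : ((n : ℤ) + 2) ^ 3 * (vr (n + 2) : ℤ) =
    2 * (2 * (n : ℤ) + 3) * (7 * ((n : ℤ) + 1) ^ 2 + 7 * ((n : ℤ) + 1) + 2) * (vr (n + 1) : ℤ) +
      32 * ((n : ℤ) + 1) * (4 * ((n : ℤ) + 1) ^ 2 - 1) * (vr n : ℤ) := by
  have h := fr_rec n
  have h1 : ((n : ℤ) + 1) * ((n + 1).centralBinom : ℤ) = 2 * (2 * (n : ℤ) + 1) * (n.centralBinom : ℤ) := by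
    have := Nat.succ_mul_centralBinom_succ n
    exact_mod_cast this
  have h2 : ((n : ℤ) + 2) * ((n + 2).centralBinom : ℤ) =
      2 * (2 * (n : ℤ) + 3) * ((n + 1).centralBinom : ℤ) := by
    have := Nat.succ_mul_centralBinom_succ (n + 1)
    have h3 : (((n + 1 + 1) * (n + 1 + 1).centralBinom : ℕ) : ℤ) =
      ((2 * (2 * (n + 1) + 1) * (n + 1).centralBinom : ℕ) : ℤ) := by rw [this]
    push_cast at h3
    linear_combination h3
  unfold vr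
  rw [← Nat.centralBinom_eq_two_mul_choose, ← Nat.centralBinom_eq_two_mul_choose,
    ← Nat.centralBinom_eq_two_mul_choose]
  push_cast
  linear_combination ((n : ℤ) + 2) ^ 2 * (fr (n + 2) : ℤ) * h2 +
    2 * (2 * (n : ℤ) + 3) * ((n + 1).centralBinom : ℤ) * h +
    16 * (2 * (n : ℤ) + 3) * ((n : ℤ) + 1) * (fr n : ℤ) * h1

theorem vr_one_eq : (vr 1 : ℤ) = 2 * 2 * vr 0 := by
  simp [vr, fr, sum_range_succ]

theorem vr_last {p : ℕ} (hp : p.Prime) : p ∣ vr (p - 1) := by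
  have h2 := hp.two_le
  unfold vr
  refine Dvd.dvd.mul_right ?_ _
  rw [two_mul]
  exact hp.dvd_choose_add (by omega) (by omega) (by omega)

end Pool.Agent.Lib.MP_d4c4f0_nt
end

section

/-!
# A10: the third order operator on `T^n / (1+8X^2)`

Let `E = 1+8X^2`, `ie` its inverse, `U_n = (X al)^n ie^(2n+1)`. Claim, for all `n`,
`al * MM U_n = g1 g2 E (n^3 U_n - 2(2n+1)(7n^2+7n+2) U_{n+1} - 32 (n+1) (4(n+1)^2-1) U_{n+2})`,
`g1 = 1-16X-8X^2`, `g2 = 1+2X-8X^2`.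
Proof. `θU_n = κU_n`, `κ = P1 * ia * ie` with `ia = al⁻¹`, `P1 = n (al + be) E - (2n+1) 16 X^2 al`;
`θ ia = -be ia^2`, `θ ie = -16X^2 ie^2`, hence `θκ = P2 ia^2 ie^2`, `P2 = θP1 * al E - P1 (be E + 16X^2 al)`,
`θθκ = P3 ia^3 ie^3`, `P3 = θP2 * al E - 2 P2 (be E + 16 X^2 al)`. With `Q = be^2 + al be1 + 4 al ga`:
`MM U_n = U_n (al^2 (κ^3+3κθκ+θθκ) + 3 al be (κ^2+θκ) + Qκ + 2(be ga + al ga1))`. Multiply by `al E^3` (unit):
`al E^3 (...) = P1^3+3P1P2+P3 + 3 be E (P1^2+P2) + Q E^2 P1 + 2 al E^3 (be ga + al ga1)` and the claim becomes the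
polynomial identity (in `X` and `n`, checked by computer)
`P1^3+3P1P2+P3 + 3 be E (P1^2+P2) + Q E^2 P1 + 2 al E^3 (be ga + al ga1)`
`  = g1 g2 (n^3 E^4 - 2(2n+1)(7n^2+7n+2) X al E^2 - 32 (n+1)(4(n+1)^2-1) X^2 al^2)`: `ring` (with `θP1`, `θP2` written out).
-/

set_option autoImplicit false

open Finset PowerSeries

namespace Pool.Agent.Lib.MP_d4c4f0_nt

variable {R : Type*} [CommRing R]

private theorem a10_step {al' be' E' ie' U F tE : R⟦X⟧} (hU : al' * th U = F * ie' * U)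
    {k : ℕ} {Q DQ Y : R⟦X⟧} (hY : al' ^ k * Y = ie' ^ k * Q * U) (hal : th al' = be')
    (hDQ : th Q = DQ) (hie : ie' * E' = 1) (hthie : th ie' = -tE * ie' ^ 2) :
    al' ^ (k + 1) * th Y =
      ie' ^ (k + 1) * (al' * E' * DQ + F * Q - k * Q * (be' * E' + tE * al')) * U := by
  have h := congrArg th hY
  simp only [th_mul, th_pow, hal, hDQ, hthie] at h
  rcases k with _ | k
  · simp only [pow_zero, Nat.cast_zero, zero_mul, mul_zero, zero_add, one_mul, add_zero,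
      sub_zero, pow_one] at h hY ⊢
    linear_combination al' * h + Q * hU - al' * DQ * U * hie
  · simp only [Nat.add_sub_cancel, Nat.cast_add, Nat.cast_one] at h ⊢
    linear_combination al' * h + ie' ^ (k + 1) * Q * hU -
      ((k : R⟦X⟧) + 1) * be' * hY -
      ie' ^ (k + 1) * (al' * DQ - ((k : R⟦X⟧) + 1) * Q * be') * U * hie

theorem MM_U {ie : R⟦X⟧} (hie : ie * (1 + 8 * X ^ 2) = 1) (n : ℕ) :
    al * MM ((X * al) ^ n * ie ^ (2 * n + 1)) =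
      (1 - 16 * X - 8 * X ^ 2) * (1 + 2 * X - 8 * X ^ 2) * (1 + 8 * X ^ 2) *
        ((n : R⟦X⟧) ^ 3 * ((X * al) ^ n * ie ^ (2 * n + 1)) -
          2 * (2 * (n : R⟦X⟧) + 1) * (7 * (n : R⟦X⟧) ^ 2 + 7 * (n : R⟦X⟧) + 2) *
            ((X * al) ^ (n + 1) * ie ^ (2 * n + 3)) -
          32 * ((n : R⟦X⟧) + 1) * (4 * ((n : R⟦X⟧) + 1) ^ 2 - 1) *
            ((X * al) ^ (n + 2) * ie ^ (2 * n + 5))) := by
  have hthE : th (1 + 8 * X ^ 2 : R⟦X⟧) = 16 * X ^ 2 := by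
    simp only [map_add, th_mul, th_pow, th_X, th_one, th_ofNat]
    push_cast
    ring
  have hthie : th ie = -(16 * X ^ 2) * ie ^ 2 := by
    have h := congrArg th hie
    rw [th_mul, hthE, th_one] at h
    linear_combination ie * h - (th ie) * hie
  have hN : th (n : R⟦X⟧) = 0 := th_natCast n
  generalize hNn : (n : R⟦X⟧) = N at hN ⊢
  set U : R⟦X⟧ := (X * al) ^ n * ie ^ (2 * n + 1) with hUdef
  have hU1 : (X * al) ^ (n + 1) * ie ^ (2 * n + 3) = U * (X * al * ie ^ 2) := by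
    rw [hUdef]; ring
  have hU2 : (X * al) ^ (n + 2) * ie ^ (2 * n + 5) = U * (X * al * ie ^ 2) ^ 2 := by
    rw [hUdef]; ring
  rw [hU1, hU2]
  have ha : al * th ((X * al : R⟦X⟧) ^ n) = N * (al + be) * (X * al) ^ n := by
    rw [th_pow, th_mul, th_X, th_al, hNn]
    rcases n with _ | k
    · have : N = 0 := by rw [← hNn]; simp
      rw [this]; ring
    · rw [Nat.add_sub_cancel, pow_succ]; ring
  have hb : th (ie ^ (2 * n + 1)) = (2 * N + 1) * (-(16 * X ^ 2) * ie) * ie ^ (2 * n + 1) := by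
    rw [th_pow, hthie, Nat.add_sub_cancel]
    push_cast
    rw [hNn, pow_succ ie (2 * n)]
    ring
  have hU : al * th U =
      (N * (al + be) * (1 + 8 * X ^ 2) - (2 * N + 1) * (16 * X ^ 2) * al) * ie * U := by
    rw [hUdef, th_mul, hb]
    linear_combination ie ^ (2 * n + 1) * ha -
      N * (al + be) * (X * al) ^ n * ie ^ (2 * n + 1) * hie
  clear_value U
  clear ha hb hU1 hU2 hUdef hNn
  set P1 : R⟦X⟧ := N * (al + be) * (1 + 8 * X ^ 2) - (2 * N + 1) * (16 * X ^ 2) * al with hP1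
  have hD1 : ∃ D1 : R⟦X⟧, th P1 = D1 ∧ D1 =
      N * (be + be1) * (1 + 8 * X ^ 2) + N * (al + be) * (16 * X ^ 2) -
        (2 * N + 1) * (32 * X ^ 2 * al + 16 * X ^ 2 * be) := by
    refine ⟨_, rfl, ?_⟩
    rw [hP1]
    simp only [map_add, map_sub, th_mul, th_pow, th_X, th_one, th_ofNat, hN, th_al, th_be]
    push_cast
    ring
  obtain ⟨D1, hD1, hD1'⟩ := hD1
  have h1 : al ^ 1 * th U = ie ^ 1 * P1 * U := by rw [pow_one, pow_one, hU]; ring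
  have h2 := a10_step (k := 1) hU h1 th_al hD1 hie hthie
  set P2 : R⟦X⟧ := al * (1 + 8 * X ^ 2) * D1 + P1 * P1 -
    ((1 : ℕ) : R⟦X⟧) * P1 * (be * (1 + 8 * X ^ 2) + 16 * X ^ 2 * al) with hP2
  have hD2 : ∃ D2 : R⟦X⟧, th P2 = D2 ∧ D2 =
      be * (1 + 8 * X ^ 2) * D1 + al * (16 * X ^ 2) * D1 + al * (1 + 8 * X ^ 2) *
        (N * (be1 + (-7 * X - 64 * X ^ 2)) * (1 + 8 * X ^ 2) + N * (be + be1) * (16 * X ^ 2) +
          N * (be + be1) * (16 * X ^ 2) + N * (al + be) * (32 * X ^ 2) -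
          (2 * N + 1) * (64 * X ^ 2 * al + 32 * X ^ 2 * be + 32 * X ^ 2 * be +
            16 * X ^ 2 * be1)) + 2 * P1 * D1 -
        D1 * (be * (1 + 8 * X ^ 2) + 16 * X ^ 2 * al) -
        P1 * (be1 * (1 + 8 * X ^ 2) + be * (16 * X ^ 2) + 32 * X ^ 2 * al + 16 * X ^ 2 * be) := by
    refine ⟨_, rfl, ?_⟩
    have hb1 : th (be1 : R⟦X⟧) = -7 * X - 64 * X ^ 2 := by
      simp only [be1, map_sub, map_neg, th_mul, th_pow, th_X, th_ofNat]
      push_cast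
      ring
    have hDD : th D1 = N * (be1 + (-7 * X - 64 * X ^ 2)) * (1 + 8 * X ^ 2) +
        N * (be + be1) * (16 * X ^ 2) +
          N * (be + be1) * (16 * X ^ 2) + N * (al + be) * (32 * X ^ 2) -
          (2 * N + 1) * (64 * X ^ 2 * al + 32 * X ^ 2 * be + 32 * X ^ 2 * be +
            16 * X ^ 2 * be1) := by
      rw [hD1']
      simp only [map_add, map_sub, th_mul, th_pow, th_X, th_one, th_ofNat, hN, th_al, th_be, hb1]
      push_cast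
      ring
    rw [hP2]
    simp only [map_add, map_sub, th_mul, th_pow, th_X, th_one, th_ofNat, hN, th_al, th_be, hD1,
      hDD, Nat.cast_one]
    push_cast
    ring
  obtain ⟨D2, hD2, hD2'⟩ := hD2
  have h3 := a10_step (k := 2) hU h2 th_al hD2 hie hthie
  have hpoly : (al * (1 + 8 * X ^ 2) * D2 + P1 * P2 -
      ((2 : ℕ) : R⟦X⟧) * P2 * (be * (1 + 8 * X ^ 2) + 16 * X ^ 2 * al)) +
      3 * be * (1 + 8 * X ^ 2) * P2 +
      (be ^ 2 + al * be1 + 4 * al * ga) * (1 + 8 * X ^ 2) ^ 2 * P1 +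
      2 * al * (1 + 8 * X ^ 2) ^ 3 * (be * ga + al * ga1) =
      (1 - 16 * X - 8 * X ^ 2) * (1 + 2 * X - 8 * X ^ 2) *
        (N ^ 3 * (1 + 8 * X ^ 2) ^ 4 - 2 * (2 * N + 1) * (7 * N ^ 2 + 7 * N + 2) *
          (X * al) * (1 + 8 * X ^ 2) ^ 2 -
          32 * (N + 1) * (4 * (N + 1) ^ 2 - 1) * (X * al) ^ 2) := by
    rw [hD2', hP2, hD1', hP1]
    simp only [al, be, be1, ga, ga1]
    push_cast
    ring
  clear_value P1 P2
  clear hP1 hP2 hD1 hD1' hD2 hD2' hN hthE hthie hU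
  generalize hE : (1 + 8 * X ^ 2 : R⟦X⟧) = E at hie hpoly h1 h2 h3 ⊢
  clear hE
  simp only [MM]
  generalize th (th (th U)) = U3 at h3 ⊢
  generalize th (th U) = U2 at h2 ⊢
  generalize th U = U1 at h1 ⊢
  linear_combination h3 + 3 * be * h2 + (be ^ 2 + al * be1 + 4 * al * ga) * h1 +
    ie ^ 3 * U * hpoly +
    (-(3 * be * ie ^ 2 * P2 * U) -
      (be ^ 2 + al * be1 + 4 * al * ga) * ie * P1 * U * (ie * E + 1) -
      2 * al * (be * ga + al * ga1) * U * ((ie * E) ^ 2 + ie * E + 1) -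
      (1 - 16 * X - 8 * X ^ 2) * (1 + 2 * X - 8 * X ^ 2) * U *
        (-(E * N ^ 3) * ((ie * E) ^ 2 + ie * E + 1) +
          2 * (2 * N + 1) * (7 * N ^ 2 + 7 * N + 2) * (X * al) * E * ie ^ 2 -
          32 * (N + 1) * (4 * (N + 1) ^ 2 - 1) * (X * al) ^ 2 * ie ^ 3)) * hie

end Pool.Agent.Lib.MP_d4c4f0_nt
end
end

section

section

/-!
# A11: the truncated sum of `v_n T^n` solves `MM` modulo `p^2`

Notation of A10, `U_n = (X al)^n ie^(2n+1)`, `g1 = 1-16X-8X^2`, `g2 = 1+2X-8X^2`, `E = 1+8X^2`.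
`MM_sum`: sum with `v_n`, `n < p`: by `vr_rec`, `vr_one_eq` the sum telescopes to
`g1 g2 E (-p^3 v_p U_p - 32 p (4p^2-1) v_{p-1} U_{p+1})`, zero if `p^2 = 0` since `p ∣ v_{p-1}` (`vr_last`); `al` is a unit.
`MM_Gp`: `Gp p X = ∑ v_n (X (1-7X-8X^2))^n E^(2p-1-2n)`, so `Gp p X * ie^(2p) = ∑ v_n (X al)^n ie^(2n+1)`.
-/

set_option autoImplicit false

open Finset PowerSeries

namespace Pool.Agent.Lib.MP_d4c4f0_nt

variable {R : Type*} [CommRing R]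

/-- auxiliary: telescoping sum -/
private theorem a11_tele {S : Type*} [CommRing S] (U : ℕ → S) (M : ℕ) :
    ∑ n ∈ range (M + 1), (vr n : S) * ((n : S) ^ 3 * U n -
      2 * (2 * (n : S) + 1) * (7 * (n : S) ^ 2 + 7 * (n : S) + 2) * U (n + 1) -
      32 * ((n : S) + 1) * (4 * ((n : S) + 1) ^ 2 - 1) * U (n + 2)) =
    -(((M : S) + 1) ^ 3 * (vr (M + 1) : S) * U (M + 1)) -
      32 * ((M : S) + 1) * (4 * ((M : S) + 1) ^ 2 - 1) * (vr M : S) * U (M + 2) := by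
  induction M with
  | zero =>
    have h1 : ((vr 1 : ℕ) : S) = 4 * ((vr 0 : ℕ) : S) := by
      have := congrArg (Int.cast : ℤ → S) vr_one_eq
      push_cast at this
      linear_combination this
    rw [sum_range_one]
    push_cast
    rw [h1]
    ring
  | succ M ih =>
    rw [sum_range_succ, ih]
    have h1 := congrArg (Int.cast : ℤ → S) (vr_rec M)
    push_cast at h1 ⊢
    have h2 : ((M : S) + 1 + 1) ^ 3 * (vr (M + 2) : S) =
        2 * (2 * ((M : S) + 1) + 1) * (7 * ((M : S) + 1) ^ 2 + 7 * ((M : S) + 1) + 2) *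
          (vr (M + 1) : S) + 32 * ((M : S) + 1) * (4 * ((M : S) + 1) ^ 2 - 1) * (vr M : S) := by
      linear_combination h1
    have h3 : M + 1 + 1 = M + 2 := rfl
    rw [h3, h2]
    ring

private theorem a11_MM_add (f g : R⟦X⟧) : MM (f + g) = MM f + MM g := by
  simp only [MM, map_add]
  ring

private theorem a11_MM_cast (n : ℕ) (f : R⟦X⟧) : MM ((n : R⟦X⟧) * f) = (n : R⟦X⟧) * MM f := by
  simp only [MM, th_mul, th_natCast, mul_zero, add_zero]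
  ring

private theorem a11_MM_sum (c : ℕ → ℕ) (U : ℕ → R⟦X⟧) (N : ℕ) :
    MM (∑ n ∈ range N, (c n : R⟦X⟧) * U n) = ∑ n ∈ range N, (c n : R⟦X⟧) * MM (U n) := by
  induction N with
  | zero => simp [MM]
  | succ N ih => rw [sum_range_succ, sum_range_succ, a11_MM_add, ih, a11_MM_cast]

theorem MM_sum {p : ℕ} (hp : p.Prime) (h2 : (p : R) ^ 2 = 0) {ie : R⟦X⟧}
    (hie : ie * (1 + 8 * X ^ 2) = 1) :
    MM (∑ n ∈ range p, (vr n : R⟦X⟧) * ((X * al) ^ n * ie ^ (2 * n + 1))) = 0 := by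
  have hal : IsUnit (al : R⟦X⟧) := by
    rw [PowerSeries.isUnit_iff_constantCoeff]
    simp [al]
  obtain ⟨M, hM⟩ := Nat.exists_eq_succ_of_ne_zero hp.pos.ne'
  rw [Nat.succ_eq_add_one] at hM
  apply hal.mul_left_cancel
  rw [mul_zero, a11_MM_sum (fun n => vr n) (fun n => (X * al) ^ n * ie ^ (2 * n + 1)), mul_sum]
  have h3 : ∀ n ∈ range p, al * ((vr n : R⟦X⟧) * MM ((X * al) ^ n * ie ^ (2 * n + 1))) =
      ((1 - 16 * X - 8 * X ^ 2) * (1 + 2 * X - 8 * X ^ 2) * (1 + 8 * X ^ 2)) *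
        ((vr n : R⟦X⟧) * ((n : R⟦X⟧) ^ 3 * ((X * al) ^ n * ie ^ (2 * n + 1)) -
          2 * (2 * (n : R⟦X⟧) + 1) * (7 * (n : R⟦X⟧) ^ 2 + 7 * (n : R⟦X⟧) + 2) *
            ((X * al) ^ (n + 1) * ie ^ (2 * (n + 1) + 1)) -
          32 * ((n : R⟦X⟧) + 1) * (4 * ((n : R⟦X⟧) + 1) ^ 2 - 1) *
            ((X * al) ^ (n + 2) * ie ^ (2 * (n + 2) + 1)))) := by
    intro n _
    have h4 := MM_U hie n
    rw [mul_left_comm, h4]
    have e1 : 2 * (n + 1) + 1 = 2 * n + 3 := by ring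
    have e2 : 2 * (n + 2) + 1 = 2 * n + 5 := by ring
    rw [e1, e2]
    ring
  rw [sum_congr rfl h3, ← mul_sum, hM,
    a11_tele (fun n => (X * al) ^ n * ie ^ (2 * n + 1) : ℕ → R⟦X⟧) M]
  have hpS : ((M : R⟦X⟧) + 1) ^ 2 = 0 := by
    have h5 := congrArg (PowerSeries.C (R := R)) h2
    rw [map_pow, map_natCast, map_zero, hM] at h5
    push_cast at h5
    exact h5
  have hv : ((M : R⟦X⟧) + 1) * (vr M : R⟦X⟧) = 0 := by
    obtain ⟨k, hk⟩ := vr_last hp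
    rw [hM, Nat.add_sub_cancel] at hk
    rw [hk]
    push_cast
    linear_combination (k : R⟦X⟧) * hpS
  have h6 : -(((M : R⟦X⟧) + 1) ^ 3 * (vr (M + 1) : R⟦X⟧) *
        ((X * al) ^ (M + 1) * ie ^ (2 * (M + 1) + 1))) -
      32 * ((M : R⟦X⟧) + 1) * (4 * ((M : R⟦X⟧) + 1) ^ 2 - 1) * (vr M : R⟦X⟧) *
        ((X * al) ^ (M + 2) * ie ^ (2 * (M + 2) + 1)) = 0 := by
    linear_combination (-(((M : R⟦X⟧) + 1) * (vr (M + 1) : R⟦X⟧) *
        ((X * al) ^ (M + 1) * ie ^ (2 * (M + 1) + 1)))) * hpS +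
      (-(32 * (4 * ((M : R⟦X⟧) + 1) ^ 2 - 1) *
        ((X * al) ^ (M + 2) * ie ^ (2 * (M + 2) + 1)))) * hv
  rw [h6, mul_zero]

/-- `Gp` is the numerator of the sum. -/
theorem MM_Gp {p : ℕ} (hp : p.Prime) (h2 : (p : R) ^ 2 = 0) {ie : R⟦X⟧}
    (hie : ie * (1 + 8 * X ^ 2) = 1) : MM (Gp p (X : R⟦X⟧) * ie ^ (2 * p)) = 0 := by
  rw [← MM_sum hp h2 hie]
  congr 1
  rw [Gp, sum_mul]
  refine sum_congr rfl fun n hn => ?_
  have hn' := mem_range.1 hn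
  have e1 : 2 * p = (2 * p - 1 - 2 * n) + (2 * n + 1) := by omega
  have h3 : (1 + 8 * X ^ 2 : R⟦X⟧) ^ (2 * p - 1 - 2 * n) * ie ^ (2 * p) = ie ^ (2 * n + 1) := by
    conv_lhs => rw [show ie ^ (2 * p) = ie ^ ((2 * p - 1 - 2 * n) + (2 * n + 1)) by rw [← e1]]
    rw [pow_add, ← mul_assoc, ← mul_pow, mul_comm (1 + 8 * X ^ 2) ie, hie, one_pow, one_mul]
  rw [mul_assoc, h3, al, mul_assoc]

end Pool.Agent.Lib.MP_d4c4f0_nt
end

section

/-!
# A13: the involution `x ↦ -1/(8x)` on polynomials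

`Wr w N V = reflect N (V(-w X))`: for `natDegree V ≤ N` it is `X^N V(-w/X)`. It is additive, and multiplicative:
`Wr w (N+M) (f g) = Wr w N f * Wr w M g` (`Polynomial.reflect_mul`, degree bounds). For `8w = 1`:
`Wr 2 (1+8X^2) = w (1+8X^2)`, `Wr 4 (X(1-7X-8X^2)) = w^2 X(1-7X-8X^2)`, `Wr (2p) (X^(2p)) = w^(2p)`, `Wr (2p) 1 = X^(2p)`,
`Wr (p-1) (FA p X) = FH p (-w) X`, `Wr (p-1) (FH p (-w) X) = (-w)^(p-1) FA p X` (`p` odd: `w^(p-1)`).
* `Wr_Gp`: termwise, `4n + 2(2p-1-2n) = 4p-2`, factor `w^(2n) w^(2p-1-2n)`.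
* `Wr_Hp`: `Hp = (2E^p - 1 - 8X^(2p)) A^2 + 8X^(2p) (B^2 - A^2)`, `E = 1+8X^2`, so
  `Wr (4p-2) Hp = (2w^p E^p - X^(2p) - 8w^(2p)) B^2 + 8w^(2p) (w^(2p-2) A^2 - B^2)`. Multiply by `8^(2p-1)` (unit):
  claim `(2q E^p - 8q^2 X^(2p) - 2) B^2 + q^(-2) A^2 = Hp` with `q = 8^(p-1)`, `q^(-1) = w^(p-1)`. Now `q = 1 + p η`
  (Fermat), `B = A + N`, `N = p e`, `N^2 = 0`, `pN = 0`, `E^p = 1 + 8X^(2p) + p w1`, `p^2 = 0`; expand:
  `B^2 = A^2 + 2AN`; terms with `N`: `(2E^p - 8X^(2p) - 2) 2AN = 16 X^(2p) AN` (left), `8X^(2p) 2AN` (right); terms with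
  `A^2`: `2q E^p - 8q^2 X^(2p) - 2 + q^(-2) = 2E^p - 1 - 8X^(2p) + 2pη (E^p - 8X^(2p) - 1)` and the last term is `0`.
-/

set_option autoImplicit false

open Finset Polynomial

namespace Pool.Agent.Lib.MP_d4c4f0_nt

variable {R : Type*} [CommRing R]

/-- `X^N V(-w/X)`. -/
noncomputable def Wr (w : R) (N : ℕ) (V : R[X]) : R[X] := reflect N (V.comp (C (-w) * X))

theorem coeff_Wr (w : R) {N k : ℕ} (hk : k ≤ N) (V : R[X]) :
    (Wr w N V).coeff k = (-w) ^ (N - k) * V.coeff (N - k) := by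
  unfold Wr
  rw [coeff_reflect, revAt_le hk, comp_C_mul_X_coeff, mul_comm]

theorem Wr_add (w : R) (N : ℕ) (V V' : R[X]) : Wr w N (V + V') = Wr w N V + Wr w N V' := by
  unfold Wr
  rw [add_comp, reflect_add]

theorem Wr_sub (w : R) (N : ℕ) (V V' : R[X]) : Wr w N (V - V') = Wr w N V - Wr w N V' := by
  unfold Wr
  rw [sub_comp, reflect_sub]

theorem Wr_C_mul (w : R) (N : ℕ) (c : R) (V : R[X]) : Wr w N (C c * V) = C c * Wr w N V := by
  unfold Wr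
  rw [mul_comp, C_comp, reflect_C_mul]

theorem Wr_mul (w : R) {N M : ℕ} {V V' : R[X]} (h : V.natDegree ≤ N) (h' : V'.natDegree ≤ M) :
    Wr w (N + M) (V * V') = Wr w N V * Wr w M V' := by
  unfold Wr
  have key : ∀ {K : ℕ} {U : R[X]}, U.natDegree ≤ K → (U.comp (C (-w) * X)).natDegree ≤ K := by
    intro K U hU
    have h1 : (C (-w) * X : R[X]).natDegree ≤ 1 := by
      refine (natDegree_C_mul_le _ _).trans natDegree_X_le
    calc (U.comp (C (-w) * X)).natDegree ≤ U.natDegree * (C (-w) * X : R[X]).natDegree :=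
          natDegree_comp_le
      _ ≤ U.natDegree * 1 := Nat.mul_le_mul_left _ h1
      _ ≤ K := by rw [mul_one]; exact hU
  rw [mul_comp, reflect_mul _ _ (key h) (key h')]

theorem Wr_FA {p : ℕ} (w : R) : Wr w (p - 1) (FA p (X : R[X])) = FH p (-(C w)) X := by
  have h1 : Wr w (p - 1) (FA p (X : R[X])) =
      AddMonoidHom.mk' (Wr w (p - 1)) (Wr_add w (p - 1)) (FA p (X : R[X])) := rfl
  rw [h1]
  unfold FA FH
  rw [map_sum]
  refine Finset.sum_congr rfl fun n hn => ?_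
  rw [Finset.mem_range] at hn
  show Wr w (p - 1) ((fr n : R[X]) * X ^ n) = (fr n : R[X]) * (-(C w)) ^ n * X ^ (p - 1 - n)
  have h2 : (fr n : R[X]) = C (fr n : R) := by simp
  rw [h2, Wr_C_mul, mul_assoc]
  congr 1
  unfold Wr
  rw [pow_comp, X_comp, mul_pow, ← C_pow, reflect_C_mul_X_pow, revAt_le (by omega), C_pow, C_neg]

end Pool.Agent.Lib.MP_d4c4f0_nt
end
end
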