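import Pool.Agent.Lib.MP_d4c4f0_nt.ZS.A08
import Pool.Agent.Lib.MP_d4c4f0_nt.ZS.A12
import Pool.Agent.Lib.MP_d4c4f0_nt.ZS.A13
import Pool.Agent.Lib.MP_d4c4f0_nt.ZS.A12b

section

section

/-!
# A14: `FA p X` has simple roots modulo `p`

`F = ZMod p`, `A = FA p X ∈ F[X]`, `natDegree A ≤ p - 1`, `A ≠ 0`. Claim: `A` and `A'` are coprime.
Proof. Suppose an irreducible (or: a root `ξ` in an algebraic closure `F'` of) common factor. Let `m ≥ 2` be the
multiplicity of `ξ` in `A`, `m ≤ p - 1`, `A = (X-ξ)^m G`, `G(ξ) ≠ 0`. `L2 A = 0` reads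
`al (X^2 A'' + X A') + be X A' + ga A = 0` (`θθA = X^2 A'' + X A'`), with `al = (1+X)(1-8X)`. Dividing by `(X-ξ)^(m-2)` and
evaluating at `ξ`: `al(ξ) ξ^2 m (m-1) G(ξ) = 0`. Since `m (m-1) ≠ 0` in `F`, `ξ = 0` or `ξ = -1` or `8ξ = 1`. But `A(0) = 1`,
`A(-1) = (-3)^n ≠ 0` (`tn_mod` at `x = -1`: `ea (-1) = -3`, `eb (-1) = 0`, `tn n (-3) 0 = (-3)^n`), and with `w = 1/8`:
`A(1/8) = FH p (1/8) 1`, `FB_mod` at `x = -1`: `FH p (-w) (-1) = (-1)^(p-1) FA p w = FA p w` equals `FA p (-1) ≠ 0`.
Contradiction. (Alternative without multiplicities: a common irreducible factor `g` of `A`, `A'` does not divide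
`X al`, so by `L2` and its derivatives it divides all derivatives of `A`; but the `(p-1)`-st derivative is the nonzero
constant `(p-1)! f_{p-1}`.)
-/

set_option autoImplicit false

open Finset Polynomial

namespace Pool.Agent.Lib.MP_d4c4f0_nt

private theorem a14_coe {K : Type*} [CommRing K] (p : ℕ) :
    ((FA p (X : K[X]) : K[X]) : PowerSeries K) = FA p (PowerSeries.X : PowerSeries K) := by
  have h := map_FA (Polynomial.coeToPowerSeries.ringHom (R := K)) p (X : K[X])
  rw [Polynomial.coeToPowerSeries.ringHom_apply, Polynomial.coeToPowerSeries.ringHom_apply,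
    Polynomial.coe_X] at h
  exact h

private theorem a14_th {K : Type*} [CommRing K] (f : K[X]) :
    th (f : PowerSeries K) = ((X * derivative f : K[X]) : PowerSeries K) := by
  have h : th (f : PowerSeries K) = PowerSeries.X * PowerSeries.derivative K (f : PowerSeries K) := rfl
  rw [h, PowerSeries.derivative_coe, Polynomial.coe_mul, Polynomial.coe_X]

/-- The polynomial form of the differential equation. -/
private theorem a14_ode {K : Type*} [CommRing K] {p : ℕ} (hp : 2 ≤ p) (h2 : (p : K) ^ 2 = 0) :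
    ((1 - 7 * X - 8 * X ^ 2) * X ^ 2) * derivative (derivative (FA p (X : K[X]))) +
      ((1 - 7 * X - 8 * X ^ 2) * X + (-7 * X - 16 * X ^ 2) * X) * derivative (FA p (X : K[X])) +
      (-2 * X - 8 * X ^ 2) * FA p (X : K[X]) = 0 := by
  apply Polynomial.coe_injective K
  have h := L2_FA (R := K) hp h2
  rw [← a14_coe, L2, a14_th, a14_th] at h
  rw [Polynomial.coe_zero, ← h, al, be, ga]
  set A := FA p (X : K[X])
  have c7 : ((7 : K[X]) : PowerSeries K) = 7 := map_ofNat (Polynomial.coeToPowerSeries.ringHom (R := K)) 7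
  have c8 : ((8 : K[X]) : PowerSeries K) = 8 := map_ofNat (Polynomial.coeToPowerSeries.ringHom (R := K)) 8
  have c2 : ((2 : K[X]) : PowerSeries K) = 2 := map_ofNat (Polynomial.coeToPowerSeries.ringHom (R := K)) 2
  have c16 : ((16 : K[X]) : PowerSeries K) = 16 :=
    map_ofNat (Polynomial.coeToPowerSeries.ringHom (R := K)) 16
  rw [derivative_mul, derivative_X]
  push_cast
  rw [c7, c8, c2, c16]
  ring

/-- `FA p 0 = 1`. -/
private theorem a14_zero {K : Type*} [CommRing K] {p : ℕ} (hp : 0 < p) : FA p (0 : K) = 1 := by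
  obtain ⟨m, rfl⟩ : ∃ m, p = m + 1 := ⟨p - 1, by omega⟩
  rw [FA, Finset.sum_range_succ']
  simp [fr_zero]

private theorem a14_mul_lt {K : Type*} [Field K] (P B : K[X]) (ξ : K) (j : ℕ)
    (h : ∀ k, k < j → (derivative^[k] B).eval ξ = 0) :
    (derivative^[j] (P * B)).eval ξ = P.eval ξ * (derivative^[j] B).eval ξ := by
  rw [iterate_derivative_mul, eval_finsetSum, Finset.sum_range_succ,
    Finset.sum_eq_zero fun k hk => ?_]
  · simp
  · rw [eval_smul, eval_mul, h k (Finset.mem_range.mp hk), mul_zero, smul_zero]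

private theorem a14_mul_le {K : Type*} [Field K] (P B : K[X]) (ξ : K) (j : ℕ)
    (h : ∀ k, k ≤ j → (derivative^[k] B).eval ξ = 0) :
    (derivative^[j] (P * B)).eval ξ = 0 := by
  rw [a14_mul_lt P B ξ j fun k hk => h k hk.le, h j le_rfl, mul_zero]

private theorem a14_all {K : Type*} [Field K] (P Q R A : K[X]) (ξ : K) (hP : P.eval ξ ≠ 0)
    (hode : P * derivative (derivative A) + Q * derivative A + R * A = 0)
    (h0 : A.eval ξ = 0) (h1 : (derivative A).eval ξ = 0) (j : ℕ) :
    (derivative^[j] A).eval ξ = 0 := by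
  induction j using Nat.strong_induction_on with
  | _ j ih =>
    rcases j with _ | _ | j
    · exact h0
    · exact h1
    · have e1 : ∀ k, derivative^[k] (derivative (derivative A)) = derivative^[k + 2] A :=
        fun k => by rw [Function.iterate_add_apply]; rfl
      have e2 : ∀ k, derivative^[k] (derivative A) = derivative^[k + 1] A :=
        fun k => by rw [Function.iterate_add_apply]; rfl
      have h4 := congrArg (fun f => (derivative^[j] f).eval ξ) hode
      simp only [iterate_map_add, eval_add, iterate_derivative_zero, eval_zero] at h4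
      rw [a14_mul_lt P _ ξ j fun k hk => by
          rw [e1]
          exact ih _ (by omega),
        a14_mul_le Q _ ξ j fun k hk => by
          rw [e2]
          exact ih _ (by omega),
        a14_mul_le R _ ξ j fun k hk => ih _ (by omega), add_zero, add_zero, e1] at h4
      exact (mul_eq_zero.mp h4).resolve_left hP

theorem FA_coprime {p : ℕ} [hp : Fact p.Prime] (h3 : 3 < p) :
    IsCoprime (FA p (X : (ZMod p)[X])) (derivative (FA p (X : (ZMod p)[X]))) := by
  have hpp := hp.out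
  let K := AlgebraicClosure (ZMod p)
  have : CharP K p := charP_of_injective_algebraMap (algebraMap (ZMod p) K).injective p
  have hpK : (p : K) = 0 := CharP.cast_eq_zero K p
  refine (Polynomial.isCoprime_iff_aeval_ne_zero_of_isAlgClosed (ZMod p) K _ _).mpr ?_
  intro ξ
  by_contra hcon
  rw [not_or, not_not, not_not] at hcon
  set A : K[X] := FA p (X : K[X]) with hA
  have hmapA : (FA p (X : (ZMod p)[X])).map (algebraMap (ZMod p) K) = A := by
    have h := map_FA (Polynomial.mapRingHom (algebraMap (ZMod p) K)) p (X : (ZMod p)[X])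
    simpa using h
  have h0 : A.eval ξ = 0 := by
    rw [← hmapA, eval_map_algebraMap]
    exact hcon.1
  have h1 : (derivative A).eval ξ = 0 := by
    rw [← hmapA, derivative_map, eval_map_algebraMap]
    exact hcon.2
  have hev : FA p ξ = 0 := by
    have h := map_FA (Polynomial.evalRingHom ξ) p (X : K[X])
    rw [coe_evalRingHom, eval_X] at h
    rw [← h]
    exact h0
  have hne3 : (3 : K) ≠ 0 := by
    have h := (CharP.cast_eq_zero_iff K p 3).not.mpr (fun h => by
      have := Nat.le_of_dvd (by norm_num) h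
      omega)
    simpa using h
  -- the value at `-1`
  have hm1 : FA p (-1 : K) ≠ 0 := by
    rw [← tn_mod hpp h3 hpK (-1 : K)]
    have h4 : ea (-1 : K) = -3 := by rw [ea]; ring
    have h5 : eb (-1 : K) = 0 := by rw [eb]; ring
    rw [h4, h5, tn, Finset.sum_range_succ']
    simp [hne3]
  -- `ξ` is not a zero of the leading coefficient
  have hlead : ((1 - 7 * X - 8 * X ^ 2) * X ^ 2 : K[X]).eval ξ ≠ 0 := by
    have h4 : ((1 - 7 * X - 8 * X ^ 2) * X ^ 2 : K[X]).eval ξ = (1 + ξ) * (1 - 8 * ξ) * ξ ^ 2 := by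
      simp only [eval_mul, eval_sub, eval_pow, eval_X, eval_one, eval_ofNat]
      ring
    rw [h4]
    refine mul_ne_zero (mul_ne_zero ?_ ?_) (pow_ne_zero _ ?_)
    · intro h
      apply hm1
      rw [show (-1 : K) = ξ by linear_combination -h]
      exact hev
    · intro h
      have h8 : 8 * ξ = 1 := by linear_combination -h
      have h5 := FB_mod hpp h3 hpK h8 (-1 : K)
      apply hm1
      rw [← h5, ← hev, FH, FA]
      refine Finset.sum_congr rfl fun n hn => ?_
      have hn' : n < p := Finset.mem_range.mp hn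
      have hodd : Odd p := hpp.odd_of_ne_two (by omega)
      have h6 : (-ξ) ^ n * (-1) ^ (p - 1 - n) = ξ ^ n := by
        rw [neg_pow ξ, mul_right_comm, ← pow_add, show n + (p - 1 - n) = p - 1 by omega]
        have h7 : Even (p - 1) := by
          obtain ⟨k, hk⟩ := hodd
          exact ⟨k, by omega⟩
        rw [h7.neg_one_pow, one_mul]
      rw [mul_assoc, h6]
    · intro h
      rw [h, a14_zero hpp.pos] at hev
      exact one_ne_zero hev
  -- all derivatives vanish at `ξ`
  have hode := a14_ode (K := K) hpp.two_le (by rw [hpK]; ring)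
  have hall := a14_all _ _ _ A ξ hlead hode h0 h1 (p - 1)
  have hcoeff : ∀ k, A.coeff k = if k < p then (fr k : K) else 0 := fun k => by
    rw [← coeff_FA, ← a14_coe, Polynomial.coeff_coe]
  have hC : derivative^[p - 1] A = C (((p - 1).factorial : K)) := by
    ext m
    rw [coeff_iterate_derivative, hcoeff, coeff_C]
    have hp0 := hpp.pos
    split_ifs with h4 h5 h5
    · subst h5
      have h6 : ((fr (p - 1) : ℕ) : K) = 1 := by
        have h7 := congrArg (algebraMap (ZMod p) K) (fr_last hpp (by omega))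
        rwa [map_natCast, map_one] at h7
      rw [zero_add, h6, Nat.descFactorial_self, nsmul_eq_mul, mul_one]
    · omega
    · omega
    · rw [smul_zero]
  rw [hC, eval_C] at hall
  have h8 := (CharP.cast_eq_zero_iff K p _).mp hall
  have h9 := (hpp.dvd_factorial).mp h8
  have := hpp.pos
  omega

end Pool.Agent.Lib.MP_d4c4f0_nt
end

section

/-!
# A15: solutions of `MM` in characteristic `p`

`F = ZMod p`, `A = FA p X`.
1. `exists_K`: `V = A^2 K` with `K ∈ F⟦X⟧`, `θ K = 0` (`A = FA p X`). Indeed in `F⟦X⟧` with `p = 0`: `MM (A^2) = 0`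
   (`MM_mul_of_L2`), `A` is a unit, `MM (A^2 K)`: if `K = V A^{-2}` had a first coefficient `K_j ≠ 0` with `p ∤ j`, let
   `K^- = ∑_{i<j} K_i X^i` (`θK^- = 0`), then `MM (A^2 (K - K^-)) = V`-part `= 0 - K^- MM(A^2) = 0` but its coefficient
   at `X^j` is `j^3 K_j ≠ 0` (`MM y` has coefficient `j^3 y_j` at the lowest degree `j`). So all `K_j` with `p ∤ j` vanish.
-/

set_option autoImplicit false

open Finset

namespace Pool.Agent.Lib.MP_d4c4f0_nt

/-- The coefficient of lowest degree of a product. -/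
private theorem aux15_coeff_mul_low {R : Type*} [CommRing R] (g y : PowerSeries R) {j : ℕ}
    (hy : ∀ i < j, PowerSeries.coeff i y = 0) :
    PowerSeries.coeff j (g * y) = PowerSeries.coeff 0 g * PowerSeries.coeff j y := by
  rw [PowerSeries.coeff_mul]
  rw [Finset.sum_eq_single (0, j)]
  · rintro ⟨a, b⟩ hab hne
    rw [Finset.HasAntidiagonal.mem_antidiagonal] at hab
    dsimp only at hab ⊢
    have hb : b < j := by
      rcases Nat.lt_or_ge b j with h | h
      · exact h
      · exfalso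
        apply hne
        have h1 : a = 0 := by omega
        have h2 : b = j := by omega
        rw [h1, h2]
    rw [hy b hb, mul_zero]
  · intro h
    exfalso
    apply h
    rw [Finset.HasAntidiagonal.mem_antidiagonal]
    exact zero_add j

private theorem aux15_coeff_th_low {R : Type*} [CommRing R] (y : PowerSeries R) {j : ℕ}
    (hy : ∀ i < j, PowerSeries.coeff i y = 0) : ∀ i < j, PowerSeries.coeff i (th y) = 0 := by
  intro i hi
  rw [coeff_th, hy i hi, mul_zero]

/-- The coefficient of lowest degree of `MM y`. -/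
private theorem aux15_coeff_MM_low {R : Type*} [CommRing R] (y : PowerSeries R) {j : ℕ}
    (hy : ∀ i < j, PowerSeries.coeff i y = 0) :
    PowerSeries.coeff j (MM y) = (j : R) ^ 3 * PowerSeries.coeff j y := by
  have h1 := aux15_coeff_th_low y hy
  have h2 := aux15_coeff_th_low (th y) h1
  have h3 := aux15_coeff_th_low (th (th y)) h2
  have c1 : PowerSeries.coeff 0 (al ^ 2 : PowerSeries R) = 1 := by
    rw [PowerSeries.coeff_zero_eq_constantCoeff]
    simp [al]
  have c2 : PowerSeries.coeff 0 (3 * al * be : PowerSeries R) = 0 := by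
    rw [PowerSeries.coeff_zero_eq_constantCoeff]
    simp [be]
  have c3 : PowerSeries.coeff 0 (be ^ 2 + al * be1 + 4 * al * ga : PowerSeries R) = 0 := by
    rw [PowerSeries.coeff_zero_eq_constantCoeff]
    simp [be, be1, ga]
  have c4 : PowerSeries.coeff 0 (2 * (be * ga + al * ga1) : PowerSeries R) = 0 := by
    rw [PowerSeries.coeff_zero_eq_constantCoeff]
    simp [be, ga1]
  unfold MM
  rw [map_add, map_add, map_add, aux15_coeff_mul_low _ _ h3, aux15_coeff_mul_low _ _ h2, aux15_coeff_mul_low _ _ h1,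
    aux15_coeff_mul_low _ _ hy, c1, c2, c3, c4, coeff_th, coeff_th, coeff_th]
  ring

private theorem aux15_MM_mul_const {R : Type*} [CommRing R] {g : PowerSeries R} (hg : th g = 0)
    (y : PowerSeries R) : MM (y * g) = MM y * g := by
  have h1 : ∀ z : PowerSeries R, th (z * g) = th z * g := by
    intro z
    rw [th_mul, hg]
    ring
  unfold MM
  rw [h1, h1, h1]
  ring

theorem exists_K {p : ℕ} [hp : Fact p.Prime] (h3 : 3 < p) {V : PowerSeries (ZMod p)}
    (hM : MM V = 0) :
    ∃ K : PowerSeries (ZMod p), th K = 0 ∧ V = FA p (PowerSeries.X) ^ 2 * K := by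
  have hp0 : ((p : ℕ) : ZMod p) ^ 2 = 0 := by
    rw [ZMod.natCast_self]
    ring
  have hA0 : PowerSeries.constantCoeff (FA p (PowerSeries.X : PowerSeries (ZMod p))) = 1 := by
    unfold FA
    rw [map_sum, Finset.sum_eq_single 0]
    · simp [fr_zero]
    · intro n _ hn
      rw [map_mul, map_pow, PowerSeries.constantCoeff_X, zero_pow hn, mul_zero]
    · intro h
      exfalso
      apply h
      rw [Finset.mem_range]
      omega
  have hL : L2 (FA p (PowerSeries.X : PowerSeries (ZMod p))) = 0 := L2_FA (by omega) hp0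
  have hMA : MM (FA p (PowerSeries.X : PowerSeries (ZMod p)) ^ 2) = 0 := by
    rw [sq, MM_mul_of_L2 hL, hL]
    simp
  obtain ⟨B, hB⟩ : ∃ B, FA p (PowerSeries.X : PowerSeries (ZMod p)) * B = 1 := by
    have : IsUnit (FA p (PowerSeries.X : PowerSeries (ZMod p))) := by
      rw [PowerSeries.isUnit_iff_constantCoeff, hA0]
      exact isUnit_one
    exact this.exists_right_inv
  set A := FA p (PowerSeries.X : PowerSeries (ZMod p)) with hA
  refine ⟨V * B ^ 2, ?_, ?_⟩
  · set K := V * B ^ 2 with hK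
    have hV : V = A ^ 2 * K := by
      have : A ^ 2 * K = V * (A * B) ^ 2 := by
        rw [hK]
        ring
      rw [this, hB]
      ring
    have key : ∀ j : ℕ, (j : ZMod p) * PowerSeries.coeff j K = 0 := by
      intro j
      induction j using Nat.strong_induction_on with
      | _ j ih =>
        set Km : PowerSeries (ZMod p) :=
          PowerSeries.mk fun i => if i < j then PowerSeries.coeff i K else 0 with hKm
        have hKm0 : th Km = 0 := by
          ext i
          rw [coeff_th, hKm, PowerSeries.coeff_mk, map_zero]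
          by_cases hi : i < j
          · rw [if_pos hi]
            exact ih i hi
          · rw [if_neg hi, mul_zero]
        have h1 : MM (A ^ 2 * (K - Km)) = 0 := by
          have h2 : MM (A ^ 2 * Km) = 0 := by
            rw [aux15_MM_mul_const hKm0, hMA, zero_mul]
          have h3 : ∀ y z : PowerSeries (ZMod p), MM (y - z) = MM y - MM z := by
            intro y z
            unfold MM
            rw [map_sub, map_sub, map_sub]
            ring
          rw [mul_sub, h3, h2, ← hV, hM, sub_zero]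
        have hlow : ∀ i < j, PowerSeries.coeff i (K - Km) = 0 := by
          intro i hi
          rw [map_sub, hKm, PowerSeries.coeff_mk, if_pos hi, sub_self]
        have hlow' : ∀ i < j, PowerSeries.coeff i (A ^ 2 * (K - Km)) = 0 := by
          intro i hi
          rw [aux15_coeff_mul_low _ _ (fun i' hi' => hlow i' (lt_trans hi' hi)), hlow i hi, mul_zero]
        have h4 := aux15_coeff_MM_low _ hlow'
        rw [h1, aux15_coeff_mul_low _ _ hlow, PowerSeries.coeff_zero_eq_constantCoeff, map_pow, hA0,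
          map_zero, one_pow, one_mul, map_sub, hKm, PowerSeries.coeff_mk, if_neg (lt_irrefl j),
          sub_zero] at h4
        rcases mul_eq_zero.1 h4.symm with h5 | h5
        · rw [pow_eq_zero_iff (by norm_num)] at h5
          rw [h5, zero_mul]
        · rw [h5, mul_zero]
    ext j
    rw [coeff_th, key j, map_zero]
  · have : A ^ 2 * (V * B ^ 2) = V * (A * B) ^ 2 := by ring
    rw [this, hB]
    ring

end Pool.Agent.Lib.MP_d4c4f0_nt
end
end

section

section

/-!
# A13b: degree bounds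

`FA p X` and `FH p (-(C w)) X` have degree `≤ p - 1` (`natDegree_sum_le_of_forall_le`, each term has degree `n`,
resp. `p-1-n`). `Gp`: the term `n` has degree `≤ 3... ` precisely `X (1-7X-8X^2)` has degree `≤ 3`, so the term has degree
`≤ 3n + 2(2p-1-2n) = 4p - 2 - n ≤ 4p - 2`. `Hp`: `(1+8X^2)^p`, `X^(2p)` have degree `≤ 2p` and the squares `≤ 2(p-1)`:
total `4p - 2`.
-/


set_option autoImplicit false

open Finset Polynomial

namespace Pool.Agent.Lib.MP_d4c4f0_nt

variable {R : Type*} [CommRing R]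

private theorem a13b_mul {f g : R[X]} {a b c : ℕ} (hf : f.natDegree ≤ a) (hg : g.natDegree ≤ b)
    (h : a + b ≤ c) : (f * g).natDegree ≤ c :=
  (natDegree_mul_le_of_le hf hg).trans h

private theorem a13b_pow {f : R[X]} {a n c : ℕ} (hf : f.natDegree ≤ a) (h : n * a ≤ c) :
    (f ^ n).natDegree ≤ c :=
  (natDegree_pow_le_of_le n hf).trans h

theorem natDegree_FA_le (p : ℕ) : (FA p (X : R[X])).natDegree ≤ p - 1 := by
  unfold FA
  refine natDegree_sum_le_of_forall_le _ _ fun n hn => ?_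
  have hn' := mem_range.1 hn
  exact a13b_mul (a := 0) (b := n) (by simp) (natDegree_X_pow_le n) (by omega)

theorem natDegree_FB_le (p : ℕ) (w : R) : (FH p (-(C w)) (X : R[X])).natDegree ≤ p - 1 := by
  unfold FH
  refine natDegree_sum_le_of_forall_le _ _ fun n hn => ?_
  have hn' := mem_range.1 hn
  refine a13b_mul (a := 0) (b := p - 1 - n) ?_ (natDegree_X_pow_le _) (by omega)
  refine a13b_mul (a := 0) (b := 0) (by simp) ?_ (by omega)
  exact a13b_pow (a := 0) (by simp) (by omega)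

theorem natDegree_Gp_le {p : ℕ} (hp : 0 < p) : (Gp p (X : R[X])).natDegree ≤ 4 * p - 2 := by
  unfold Gp
  refine natDegree_sum_le_of_forall_le _ _ fun n hn => ?_
  have hn' := mem_range.1 hn
  have h1 : (1 - 7 * X - 8 * X ^ 2 : R[X]).natDegree ≤ 2 := by compute_degree
  have h2 : (1 + 8 * X ^ 2 : R[X]).natDegree ≤ 2 := by compute_degree
  have h3 : (X * (1 - 7 * X - 8 * X ^ 2) : R[X]).natDegree ≤ 3 :=
    a13b_mul (natDegree_X_le) h1 (by omega)
  refine a13b_mul (a := 3 * n) (b := 2 * (2 * p - 1 - 2 * n)) ?_ ?_ (by omega)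
  · exact a13b_mul (a := 0) (b := 3 * n) (by simp) (a13b_pow h3 (by omega)) (by omega)
  · exact a13b_pow h2 (by omega)

theorem natDegree_Hp_le {p : ℕ} (hp : 0 < p) (w : R) :
    (Hp p (C w) (X : R[X])).natDegree ≤ 4 * p - 2 := by
  unfold Hp
  have hA : (FA p (X : R[X]) ^ 2).natDegree ≤ 2 * (p - 1) := a13b_pow (natDegree_FA_le p) le_rfl
  have hB : (FH p (-(C w)) (X : R[X]) ^ 2).natDegree ≤ 2 * (p - 1) :=
    a13b_pow (natDegree_FB_le p w) le_rfl
  have h2 : (1 + 8 * X ^ 2 : R[X]).natDegree ≤ 2 := by compute_degree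
  have h8 : (8 : R[X]).natDegree ≤ 0 := by compute_degree
  have h2' : (2 : R[X]).natDegree ≤ 0 := by compute_degree
  have h3 : (8 * X ^ (2 * p) : R[X]).natDegree ≤ 2 * p :=
    a13b_mul h8 (natDegree_X_pow_le _) (by omega)
  have h4 : (2 * (1 + 8 * X ^ 2) ^ p : R[X]).natDegree ≤ 2 * p :=
    a13b_mul h2' (a13b_pow h2 le_rfl) (by omega)
  have h5 : (2 * (1 + 8 * X ^ 2) ^ p - 1 - 8 * X ^ (2 * p) : R[X]).natDegree ≤ 2 * p := by
    refine (natDegree_sub_le_of_le (natDegree_sub_le_of_le h4 (n := 0) ?_) h3).trans ?_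
    · simp
    · simp
  refine (natDegree_add_le_of_le (a13b_mul h5 hA le_rfl)
    (a13b_mul h3 (natDegree_sub_le_of_le hB hA) le_rfl)).trans ?_
  simp only [max_self]
  omega

end Pool.Agent.Lib.MP_d4c4f0_nt
end

section

/-!
# A13c: symmetry of both sides under the involution `x ↦ -1/(8x)` on polynomials

`Wr w N V = reflect N (V(-w X))`: for `natDegree V ≤ N` it is `X^N V(-w/X)`. It is additive, and multiplicative:
`Wr w (N+M) (f g) = Wr w N f * Wr w M g` (`Polynomial.reflect_mul`, degree bounds). For `8w = 1`: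
`Wr 2 (1+8X^2) = w (1+8X^2)`, `Wr 4 (X(1-7X-8X^2)) = w^2 X(1-7X-8X^2)`, `Wr (2p) (X^(2p)) = w^(2p)`, `Wr (2p) 1 = X^(2p)`,
`Wr (p-1) (FA p X) = FH p (-w) X`, `Wr (p-1) (FH p (-w) X) = (-w)^(p-1) FA p X` (`p` odd: `w^(p-1)`).
* `Wr_Gp`: termwise, `4n + 2(2p-1-2n) = 4p-2`, factor `w^(2n) w^(2p-1-2n)`.
* `Wr_Hp`: `Hp = (2E^p - 1 - 8X^(2p)) A^2 + 8X^(2p) (B^2 - A^2)`, `E = 1+8X^2`, so
  `Wr (4p-2) Hp = (2w^p E^p - X^(2p) - 8w^(2p)) B^2 + 8w^(2p) (w^(2p-2) A^2 - B^2)`. Multiply by `8^(2p-1)` (unit):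
  claim `(2q E^p - 8q^2 X^(2p) - 2) B^2 + q^(-2) A^2 = Hp` with `q = 8^(p-1)`, `q^(-1) = w^(p-1)`. Now `q = 1 + p η`
  (Fermat), `B = A + N`, `N = p e`, `N^2 = 0`, `pN = 0`, `E^p = 1 + 8X^(2p) + p w1`, `p^2 = 0`; expand:
  `B^2 = A^2 + 2AN`; terms with `N`: `(2E^p - 8X^(2p) - 2) 2AN = 16 X^(2p) AN` (left), `8X^(2p) 2AN` (right); terms with
  `A^2`: `2q E^p - 8q^2 X^(2p) - 2 + q^(-2) = 2E^p - 1 - 8X^(2p) + 2pη (E^p - 8X^(2p) - 1)` and the last term is `0`.
-/

set_option autoImplicit false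

open Finset Polynomial

namespace Pool.Agent.Lib.MP_d4c4f0_nt

variable {R : Type*} [CommRing R]

/-- Algebra behind `Wr_Hp`. -/
private theorem a13c_alg {S : Type*} [CommRing S] {q W om P A B Ep e w1 η : S} (hq : q ^ 2 = 0)
    (hW : 8 * W = 1) (hom : om = 1 - q * η) (hB : B = A + q * e) (hE : Ep = 1 + 8 * P + q * w1) :
    (2 * (W * om) * Ep - P - 8 * (W ^ 2 * om ^ 2)) * B ^ 2 +
        8 * (W ^ 2 * om ^ 2) * (om ^ 2 * A ^ 2 - B ^ 2) =
      (W * om ^ 2) * ((2 * Ep - 1 - 8 * P) * A ^ 2 + 8 * P * (B ^ 2 - A ^ 2)) := by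
  have h1 : (2 * om * Ep - 8 * P - om ^ 2) * B ^ 2 + om ^ 2 * (om ^ 2 * A ^ 2 - B ^ 2) =
      om ^ 2 * ((2 * Ep - 1 - 8 * P) * A ^ 2 + 8 * P * (B ^ 2 - A ^ 2)) := by
    subst hom hB hE
    linear_combination (-16*A*P*e*q*η^2 -4*A*e*q*w1*η -4*A*e*q*η^2 +4*A*e*w1 +4*A*e*η
      -8*A^2*P*η^2 -2*A^2*q*w1*η^2 -4*A^2*q*η^3 +A^2*q^2*η^4 +2*A^2*w1*η +3*A^2*η^2
      -8*P*e^2*q^2*η^2 +2*e^2*q*w1 +2*e^2*q*η -2*e^2*q^2*w1*η -2*e^2*q^2*η^2) * hq
  linear_combination W * h1 + (P * B ^ 2 - W * om ^ 2 * B ^ 2 +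
    W * om ^ 2 * (om ^ 2 * A ^ 2 - B ^ 2)) * hW

private theorem a13c_Xpow (w : R) {N k : ℕ} (h : k ≤ N) :
    Wr w N (X ^ k) = C ((-w) ^ k) * X ^ (N - k) := by
  unfold Wr
  rw [X_pow_comp, mul_pow, ← C_pow, reflect_C_mul_X_pow, revAt_le h]

private theorem a13c_C (w : R) (N : ℕ) (c : R) : Wr w N (C c) = C c * X ^ N := by
  have h := a13c_Xpow w (Nat.zero_le N)
  rw [pow_zero, pow_zero, C_1, one_mul, Nat.sub_zero] at h
  rw [← mul_one (C c), Wr_C_mul, h, mul_one]

private theorem a13c_zero (w : R) (N : ℕ) : Wr w N 0 = 0 := by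
  have h := a13c_C w N 0
  rwa [C_0, zero_mul] at h

private theorem a13c_sum (w : R) (N : ℕ) (s : Finset ℕ) (f : ℕ → R[X]) :
    Wr w N (∑ n ∈ s, f n) = ∑ n ∈ s, Wr w N (f n) := by
  induction s using Finset.induction_on with
  | empty => simp [a13c_zero]
  | insert a s ha ih => rw [Finset.sum_insert ha, Finset.sum_insert ha, Wr_add, ih]

private theorem a13c_pow (w : R) {N : ℕ} {V : R[X]} (h : V.natDegree ≤ N) (n : ℕ) :
    Wr w (n * N) (V ^ n) = Wr w N V ^ n := by
  induction n with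
  | zero =>
    have h := a13c_C w 0 1
    rw [C_1, pow_zero, mul_one] at h
    rw [Nat.zero_mul, pow_zero, pow_zero]; exact h
  | succ n ih =>
    rw [Nat.succ_mul, pow_succ, Wr_mul w (natDegree_pow_le_of_le n h) h, ih, pow_succ]

private theorem a13c_E {w : R} (hw : 8 * w = 1) :
    Wr w 2 (1 + 8 * X ^ 2) = C w * (1 + 8 * X ^ 2) := by
  have e1 : (1 + 8 * X ^ 2 : R[X]) = C 1 + C 8 * X ^ 2 := by
    rw [C_1]; congr 1
  have h8 : (C 8 * C w : R[X]) = 1 := by rw [← C_mul, hw, C_1]
  rw [e1, Wr_add, Wr_C_mul, a13c_C, a13c_Xpow w (le_refl 2)]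
  rw [Nat.sub_self, pow_zero, mul_one, C_1, one_mul, C_pow, C_neg]
  linear_combination (C w - X ^ 2) * h8

private theorem a13c_T {w : R} (hw : 8 * w = 1) :
    Wr w 4 (X * (1 - 7 * X - 8 * X ^ 2)) = C (w ^ 2) * (X * (1 - 7 * X - 8 * X ^ 2)) := by
  have e1 : (X * (1 - 7 * X - 8 * X ^ 2) : R[X]) = X ^ 1 - C 7 * X ^ 2 - C 8 * X ^ 3 := by
    have h7 : (C 7 : R[X]) = 7 := rfl
    have h8 : (C 8 : R[X]) = 8 := rfl
    rw [h7, h8]; ring
  have h8 : (C 8 * C w : R[X]) = 1 := by rw [← C_mul, hw, C_1]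
  rw [e1, Wr_sub, Wr_sub, Wr_C_mul, Wr_C_mul, a13c_Xpow w (show 1 ≤ 4 by norm_num),
    a13c_Xpow w (show 2 ≤ 4 by norm_num), a13c_Xpow w (show 3 ≤ 4 by norm_num)]
  norm_num only
  simp only [C_pow, C_neg]
  linear_combination (C w * X ^ 3 + C w ^ 2 * X) * h8

theorem Wr_Gp {p : ℕ} (hp : 0 < p) {w : R} (hw : 8 * w = 1) :
    Wr w (4 * p - 2) (Gp p (X : R[X])) = C (w ^ (2 * p - 1)) * Gp p X := by
  unfold Gp
  rw [a13c_sum, Finset.mul_sum]
  refine Finset.sum_congr rfl fun n hn => ?_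
  have hn' := Finset.mem_range.1 hn
  have h2 : (1 + 8 * X ^ 2 : R[X]).natDegree ≤ 2 := by compute_degree
  have h1 : (X * (1 - 7 * X - 8 * X ^ 2) : R[X]).natDegree ≤ 4 := by
    have h3 : (1 - 7 * X - 8 * X ^ 2 : R[X]).natDegree ≤ 2 := by compute_degree
    exact (natDegree_mul_le_of_le natDegree_X_le h3).trans (by norm_num)
  have e0 : ((vr n : ℕ) : R[X]) = C ((vr n : ℕ) : R) := by simp
  have e1 : 4 * p - 2 = n * 4 + (2 * p - 1 - 2 * n) * 2 := by omega
  have e2 : 2 * p - 1 = 2 * n + (2 * p - 1 - 2 * n) := by omega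
  rw [e0, mul_assoc (C _), Wr_C_mul, e1, Wr_mul w (natDegree_pow_le_of_le n h1)
    (natDegree_pow_le_of_le _ h2), a13c_pow w h1, a13c_pow w h2, a13c_E hw, a13c_T hw]
  generalize hm : 2 * p - 1 - 2 * n = m at *
  simp only [e2, mul_pow, C_pow, C_mul, pow_add, pow_mul]
  ring

private theorem a13c_B {p : ℕ} (hodd : Odd p) (w : R) :
    Wr w (p - 1) (FH p (-(C w)) (X : R[X])) = C w ^ (p - 1) * FA p X := by
  unfold FH FA
  rw [a13c_sum, Finset.mul_sum]
  refine Finset.sum_congr rfl fun n hn => ?_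
  have hn' := Finset.mem_range.1 hn
  have e0 : ((fr n : ℕ) : R[X]) = C ((fr n : ℕ) : R) := by simp
  have e1 : (-(C w : R[X])) ^ n = C ((-w) ^ n) := by rw [C_pow, C_neg]
  have e2 : p - 1 - (p - 1 - n) = n := by omega
  have e3 : (-w) ^ n * (-w) ^ (p - 1 - n) = w ^ (p - 1) := by
    rw [← pow_add, show n + (p - 1 - n) = p - 1 by omega]
    exact (Nat.Odd.sub_odd hodd odd_one).neg_pow w
  rw [e0, e1, ← C_mul, Wr_C_mul, a13c_Xpow w (Nat.sub_le _ _), e2, ← C_pow, ← e3]
  simp only [C_mul]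
  ring

theorem Wr_Hp {p : ℕ} (hp : p.Prime) (h3 : 3 < p) (h2 : (p : R) ^ 2 = 0) {w : R} (hw : 8 * w = 1)
    {e : R[X]} (he : FH p (-(C w)) (X : R[X]) = FA p X + (p : R[X]) * e) :
    Wr w (4 * p - 2) (Hp p (C w) (X : R[X])) = C (w ^ (2 * p - 1)) * Hp p (C w) X := by
  have hodd : Odd p := hp.odd_of_ne_two (by omega)
  have hW : (8 : R[X]) * C w = 1 := by
    have h8 : (C 8 * C w : R[X]) = 1 := by rw [← C_mul, hw, C_1]
    exact h8
  have hq : (p : R[X]) ^ 2 = 0 := by
    have h : (C ((p : R) ^ 2) : R[X]) = 0 := by rw [h2, C_0]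
    rw [C_pow] at h
    simpa using h
  -- Fermat
  obtain ⟨η, hη⟩ : ∃ η : R[X], (8 : R[X]) ^ (p - 1) = 1 + (p : R[X]) * η := by
    have hc : IsCoprime (8 : ℤ) p := by
      have h4 : Nat.Coprime 8 p := by
        have h5 : Nat.Coprime 2 p := (Nat.coprime_two_left).2 hodd
        exact (Nat.Coprime.pow_left 3 h5)
      exact_mod_cast Nat.isCoprime_iff_coprime.2 h4
    have h6 := (Int.ModEq.pow_card_sub_one_eq_one hp hc).symm
    obtain ⟨c, hc⟩ := (Int.modEq_iff_dvd.1 h6)
    refine ⟨(c : R[X]), ?_⟩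
    have h7 : (8 : ℤ) ^ (p - 1) = 1 + p * c := by linarith
    exact_mod_cast congrArg (Int.cast : ℤ → R[X]) h7
  have hom : C w ^ (p - 1) = 1 - (p : R[X]) * η := by
    have h4 : (8 : R[X]) ^ (p - 1) * C w ^ (p - 1) = 1 := by rw [← mul_pow, hW, one_pow]
    rw [hη] at h4
    linear_combination (1 - (p : R[X]) * η) * h4 + η ^ 2 * C w ^ (p - 1) * hq
  obtain ⟨r, hr⟩ := exists_add_pow_prime_eq hp (1 : R[X]) (8 * X ^ 2)
  have h8p : (8 : R[X]) ^ p = 8 * (1 + (p : R[X]) * η) := by
    rw [← hη, ← pow_succ']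
    congr 1
    have := hp.pos
    omega
  have hE : (1 + 8 * X ^ 2 : R[X]) ^ p = 1 + 8 * X ^ (2 * p) +
      (p : R[X]) * (8 * η * X ^ (2 * p) + 8 * X ^ 2 * r) := by
    rw [hr, one_pow, mul_pow, h8p, ← pow_mul]
    ring
  have hAd := natDegree_FA_le (R := R) p
  have hBd := natDegree_FB_le (R := R) p w
  have d2 : (1 + 8 * X ^ 2 : R[X]).natDegree ≤ 2 := by compute_degree
  have d8 : (C 8 * X ^ (2 * p) : R[X]).natDegree ≤ 2 * p := natDegree_C_mul_X_pow_le _ _
  have d4 : (2 * (1 + 8 * X ^ 2) ^ p - 1 - 8 * X ^ (2 * p) : R[X]).natDegree ≤ 2 * p := by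
    have h5 : (2 * (1 + 8 * X ^ 2) ^ p : R[X]).natDegree ≤ 2 * p := by
      have h2' : (2 : R[X]).natDegree ≤ 0 := by compute_degree
      refine (natDegree_mul_le_of_le h2' (natDegree_pow_le_of_le p d2)).trans ?_
      omega
    refine (natDegree_sub_le_of_le (natDegree_sub_le_of_le h5 (n := 0) ?_) d8).trans ?_
    · simp
    · simp
  have dA : (FA p (X : R[X]) ^ 2).natDegree ≤ 2 * (p - 1) := natDegree_pow_le_of_le 2 hAd
  have dB : (FH p (-(C w)) (X : R[X]) ^ 2).natDegree ≤ 2 * (p - 1) := natDegree_pow_le_of_le 2 hBd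
  have dBA : (FH p (-(C w)) (X : R[X]) ^ 2 - FA p (X : R[X]) ^ 2).natDegree ≤ 2 * (p - 1) :=
    (natDegree_sub_le_of_le dB dA).trans (by simp)
  have hev : (-w) ^ (2 * p) = w ^ (2 * p) := (even_two_mul p).neg_pow w
  have w4 : Wr w (2 * p) (C 8 * X ^ (2 * p) : R[X]) = C 8 * C w ^ (2 * p) := by
    rw [Wr_C_mul, a13c_Xpow w (le_refl _), Nat.sub_self, pow_zero, mul_one, hev, C_pow]
  have w0 : Wr w (2 * p) (C 2 * (1 + 8 * X ^ 2) ^ p : R[X]) =
      C 2 * (C w ^ p * (1 + 8 * X ^ 2) ^ p) := by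
    rw [Wr_C_mul, mul_comm 2 p, a13c_pow w d2, a13c_E hw, mul_pow]
  have wo : Wr w (2 * p) (1 : R[X]) = X ^ (2 * p) := by
    have h := a13c_C w (2 * p) 1
    rwa [C_1, one_mul] at h
  have w2 : Wr w (2 * (p - 1)) (FA p (X : R[X]) ^ 2) = FH p (-(C w)) X ^ 2 := by
    rw [a13c_pow w hAd, Wr_FA]
  have w3 : Wr w (2 * (p - 1)) (FH p (-(C w)) (X : R[X]) ^ 2) = (C w ^ (p - 1) * FA p X) ^ 2 := by
    rw [a13c_pow w hBd, a13c_B hodd]
  have e8 : (8 * X ^ (2 * p) : R[X]) = C 8 * X ^ (2 * p) := rfl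
  have e2 : (2 * (1 + 8 * X ^ 2) ^ p : R[X]) = C 2 * (1 + 8 * X ^ 2) ^ p := rfl
  have w1 : Wr w (2 * p) (2 * (1 + 8 * X ^ 2) ^ p - 1 - 8 * X ^ (2 * p) : R[X]) =
      C 2 * (C w ^ p * (1 + 8 * X ^ 2) ^ p) - X ^ (2 * p) - C 8 * C w ^ (2 * p) := by
    rw [e8, e2, Wr_sub, Wr_sub, w0, wo, w4]
  have w5 : Wr w (2 * p) (8 * X ^ (2 * p) : R[X]) = C 8 * C w ^ (2 * p) := w4
  have hp0 := hp.pos
  have en : 4 * p - 2 = 2 * p + 2 * (p - 1) := by omega
  have c1 : (C w : R[X]) ^ p = C w * C w ^ (p - 1) := by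
    rw [← pow_succ', show p - 1 + 1 = p by omega]
  have c2 : (C w : R[X]) ^ (2 * p) = C w ^ 2 * (C w ^ (p - 1)) ^ 2 := by
    rw [← pow_mul, ← pow_add]; congr 1; omega
  have c3 : (C (w ^ (2 * p - 1)) : R[X]) = C w * (C w ^ (p - 1)) ^ 2 := by
    rw [C_pow, ← pow_mul, ← pow_succ']; congr 1; omega
  have k2 : (C 2 : R[X]) = 2 := rfl
  have k8 : (C 8 : R[X]) = 8 := rfl
  have d8' : (8 * X ^ (2 * p) : R[X]).natDegree ≤ 2 * p := d8
  have key := a13c_alg hq hW hom he hE
  unfold Hp
  rw [en, Wr_add, Wr_mul w d4 dA, Wr_mul w d8' dBA, w1, Wr_sub, w2, w3, w5, c1, c2, c3, k2, k8,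
    ← key]
  ring

end Pool.Agent.Lib.MP_d4c4f0_nt
end

section

/-!
# A15b: a polynomial solution with the symmetry vanishes (characteristic `p`)

`F = ZMod p`, `V ∈ F[X]`, `deg V ≤ 4p-2`, `MM V = 0`, `Wr w (4p-2) V = w^(2p-1) V`, `V(0) = 0`. Claim `V = 0`.
1. `exists_K`: `V = A^2 K` with `K ∈ F⟦X⟧`, `θ K = 0` (`A = FA p X`). Indeed in `F⟦X⟧` with `p = 0`: `MM (A^2) = 0`
   (`MM_mul_of_L2`), `A` is a unit, `MM (A^2 K)`: if `K = V A^{-2}` had a first coefficient `K_j ≠ 0` with `p ∤ j`, let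
   `K^- = ∑_{i<j} K_i X^i` (`θK^- = 0`), then `MM (A^2 (K - K^-)) = V`-part `= 0 - K^- MM(A^2) = 0` but its coefficient
   at `X^j` is `j^3 K_j ≠ 0` (`MM y` has coefficient `j^3 y_j` at the lowest degree `j`). So all `K_j` with `p ∤ j` vanish.
2. `K_0 = V(0) = 0`, so `X^p ∣ K` and `V_k = 0` for `k < p`; by the symmetry (`coeff_Wr`, `w ≠ 0`) `V_k = 0` for
   `k > 3p - 2`. So `V = X^p U`, `deg U ≤ 2p - 2`, and `U = A^2 K'` with `θK' = 0`.
3. `θU = 2 (θA) A K'`, so `A θU = 2 (θA) U`; cancelling `X`: `A U' = 2 A' U` in `F[X]`. As `A`, `A'` are coprime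
   (`FA_coprime`), `A ∣ U`, `U = A U1`: `A U1' = A' U1`, `A ∣ U1`, `U1 = A U2`, `A U2' = 0`, `U2' = 0`; `deg U2 ≤ 0` because
   `deg A = p - 1` (`fr_last`) and `deg U ≤ 2p-2`. So `U = c A^2`, `V = c X^p A^2`.
4. `Wr w (4p-2) (X^p A^2) = (-w)^p X^p * B^2` (`Wr (2p) (X^p) = (-w)^p X^p`, `Wr (2p-2) (A^2) = B^2`) `= -w X^p A^2`
   (Fermat, `FB_mod`). And `w^(2p-1) = w`. So `-c w X^p A^2 = c w X^p A^2`, `2cw = 0`, `c = 0`.
-/

set_option autoImplicit false

open Finset

namespace Pool.Agent.Lib.MP_d4c4f0_nt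

private theorem aux15b_coeff_FA {F : Type*} [CommRing F] (p i : ℕ) :
    (FA p (Polynomial.X : Polynomial F)).coeff i = if i < p then ((fr i : ℕ) : F) else 0 := by
  unfold FA
  rw [Polynomial.finset_sum_coeff]
  have h : ∀ n ∈ range p, (((fr n : ℕ) : Polynomial F) * Polynomial.X ^ n).coeff i =
      if n = i then ((fr i : ℕ) : F) else 0 := by
    intro n _
    rw [← Polynomial.C_eq_natCast, Polynomial.coeff_C_mul, Polynomial.coeff_X_pow]
    by_cases hn : n = i
    · rw [if_pos hn, if_pos hn.symm, mul_one, hn]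
    · rw [if_neg hn, if_neg (fun h => hn h.symm), mul_zero]
  rw [Finset.sum_congr rfl h, Finset.sum_ite_eq']
  simp only [Finset.mem_range]

private theorem aux15b_coe_FA {F : Type*} [CommRing F] (p : ℕ) :
    ((FA p (Polynomial.X : Polynomial F) : Polynomial F) : PowerSeries F) =
      FA p (PowerSeries.X : PowerSeries F) := by
  have := map_FA (Polynomial.coeToPowerSeries.ringHom (R := F)) p Polynomial.X
  rw [Polynomial.coeToPowerSeries.ringHom_apply, Polynomial.coeToPowerSeries.ringHom_apply,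
    Polynomial.coe_X] at this
  exact this

private theorem aux15b_th_coe {F : Type*} [CommRing F] (U : Polynomial F) :
    th (U : PowerSeries F) = ((Polynomial.X * Polynomial.derivative U : Polynomial F) :
      PowerSeries F) := by
  ext n
  rw [coeff_th, Polynomial.coeff_coe, Polynomial.coeff_coe]
  cases n with
  | zero => simp
  | succ n =>
    rw [Polynomial.coeff_X_mul, Polynomial.coeff_derivative]
    push_cast
    ring

theorem K_lemma {p : ℕ} [hp : Fact p.Prime] (h3 : 3 < p) {w : ZMod p} (hw : 8 * w = 1)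
    {V : Polynomial (ZMod p)} (hd : V.natDegree ≤ 4 * p - 2)
    (hM : MM (V : PowerSeries (ZMod p)) = 0)
    (hW : Wr w (4 * p - 2) V = Polynomial.C (w ^ (2 * p - 1)) * V) (h0 : V.coeff 0 = 0) :
    V = 0 := by
  have hw0 : w ≠ 0 := by
    intro h
    rw [h, mul_zero] at hw
    exact zero_ne_one hw
  have hfer : w ^ (p - 1) = 1 := ZMod.pow_card_sub_one_eq_one hw0
  obtain ⟨K, hK, hVK⟩ := exists_K h3 hM
  have hAc : ((FA p (Polynomial.X : Polynomial (ZMod p)) : Polynomial (ZMod p)) :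
      PowerSeries (ZMod p)) = FA p (PowerSeries.X : PowerSeries (ZMod p)) := aux15b_coe_FA p
  have hA0 : (FA p (Polynomial.X : Polynomial (ZMod p))).coeff 0 = 1 := by
    rw [aux15b_coeff_FA, if_pos (by omega), fr_zero, Nat.cast_one]
  have hAlast : (FA p (Polynomial.X : Polynomial (ZMod p))).coeff (p - 1) = 1 := by
    rw [aux15b_coeff_FA, if_pos (by omega), fr_last hp.out (by omega)]
  have hAdeg : (FA p (Polynomial.X : Polynomial (ZMod p))).natDegree ≤ p - 1 := natDegree_FA_le p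
  have hcop := FA_coprime (p := p) h3
  rw [← hAc] at hVK
  set A : Polynomial (ZMod p) := FA p (Polynomial.X : Polynomial (ZMod p)) with hA
  have hAne : A ≠ 0 := by
    intro h
    rw [h, Polynomial.coeff_zero] at hA0
    exact zero_ne_one hA0
  -- the coefficients of `K`
  have hKj : ∀ j : ℕ, (j : ZMod p) * PowerSeries.coeff j K = 0 := by
    intro j
    rw [← coeff_th, hK, map_zero]
  have hK0 : PowerSeries.coeff 0 K = 0 := by
    have h1 := congrArg (PowerSeries.coeff 0) hVK
    rw [Polynomial.coeff_coe, h0, PowerSeries.coeff_zero_eq_constantCoeff, map_mul, map_pow,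
      ← PowerSeries.coeff_zero_eq_constantCoeff, Polynomial.coeff_coe, hA0, one_pow,
      one_mul] at h1
    exact h1.symm
  have hKlow : ∀ j < p, PowerSeries.coeff j K = 0 := by
    intro j hj
    rcases Nat.eq_zero_or_pos j with h1 | h1
    · rw [h1]
      exact hK0
    · rcases mul_eq_zero.1 (hKj j) with h2 | h2
      · rw [ZMod.natCast_eq_zero_iff] at h2
        exact absurd (Nat.le_of_dvd h1 h2) (by omega)
      · exact h2
  -- factor out `X ^ p`
  obtain ⟨K', hK'⟩ : (PowerSeries.X : PowerSeries (ZMod p)) ^ p ∣ K := by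
    rw [PowerSeries.X_pow_dvd_iff]
    exact hKlow
  have hVdvd : (PowerSeries.X : PowerSeries (ZMod p)) ^ p ∣ (V : PowerSeries (ZMod p)) := by
    rw [hVK, hK']
    exact Dvd.intro (((A : Polynomial (ZMod p)) : PowerSeries (ZMod p)) ^ 2 * K') (by ring)
  have hVlow : ∀ j < p, V.coeff j = 0 := by
    intro j hj
    rw [← Polynomial.coeff_coe]
    exact PowerSeries.X_pow_dvd_iff.1 hVdvd j hj
  obtain ⟨U, hU⟩ : (Polynomial.X : Polynomial (ZMod p)) ^ p ∣ V := by
    rw [Polynomial.X_pow_dvd_iff]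
    exact hVlow
  have hXp0 : (PowerSeries.X : PowerSeries (ZMod p)) ^ p ≠ 0 :=
    pow_ne_zero _ PowerSeries.X_ne_zero
  -- the symmetry
  have hsymm : ∀ k ≤ 4 * p - 2, (-w) ^ (4 * p - 2 - k) * V.coeff (4 * p - 2 - k) =
      w ^ (2 * p - 1) * V.coeff k := by
    intro k hk
    rw [← coeff_Wr w hk V, hW, Polynomial.coeff_C_mul]
  have hVhigh : ∀ j, 3 * p - 2 < j → V.coeff j = 0 := by
    intro j hj
    by_cases hj' : j ≤ 4 * p - 2
    · have h1 := hsymm (4 * p - 2 - j) (by omega)
      rw [hVlow (4 * p - 2 - j) (by omega), mul_zero] at h1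
      have h2 : 4 * p - 2 - (4 * p - 2 - j) = j := by omega
      rw [h2] at h1
      rcases mul_eq_zero.1 h1 with h4 | h4
      · exact absurd h4 (pow_ne_zero _ (neg_ne_zero.2 hw0))
      · exact h4
    · exact Polynomial.coeff_eq_zero_of_natDegree_lt (by omega)
  have hUdeg : U.natDegree ≤ 2 * p - 2 := by
    rw [Polynomial.natDegree_le_iff_coeff_eq_zero]
    intro N hN
    have h1 : V.coeff (N + p) = U.coeff N := by
      rw [hU, Polynomial.coeff_X_pow_mul]
    rw [← h1]
    exact hVhigh _ (by omega)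
  -- `U = A ^ 2 K'`
  have hUK : (U : PowerSeries (ZMod p)) = (A : PowerSeries (ZMod p)) ^ 2 * K' := by
    apply mul_left_cancel₀ hXp0
    have h1 : (PowerSeries.X : PowerSeries (ZMod p)) ^ p * (U : PowerSeries (ZMod p)) =
        (V : PowerSeries (ZMod p)) := by
      rw [hU, Polynomial.coe_mul, Polynomial.coe_pow, Polynomial.coe_X]
    rw [h1, hVK, hK']
    ring
  have hthK' : th K' = 0 := by
    apply mul_left_cancel₀ hXp0
    have h1 : th ((PowerSeries.X : PowerSeries (ZMod p)) ^ p * K') = 0 := by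
      rw [← hK', hK]
    have hp0 : ((p : ℕ) : PowerSeries (ZMod p)) = 0 := by
      have : ((p : ℕ) : PowerSeries (ZMod p)) = PowerSeries.C ((p : ℕ) : ZMod p) :=
        (map_natCast (PowerSeries.C (R := ZMod p)) p).symm
      rw [this, ZMod.natCast_self, map_zero]
    rw [th_mul, th_pow, hp0] at h1
    rw [mul_zero]
    linear_combination h1
  have hrel : A * Polynomial.derivative U = 2 * Polynomial.derivative A * U := by
    have h1 : th (U : PowerSeries (ZMod p)) =
        2 * (A : PowerSeries (ZMod p)) * th (A : PowerSeries (ZMod p)) * K' := by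
      rw [hUK, th_mul, hthK', sq, th_mul]
      ring
    have h2 : (A : PowerSeries (ZMod p)) * th (U : PowerSeries (ZMod p)) =
        2 * th (A : PowerSeries (ZMod p)) * (U : PowerSeries (ZMod p)) := by
      rw [h1]
      linear_combination -2 * th (A : PowerSeries (ZMod p)) * hUK
    rw [aux15b_th_coe, aux15b_th_coe] at h2
    have h3 : Polynomial.X * (A * Polynomial.derivative U) =
        Polynomial.X * (2 * Polynomial.derivative A * U) := by
      apply Polynomial.coe_injective (ZMod p)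
      rw [Polynomial.coe_mul, Polynomial.coe_mul, Polynomial.coe_mul, Polynomial.coe_mul,
        Polynomial.coe_mul, Polynomial.coe_X]
      rw [Polynomial.coe_mul, Polynomial.coe_mul, Polynomial.coe_X] at h2
      have h4 : ((2 : Polynomial (ZMod p)) : PowerSeries (ZMod p)) = 2 := by
        have := map_ofNat (Polynomial.coeToPowerSeries.ringHom (R := ZMod p)) 2
        rw [Polynomial.coeToPowerSeries.ringHom_apply] at this
        exact this
      rw [h4]
      linear_combination h2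
    exact mul_left_cancel₀ Polynomial.X_ne_zero h3
  -- divisibility
  obtain ⟨U1, hU1⟩ : A ∣ U := by
    have h1 : A ∣ Polynomial.derivative A * (2 * U) :=
      Dvd.intro (Polynomial.derivative U) (by rw [hrel]; ring)
    have h2 : A ∣ 2 * U := hcop.dvd_of_dvd_mul_left h1
    obtain ⟨W, hW'⟩ := h2
    have h2u : (2 : ZMod p) ≠ 0 := by
      intro h
      have : ((2 : ℕ) : ZMod p) = 0 := by exact_mod_cast h
      rw [ZMod.natCast_eq_zero_iff] at this
      exact absurd (Nat.le_of_dvd (by norm_num) this) (by omega)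
    refine ⟨Polynomial.C (2 : ZMod p)⁻¹ * W, ?_⟩
    have h4 : Polynomial.C (2 : ZMod p)⁻¹ * (2 : Polynomial (ZMod p)) = 1 := by
      have : (2 : Polynomial (ZMod p)) = Polynomial.C (2 : ZMod p) := (map_ofNat _ 2).symm
      rw [this, ← Polynomial.C_mul, inv_mul_cancel₀ h2u, Polynomial.C_1]
    linear_combination Polynomial.C (2 : ZMod p)⁻¹ * hW' - U * h4
  have hrel1 : A * Polynomial.derivative U1 = Polynomial.derivative A * U1 := by
    apply mul_left_cancel₀ hAne
    rw [hU1, Polynomial.derivative_mul] at hrel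
    linear_combination hrel
  obtain ⟨U2, hU2⟩ : A ∣ U1 := by
    have h1 : A ∣ Polynomial.derivative A * U1 := Dvd.intro (Polynomial.derivative U1) hrel1
    exact hcop.dvd_of_dvd_mul_left h1
  have hUU : U = A ^ 2 * U2 := by
    rw [hU1, hU2]
    ring
  -- `U2` is constant
  have hAnat : A.natDegree = p - 1 := by
    apply le_antisymm hAdeg
    apply Polynomial.le_natDegree_of_ne_zero
    rw [hAlast]
    exact one_ne_zero
  have hU2deg : U2.natDegree = 0 := by
    by_cases h1 : U2 = 0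
    · rw [h1, Polynomial.natDegree_zero]
    · have h2 : U.natDegree = 2 * (p - 1) + U2.natDegree := by
        rw [hUU, Polynomial.natDegree_mul (pow_ne_zero _ hAne) h1, Polynomial.natDegree_pow, hAnat]
      omega
  obtain ⟨c, hc⟩ : ∃ c, U2 = Polynomial.C c := ⟨_, Polynomial.eq_C_of_natDegree_eq_zero hU2deg⟩
  have hVc : V = Polynomial.X ^ p * (A ^ 2 * Polynomial.C c) := by
    rw [hU, hUU, hc]
  have hVp : V.coeff p = c := by
    have h1 : p = 0 + p := by omega
    have h2 : (Polynomial.X ^ p * (A ^ 2 * Polynomial.C c)).coeff p =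
        (A ^ 2 * Polynomial.C c).coeff 0 := by
      have h4 := Polynomial.coeff_X_pow_mul (A ^ 2 * Polynomial.C c) p 0
      rw [zero_add] at h4
      exact h4
    rw [hVc, h2, Polynomial.coeff_mul_C, Polynomial.coeff_zero_eq_eval_zero,
      Polynomial.eval_pow, ← Polynomial.coeff_zero_eq_eval_zero, hA0]
    ring
  have hVtop : V.coeff (3 * p - 2) = c := by
    have h1 : 3 * p - 2 = (p - 1 + (p - 1)) + p := by omega
    rw [hVc, h1, Polynomial.coeff_X_pow_mul, Polynomial.coeff_mul_C, sq,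
      Polynomial.coeff_mul_add_eq_of_natDegree_le hAdeg hAdeg, hAlast]
    ring
  have hsc := hsymm p (by omega)
  have e1 : 4 * p - 2 - p = 3 * p - 2 := by omega
  rw [e1, hVtop, hVp] at hsc
  have hodd : Odd (3 * p - 2) := by
    have hpo : Odd p := hp.out.odd_of_ne_two (by omega)
    obtain ⟨m, hm⟩ := hpo
    exact ⟨3 * m, by omega⟩
  have e2 : w ^ (3 * p - 2) = w := by
    have : 3 * p - 2 = (p - 1) * 3 + 1 := by omega
    rw [this, pow_succ, pow_mul, hfer]
    ring
  have e3 : w ^ (2 * p - 1) = w := by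
    have : 2 * p - 1 = (p - 1) * 2 + 1 := by omega
    rw [this, pow_succ, pow_mul, hfer]
    ring
  rw [hodd.neg_pow, e2, e3] at hsc
  have hc0 : c = 0 := by
    have h1 : (2 * 8 : ZMod p) * (w * c) = 0 := by linear_combination -8 * hsc
    have h2 : (2 : ZMod p) * c = 0 := by linear_combination h1 - 2 * c * hw
    rcases mul_eq_zero.1 h2 with h4 | h4
    · exfalso
      have : ((2 : ℕ) : ZMod p) = 0 := by exact_mod_cast h4
      rw [ZMod.natCast_eq_zero_iff] at this
      exact absurd (Nat.le_of_dvd (by norm_num) this) (by omega)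
    · exact h4
  rw [hVc, hc0, Polynomial.C_0, mul_zero, mul_zero]

end Pool.Agent.Lib.MP_d4c4f0_nt
end

section

/-!
# A16: the main generic identity modulo `p^2`

In every commutative ring `S` with `p^2 = 0`, `8w = 1`: `Gp p x = Hp p w x`.
Proof. (As in A08/A09 it suffices to treat `S = R[X]`, `x = X`, `R = ZMod (p^2)`, `w` the inverse of `8` in `R`; note that
`w` in `S` is the image of that one.) First over `F = ZMod p`: `V = Gp - Hp ∈ F[X]` satisfies the hypotheses of
`K_lemma`: degree (`natDegree_Gp_le`, `natDegree_Hp_le`), symmetry (`Wr_Gp`, `Wr_Hp` with `e = 0` by `FB_mod`), `V(0) = 1-1`;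
`MM V = 0`: by `MM_Gp`, `MM_Hp` `MM (V ie^(2p)) = 0`, and `θ(ie^(2p)) = 0` in characteristic `p`, so
`ie^(2p) MM V = 0`. Hence `Gp = Hp` over `F`, i.e. over `R`: `Gp - Hp = p V1` with `V1 ∈ R[X]`, `deg V1 ≤ 4p - 2`.
Second: `MM (p V1 ie^(2p)) = 0`, so `p ie^(2p) MM V1 = 0` (`p θ(ie^(2p)) = 0`), `p MM V1 = 0`, hence the reduction
`V1bar ∈ F[X]` has `MM V1bar = 0`; similarly `p (Wr V1 - w^(2p-1) V1) = 0` and `p V1(0) = 0` give the symmetry and
`V1bar(0) = 0`. So `V1bar = 0` by `K_lemma`, `p V1 = 0`, `Gp = Hp` over `R`.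
Here `he` for `Wr_Hp`, `MM_Hp` over `R`: `FB - FA` vanishes in `F[X]` (`FB_mod`), so it is `p e`.
(An element of `ZMod (p^2)` with image `0` in `ZMod p` is a multiple of `p`; an element killed by `p` has image `0`.)
-/

set_option autoImplicit false

open Finset

namespace Pool.Agent.Lib.MP_d4c4f0_nt

variable {S : Type*} [CommRing S]

section aux

variable {R : Type*} [CommRing R]

private theorem MM_sub' (y z : PowerSeries R) : MM (y - z) = MM y - MM z := by
  simp only [MM, map_sub]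
  ring

private theorem MM_const_mul {c g y : PowerSeries R} (hc : th c = 0) (hg : c * th g = 0) :
    MM (c * y * g) = c * g * MM y := by
  have key : ∀ z : PowerSeries R, th (c * g * z) = c * g * th z := by
    intro z
    rw [th_mul, th_mul, hc, hg]
    ring
  have h0 : c * y * g = c * g * y := by ring
  rw [h0]
  simp only [MM, key]
  ring

private theorem map_th {R' : Type*} [CommRing R'] (f : R →+* R') (y : PowerSeries R) :
    PowerSeries.map f (th y) = th (PowerSeries.map f y) := by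
  ext n
  rw [PowerSeries.coeff_map, coeff_th, coeff_th, PowerSeries.coeff_map, map_mul, map_natCast]

private theorem map_MM {R' : Type*} [CommRing R'] (f : R →+* R') (y : PowerSeries R) :
    PowerSeries.map f (MM y) = MM (PowerSeries.map f y) := by
  simp only [MM, al, be, ga, be1, ga1, map_add, map_sub, map_mul, map_pow, map_neg, map_th,
    PowerSeries.map_X, map_one, map_ofNat]

private theorem exists_ie : ∃ ie : PowerSeries R, ie * (1 + 8 * PowerSeries.X ^ 2) = 1 := by
  have h : IsUnit (1 + 8 * PowerSeries.X ^ 2 : PowerSeries R) := by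
    rw [PowerSeries.isUnit_iff_constantCoeff]
    simp
  obtain ⟨v, hv⟩ := h.exists_left_inv
  exact ⟨v, hv⟩

private theorem coe_Gp (p : ℕ) :
    ((Gp p (Polynomial.X : Polynomial R) : Polynomial R) : PowerSeries R) =
      Gp p (PowerSeries.X : PowerSeries R) := by
  have := map_Gp (Polynomial.coeToPowerSeries.ringHom (R := R)) p Polynomial.X
  simpa using this

private theorem coe_Hp (p : ℕ) (w : R) :
    ((Hp p (Polynomial.C w) (Polynomial.X : Polynomial R) : Polynomial R) : PowerSeries R) =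
      Hp p (PowerSeries.C w) (PowerSeries.X : PowerSeries R) := by
  have := map_Hp (Polynomial.coeToPowerSeries.ringHom (R := R)) p (Polynomial.C w) Polynomial.X
  simpa using this

private theorem coe_nat (p : ℕ) :
    ((p : Polynomial R) : PowerSeries R) = (p : PowerSeries R) :=
  map_natCast (Polynomial.coeToPowerSeries.ringHom (R := R)) p

private theorem coe_FH (p : ℕ) (w : R) :
    ((FH p (-(Polynomial.C w)) (Polynomial.X : Polynomial R) : Polynomial R) : PowerSeries R) =
      FH p (-(PowerSeries.C w)) (PowerSeries.X : PowerSeries R) := by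
  have := map_FH (Polynomial.coeToPowerSeries.ringHom (R := R)) p (-(Polynomial.C w)) Polynomial.X
  simpa using this

private theorem coe_FA (p : ℕ) :
    ((FA p (Polynomial.X : Polynomial R) : Polynomial R) : PowerSeries R) =
      FA p (PowerSeries.X : PowerSeries R) := by
  have := map_FA (Polynomial.coeToPowerSeries.ringHom (R := R)) p Polynomial.X
  simpa using this

private theorem Gp_zero {p : ℕ} (hp : 0 < p) : Gp p (0 : R) = 1 := by
  unfold Gp
  rw [Finset.sum_eq_single 0]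
  · simp [vr, fr]
  · intro n _ hn
    simp [hn]
  · intro h
    exact absurd (Finset.mem_range.mpr hp) h

private theorem FA_zero {p : ℕ} (hp : 0 < p) : FA p (0 : R) = 1 := by
  unfold FA
  rw [Finset.sum_eq_single 0]
  · simp [fr]
  · intro n _ hn
    simp [hn]
  · intro h
    exact absurd (Finset.mem_range.mpr hp) h

private theorem Hp_zero {p : ℕ} (hp : 0 < p) (w : R) : Hp p w (0 : R) = 1 := by
  unfold Hp
  rw [FA_zero hp]
  have : 2 * p ≠ 0 := by omega
  simp [this]
  ring

private theorem coeff_zero_GH {p : ℕ} (hp : 0 < p) (w : R) :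
    (Gp p (Polynomial.X : Polynomial R) - Hp p (Polynomial.C w) Polynomial.X).coeff 0 = 0 := by
  rw [Polynomial.coeff_zero_eq_eval_zero]
  have h1 := map_Gp (Polynomial.evalRingHom (0 : R)) p Polynomial.X
  have h2 := map_Hp (Polynomial.evalRingHom (0 : R)) p (Polynomial.C w) Polynomial.X
  simp only [Polynomial.coe_evalRingHom, Polynomial.eval_X, Polynomial.eval_C] at h1 h2
  rw [Polynomial.eval_sub, h1, h2, Gp_zero hp, Hp_zero hp, sub_self]

end aux

private theorem Gp_eq_Hp_F {p : ℕ} (hp : p.Prime) (h3 : 3 < p) {w : ZMod p} (hw : 8 * w = 1) :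
    Gp p (Polynomial.X : Polynomial (ZMod p)) = Hp p (Polynomial.C w) Polynomial.X := by
  haveI : Fact p.Prime := ⟨hp⟩
  have hp0 : 0 < p := hp.pos
  have hpz : (p : Polynomial (ZMod p)) = 0 := by
    rw [← Polynomial.C_eq_natCast, ZMod.natCast_self, map_zero]
  have hpz' : (p : PowerSeries (ZMod p)) = 0 := by
    rw [← map_natCast (PowerSeries.C (R := ZMod p)), ZMod.natCast_self, map_zero]
  have hCw : 8 * Polynomial.C w = (1 : Polynomial (ZMod p)) := by
    rw [← map_ofNat (Polynomial.C (R := ZMod p)) 8, ← map_mul, hw, map_one]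
  have hCw' : 8 * PowerSeries.C w = (1 : PowerSeries (ZMod p)) := by
    rw [← map_ofNat (PowerSeries.C (R := ZMod p)) 8, ← map_mul, hw, map_one]
  have h2 : (p : ZMod p) ^ 2 = 0 := by rw [ZMod.natCast_self]; ring
  have he : FH p (-(Polynomial.C w)) (Polynomial.X : Polynomial (ZMod p)) =
      FA p Polynomial.X + (p : Polynomial (ZMod p)) * 0 := by
    rw [FB_mod hp h3 hpz hCw, mul_zero, add_zero]
  have he' : FH p (-(PowerSeries.C w)) (PowerSeries.X : PowerSeries (ZMod p)) =
      FA p PowerSeries.X + (p : PowerSeries (ZMod p)) * 0 := by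
    rw [FB_mod hp h3 hpz' hCw', mul_zero, add_zero]
  obtain ⟨ie, hie⟩ := exists_ie (R := ZMod p)
  rw [← sub_eq_zero]
  refine K_lemma h3 hw ?_ ?_ ?_ ?_
  · exact (Polynomial.natDegree_sub_le_of_le (natDegree_Gp_le hp0) (natDegree_Hp_le hp0 w)).trans
      (by simp)
  · have h4 := MM_Gp hp h2 hie
    have h5 := MM_Hp hp h3 h2 hw hie he'
    have h6 : MM ((Gp p PowerSeries.X - Hp p (PowerSeries.C w) PowerSeries.X) * ie ^ (2 * p)) = 0 := by
      rw [sub_mul, MM_sub', h4, h5, sub_zero]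
    have h7 : (1 : PowerSeries (ZMod p)) * th (ie ^ (2 * p)) = 0 := by
      rw [th_pow]
      push_cast
      rw [hpz']; ring
    have h8 := MM_const_mul (y := Gp p PowerSeries.X - Hp p (PowerSeries.C w) PowerSeries.X)
      (th_one (R := ZMod p)) h7
    rw [one_mul, h6, one_mul] at h8
    have h9 : (1 + 8 * PowerSeries.X ^ 2) ^ (2 * p) * (ie ^ (2 * p) *
        MM (Gp p PowerSeries.X - Hp p (PowerSeries.C w) PowerSeries.X)) =
        MM (Gp p PowerSeries.X - Hp p (PowerSeries.C w) PowerSeries.X : PowerSeries (ZMod p)) := by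
      rw [← mul_assoc, ← mul_pow, mul_comm _ ie, hie, one_pow, one_mul]
    rw [Polynomial.coe_sub, coe_Gp, coe_Hp, ← h9, ← h8, mul_zero]
  · rw [Wr_sub, Wr_Gp hp0 hw, Wr_Hp hp h3 h2 hw he, mul_sub]
  · exact coeff_zero_GH hp0 w

private theorem mul_of_cast {p : ℕ} (hp : p.Prime) {a : ZMod (p ^ 2)}
    (h : ZMod.castHom (dvd_pow_self p two_ne_zero) (ZMod p) a = 0) :
    ∃ b : ZMod (p ^ 2), a = (p : ZMod (p ^ 2)) * b := by
  haveI : NeZero (p ^ 2) := ⟨pow_ne_zero 2 hp.ne_zero⟩
  have h1 : ((a.val : ℕ) : ZMod p) = 0 := by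
    rw [← h, ZMod.castHom_apply, ZMod.natCast_val]
  rw [ZMod.natCast_eq_zero_iff] at h1
  obtain ⟨b, hb⟩ := h1
  refine ⟨(b : ZMod (p ^ 2)), ?_⟩
  rw [← Nat.cast_mul, ← hb, ZMod.natCast_zmod_val]

private theorem cast_of_mul {p : ℕ} (hp : p.Prime) {a : ZMod (p ^ 2)}
    (h : (p : ZMod (p ^ 2)) * a = 0) :
    ZMod.castHom (dvd_pow_self p two_ne_zero) (ZMod p) a = 0 := by
  haveI : NeZero (p ^ 2) := ⟨pow_ne_zero 2 hp.ne_zero⟩
  have h0 : ((a.val : ℕ) : ZMod (p ^ 2)) = a := ZMod.natCast_zmod_val a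
  rw [← h0, ← Nat.cast_mul, ZMod.natCast_eq_zero_iff] at h
  have h' : p * p ∣ p * a.val := by rw [← pow_two]; exact h
  have h1 : p ∣ a.val := Nat.dvd_of_mul_dvd_mul_left hp.pos h'
  rw [← h0, map_natCast, ZMod.natCast_eq_zero_iff]
  exact h1

private theorem poly_mul_of_cast {p : ℕ} (hp : p.Prime) {P : Polynomial (ZMod (p ^ 2))}
    (h : P.map (ZMod.castHom (dvd_pow_self p two_ne_zero) (ZMod p)) = 0) :
    ∃ Q : Polynomial (ZMod (p ^ 2)), P = (p : Polynomial (ZMod (p ^ 2))) * Q ∧
      Q.natDegree ≤ P.natDegree := by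
  have h1 : ∀ k, ∃ b : ZMod (p ^ 2), P.coeff k = (p : ZMod (p ^ 2)) * b := by
    intro k
    apply mul_of_cast hp
    rw [← Polynomial.coeff_map, h, Polynomial.coeff_zero]
  choose b hb using h1
  refine ⟨∑ k ∈ range (P.natDegree + 1), Polynomial.monomial k (b k), ?_, ?_⟩
  · conv_lhs => rw [P.as_sum_range]
    rw [Finset.mul_sum]
    refine Finset.sum_congr rfl fun k _ => ?_
    rw [hb k, ← Polynomial.C_eq_natCast, Polynomial.C_mul_monomial]
  · refine Polynomial.natDegree_sum_le_of_forall_le _ _ fun k hk => ?_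
    have := Finset.mem_range.mp hk
    exact (Polynomial.natDegree_monomial_le _).trans (by omega)

theorem Gp_eq_Hp {p : ℕ} (hp : p.Prime) (h3 : 3 < p) (hS : (p : S) ^ 2 = 0) {w : S}
    (hw : 8 * w = 1) (x : S) : Gp p x = Hp p w x := by
  haveI : Fact p.Prime := ⟨hp⟩
  haveI : NeZero (p ^ 2) := ⟨pow_ne_zero 2 hp.ne_zero⟩
  have hp0 : 0 < p := hp.pos
  obtain ⟨f⟩ := exists_zmod_hom (S := S) (m := p ^ 2) (by push_cast; exact hS)
  -- the inverse of 8
  have hcop : Nat.Coprime 8 (p ^ 2) := by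
    apply Nat.Coprime.pow_right
    have : Nat.Coprime 2 p := (Nat.coprime_primes Nat.prime_two hp).mpr (by omega)
    have h8 : (8 : ℕ) = 2 ^ 3 := by norm_num
    rw [h8]
    exact this.pow_left 3
  obtain ⟨w0, hw0⟩ : ∃ w0 : ZMod (p ^ 2), 8 * w0 = 1 := by
    refine ⟨((8 : ℕ) : ZMod (p ^ 2))⁻¹, ?_⟩
    have := ZMod.coe_mul_inv_eq_one 8 hcop
    simpa using this
  have hfw : f w0 = w := by
    have h1 : 8 * f w0 = 1 := by
      rw [← map_ofNat f 8, ← map_mul, hw0, map_one]
    calc f w0 = f w0 * (8 * w) := by rw [hw, mul_one]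
      _ = (8 * f w0) * w := by ring
      _ = w := by rw [h1, one_mul]
  suffices hmain : Gp p (Polynomial.X : Polynomial (ZMod (p ^ 2))) =
      Hp p (Polynomial.C w0) Polynomial.X by
    have h1 := map_Gp (Polynomial.eval₂RingHom f x) p Polynomial.X
    have h2 := map_Hp (Polynomial.eval₂RingHom f x) p (Polynomial.C w0) Polynomial.X
    simp only [Polynomial.coe_eval₂RingHom, Polynomial.eval₂_X, Polynomial.eval₂_C] at h1 h2
    rw [← h1, hmain, h2, hfw]
  set φ := ZMod.castHom (dvd_pow_self p two_ne_zero) (ZMod p) with hφ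
  have hw1 : 8 * φ w0 = 1 := by
    rw [← map_ofNat φ 8, ← map_mul, hw0, map_one]
  have h2 : (p : ZMod (p ^ 2)) ^ 2 = 0 := by
    have := ZMod.natCast_self (p ^ 2)
    push_cast at this
    exact this
  have h2P : (p : Polynomial (ZMod (p ^ 2))) ^ 2 = 0 := by
    rw [← Polynomial.C_eq_natCast, ← map_pow, h2, map_zero]
  have hCw0 : 8 * Polynomial.C w0 = (1 : Polynomial (ZMod (p ^ 2))) := by
    rw [← map_ofNat (Polynomial.C (R := ZMod (p ^ 2))) 8, ← map_mul, hw0, map_one]
  -- e
  obtain ⟨e, he, -⟩ : ∃ e : Polynomial (ZMod (p ^ 2)),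
      FH p (-(Polynomial.C w0)) Polynomial.X - FA p Polynomial.X =
        (p : Polynomial (ZMod (p ^ 2))) * e ∧ e.natDegree ≤ (FH p (-(Polynomial.C w0))
          Polynomial.X - FA p Polynomial.X : Polynomial (ZMod (p ^ 2))).natDegree := by
    apply poly_mul_of_cast hp
    rw [Polynomial.map_sub]
    have h4 := map_FH (Polynomial.mapRingHom φ) p (-(Polynomial.C w0)) Polynomial.X
    have h5 := map_FA (Polynomial.mapRingHom φ) p Polynomial.X
    simp only [Polynomial.coe_mapRingHom, Polynomial.map_neg, Polynomial.map_C,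
      Polynomial.map_X] at h4 h5
    have hpz : (p : Polynomial (ZMod p)) = 0 := by
      rw [← Polynomial.C_eq_natCast, ZMod.natCast_self, map_zero]
    have hCw : 8 * Polynomial.C (φ w0) = (1 : Polynomial (ZMod p)) := by
      rw [← map_ofNat (Polynomial.C (R := ZMod p)) 8, ← map_mul, hw1, map_one]
    rw [h4, h5, FB_mod hp h3 hpz hCw, sub_self]
  have he1 : FH p (-(Polynomial.C w0)) Polynomial.X = FA p Polynomial.X +
      (p : Polynomial (ZMod (p ^ 2))) * e := by
    rw [← he]; ring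
  have he2 : FH p (-(PowerSeries.C w0)) PowerSeries.X = FA p PowerSeries.X +
      (p : PowerSeries (ZMod (p ^ 2))) * (e : PowerSeries (ZMod (p ^ 2))) := by
    have := congrArg (fun P : Polynomial (ZMod (p ^ 2)) => (P : PowerSeries (ZMod (p ^ 2)))) he1
    simp only [Polynomial.coe_add, Polynomial.coe_mul, coe_FH, coe_FA, coe_nat] at this
    exact this
  -- V = p V1
  obtain ⟨V1, hV1, hV1d⟩ : ∃ V1 : Polynomial (ZMod (p ^ 2)),
      Gp p Polynomial.X - Hp p (Polynomial.C w0) Polynomial.X =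
        (p : Polynomial (ZMod (p ^ 2))) * V1 ∧ V1.natDegree ≤ (Gp p Polynomial.X -
          Hp p (Polynomial.C w0) Polynomial.X : Polynomial (ZMod (p ^ 2))).natDegree := by
    apply poly_mul_of_cast hp
    rw [Polynomial.map_sub]
    have h4 := map_Gp (Polynomial.mapRingHom φ) p Polynomial.X
    have h5 := map_Hp (Polynomial.mapRingHom φ) p (Polynomial.C w0) Polynomial.X
    simp only [Polynomial.coe_mapRingHom, Polynomial.map_C, Polynomial.map_X] at h4 h5
    rw [h4, h5, Gp_eq_Hp_F hp h3 hw1, sub_self]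
  have hdeg : V1.natDegree ≤ 4 * p - 2 := by
    refine hV1d.trans ?_
    exact (Polynomial.natDegree_sub_le_of_le (natDegree_Gp_le hp0) (natDegree_Hp_le hp0 w0)).trans
      (by simp)
  have hcoe : Gp p PowerSeries.X - Hp p (PowerSeries.C w0) PowerSeries.X =
      (p : PowerSeries (ZMod (p ^ 2))) * (V1 : PowerSeries (ZMod (p ^ 2))) := by
    have := congrArg (fun P : Polynomial (ZMod (p ^ 2)) => (P : PowerSeries (ZMod (p ^ 2)))) hV1
    simp only [Polynomial.coe_sub, Polynomial.coe_mul, coe_Gp, coe_Hp, coe_nat] at this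
    exact this
  have hkey : V1.map φ = 0 := by
    obtain ⟨ie, hie⟩ := exists_ie (R := ZMod (p ^ 2))
    refine K_lemma h3 hw1 (Polynomial.natDegree_map_le.trans hdeg) ?_ ?_ ?_
    · have h4 := MM_Gp hp h2 hie
      have h5 := MM_Hp hp h3 h2 hw0 hie he2
      have h6 : MM ((p : PowerSeries (ZMod (p ^ 2))) * (V1 : PowerSeries (ZMod (p ^ 2))) *
          ie ^ (2 * p)) = 0 := by
        rw [← hcoe, sub_mul, MM_sub', h4, h5, sub_zero]
      have h2S : (p : PowerSeries (ZMod (p ^ 2))) ^ 2 = 0 := by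
        rw [← map_natCast (PowerSeries.C (R := ZMod (p ^ 2))), ← map_pow, h2, map_zero]
      have h7 : (p : PowerSeries (ZMod (p ^ 2))) * th (ie ^ (2 * p)) = 0 := by
        rw [th_pow]
        push_cast
        linear_combination (2 * ie ^ (2 * p - 1) * th ie) * h2S
      rw [MM_const_mul (th_natCast p) h7] at h6
      have h9 : (p : PowerSeries (ZMod (p ^ 2))) * MM (V1 : PowerSeries (ZMod (p ^ 2))) = 0 := by
        have h10 : (1 + 8 * PowerSeries.X ^ 2) ^ (2 * p) *
            ((p : PowerSeries (ZMod (p ^ 2))) * ie ^ (2 * p) *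
            MM (V1 : PowerSeries (ZMod (p ^ 2)))) =
            (p : PowerSeries (ZMod (p ^ 2))) * MM (V1 : PowerSeries (ZMod (p ^ 2))) := by
          have h11 : (1 + 8 * PowerSeries.X ^ 2) ^ (2 * p) * ie ^ (2 * p) =
              (1 : PowerSeries (ZMod (p ^ 2))) := by
            rw [← mul_pow, mul_comm _ ie, hie, one_pow]
          linear_combination ((p : PowerSeries (ZMod (p ^ 2))) *
            MM (V1 : PowerSeries (ZMod (p ^ 2)))) * h11
        rw [← h10, h6, mul_zero]
      have h12 : ((V1.map φ : Polynomial (ZMod p)) : PowerSeries (ZMod p)) =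
          PowerSeries.map φ (V1 : PowerSeries (ZMod (p ^ 2))) := by
        rw [Polynomial.polynomial_map_coe]
      rw [h12, ← map_MM]
      ext n
      rw [PowerSeries.coeff_map, map_zero]
      apply cast_of_mul hp
      have := congrArg (PowerSeries.coeff n) h9
      rw [← map_natCast (PowerSeries.C (R := ZMod (p ^ 2))), PowerSeries.coeff_C_mul, map_zero]
        at this
      exact this
    · have h4 := Wr_Gp hp0 hw0
      have h5 := Wr_Hp hp h3 h2 hw0 he1
      have h6 : Wr w0 (4 * p - 2) ((p : Polynomial (ZMod (p ^ 2))) * V1) =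
          Polynomial.C (w0 ^ (2 * p - 1)) * ((p : Polynomial (ZMod (p ^ 2))) * V1) := by
        rw [← hV1, Wr_sub, h4, h5, mul_sub]
      rw [← Polynomial.C_eq_natCast, Wr_C_mul] at h6
      have h7 : (Wr w0 (4 * p - 2) V1).map φ = Wr (φ w0) (4 * p - 2) (V1.map φ) := by
        unfold Wr
        rw [← Polynomial.reflect_map]
        congr 1
        rw [Polynomial.map_comp, Polynomial.map_mul, Polynomial.map_C, Polynomial.map_X, map_neg]
      rw [← h7]
      ext n
      have h8 : (Polynomial.C (φ w0 ^ (2 * p - 1)) * V1.map φ) =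
          (Polynomial.C (w0 ^ (2 * p - 1)) * V1).map φ := by
        rw [Polynomial.map_mul, Polynomial.map_C, map_pow φ]
      rw [h8, Polynomial.coeff_map, Polynomial.coeff_map, ← sub_eq_zero, ← map_sub]
      apply cast_of_mul hp
      have h9 := congrArg (fun P : Polynomial (ZMod (p ^ 2)) => P.coeff n) h6
      simp only [Polynomial.coeff_C_mul] at h9 ⊢
      rw [mul_sub, h9]
      ring
    · rw [Polynomial.coeff_map]
      apply cast_of_mul hp
      have h4 := coeff_zero_GH hp0 w0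
      rw [hV1, ← Polynomial.C_eq_natCast, Polynomial.coeff_C_mul] at h4
      exact h4
  obtain ⟨V2, hV2, -⟩ := poly_mul_of_cast hp hkey
  rw [← sub_eq_zero, hV1, hV2]
  linear_combination V2 * h2P

end Pool.Agent.Lib.MP_d4c4f0_nt
end
end
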