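import Pool.Agent.Lib.MP_d4c4f0_nt.ZS.B13a
import Pool.Agent.Lib.MP_d4c4f0_nt.ZS.B16
import Pool.Agent.Lib.MP_d4c4f0_nt.ZS.B11b
import Pool.Agent.Lib.MP_d4c4f0_nt.ZS.B14b
import Pool.Agent.Lib.MP_d4c4f0_nt.ZS.B09

section

/-!
# B13: the symmetry under translation by a 2-torsion point

`β1^2 = b1`, `β2^2 = b2`. Put `Ns = rv β1 d N`, `Ds = rv β1 d D` (B13a). `deg D < d` so `Ds(0) = 0`, `Ns(0) = n_d β1^(-d) ≠ 0`.
1. Polynomial differential equation of `N, D`: `T' = mu om S` gives with `W = N'D - ND'`: `W = mu om D^2 S` in `K⟦X⟧`, so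
   `W^2 sg1 = mu^2 (D^4 + a2 N^2 D^2 + b2 N^4)` (`IsSol.sq`, `om^2 sg1 = 1`), an identity in `K[X]`.
2. `ode_rv` gives the same equation for `Ns, Ds`; by symmetry the equation with `W = Ds' Ns - Ds Ns'` (the square does not
   change).
3. `N^ = Ds`, `D^ = β2 Ns` satisfy `(N^'D^ - N^D^')^2 sg1 = mu^2 (D^^4 + a2 N^^2 D^^2 + b2 N^^4)` (as `b2 = β2^2`), `N^(0) = 0`,
   `D^(0) ≠ 0`, and at `X = 0`: `(N^_1)^2 = mu^2 (D^_0)^2`, so `N^_1 = mu' D^_0`, `mu' = ± mu`. By `sol_of_ode` `T^ = N^/D^` is the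
   solution of multiplier `mu'`, so `T^ = ± T` (`IsSol.uniq`, `IsSol.neg`): `Ds * D = ± β2 Ns * N`.
4. `N ∣ Ds D`, coprime, so `N ∣ Ds`; `deg Ds ≤ d = deg N`, `Ds ≠ 0` (coefficient `d_0 = 1` at `X^d`): `Ds = κ N`, then
   `κ D = ± β2 Ns`. Coefficient of `X^(d-j)` in `Ds = κN`: `d_j β1^(-j) = κ n_{d-j}`. `j = 0`: `κ n_d = 1`. Constant term of
   `κ D = ±β2 Ns`: `κ = ± β2 n_d β1^(-d)`, so `κ^2 = ± β2 β1^(-d)` and `κ^4 b1^d = b2`.
-/

set_option autoImplicit false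

namespace Pool.Agent.Lib.MP_d4c4f0_nt

open PowerSeries

variable {K : Type*} [Field K] [CharZero K] {om : K⟦X⟧} {a1 b1 a2 b2 mu β1 β2 : K} {T S : K⟦X⟧}
  {N D : Polynomial K} {d : ℕ}

theorem symm_rep (ho : Om a1 b1 om) (h1 : β1 ^ 2 = b1) (h2 : β2 ^ 2 = b2) (hb1 : b1 ≠ 0)
    (hb2 : b2 ≠ 0) (hmu : mu ≠ 0) (hs : IsSol om a2 b2 mu T S) (hc : IsCoprime N D)
    (hT : (D : K⟦X⟧) * T = (N : K⟦X⟧)) (hN : N.natDegree = d) (hD : D.natDegree < d)
    (hD0 : D.coeff 0 = 1) :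
    ∃ κ : K, κ * N.coeff d = 1 ∧ (∀ j ≤ d, D.coeff j = κ * β1 ^ j * N.coeff (d - j)) ∧
      κ ^ 4 * b1 ^ d = b2 := by
  have hβ1 : β1 ≠ 0 := by
    rintro rfl
    apply hb1
    rw [← h1]
    simp
  have hβ2 : β2 ≠ 0 := by
    rintro rfl
    apply hb2
    rw [← h2]
    simp
  have hNne : N ≠ 0 := by
    rintro rfl
    rw [Polynomial.natDegree_zero] at hN
    omega
  have hNd : N.coeff d ≠ 0 := by
    rw [← hN]
    exact Polynomial.leadingCoeff_ne_zero.2 hNne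
  -- step 1: the polynomial differential equation
  have hode : (Polynomial.derivative N * D - N * Polynomial.derivative D) ^ 2 * sg a1 b1 =
      Polynomial.C (mu ^ 2) *
        (D ^ 4 + Polynomial.C a2 * N ^ 2 * D ^ 2 + Polynomial.C b2 * N ^ 4) := by
    apply Polynomial.coe_injective K
    have hd1 : (Polynomial.derivative N : K⟦X⟧) =
        (D : K⟦X⟧) * d⁄dX K T + T * (Polynomial.derivative D : K⟦X⟧) := by
      rw [← PowerSeries.derivative_coe, ← hT, Derivation.leibniz, PowerSeries.derivative_coe]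
      simp [smul_eq_mul]
    have hsq := hs.sq
    have hoq := ho.sq
    rw [hs.dT] at hd1
    simp only [Polynomial.coe_mul, Polynomial.coe_sub, Polynomial.coe_pow, Polynomial.coe_add,
      Polynomial.coe_C, map_pow]
    rw [hd1, ← hT]
    linear_combination ((D : K⟦X⟧) ^ 4 * C mu ^ 2 * S ^ 2) * hoq +
      ((D : K⟦X⟧) ^ 4 * C mu ^ 2) * hsq
  -- step 2
  have hode2 := ode_rv h1 hb1 hN.le hD.le hode
  set Ns := rv β1 d N with hNs
  set Ds := rv β1 d D with hDs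
  have hDs0 : Ds.coeff 0 = 0 := by
    rw [hDs, coeff_rv β1 (Nat.zero_le d), Nat.sub_zero,
      Polynomial.coeff_eq_zero_of_natDegree_lt hD, mul_zero]
  have hNs0 : Ns.coeff 0 = (β1⁻¹) ^ d * N.coeff d := by
    rw [hNs, coeff_rv β1 (Nat.zero_le d), Nat.sub_zero]
  have hNs0' : Ns.coeff 0 ≠ 0 := by
    rw [hNs0]
    exact mul_ne_zero (pow_ne_zero _ (inv_ne_zero hβ1)) hNd
  have hDh0 : (Polynomial.C β2 * Ns).coeff 0 ≠ 0 := by
    rw [Polynomial.coeff_C_mul]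
    exact mul_ne_zero hβ2 hNs0'
  have hode3 : (Polynomial.derivative Ds * (Polynomial.C β2 * Ns) -
      Ds * Polynomial.derivative (Polynomial.C β2 * Ns)) ^ 2 * sg a1 b1 =
      Polynomial.C (mu ^ 2) *
        ((Polynomial.C β2 * Ns) ^ 4 + Polynomial.C a2 * Ds ^ 2 * (Polynomial.C β2 * Ns) ^ 2 +
          Polynomial.C b2 * Ds ^ 4) := by
    have hb : b2 = β2 ^ 2 := h2.symm
    rw [Polynomial.derivative_C_mul]
    have hCb : (Polynomial.C b2 : Polynomial K) = Polynomial.C β2 ^ 2 := by rw [hb, map_pow]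
    rw [hCb] at hode2 ⊢
    linear_combination (Polynomial.C β2 ^ 2) * hode2
  -- at zero
  have hz : (Ds.coeff 1) ^ 2 = mu ^ 2 * ((Polynomial.C β2 * Ns).coeff 0) ^ 2 := by
    have h0 := congrArg (Polynomial.eval 0) hode3
    have e1 : Polynomial.eval 0 (sg a1 b1) = 1 := by simp [sg]
    have e2 : Polynomial.eval 0 Ds = 0 := by
      rw [← Polynomial.coeff_zero_eq_eval_zero]; exact hDs0
    have e3 : Polynomial.eval 0 (Polynomial.derivative Ds) = Ds.coeff 1 := by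
      rw [← Polynomial.coeff_zero_eq_eval_zero, Polynomial.coeff_derivative]
      simp
    set E := (Polynomial.C β2 * Ns) with hE
    have e4 : Polynomial.eval 0 E = E.coeff 0 := (Polynomial.coeff_zero_eq_eval_zero E).symm
    simp only [Polynomial.eval_mul, Polynomial.eval_pow, Polynomial.eval_sub,
      Polynomial.eval_add, Polynomial.eval_C, e1, e2, e3, e4] at h0
    have h5 : (E.coeff 0) ^ 2 ≠ 0 := pow_ne_zero _ hDh0
    apply mul_right_cancel₀ h5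
    linear_combination h0
  obtain ⟨s, hs1, hs2⟩ : ∃ s : K, s ^ 2 = 1 ∧
      Ds.coeff 1 = s * mu * (Polynomial.C β2 * Ns).coeff 0 := by
    have : (Ds.coeff 1 - mu * (Polynomial.C β2 * Ns).coeff 0) *
        (Ds.coeff 1 + mu * (Polynomial.C β2 * Ns).coeff 0) = 0 := by
      linear_combination hz
    rcases mul_eq_zero.1 this with h | h
    · exact ⟨1, by ring, by linear_combination h⟩
    · exact ⟨-1, by ring, by linear_combination h⟩
  have hs0 : s ≠ 0 := by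
    rintro rfl
    norm_num at hs1
  have hode4 : (Polynomial.derivative Ds * (Polynomial.C β2 * Ns) -
      Ds * Polynomial.derivative (Polynomial.C β2 * Ns)) ^ 2 * sg a1 b1 =
      Polynomial.C ((s * mu) ^ 2) *
        ((Polynomial.C β2 * Ns) ^ 4 + Polynomial.C a2 * Ds ^ 2 * (Polynomial.C β2 * Ns) ^ 2 +
          Polynomial.C b2 * Ds ^ 4) := by
    rw [mul_pow, hs1, one_mul]
    exact hode3
  obtain ⟨T', S', hs', hT', -⟩ := sol_of_ode ho (mul_ne_zero hs0 hmu) hDs0 hDh0 hs2 hode4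
  -- comparison with T
  have hTT : T' = C s * T := by
    have hsc : s = 1 ∨ s = -1 := by
      have : (s - 1) * (s + 1) = 0 := by linear_combination hs1
      rcases mul_eq_zero.1 this with h | h
      · left; linear_combination h
      · right; linear_combination h
    rcases hsc with rfl | rfl
    · rw [one_mul] at hs'
      rw [(hs'.uniq hs).1]
      simp
    · have h3 : IsSol om a2 b2 (-mu) T' S' := by
        have : (-1 : K) * mu = -mu := by ring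
        rwa [this] at hs'
      rw [(h3.uniq hs.neg).1]
      simp
  have hprod : Ds * D = Polynomial.C (s * β2) * Ns * N := by
    apply Polynomial.coe_injective K
    rw [hTT] at hT'
    simp only [Polynomial.coe_mul, Polynomial.coe_C, map_mul] at hT' ⊢
    rw [← hT', ← hT]
    ring
  have hdvd : N ∣ Ds := by
    have h3 : N ∣ Ds * D := ⟨Polynomial.C (s * β2) * Ns, by rw [hprod]; ring⟩
    exact hc.dvd_of_dvd_mul_right h3
  have hDsd : Ds.coeff d = 1 := by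
    rw [hDs, coeff_rv β1 le_rfl, Nat.sub_self, hD0]
    simp
  have hDsdeg : Ds.natDegree ≤ d := natDegree_rv_le β1 hD.le
  obtain ⟨Q, hQ⟩ := hdvd
  have hDsne : Ds ≠ 0 := by
    intro h
    rw [h] at hDsd
    simp at hDsd
  have hQne : Q ≠ 0 := by
    rintro rfl
    exact hDsne (by rw [hQ, mul_zero])
  have hQdeg : Q.natDegree = 0 := by
    have h3 := hDsdeg
    rw [hQ, Polynomial.natDegree_mul hNne hQne] at h3
    omega
  obtain ⟨κ, rfl⟩ : ∃ κ : K, Polynomial.C κ = Q :=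
    ⟨Q.coeff 0, (Polynomial.eq_C_of_natDegree_eq_zero hQdeg).symm⟩
  have hk1 : κ * N.coeff d = 1 := by
    rw [← hDsd, hQ, Polynomial.coeff_mul_C, mul_comm]
  refine ⟨κ, hk1, ?_, ?_⟩
  · intro j hj
    have h3 : Ds.coeff (d - j) = (β1⁻¹) ^ j * D.coeff j := by
      rw [hDs, coeff_rv β1 (Nat.sub_le d j)]
      have : d - (d - j) = j := by omega
      rw [this]
    rw [hQ, Polynomial.coeff_mul_C] at h3
    have h4 : β1 ^ j * (β1⁻¹) ^ j = 1 := by
      rw [← mul_pow, mul_inv_cancel₀ hβ1, one_pow]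
    linear_combination (-β1 ^ j) * h3 - D.coeff j * h4
  · have h3 : Polynomial.C κ * D = Polynomial.C (s * β2) * Ns := by
      apply mul_left_cancel₀ hNne
      rw [hQ] at hprod
      linear_combination hprod
    have h4 := congrArg (fun P => Polynomial.coeff P 0) h3
    simp only [Polynomial.coeff_C_mul, hD0, hNs0] at h4
    have hb : b2 = β2 ^ 2 := h2.symm
    have hb' : b1 = β1 ^ 2 := h1.symm
    have h5 : κ ^ 2 * β1 ^ d = s * β2 := by
      have h6 : β1 ^ d * (β1⁻¹) ^ d = 1 := by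
        rw [← mul_pow, mul_inv_cancel₀ hβ1, one_pow]
      linear_combination (κ * β1 ^ d) * h4 + (s * β2 * κ * N.coeff d) * h6 + (s * β2) * hk1
    rw [hb, hb', ← pow_mul, mul_comm 2 d, pow_mul]
    linear_combination (κ ^ 2 * β1 ^ d + s * β2) * h5 + β2 ^ 2 * hs1

end Pool.Agent.Lib.MP_d4c4f0_nt
end

section

section

/-!
# B16b: the coefficient of the differential

* `est_c`: `p T_p = coeff (p-1) (mu om S) = mu (om_{p-1} + ∑_{0<i≤p-1} S_i om_{p-1-i})`, so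
  `‖om_{p-1} - (p/mu) T_p‖ ≤ π^2` (`‖mu‖ = ‖p‖`); and `n_p = T_p + ∑_{j≥1} T_{p-j} d_j`, `‖n_p - T_p‖ ≤ π^2`.
  Here `‖S_i‖ ≤ π^2` for `0 < i < p` is `est_S`. If `mu = 0` then `‖mu‖ = ‖p‖ = 0`, impossible in characteristic `0`.
-/

set_option autoImplicit false

namespace Pool.Agent.Lib.MP_d4c4f0_nt

open PowerSeries

variable {K : Type*} [NormedField K] [IsUltrametricDist K] [CharZero K] {om T S : K⟦X⟧}
  {a b mu β1 κ : K} {p : ℕ} {N D : Polynomial K}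

theorem est_c (hp : p.Prime) (h2 : ‖(2 : K)‖ = 1) (h1 : ‖(p : K)‖ < 1) (hmu : ‖mu‖ = ‖(p : K)‖)
    (ha : ‖a‖ ≤ 1) (hb : ‖b‖ ≤ 1) (h : IsSol om a b mu T S) (ho : Intg om)
    (ho0 : constantCoeff om = 1) (hTi : Intg T)
    (hSi : Intg S) (hT : ∀ k < p, ‖coeff k T‖ ≤ ‖(p : K)‖)
    (e : (D : K⟦X⟧) * T = (N : K⟦X⟧)) (hD0 : D.coeff 0 = 1)
    (hD : ∀ j, 1 ≤ j → ‖D.coeff j‖ ≤ ‖(p : K)‖) :
    ‖coeff (p - 1) om - p / mu * N.coeff p‖ ≤ ‖(p : K)‖ ^ 2 := by
  have hp0 : 0 < p := hp.pos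
  have hpK : (p : K) ≠ 0 := by
    rw [Nat.cast_ne_zero]
    exact hp0.ne'
  have hmu0 : mu ≠ 0 := by
    intro h3
    rw [h3, norm_zero] at hmu
    exact hpK (norm_eq_zero.1 hmu.symm)
  have hπ0 : 0 ≤ ‖(p : K)‖ := norm_nonneg _
  have hSk := est_S hπ0 h1 h2 ha hb h hTi hT
  have hS0 : coeff 0 S = 1 := by
    rw [coeff_zero_eq_constantCoeff_apply]
    exact h.S0
  -- the coefficient of the differential
  have e1 := congrArg (coeff (p - 1)) h.dT
  rw [coeff_derivative, mul_assoc, coeff_C_mul] at e1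
  have hpp : p - 1 + 1 = p := by omega
  have hpc : ((p - 1 : ℕ) : K) + 1 = (p : K) := by
    rw [← Nat.cast_succ]
    congr 1
  rw [hpp, hpc] at e1
  have e2 : coeff (p - 1) (om * S) = p / mu * coeff p T := by
    field_simp
    linear_combination -e1
  have m1 : ((p - 1, 0) : ℕ × ℕ) ∈ Finset.HasAntidiagonal.antidiagonal (p - 1) := by
    rw [Finset.HasAntidiagonal.mem_antidiagonal]
    simp
  have e3 : ‖coeff (p - 1) om - p / mu * coeff p T‖ ≤ ‖(p : K)‖ ^ 2 := by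
    rw [← e2, coeff_mul, ← Finset.add_sum_erase _ _ m1]
    simp only [hS0, mul_one]
    rw [sub_add_cancel_left, norm_neg]
    refine IsUltrametricDist.norm_sum_le_of_forall_le_of_nonneg (by positivity) ?_
    rintro ⟨i, j⟩ hij
    rw [Finset.mem_erase, Finset.HasAntidiagonal.mem_antidiagonal] at hij
    obtain ⟨h4, h5⟩ := hij
    simp only at h5
    have hj : 0 < j := by
      rcases Nat.eq_zero_or_pos j with h7 | h7
      · exfalso
        apply h4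
        rw [Prod.mk.injEq]
        omega
      · exact h7
    rw [norm_mul]
    calc ‖coeff i om‖ * ‖coeff j S‖ ≤ 1 * ‖(p : K)‖ ^ 2 :=
          mul_le_mul (ho i) (hSk j hj (by omega)) (norm_nonneg _) zero_le_one
      _ = ‖(p : K)‖ ^ 2 := one_mul _
  -- the coefficient of `N`
  have m2 : ((0, p) : ℕ × ℕ) ∈ Finset.HasAntidiagonal.antidiagonal p := by
    rw [Finset.HasAntidiagonal.mem_antidiagonal]
    simp
  have e4 : ‖coeff p T - N.coeff p‖ ≤ ‖(p : K)‖ ^ 2 := by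
    have h3 : coeff p (N : K⟦X⟧) = N.coeff p := Polynomial.coeff_coe N p
    rw [← h3, ← e, coeff_mul, ← Finset.add_sum_erase _ _ m2]
    simp only [Polynomial.coeff_coe, hD0, one_mul]
    rw [sub_add_cancel_left, norm_neg]
    refine IsUltrametricDist.norm_sum_le_of_forall_le_of_nonneg (by positivity) ?_
    rintro ⟨i, j⟩ hij
    rw [Finset.mem_erase, Finset.HasAntidiagonal.mem_antidiagonal] at hij
    obtain ⟨h4, h5⟩ := hij
    simp only at h5
    have hi : 0 < i := by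
      rcases Nat.eq_zero_or_pos i with h7 | h7
      · exfalso
        apply h4
        rw [Prod.mk.injEq]
        omega
      · exact h7
    rw [norm_mul, pow_two]
    exact mul_le_mul (hD i hi) (hT j (by omega)) (norm_nonneg _) hπ0
  have h6 : ‖(p : K) / mu‖ = 1 := by
    rw [norm_div, hmu, div_self]
    exact (norm_pos_iff.2 hpK).ne'
  have e5 : coeff (p - 1) om - p / mu * N.coeff p =
      (coeff (p - 1) om - p / mu * coeff p T) + p / mu * (coeff p T - N.coeff p) := by ring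
  rw [e5]
  refine (IsUltrametricDist.norm_add_le_max _ _).trans (max_le e3 ?_)
  rw [norm_mul, h6, one_mul]
  exact e4

end Pool.Agent.Lib.MP_d4c4f0_nt
end

section

/-!
# B17: the coefficient of the differential in terms of an isogeny of degree `p`

Source `(A1, B1)`: `om = omS A1 B1`, `a1 = -2A1`, `b1 = A1^2 - 4B1`; target `(A2, B2)`. From `OddDeg .. mu p` take `T, S, N, D`;
`D(0) ≠ 0` (if `D(0) = 0` then `N(0) = 0` since `D T = N`, not coprime), divide both by `D(0)` to get `D(0) = 1`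
(degrees and coprimality unchanged). `IntSol`: `T, S` are integral by `IsSol.uniq`. `est_T` with `‖mu‖ = ‖p‖`; `symm_rep` with
`β1^2 = b1`, `β2^2 = b2`; `‖β1‖ = ‖β2‖ = 1`, so from `κ^4 b1^p = b2`: `‖κ‖ = 1`. `est_ND`, `est_c`, `est_n`. With `ν = N.coeff p`:
`κ ν = 1` so `ν^4 b2 = b1^p`, `‖ν‖ = 1`; `coeff (p-1) om = tn ((p-1)/2) A1 B1` (`p` odd), `coeff (2p) om = tn p A1 B1`,
`tn_prime`: `‖-2 A2 ν^2 + 2 A1^p‖ ≤ ‖p‖`, divide by `2`.
-/

set_option autoImplicit false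

namespace Pool.Agent.Lib.MP_d4c4f0_nt

open PowerSeries

variable {K : Type*} [NormedField K] [IsUltrametricDist K] [CharZero K]
  {A1 B1 A2 B2 mu β1 β2 : K} {p : ℕ}

theorem coeff_of_isogeny (hp : p.Prime) (h3 : 3 < p)
    (hk : ∀ k : ℕ, 0 < k → k < p → ‖(k : K)‖ = 1) (h1 : ‖(p : K)‖ < 1)
    (hA1 : ‖A1‖ ≤ 1) (hB1 : ‖B1‖ ≤ 1) (hA2 : ‖A2‖ ≤ 1) (hB2 : ‖B2‖ ≤ 1)
    (hb1 : ‖A1 ^ 2 - 4 * B1‖ = 1) (hb2 : ‖A2 ^ 2 - 4 * B2‖ = 1)
    (hβ1 : β1 ^ 2 = A1 ^ 2 - 4 * B1) (hβ2 : β2 ^ 2 = A2 ^ 2 - 4 * B2)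
    (hmu : ‖mu‖ = ‖(p : K)‖)
    (hd : OddDeg (omS A1 B1) (-2 * A2) (A2 ^ 2 - 4 * B2) mu p)
    (hint : IntSol (omS A1 B1) (-2 * A2) (A2 ^ 2 - 4 * B2) mu) :
    ∃ ν : K, ‖tn ((p - 1) / 2) A1 B1 - p / mu * ν‖ ≤ ‖(p : K)‖ ^ 2 ∧
      ν ^ 4 * (A2 ^ 2 - 4 * B2) = (A1 ^ 2 - 4 * B1) ^ p ∧
      ‖A2 * ν ^ 2 - A1 ^ p‖ ≤ ‖(p : K)‖ ∧ ‖ν‖ = 1 := by
  have hp0 : p ≠ 0 := by omega
  have hpK : (p : K) ≠ 0 := by exact_mod_cast hp0
  have hpn : 0 < ‖(p : K)‖ := norm_pos_iff.2 hpK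
  have hmu0 : mu ≠ 0 := by
    intro h
    rw [h, norm_zero] at hmu
    exact hpn.ne hmu
  have h2 : ‖(2 : K)‖ = 1 := by
    have h := hk 2 (by norm_num) (by omega)
    simpa using h
  have hom : Om (-2 * A1) (A1 ^ 2 - 4 * B1) (omS A1 B1) := om_omS A1 B1
  have hIom : Intg (omS A1 B1) := intg_omS hA1 hB1
  have ha2 : ‖-2 * A2‖ ≤ 1 := by
    rw [norm_mul, norm_neg, h2, one_mul]
    exact hA2
  have hbn1 : A1 ^ 2 - 4 * B1 ≠ 0 := by
    intro h
    rw [h, norm_zero] at hb1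
    exact one_ne_zero hb1.symm
  have hbn2 : A2 ^ 2 - 4 * B2 ≠ 0 := by
    intro h
    rw [h, norm_zero] at hb2
    exact one_ne_zero hb2.symm
  have hβn1 : ‖β1‖ = 1 := by
    have h : ‖β1‖ ^ 2 = 1 := by rw [← norm_pow, hβ1, hb1]
    exact (pow_eq_one_iff_of_nonneg (norm_nonneg _) two_ne_zero).1 h
  obtain ⟨T, S, N0, D0, hs, -, hc, hT, hN, hD⟩ := hd
  obtain ⟨T', S', hs', hTi', hSi'⟩ := hint
  obtain ⟨hTT, hSS⟩ := hs.uniq hs'
  have hTi : Intg T := hTT ▸ hTi'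
  have hSi : Intg S := hSS ▸ hSi'
  -- `D0 (0)` is not zero
  have hD00 : D0.coeff 0 ≠ 0 := by
    intro h
    have hN0 : N0.coeff 0 = 0 := by
      have h' := congrArg constantCoeff hT
      rw [map_mul, hs.T0, mul_zero] at h'
      have h'' : constantCoeff (N0 : K⟦X⟧) = N0.coeff 0 := by simp
      rw [← h'', ← h']
    obtain ⟨u, v, huv⟩ := hc
    have h' := congrArg (fun q : Polynomial K => q.coeff 0) huv
    simp [Polynomial.mul_coeff_zero, h, hN0] at h'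
  set w : K := (D0.coeff 0)⁻¹ with hw
  have hw0 : w ≠ 0 := inv_ne_zero hD00
  set N : Polynomial K := Polynomial.C w * N0 with hNdef
  set D : Polynomial K := Polynomial.C w * D0 with hDdef
  have hND : N.natDegree = p := by
    rw [hNdef, Polynomial.natDegree_C_mul hw0, hN]
  have hDD : D.natDegree < p := by
    rw [hDdef, Polynomial.natDegree_C_mul hw0]
    exact hD
  have hwu : IsUnit (Polynomial.C w) := Polynomial.isUnit_C.2 hw0.isUnit
  have hc' : IsCoprime N D := by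
    rw [hNdef, hDdef]
    exact (isCoprime_mul_unit_left_left hwu _ _).2
      ((isCoprime_mul_unit_left_right hwu _ _).2 hc)
  have hT1 : (D : K⟦X⟧) * T = (N : K⟦X⟧) := by
    rw [hNdef, hDdef, Polynomial.coe_mul, Polynomial.coe_mul, mul_assoc, hT]
  have hD01 : D.coeff 0 = 1 := by
    rw [hDdef, Polynomial.coeff_C_mul, hw, inv_mul_cancel₀ hD00]
  obtain ⟨κ, hκ1, hκ2, hκ3⟩ := symm_rep hom hβ1 hβ2 hbn1 hbn2 hmu0 hs hc' hT1 hND hDD hD01
  have hκn : ‖κ‖ = 1 := by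
    have h : ‖κ‖ ^ 4 = 1 := by
      have h' := congrArg norm hκ3
      rw [norm_mul, norm_pow, norm_pow, hb1, hb2, one_pow, mul_one] at h'
      exact h'
    exact (pow_eq_one_iff_of_nonneg (norm_nonneg _) (by norm_num)).1 h
  have hTk : ∀ k < p, ‖coeff k T‖ ≤ ‖(p : K)‖ := by
    intro k hkp
    rw [← hmu]
    exact est_T hk hs hIom hSi k hkp
  obtain ⟨hDj, hNk⟩ := est_ND (norm_nonneg _) h1 hTk hT1 hDD hD01 hκn hβn1 hκ2
  have hA := est_c hp h2 h1 hmu ha2 hb2.le hs hIom hom.cc hTi hSi hTk hT1 hD01 hDj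
  have hB := est_n hom hp h3 h2 h1 hmu0 ha2 hb2.le hs hIom hTi hSi hT1 hND hDD hD01 hNk hDj
  refine ⟨N.coeff p, ?_, ?_, ?_, ?_⟩
  · have hodd : p % 2 = 1 := by
      rcases hp.eq_two_or_odd with h | h
      · omega
      · exact h
    have h : 2 * ((p - 1) / 2) = p - 1 := by omega
    have h' : coeff (p - 1) (omS A1 B1) = tn ((p - 1) / 2) A1 B1 := by
      rw [← coeff_omS A1 B1 ((p - 1) / 2), h]
    rw [← h']
    exact hA
  · have h : (N.coeff p) ^ 4 * (κ ^ 4 * (A1 ^ 2 - 4 * B1) ^ p) =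
        (κ * N.coeff p) ^ 4 * (A1 ^ 2 - 4 * B1) ^ p := by ring
    rw [← hκ3, h, hκ1]
    ring
  · rw [coeff_omS] at hB
    have hC := tn_prime hp (by omega) hA1 hB1
    have h : A2 * N.coeff p ^ 2 - A1 ^ p = (tn p A1 B1 - A1 ^ p) +
        (-(-2 * A2 * N.coeff p ^ 2 + 2 * tn p A1 B1)) / 2 := by
      field_simp
      ring
    rw [h]
    refine (IsUltrametricDist.norm_add_le_max _ _).trans (max_le hC ?_)
    rw [norm_div, h2, div_one, norm_neg]
    exact hB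
  · have h := congrArg norm hκ1
    rw [norm_mul, hκn, one_mul, norm_one] at h
    exact h

end Pool.Agent.Lib.MP_d4c4f0_nt
end
end

section

/-!
# C04a: the square of the truncated sum at a CM point, case (i)

`x = cxr q i r`, `x3 = cxr q i (-r)`, `α = FA p x`, `c = tn .. (x)`, `c3 = tn .. (x3)`, `β = (1-8x)^(p-1)`, `β3 = (1-8x3)^(p-1)`.
`cm_eight`: `α^8 β^3 c3^4 = c^12 β3`. With `c^4 = P^4 β`, `c3^4 = P^4 β3` (hypothesis `hc` for `(i, r)` and `(i, -r)`) and units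
(`1-8x`, `1-8x3` divide `9` by `cxr_b3`, and `9`, `4` are units: `3 * 3` where `p` odd `> 3`.. note that `3` is a unit because
`gcd(3, p^2) = 1` and `p^2 = 0`; Bezout in `S`): `α^8 P^4 β^3 β3 = P^12 β^3 β3`, `α^8 = P^8`, i.e. `(α^2)^4 = (P^2)^4`, and
`α^2 - P^2 ∈ (p)` (`tn_mod'`: `c - α ∈ (p)`, and `c^2 - P^2 ∈ (p)`), so `α^2 = P^2` by `four_root` (`π = p`).
-/

set_option autoImplicit false

open Finset

namespace Pool.Agent.Lib.MP_d4c4f0_nt

variable {S : Type*} [CommRing S] {q i r P ω : S} {p : ℕ}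

/-- `3` is a unit. -/
theorem isUnit_of_prime_gt (hp : p.Prime) (hS : (p : S) ^ 2 = 0) {k : ℕ} (h0 : 0 < k)
    (hk : k < p) : IsUnit (k : S) := by
  have h1 : Nat.Coprime k (p ^ 2) := by
    apply Nat.Coprime.pow_right
    exact ((Nat.Prime.coprime_iff_not_dvd hp).2 (fun h => absurd (Nat.le_of_dvd h0 h)
      (not_le.2 hk))).symm
  have h2 : IsCoprime (k : ℤ) ((p ^ 2 : ℕ) : ℤ) := Nat.isCoprime_iff_coprime.2 h1
  obtain ⟨a, b, hab⟩ := h2
  have h3 := congrArg (Int.cast : ℤ → S) hab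
  push_cast at h3
  rw [hS, mul_zero, add_zero] at h3
  exact IsUnit.of_mul_eq_one_right (a : S) h3

theorem alpha_sq_i (hp : p.Prime) (h5 : 5 < p) (hS : (p : S) ^ 2 = 0) (hq : 4 * q = 1)
    (hi : i ^ 2 = -1) (hr : r ^ 2 = 5) (hP : IsUnit P)
    (hc : ∀ r' : S, (r' = r ∨ r' = -r) →
      tn ((p - 1) / 2) (ea (cxr q i r')) (eb (cxr q i r')) ^ 4 =
        P ^ 4 * (1 - 8 * cxr q i r') ^ (p - 1) ∧
      ∃ z : S, tn ((p - 1) / 2) (ea (cxr q i r')) (eb (cxr q i r')) ^ 2 - P ^ 2 = (p : S) * z) :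
    FA p (cxr q i r) ^ 2 = P ^ 2 := by
  obtain ⟨hc1, z, hz⟩ := hc r (Or.inl rfl)
  obtain ⟨hc3, -⟩ := hc (-r) (Or.inr rfl)
  obtain ⟨z1, hz1⟩ := tn_mod' (S := S) hp (by omega) (cxr q i r)
  have h8 := cm_eight hp (by omega) hS hq hi hr
  have hb3 := cxr_b3 hq hi hr
  have h3u : IsUnit (3 : S) := by
    have := isUnit_of_prime_gt (S := S) hp hS (k := 3) (by norm_num) (by omega)
    simpa using this
  have h9 : IsUnit ((1 - 8 * cxr q i r) * (1 - 8 * cxr q i (-r))) := by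
    rw [hb3]
    have h : (9 : S) = 3 * 3 := by norm_num
    rw [h]
    exact h3u.mul h3u
  have hu1 : IsUnit (1 - 8 * cxr q i r) := isUnit_of_mul_isUnit_left h9
  have hu2 : IsUnit (1 - 8 * cxr q i (-r)) := isUnit_of_mul_isUnit_right h9
  have h4 : IsUnit (4 : S) := IsUnit.of_mul_eq_one q hq
  generalize (1 - 8 * cxr q i r) = B at *
  generalize (1 - 8 * cxr q i (-r)) = B3 at *
  generalize tn ((p - 1) / 2) (ea (cxr q i (-r))) (eb (cxr q i (-r))) = c3 at *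
  generalize tn ((p - 1) / 2) (ea (cxr q i r)) (eb (cxr q i r)) = c at *
  generalize FA p (cxr q i r) = α at *
  have hU : IsUnit (P ^ 4 * (B ^ (p - 1)) ^ 3 * B3 ^ (p - 1)) :=
    ((hP.pow 4).mul ((hu1.pow (p - 1)).pow 3)).mul (hu2.pow (p - 1))
  have h88 : α ^ 8 = P ^ 8 := by
    apply hU.mul_left_cancel
    calc P ^ 4 * (B ^ (p - 1)) ^ 3 * B3 ^ (p - 1) * α ^ 8
        = α ^ 8 * (B ^ (p - 1)) ^ 3 * (P ^ 4 * B3 ^ (p - 1)) := by ring
      _ = α ^ 8 * (B ^ (p - 1)) ^ 3 * c3 ^ 4 := by rw [hc3]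
      _ = c ^ 12 * B3 ^ (p - 1) := h8
      _ = (c ^ 4) ^ 3 * B3 ^ (p - 1) := by ring
      _ = (P ^ 4 * B ^ (p - 1)) ^ 3 * B3 ^ (p - 1) := by rw [hc1]
      _ = _ := by ring
  refine four_root (π := (p : S)) hS (X := α ^ 2) (Y := P ^ 2) (z := z - 2 * c * z1) ?_ (hP.pow 2) h4 ?_
  · linear_combination hz + (p * z1 - c - α) * hz1 + z1 ^ 2 * hS
  · calc (α ^ 2) ^ 4 = α ^ 8 := by ring
      _ = P ^ 8 := h88
      _ = (P ^ 2) ^ 4 := by ring


end Pool.Agent.Lib.MP_d4c4f0_nt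
end
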