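import Pool.Agent.Lib.MP_d4c4f0_nt.ZS.B16
import Pool.Agent.Lib.MP_d4c4f0_nt.ZS.A03

section

/-!
# B16c: the leading coefficient of an isogeny of degree `p` modulo `p`

* `est_n`: `W = N'D - ND'` has degree `≤ 2p - 2` and `W = mu om D^2 S` (see B13 or `T' D^2 = W`). So
  `coeff (2p) (om D^2 S) = 0`. Here modulo elements of norm `≤ π`: `D ≡ 1`, `T ≡ n_p X^p` in all degrees (`D T = N`,
  `Intg.of_mul`-type argument: `T = N - (D-1) T`), `S^2 ≡ 1 + a n_p^2 X^(2p) + b n_p^4 X^(4p)`, so `S_k ≡ 0` for `0 < k < 2p`,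
  `2 S_{2p} ≡ a n_p^2`. Hence `0 ≡ om_{2p} + a n_p^2/2`.
-/

set_option autoImplicit false

namespace Pool.Agent.Lib.MP_d4c4f0_nt

open PowerSeries

variable {K : Type*} [NormedField K] [IsUltrametricDist K] [CharZero K] {om T S : K⟦X⟧}
  {a b mu β1 κ : K} {p : ℕ} {N D : Polynomial K}

/-- All coefficients have norm at most `P`. -/
private def Jd (P : ℝ) (y : K⟦X⟧) : Prop := ∀ n, ‖coeff n y‖ ≤ P

omit [CharZero K] in
private theorem norm_add_le' {P : ℝ} {x y : K} (hx : ‖x‖ ≤ P) (hy : ‖y‖ ≤ P) : ‖x + y‖ ≤ P :=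
  (IsUltrametricDist.norm_add_le_max x y).trans (max_le hx hy)

omit [CharZero K] in
private theorem norm_sub_le' {P : ℝ} {x y : K} (hx : ‖x‖ ≤ P) (hy : ‖y‖ ≤ P) : ‖x - y‖ ≤ P := by
  rw [sub_eq_add_neg]
  exact norm_add_le' hx (by rwa [norm_neg])

omit [IsUltrametricDist K] [CharZero K] in
private theorem norm_mul_le' {P : ℝ} (_hP : 0 ≤ P) {x y : K} (hx : ‖x‖ ≤ 1) (hy : ‖y‖ ≤ P) :
    ‖x * y‖ ≤ P := by
  rw [norm_mul]
  calc ‖x‖ * ‖y‖ ≤ 1 * P := mul_le_mul hx hy (norm_nonneg _) zero_le_one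
    _ = P := one_mul P

omit [CharZero K] in
private theorem Jd.sub {P : ℝ} {y z : K⟦X⟧} (hy : Jd P y) (hz : Jd P z) : Jd P (y - z) := by
  intro n
  rw [map_sub]
  exact norm_sub_le' (hy n) (hz n)

omit [CharZero K] in
private theorem Jd.mul {P : ℝ} (hP : 0 ≤ P) {y z : K⟦X⟧} (hy : Intg y) (hz : Jd P z) :
    Jd P (y * z) := by
  intro n
  rw [coeff_mul]
  exact IsUltrametricDist.norm_sum_le_of_forall_le_of_nonneg hP
    fun i _ => norm_mul_le' hP (hy _) (hz _)

omit [CharZero K] in
private theorem coeff_mul_le {P : ℝ} (hP : 0 ≤ P) {y z : K⟦X⟧} (hy : Intg y)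
    (hy0 : coeff 0 y = 0) {k : ℕ} (hz : ∀ j < k, ‖coeff j z‖ ≤ P) : ‖coeff k (y * z)‖ ≤ P := by
  rw [coeff_mul]
  refine IsUltrametricDist.norm_sum_le_of_forall_le_of_nonneg hP fun i hi => ?_
  rw [Finset.HasAntidiagonal.mem_antidiagonal] at hi
  rcases Nat.eq_zero_or_pos i.1 with h | h
  · rw [h, hy0, zero_mul, norm_zero]
    exact hP
  · exact norm_mul_le' hP (hy _) (hz _ (by omega))

theorem est_n {a1 b1 : K} (hom : Om a1 b1 om) (hp : p.Prime) (h3 : 3 < p) (h2 : ‖(2 : K)‖ = 1)
    (h1 : ‖(p : K)‖ < 1) (hmu0 : mu ≠ 0)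
    (ha : ‖a‖ ≤ 1) (hb : ‖b‖ ≤ 1) (h : IsSol om a b mu T S) (ho : Intg om) (hTi : Intg T)
    (hSi : Intg S) (e : (D : K⟦X⟧) * T = (N : K⟦X⟧)) (hNd : N.natDegree = p)
    (hDd : D.natDegree < p) (hD0 : D.coeff 0 = 1) (hN : ∀ k < p, ‖N.coeff k‖ ≤ ‖(p : K)‖)
    (hD : ∀ j, 1 ≤ j → ‖D.coeff j‖ ≤ ‖(p : K)‖) :
    ‖a * N.coeff p ^ 2 + 2 * coeff (2 * p) om‖ ≤ ‖(p : K)‖ := by
  set P : ℝ := ‖(p : K)‖ with hPdef
  have hP0 : 0 ≤ P := norm_nonneg _
  have hP1 : P ≤ 1 := h1.le
  have hp0 : 0 < p := hp.pos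
  -- integrality of `D` and `N`
  have hDJ : Jd P ((D : K⟦X⟧) - 1) := by
    intro n
    rw [map_sub, Polynomial.coeff_coe, coeff_one]
    rcases Nat.eq_zero_or_pos n with rfl | hn
    · rw [hD0, if_pos rfl, sub_self, norm_zero]
      exact hP0
    · rw [if_neg (by omega), sub_zero]
      exact hD n hn
  have i1 : Intg (1 : K⟦X⟧) := by
    have := Intg.const (K := K) (a := 1) (by simp)
    simpa using this
  have hDi : Intg (D : K⟦X⟧) := by
    have h3 : Intg ((D : K⟦X⟧) - 1) := fun n => (hDJ n).trans hP1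
    have h4 := h3.add i1
    rwa [sub_add_cancel] at h4
  have hNi : Intg (N : K⟦X⟧) := by
    rw [← e]
    exact hDi.mul hTi
  have hn1 : ‖N.coeff p‖ ≤ 1 := by
    have h3 := hNi p
    rwa [Polynomial.coeff_coe] at h3
  set c : K := N.coeff p with hc
  -- `T = c X^p` modulo `P`
  have hNJ : Jd P ((N : K⟦X⟧) - C c * X ^ p) := by
    intro n
    rw [map_sub, Polynomial.coeff_coe, coeff_C_mul, coeff_X_pow]
    rcases lt_trichotomy n p with hn | hn | hn
    · rw [if_neg (by omega), mul_zero, sub_zero]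
      exact hN n hn
    · rw [if_pos hn, mul_one, hn, ← hc, sub_self, norm_zero]
      exact hP0
    · rw [if_neg (by omega), mul_zero, sub_zero,
        Polynomial.coeff_eq_zero_of_natDegree_lt (by omega), norm_zero]
      exact hP0
  have hTJ : Jd P (T - C c * X ^ p) := by
    have h3 : T - C c * X ^ p = ((N : K⟦X⟧) - C c * X ^ p) - T * ((D : K⟦X⟧) - 1) := by
      rw [← e]
      ring
    rw [h3]
    exact hNJ.sub (Jd.mul hP0 hTi hDJ)
  have hXi : Intg (C c * X ^ p : K⟦X⟧) := (Intg.const hn1).mul (Intg.X.pow p)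
  have hT2 : Jd P (T ^ 2 - C (c ^ 2) * X ^ (2 * p)) := by
    have h3 : T ^ 2 - C (c ^ 2) * X ^ (2 * p) =
        (T + C c * X ^ p) * (T - C c * X ^ p) := by
      rw [map_pow]
      ring
    rw [h3]
    exact Jd.mul hP0 (hTi.add hXi) hTJ
  have hXi2 : Intg (C (c ^ 2) * X ^ (2 * p) : K⟦X⟧) := by
    refine (Intg.const ?_).mul (Intg.X.pow _)
    rw [norm_pow]
    exact pow_le_one₀ (norm_nonneg _) hn1
  have hT4 : Jd P (T ^ 4 - C (c ^ 4) * X ^ (4 * p)) := by
    have h3 : T ^ 4 - C (c ^ 4) * X ^ (4 * p) =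
        (T ^ 2 + C (c ^ 2) * X ^ (2 * p)) * (T ^ 2 - C (c ^ 2) * X ^ (2 * p)) := by
      rw [map_pow, map_pow]
      ring
    rw [h3]
    exact Jd.mul hP0 ((hTi.pow 2).add hXi2) hT2
  -- `S^2`
  set U : K⟦X⟧ := S - 1 with hU
  have hU0 : coeff 0 U = 0 := by
    rw [hU, map_sub, coeff_zero_eq_constantCoeff_apply, h.S0, coeff_zero_one, sub_self]
  have hUi : Intg U := by
    rw [hU, sub_eq_add_neg]
    exact hSi.add i1.neg
  have hS2 : 2 * U + U * U = C a * T ^ 2 + C b * T ^ 4 := by
    have h3 := h.sq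
    rw [hU]
    linear_combination h3
  have hcoef : ∀ k, 2 * coeff k U = a * coeff k (T ^ 2) + b * coeff k (T ^ 4) -
      coeff k (U * U) := by
    intro k
    have h3 := congrArg (fun t => coeff k t) hS2
    simp only [map_add] at h3
    rw [show (2 : K⟦X⟧) = C 2 from (map_ofNat (C : K →+* K⟦X⟧) 2).symm, coeff_C_mul, coeff_C_mul, coeff_C_mul] at h3
    linear_combination h3
  have c2 : ∀ k, k < 2 * p → ‖coeff k (T ^ 2)‖ ≤ P := by
    intro k hk
    have h3 := hT2 k
    rwa [map_sub, coeff_C_mul, coeff_X_pow, if_neg (by omega), mul_zero, sub_zero] at h3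
  have c4 : ∀ k, k < 4 * p → ‖coeff k (T ^ 4)‖ ≤ P := by
    intro k hk
    have h3 := hT4 k
    rwa [map_sub, coeff_C_mul, coeff_X_pow, if_neg (by omega), mul_zero, sub_zero] at h3
  have hUk : ∀ k, k < 2 * p → ‖coeff k U‖ ≤ P := by
    intro k
    induction k using Nat.strong_induction_on with
    | _ k ih =>
      intro hk
      have h3 : ‖2 * coeff k U‖ ≤ P := by
        rw [hcoef k]
        refine norm_sub_le' (norm_add_le' (norm_mul_le' hP0 ha (c2 k hk))
          (norm_mul_le' hP0 hb (c4 k (by omega)))) ?_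
        exact coeff_mul_le hP0 hUi hU0 fun j hj => ih j hj (by omega)
      rwa [norm_mul, h2, one_mul] at h3
  have hU2p : ‖2 * coeff (2 * p) U - a * c ^ 2‖ ≤ P := by
    have h3 := hT2 (2 * p)
    rw [map_sub, coeff_C_mul, coeff_X_pow, if_pos rfl, mul_one] at h3
    have h4 : 2 * coeff (2 * p) U - a * c ^ 2 = (a * (coeff (2 * p) (T ^ 2) - c ^ 2) +
        b * coeff (2 * p) (T ^ 4)) - coeff (2 * p) (U * U) := by
      rw [hcoef]
      ring
    rw [h4]
    refine norm_sub_le' (norm_add_le' (norm_mul_le' hP0 ha h3)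
      (norm_mul_le' hP0 hb (c4 _ (by omega)))) ?_
    exact coeff_mul_le hP0 hUi hU0 hUk
  -- the coefficient of `om D^2 S`
  have hW : (D : K⟦X⟧) ^ 2 * (C mu * om * S) =
      ((Polynomial.derivative N * D - N * Polynomial.derivative D : Polynomial K) : K⟦X⟧) := by
    rw [← h.dT, Polynomial.coe_sub, Polynomial.coe_mul, Polynomial.coe_mul, ← derivative_coe,
      ← derivative_coe, ← e, Derivation.leibniz]
    simp only [smul_eq_mul]
    ring
  have hz : coeff (2 * p) ((D : K⟦X⟧) ^ 2 * om * S) = 0 := by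
    have h3 : mu * coeff (2 * p) ((D : K⟦X⟧) ^ 2 * om * S) = 0 := by
      rw [← coeff_C_mul, show C mu * ((D : K⟦X⟧) ^ 2 * om * S) =
        (D : K⟦X⟧) ^ 2 * (C mu * om * S) by ring, hW, Polynomial.coeff_coe]
      apply Polynomial.coeff_eq_zero_of_natDegree_lt
      have hb1 : (Polynomial.derivative N * D).natDegree < 2 * p := by
        have h4 := Polynomial.natDegree_mul_le (p := Polynomial.derivative N) (q := D)
        have h5 := Polynomial.natDegree_derivative_le N
        omega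
      have hb2 : (N * Polynomial.derivative D).natDegree < 2 * p := by
        have h4 := Polynomial.natDegree_mul_le (p := N) (q := Polynomial.derivative D)
        have h5 := Polynomial.natDegree_derivative_le D
        omega
      exact (Polynomial.natDegree_sub_le _ _).trans_lt (max_lt hb1 hb2)
    exact (mul_eq_zero.mp h3).resolve_left hmu0
  have hDD : Jd P ((D : K⟦X⟧) ^ 2 * om * S - om * S) := by
    have h3 : (D : K⟦X⟧) ^ 2 * om * S - om * S = (((D : K⟦X⟧) + 1) * (om * S)) *
        ((D : K⟦X⟧) - 1) := by ring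
    rw [h3]
    exact Jd.mul hP0 ((hDi.add i1).mul (ho.mul hSi)) hDJ
  have hoS : ‖coeff (2 * p) (om * S)‖ ≤ P := by
    have h3 := hDD (2 * p)
    rw [map_sub, hz, zero_sub, norm_neg] at h3
    exact h3
  have ho0 : coeff 0 (om - 1) = 0 := by
    rw [map_sub, coeff_zero_eq_constantCoeff_apply, hom.cc, coeff_zero_one, sub_self]
  have hoi : Intg (om - 1) := by
    rw [sub_eq_add_neg]
    exact ho.add i1.neg
  have hoU : ‖coeff (2 * p) ((om - 1) * U)‖ ≤ P := coeff_mul_le hP0 hoi ho0 hUk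
  have hsum : ‖coeff (2 * p) om + coeff (2 * p) U‖ ≤ P := by
    have h3 : om + U = om * S - (om - 1) * U := by
      rw [hU]
      ring
    rw [← map_add, h3, map_sub]
    exact norm_sub_le' hoS hoU
  have h21 : ‖(2 : K)‖ ≤ 1 := h2.le
  have hfin : a * c ^ 2 + 2 * coeff (2 * p) om =
      2 * (coeff (2 * p) om + coeff (2 * p) U) - (2 * coeff (2 * p) U - a * c ^ 2) := by ring
  rw [hfin]
  exact norm_sub_le' (norm_mul_le' hP0 h21 hsum) hU2p

end Pool.Agent.Lib.MP_d4c4f0_nt
end

section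

/-!
# B13a: the reversed polynomials solve the same differential equation

`rv β d P = X^d P(1/(β X))` (a polynomial for `natDegree P ≤ d`). Let `Ns = rv β d N`, `Ds = rv β d D`, `β^2 = b1`, `W = N'D - ND'`.
With `z = 1/(β X)`: `Ns' = d X^(d-1) N(z) - X^(d-2) N'(z)/β`, so `Ns' Ds - Ns Ds' = - X^(2d-2) W(z) / β`, and
`sg(X) = b1 X^4 sg(z)`. So `(Ns' Ds - Ns Ds')^2 sg(X) = X^(4d-4) W(z)^2 / b1 * b1 X^4 sg(z) = X^(4d) W(z)^2 sg(z)
= mu^2 (Ds^4 + a2 Ns^2 Ds^2 + b2 Ns^4)`.
In Lean: `rv β d` is additive, `rv β (d+e) (P*Q) = rv β d P * rv β e Q`, `X * (rv P)' = d rv P - rv (X P')`.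
-/

set_option autoImplicit false

namespace Pool.Agent.Lib.MP_d4c4f0_nt

variable {K : Type*} [Field K] {d : ℕ}

/-- `X^d P(1/(β X))`. -/
noncomputable def rv (β : K) (d : ℕ) (P : Polynomial K) : Polynomial K :=
  Polynomial.reflect d (P.comp (Polynomial.C β⁻¹ * Polynomial.X))

theorem coeff_rv (β : K) {d k : ℕ} (hk : k ≤ d) (P : Polynomial K) :
    (rv β d P).coeff k = (β⁻¹) ^ (d - k) * P.coeff (d - k) := by
  rw [rv, Polynomial.coeff_reflect, Polynomial.revAt_le hk, Polynomial.comp_C_mul_X_coeff,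
    mul_comm]

theorem natDegree_rv_le (β : K) {d : ℕ} {P : Polynomial K} (hP : P.natDegree ≤ d) :
    (rv β d P).natDegree ≤ d := by
  rw [Polynomial.natDegree_le_iff_coeff_eq_zero]
  intro i hi
  rw [rv, Polynomial.coeff_reflect, Polynomial.revAt_eq_self_of_lt hi,
    Polynomial.comp_C_mul_X_coeff, Polynomial.coeff_eq_zero_of_natDegree_lt (hP.trans_lt hi),
    zero_mul]

private lemma rv_add (β : K) (d : ℕ) (P Q : Polynomial K) :
    rv β d (P + Q) = rv β d P + rv β d Q := by
  simp [rv, Polynomial.add_comp, Polynomial.reflect_add]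

private lemma rv_sub (β : K) (d : ℕ) (P Q : Polynomial K) :
    rv β d (P - Q) = rv β d P - rv β d Q := by
  simp [rv, Polynomial.sub_comp, Polynomial.reflect_sub]

private lemma rv_C_mul (β : K) (d : ℕ) (a : K) (P : Polynomial K) :
    rv β d (Polynomial.C a * P) = Polynomial.C a * rv β d P := by
  simp [rv, Polynomial.mul_comp, Polynomial.reflect_C_mul]

private lemma natDegree_comp_aux (c : K) {d : ℕ} {P : Polynomial K} (hP : P.natDegree ≤ d) :
    (P.comp (Polynomial.C c * Polynomial.X)).natDegree ≤ d := by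
  rw [Polynomial.natDegree_le_iff_coeff_eq_zero]
  intro i hi
  rw [Polynomial.comp_C_mul_X_coeff, Polynomial.coeff_eq_zero_of_natDegree_lt (hP.trans_lt hi),
    zero_mul]

private lemma rv_mul (β : K) {d e : ℕ} {P Q : Polynomial K} (hP : P.natDegree ≤ d)
    (hQ : Q.natDegree ≤ e) : rv β (d + e) (P * Q) = rv β d P * rv β e Q := by
  rw [rv, Polynomial.mul_comp, Polynomial.reflect_mul _ _ (natDegree_comp_aux _ hP)
    (natDegree_comp_aux _ hQ)]
  rfl

private lemma rv_X (β : K) (P : Polynomial K) (hP : P.natDegree ≤ d) :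
    Polynomial.X * Polynomial.derivative (rv β d P) =
      Polynomial.C (d : K) * rv β d P - rv β d (Polynomial.X * Polynomial.derivative P) := by
  have hX : (Polynomial.X * Polynomial.derivative P).natDegree ≤ d := by
    rw [Polynomial.natDegree_le_iff_coeff_eq_zero]
    intro i hi
    cases i with
    | zero => simp at hi
    | succ n =>
      rw [Polynomial.coeff_X_mul, Polynomial.coeff_derivative,
        Polynomial.coeff_eq_zero_of_natDegree_lt (hP.trans_lt hi), zero_mul]
  ext k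
  rw [Polynomial.coeff_sub, Polynomial.coeff_C_mul]
  have hl : (Polynomial.X * Polynomial.derivative (rv β d P)).coeff k =
      (k : K) * (rv β d P).coeff k := by
    cases k with
    | zero => simp
    | succ n =>
      rw [Polynomial.coeff_X_mul, Polynomial.coeff_derivative]
      push_cast
      ring
  rw [hl]
  rcases le_or_gt k d with hk | hk
  · rw [coeff_rv β hk, coeff_rv β hk]
    have hr : (Polynomial.X * Polynomial.derivative P).coeff (d - k) =
        ((d - k : ℕ) : K) * P.coeff (d - k) := by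
      rcases Nat.eq_zero_or_pos (d - k) with h0 | h0
      · rw [h0]; simp
      · obtain ⟨n, hn⟩ := Nat.exists_eq_succ_of_ne_zero h0.ne'
        rw [hn, Nat.succ_eq_add_one, Polynomial.coeff_X_mul, Polynomial.coeff_derivative]
        push_cast
        ring
    rw [hr, Nat.cast_sub hk]
    ring
  · rw [Polynomial.coeff_eq_zero_of_natDegree_lt ((natDegree_rv_le β hP).trans_lt hk),
      Polynomial.coeff_eq_zero_of_natDegree_lt ((natDegree_rv_le β hX).trans_lt hk)]
    ring

theorem ode_rv [CharZero K] {a1 b1 a2 b2 mu β : K} {N D : Polynomial K} (h1 : β ^ 2 = b1)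
    (hb1 : b1 ≠ 0) (hN : N.natDegree ≤ d) (hD : D.natDegree ≤ d)
    (hode : (Polynomial.derivative N * D - N * Polynomial.derivative D) ^ 2 * sg a1 b1 =
      Polynomial.C (mu ^ 2) *
        (D ^ 4 + Polynomial.C a2 * N ^ 2 * D ^ 2 + Polynomial.C b2 * N ^ 4)) :
    (Polynomial.derivative (rv β d N) * rv β d D -
        rv β d N * Polynomial.derivative (rv β d D)) ^ 2 * sg a1 b1 =
      Polynomial.C (mu ^ 2) *
        (rv β d D ^ 4 + Polynomial.C a2 * rv β d N ^ 2 * rv β d D ^ 2 +
          Polynomial.C b2 * rv β d N ^ 4) := by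
  have hβ : β ≠ 0 := by
    rintro rfl
    apply hb1
    rw [← h1]
    simp
  have hXd : ∀ P : Polynomial K, P.natDegree ≤ d →
      (Polynomial.X * Polynomial.derivative P).natDegree ≤ d := by
    intro P hP
    rw [Polynomial.natDegree_le_iff_coeff_eq_zero]
    intro i hi
    cases i with
    | zero => simp at hi
    | succ n =>
      rw [Polynomial.coeff_X_mul, Polynomial.coeff_derivative,
        Polynomial.coeff_eq_zero_of_natDegree_lt (hP.trans_lt hi), zero_mul]
  set W : Polynomial K := Polynomial.derivative N * D - N * Polynomial.derivative D with hW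
  -- the Wronskian
  have e1 : Polynomial.X * (Polynomial.derivative (rv β d N) * rv β d D -
      rv β d N * Polynomial.derivative (rv β d D)) = - rv β (d + d) (Polynomial.X * W) := by
    have e2 : Polynomial.X * W = (Polynomial.X * Polynomial.derivative N) * D -
        N * (Polynomial.X * Polynomial.derivative D) := by
      rw [hW]; ring
    rw [e2, rv_sub, rv_mul β (hXd N hN) hD, rv_mul β hN (hXd D hD)]
    have f1 := rv_X β N hN
    have f2 := rv_X β D hD
    linear_combination (rv β d D) * f1 - (rv β d N) * f2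
  have hXW : (Polynomial.X * W).natDegree ≤ d + d := by
    have e2 : Polynomial.X * W = (Polynomial.X * Polynomial.derivative N) * D -
        N * (Polynomial.X * Polynomial.derivative D) := by
      rw [hW]; ring
    rw [e2]
    refine (Polynomial.natDegree_sub_le _ _).trans (max_le ?_ ?_)
    · exact (Polynomial.natDegree_mul_le).trans (add_le_add (hXd N hN) hD)
    · exact (Polynomial.natDegree_mul_le).trans (add_le_add hN (hXd D hD))
  have hsg : (sg a1 b1).natDegree ≤ 4 := by
    rw [sg]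
    compute_degree
  have e3 : sg a1 b1 = Polynomial.C b1 * rv β 4 (sg a1 b1) := by
    ext k
    rw [Polynomial.coeff_C_mul]
    rcases le_or_gt k 4 with hk | hk
    · rw [coeff_rv β hk]
      have hb : b1 = β ^ 2 := h1.symm
      simp only [sg, Polynomial.coeff_add, Polynomial.coeff_C_mul, Polynomial.coeff_one,
        Polynomial.coeff_X_pow]
      interval_cases k <;> simp [hb] <;> field_simp
    · rw [Polynomial.coeff_eq_zero_of_natDegree_lt (hsg.trans_lt hk),
        Polynomial.coeff_eq_zero_of_natDegree_lt ((natDegree_rv_le β hsg).trans_lt hk), mul_zero]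
  have hXW2 : ((Polynomial.X * W) * (Polynomial.X * W)).natDegree ≤ (d + d) + (d + d) :=
    (Polynomial.natDegree_mul_le).trans (add_le_add hXW hXW)
  have hNN : (N * N).natDegree ≤ d + d := (Polynomial.natDegree_mul_le).trans (add_le_add hN hN)
  have hDD : (D * D).natDegree ≤ d + d := (Polynomial.natDegree_mul_le).trans (add_le_add hD hD)
  set R : Polynomial K := (D * D) * (D * D) + (Polynomial.C a2 * ((N * N) * (D * D)) +
    Polynomial.C b2 * ((N * N) * (N * N))) with hR
  have hRd : R.natDegree ≤ (d + d) + (d + d) := by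
    rw [hR]
    refine (Polynomial.natDegree_add_le _ _).trans (max_le ?_ ?_)
    · exact (Polynomial.natDegree_mul_le).trans (add_le_add hDD hDD)
    · refine (Polynomial.natDegree_add_le _ _).trans (max_le ?_ ?_)
      · refine (Polynomial.natDegree_C_mul_le _ _).trans ?_
        exact (Polynomial.natDegree_mul_le).trans (add_le_add hNN hDD)
      · refine (Polynomial.natDegree_C_mul_le _ _).trans ?_
        exact (Polynomial.natDegree_mul_le).trans (add_le_add hNN hNN)
  have e4 : ((Polynomial.X * W) * (Polynomial.X * W)) * sg a1 b1 =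
      Polynomial.C (mu ^ 2) * (R * Polynomial.X ^ 2) := by
    rw [hR]
    linear_combination Polynomial.X ^ 2 * hode
  have e5 : rv β ((d + d) + (d + d) + 4) (((Polynomial.X * W) * (Polynomial.X * W)) * sg a1 b1) =
      rv β (d + d) (Polynomial.X * W) ^ 2 * rv β 4 (sg a1 b1) := by
    rw [rv_mul β hXW2 hsg, rv_mul β hXW hXW, sq]
  have hX2 : (Polynomial.X ^ 2 : Polynomial K).natDegree ≤ 4 := by
    rw [Polynomial.natDegree_X_pow]
    norm_num
  have e6 : rv β 4 (Polynomial.X ^ 2 : Polynomial K) = Polynomial.C b1⁻¹ * Polynomial.X ^ 2 := by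
    ext k
    rw [Polynomial.coeff_C_mul]
    rcases le_or_gt k 4 with hk | hk
    · rw [coeff_rv β hk]
      have hb : b1 = β ^ 2 := h1.symm
      subst hb
      interval_cases k <;> simp [Polynomial.coeff_X_pow]
    · rw [Polynomial.coeff_eq_zero_of_natDegree_lt ((natDegree_rv_le β hX2).trans_lt hk),
        Polynomial.coeff_X_pow, if_neg (by omega), mul_zero]
  have e7 : rv β ((d + d) + (d + d)) R = rv β d D ^ 4 +
      Polynomial.C a2 * rv β d N ^ 2 * rv β d D ^ 2 + Polynomial.C b2 * rv β d N ^ 4 := by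
    rw [hR, rv_add, rv_add, rv_C_mul, rv_C_mul, rv_mul β hDD hDD, rv_mul β hNN hDD,
      rv_mul β hNN hNN, rv_mul β hD hD, rv_mul β hN hN]
    ring
  have e8 : rv β ((d + d) + (d + d) + 4) (Polynomial.C (mu ^ 2) * (R * Polynomial.X ^ 2)) =
      Polynomial.C (mu ^ 2) * (rv β ((d + d) + (d + d)) R *
        (Polynomial.C b1⁻¹ * Polynomial.X ^ 2)) := by
    rw [rv_C_mul, rv_mul β hRd hX2, e6]
  have e9 := e5
  rw [e4, e8, e7] at e9
  have hC : Polynomial.C b1 * Polynomial.C b1⁻¹ = (1 : Polynomial K) := by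
    rw [← Polynomial.C_mul, mul_inv_cancel₀ hb1, Polynomial.C_1]
  have hX : (Polynomial.X ^ 2 : Polynomial K) ≠ 0 := pow_ne_zero _ Polynomial.X_ne_zero
  apply mul_left_cancel₀ hX
  have e10 : (Polynomial.X : Polynomial K) ^ 2 * ((Polynomial.derivative (rv β d N) * rv β d D -
        rv β d N * Polynomial.derivative (rv β d D)) ^ 2 * sg a1 b1) =
      (rv β (d + d) (Polynomial.X * W)) ^ 2 * sg a1 b1 := by
    have : (rv β (d + d) (Polynomial.X * W)) = - (Polynomial.X *
      (Polynomial.derivative (rv β d N) * rv β d D -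
      rv β d N * Polynomial.derivative (rv β d D))) := by rw [e1, neg_neg]
    rw [this]
    ring
  rw [e10]
  conv_lhs => rw [e3]
  linear_combination (-Polynomial.C b1) * e9 + (Polynomial.C (mu ^ 2) *
    (rv β d D ^ 4 + Polynomial.C a2 * rv β d N ^ 2 * rv β d D ^ 2 +
      Polynomial.C b2 * rv β d N ^ 4) * Polynomial.X ^ 2) * hC


end Pool.Agent.Lib.MP_d4c4f0_nt
end
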