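import Pool.Agent.Lib.MP_d4c4f0_nt.ZS.B08
import Pool.Agent.Lib.MP_d4c4f0_nt.ZS.B09
import Pool.Agent.Lib.MP_d4c4f0_nt.ZS.B10
import Pool.Agent.Lib.MP_d4c4f0_nt.ZS.D02
import Pool.Agent.Lib.MP_d4c4f0_nt.ZS.B11b
import Pool.Agent.Lib.MP_d4c4f0_nt.ZS.C04a
import Pool.Agent.Lib.MP_d4c4f0_nt.ZS.A16
import Pool.Agent.Lib.MP_d4c4f0_nt.ZS.D00
import Pool.Agent.Lib.MP_d4c4f0_nt.ZS.C01
import Pool.Agent.Lib.MP_d4c4f0_nt.ZS.A03
import Pool.Agent.Lib.MP_d4c4f0_nt.ZS.A08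

section

/-!
# B12: degrees of all isogenies between the CM curves

Let `x = cx i r`, `y = cx (-i) (-r)`, `s = i r` (`s^2 = -5`; `(-i)(-r) = s`), `a(x) = -2 ea x`, `b(x) = 1 - 8x`.
`b(x) ≠ 0`, `a(x)^2 - 4 b(x) = 16 eb x ≠ 0` (`ea_sq`, `cx_nz`), same for `y` (apply with `-i`, `-r`).
* `deg_end` (endomorphisms of the curve of `x`). `EvenDeg (1+s) 6`: `Iso3.comp` with the 2-isogeny `x → y` of multiplier `4x`
  (`cx_two`) and `iso3_plus` for `(-i, -r)` (from `y` to `x`), of multiplier `2y(1+s)`; the product is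
  `4x * 2y(1+s) = -(1+s)` (`cx_w2`); use `EvenDeg.neg`. Similarly `EvenDeg (1-s) 6` with `iso3_minus`.
  `OddDeg 1 1` (`oddDeg_one`), `EvenDeg 2 4` (`OddDeg.double`). Determination of `e := deg s`:
  `par` with `1`, `1+s`: `OddDeg (2+s) d1`, `OddDeg (-s) e`, `d1 + e = 2 + 12`. `par` with `1`, `1-s`: `OddDeg (2-s) d2`,
  `OddDeg s e'`, `e' = e` (`neg`, `unique`), `d2 + e = 14`. `par` with `s`, `2`: `OddDeg (s+2)`, `OddDeg (s-2)`:
  `d1 + d2 = 2e + 8`. So `28 - 2e = 2e + 8`, `e = 5`. Then `ladder` with `P = 1`, `P' = s`, `d = 1`, `d' = 5`, `e = 6`: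
  degree `m^2 + 5 n^2`.
* `deg_hom` (from the curve of `x` to that of `y`): `P = 2x(1+s)`, `P' = 2x(1-s)` of degree 3 (`Iso3.oddDeg`), `P + P' = 4x`
  of degree 2 (`two_isog`): `ladder` gives `3m^2 - 4mn + 3n^2` for `mP + nP' = 2x((m+n) + (m-n)s)`.
-/

set_option autoImplicit false

namespace Pool.Agent.Lib.MP_d4c4f0_nt

open PowerSeries

variable {K : Type*} [Field K] [CharZero K] {i r : K} {om : K⟦X⟧}

private theorem B12_ab (x : K) (h : eb x ≠ 0) : (-2 * ea x) ^ 2 - 4 * (1 - 8 * x) ≠ 0 := by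
  have h1 : (-2 * ea x) ^ 2 - 4 * (1 - 8 * x) = 16 * eb x := by
    have := ea_sq x
    linear_combination 4 * this
  rw [h1]
  exact mul_ne_zero (by norm_num) h

private theorem B12_even (hi : i ^ 2 = -1) (hr : r ^ 2 = 5)
    (ho : Om (-2 * ea (cx i r)) (1 - 8 * cx i r) om) :
    EvenDeg om (-2 * ea (cx i r)) (1 - 8 * cx i r) (1 + i * r) 6 ∧
      EvenDeg om (-2 * ea (cx i r)) (1 - 8 * cx i r) (1 - i * r) 6 := by
  have hi' : (-i) ^ 2 = -1 := by rw [neg_sq]; exact hi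
  have hr' : (-r) ^ 2 = 5 := by rw [neg_sq]; exact hr
  obtain ⟨hx, -, hB, -, -, -⟩ := cx_nz hi hr
  obtain ⟨t1, t2⟩ := cx_two hi hr
  obtain ⟨n1, n2, n3, n4, n5, n6⟩ := iso3_nz hi' hr'
  have hw := cx_w2 hi hr
  have h4x : 4 * cx i r ≠ 0 := mul_ne_zero (by norm_num) hx
  have p1 := iso3_plus hi' hr'
  have p2 := iso3_minus hi' hr'
  rw [neg_neg, neg_neg] at p1 p2
  have q1 := (Iso3.comp ho hB h4x t1 t2 p1 n1 n3 n5).neg
  have q2 := (Iso3.comp ho hB h4x t1 t2 p2 n2 n4 n6).neg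
  have e1 : -(4 * cx i r * (2 * cx (-i) (-r) * (1 + -i * -r))) = 1 + i * r := by
    linear_combination (-(1 + i * r)) * hw
  have e2 : -(4 * cx i r * (2 * cx (-i) (-r) * (1 - -i * -r))) = 1 - i * r := by
    linear_combination (-(1 - i * r)) * hw
  rw [e1] at q1
  rw [e2] at q2
  exact ⟨q1, q2⟩

theorem deg_end (hi : i ^ 2 = -1) (hr : r ^ 2 = 5)
    (ho : Om (-2 * ea (cx i r)) (1 - 8 * cx i r) om) {m n : ℤ} (hmn : Odd (m + n)) :
    ∃ k : ℕ, OddDeg om (-2 * ea (cx i r)) (1 - 8 * cx i r) ((m : K) + (n : K) * (i * r)) k ∧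
      (k : ℤ) = m ^ 2 + 5 * n ^ 2 := by
  obtain ⟨_, -, hB, -, -, hE⟩ := cx_nz hi hr
  have hab := B12_ab (cx i r) hE
  obtain ⟨hp, hm⟩ := B12_even hi hr ho
  have h1 := oddDeg_one ho
  have h2 := OddDeg.double hB hab h1
  obtain ⟨d1, e, a1, a2, a3⟩ := par ho hB hab h1 hp
  obtain ⟨d2, e', b1, b2, b3⟩ := par ho hB hab h1 hm
  have a2' := a2.neg
  rw [show -((1 : K) - (1 + i * r)) = i * r by ring] at a2'
  rw [show (1 : K) - (1 - i * r) = i * r by ring] at b2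
  have he : e' = e := b2.unique a2'
  subst he
  obtain ⟨f1, f2, c1, c2, c3⟩ := par ho hB hab b2 h2
  rw [show i * r + 2 * 1 = 1 + (1 + i * r) by ring] at c1
  have c2' := c2.neg
  rw [show -(i * r - 2 * 1) = 1 + (1 - i * r) by ring] at c2'
  have g1 := c1.unique a1
  have g2 := c2'.unique b1
  have he5 : e' = 5 := by omega
  subst he5
  obtain ⟨k, hk1, hk2⟩ := ladder ho hB hab h1 b2 hp hmn
  refine ⟨k, ?_, ?_⟩
  · rwa [mul_one] at hk1
  · rw [hk2]
    push_cast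
    ring

theorem deg_hom (hi : i ^ 2 = -1) (hr : r ^ 2 = 5)
    (ho : Om (-2 * ea (cx i r)) (1 - 8 * cx i r) om) {m n : ℤ} (hmn : Odd (m + n)) :
    ∃ k : ℕ, OddDeg om (-2 * ea (cx (-i) (-r))) (1 - 8 * cx (-i) (-r))
      ((m : K) * (2 * cx i r * (1 + i * r)) + (n : K) * (2 * cx i r * (1 - i * r))) k ∧
      (k : ℤ) = 3 * m ^ 2 - 4 * m * n + 3 * n ^ 2 := by
  have hi' : (-i) ^ 2 = -1 := by rw [neg_sq]; exact hi
  have hr' : (-r) ^ 2 = 5 := by rw [neg_sq]; exact hr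
  obtain ⟨hx, -, hB, -, -, -⟩ := cx_nz hi hr
  obtain ⟨_, -, hB', -, -, hE'⟩ := cx_nz hi' hr'
  have hab' := B12_ab (cx (-i) (-r)) hE'
  obtain ⟨n1, n2, n3, n4, n5, n6⟩ := iso3_nz hi hr
  obtain ⟨t1, t2⟩ := cx_two hi hr
  have h4x : 4 * cx i r ≠ 0 := mul_ne_zero (by norm_num) hx
  have q1 := Iso3.oddDeg ho (iso3_plus hi hr) n1 n3 n5
  have q2 := Iso3.oddDeg ho (iso3_minus hi hr) n2 n4 n6
  have q3 := two_isog ho hB h4x t1 t2
  rw [show 4 * cx i r = 2 * cx i r * (1 + i * r) + 2 * cx i r * (1 - i * r) by ring] at q3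
  obtain ⟨k, hk1, hk2⟩ := ladder ho hB' hab' q1 q2 q3 hmn
  refine ⟨k, hk1, ?_⟩
  rw [hk2]
  push_cast
  ring

end Pool.Agent.Lib.MP_d4c4f0_nt
end

section

section

/-!
# C04b: case (i) in a ring with `p^2 = 0`

`x = cxr q i r`, `y = cxr q (-i) (-r)`. `alpha_sq_i` for `(i, r)` and for `(-i, -r)`: `FA p x ^ 2 = P^2`, `FA p y ^ 2 = P^2`.
Let `8w = 1` with `w = -x y`; `FH p (-w) x = x^(p-1) FA p y`
   (`FH_eq` with `v = x`, `x y = -w`). So `Hp p w x = P^2 (2E^p - 1 - 8x^(2p)) + 8x^(2p) (x^(2p-2) - 1) P^2`,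
   `E = 1+8x^2`. With `e = x^(p-1) = 1 + p*..` and `f = E^(p-1) = 1 + p*..` (hypotheses `hx`, `hE`):
   `x^(2p) = x^2 e^2`, `8x^(4p-2) = 8 x^2 e^4`, `e^2 = 2e - 1`, so the bracket `2E f - 1 - 16 x^2 e^2 + 8x^2 e^4` is
   `2Ef - 1 - 8x^2 = 2Ef - E = E f^2 = E^(2p-1)`. `Gp_eq` and `Gp_eq_Hp`: `E^(2p-1) Z = E^(2p-1) P^2`, `E` is a unit (`cxr_E`).
-/

set_option autoImplicit false

open Finset

namespace Pool.Agent.Lib.MP_d4c4f0_nt

variable {S : Type*} [CommRing S] {q i r P ω : S} {p : ℕ}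

theorem final_i (hp : p.Prime) (h5 : 5 < p) (hS : (p : S) ^ 2 = 0) (hq : 4 * q = 1)
    (hi : i ^ 2 = -1) (hr : r ^ 2 = 5) (hω : 16 * ω = 1) (hP : IsUnit P)
    (hc : ∀ i' r' : S, (i' = i ∨ i' = -i) → (r' = r ∨ r' = -r) →
      tn ((p - 1) / 2) (ea (cxr q i' r')) (eb (cxr q i' r')) ^ 4 =
        P ^ 4 * (1 - 8 * cxr q i' r') ^ (p - 1) ∧
      ∃ z : S, tn ((p - 1) / 2) (ea (cxr q i' r')) (eb (cxr q i' r')) ^ 2 - P ^ 2 = (p : S) * z)
    (hx : ∃ z : S, cxr q i r ^ (p - 1) - 1 = (p : S) * z)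
    (hE : ∃ z : S, (1 + 8 * cxr q i r ^ 2) ^ (p - 1) - 1 = (p : S) * z) :
    ∑ n ∈ range p, (vr n : S) * ω ^ n = P ^ 2 := by
  have hi' : (-i) ^ 2 = -1 := by rw [neg_sq]; exact hi
  have hr' : (-r) ^ 2 = 5 := by rw [neg_sq]; exact hr
  have a1 : FA p (cxr q i r) ^ 2 = P ^ 2 :=
    alpha_sq_i hp h5 hS hq hi hr hP fun r' h => hc i r' (Or.inl rfl) h
  have a2 : FA p (cxr q (-i) (-r)) ^ 2 = P ^ 2 :=
    alpha_sq_i hp h5 hS hq hi' hr' hP fun r' h => hc (-i) r' (Or.inr rfl) (by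
      rw [neg_neg] at h
      exact h.symm)
  have u2 : IsUnit (2 : S) := by
    have := isUnit_of_prime_gt (S := S) hp hS (k := 2) (by norm_num) (by omega)
    exact_mod_cast this
  have u3 : IsUnit (3 : S) := by
    have := isUnit_of_prime_gt (S := S) hp hS (k := 3) (by norm_num) (by omega)
    exact_mod_cast this
  have uE : IsUnit (1 + 8 * cxr q i r ^ 2) := by
    have h1 := cxr_E hq hi hr
    have h2 : IsUnit (18 : S) := by
      have : (18 : S) = 2 * (3 * 3) := by norm_num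
      rw [this]
      exact u2.mul (u3.mul u3)
    rw [← h1] at h2
    exact isUnit_of_mul_isUnit_left h2
  have hw2 := cxr_w2 hq hi hr
  have hquart := cxr_quartic hq hi hr
  obtain ⟨z1, hz1⟩ := hx
  obtain ⟨z2, hz2⟩ := hE
  have he := two_step hS hz1
  have hf := two_step hS hz2
  set x := cxr q i r with hxdef
  set y := cxr q (-i) (-r) with hydef
  have hw : 8 * (-(x * y)) = 1 := by linear_combination -hw2
  have hG := Gp_eq_Hp hp (by omega) hS hw x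
  rw [Gp_eq hω hquart] at hG
  have hB : FH p (-(-(x * y))) x = x ^ (p - 1) * FA p y := FH_eq (by ring)
  unfold Hp at hG
  rw [hB, mul_pow, a1, a2] at hG
  have hp1 : p = (p - 1) + 1 := by omega
  have e1 : x ^ (2 * p) = x ^ 2 * (x ^ (p - 1)) ^ 2 := by
    rw [← pow_mul, ← pow_add]
    congr 1
    omega
  have e2 : (1 + 8 * x ^ 2) ^ p = (1 + 8 * x ^ 2) * (1 + 8 * x ^ 2) ^ (p - 1) := by
    rw [← pow_succ']
    congr 1
  have e3 : (1 + 8 * x ^ 2) ^ (2 * p - 1) = (1 + 8 * x ^ 2) * ((1 + 8 * x ^ 2) ^ (p - 1)) ^ 2 := by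
    rw [← pow_mul, ← pow_succ']
    congr 1
    omega
  have hcan : (1 + 8 * x ^ 2) ^ (2 * p - 1) * ∑ n ∈ range p, (vr n : S) * ω ^ n =
      (1 + 8 * x ^ 2) ^ (2 * p - 1) * P ^ 2 := by
    rw [hG, e1, e2, e3]
    set e := x ^ (p - 1)
    set f := (1 + 8 * x ^ 2) ^ (p - 1)
    linear_combination (8 * x ^ 2 * P ^ 2 * (e ^ 2 + 2 * e + 3) - 16 * x ^ 2 * P ^ 2) * he -
      P ^ 2 * (1 + 8 * x ^ 2) * hf
  exact (uE.pow (2 * p - 1)).mul_left_cancel hcan

end Pool.Agent.Lib.MP_d4c4f0_nt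
end

section

/-!
# B18b: the CM value of the Legendre type polynomial, case (i)

`x = cx i r`, `s = i r`, `c = tn ((p-1)/2) (ea x) (eb x)`; `K` algebraically closed (for the square roots `β1`, `β2`), `‖k‖ = 1` for
`0 < k < p`; in particular `‖2‖ = ‖3‖ = ‖5‖ = 1`; `‖k‖ ≤ 1` for integers, `‖k‖ = 1` if `p ∤ k` (Bezout or `k % p`).
* case (i): `m^2 + 5n^2 = p`, `‖m + n s‖ < 1`. `mu = m + n s`, `mu * (m - n s) = p`; `‖m - n s‖ = 1`: the sum is `2m`, and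
  `‖2m‖ = 1` because `p ∤ m` (else `p ∣ 5 n^2`, `p ∣ n`, `p^2 ∣ p`). So `‖mu‖ = ‖p‖`, `p / mu = m - n s =: P`. `m + n` is odd. `deg_end`,
  `int_end` (with `om_cx`), `coeff_of_isogeny` with `A1 = A2 = ea x`, `B1 = B2 = eb x` (`ea_sq`): `‖c - Pν‖ ≤ ‖p‖^2`,
  `ν^4 (1-8x) = (1-8x)^p`, so `ν^4 = (1-8x)^(p-1)`; `‖ea x ν^2 - (ea x)^p‖ ≤ ‖p‖` and hypothesis `‖(ea x)^p - ea x‖ ≤ ‖p‖` give
  `‖ν^2 - 1‖ ≤ ‖p‖` (`‖ea x‖ = 1`). Then `‖c^2 - P^2‖ ≤ ‖p‖`, `‖c^4 - P^4 (1-8x)^(p-1)‖ ≤ ‖p‖^2` (all norms `≤ 1`).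
-/

set_option autoImplicit false

namespace Pool.Agent.Lib.MP_d4c4f0_nt

open PowerSeries

variable {K : Type*} [NormedField K] [IsUltrametricDist K] [CharZero K] [IsAlgClosed K]
  {i r : K} {p : ℕ}

omit [CharZero K] [IsAlgClosed K] in
private theorem B18b_add {a b : K} {c : ℝ} (ha : ‖a‖ ≤ c) (hb : ‖b‖ ≤ c) : ‖a + b‖ ≤ c :=
  (IsUltrametricDist.norm_add_le_max a b).trans (max_le ha hb)

omit [CharZero K] [IsAlgClosed K] in
private theorem B18b_sub {a b : K} {c : ℝ} (ha : ‖a‖ ≤ c) (hb : ‖b‖ ≤ c) : ‖a - b‖ ≤ c := by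
  rw [sub_eq_add_neg]
  exact B18b_add ha (by rwa [norm_neg])

omit [CharZero K] [IsAlgClosed K] in
private theorem B18b_sub_lt {a b : K} {c : ℝ} (ha : ‖a‖ < c) (hb : ‖b‖ < c) : ‖a - b‖ < c := by
  rw [sub_eq_add_neg]
  exact (IsUltrametricDist.norm_add_le_max a (-b)).trans_lt (max_lt ha (by rwa [norm_neg]))

omit [CharZero K] [IsAlgClosed K] in
private theorem B18b_unit (hp : p.Prime) (hk : ∀ k : ℕ, 0 < k → k < p → ‖(k : K)‖ = 1)
    (h1 : ‖(p : K)‖ < 1) {m : ℤ} (hm : ¬ (p : ℤ) ∣ m) : ‖(m : K)‖ = 1 := by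
  refine le_antisymm (IsUltrametricDist.norm_intCast_le_one K m) ?_
  by_contra hcon
  push Not at hcon
  have hp0 : (0 : ℤ) < p := by exact_mod_cast hp.pos
  have e1 := Int.emod_nonneg m hp0.ne'
  have e2 := Int.emod_lt_of_pos m hp0
  have e3 : m % p ≠ 0 := fun h => hm (Int.dvd_of_emod_eq_zero h)
  obtain ⟨k, hk'⟩ := Int.eq_ofNat_of_zero_le e1
  have e4 : (k : K) = (m : K) - (p : K) * ((m / p : ℤ) : K) := by
    have e5 : (k : ℤ) = m - p * (m / p) := by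
      rw [← hk']
      have := Int.emod_add_mul_ediv m p
      linarith
    have := congrArg (Int.cast : ℤ → K) e5
    push_cast at this
    exact this
  have e6 : ‖(k : K)‖ < 1 := by
    rw [e4]
    refine B18b_sub_lt hcon ?_
    rw [norm_mul]
    calc ‖(p : K)‖ * ‖((m / p : ℤ) : K)‖ ≤ ‖(p : K)‖ * 1 :=
          mul_le_mul_of_nonneg_left (IsUltrametricDist.norm_intCast_le_one K _) (norm_nonneg _)
      _ < 1 := by rw [mul_one]; exact h1
  rw [hk k (by omega) (by omega)] at e6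
  exact lt_irrefl _ e6

theorem case_i (hp : p.Prime) (h5 : 5 < p) (hk : ∀ k : ℕ, 0 < k → k < p → ‖(k : K)‖ = 1)
    (h1 : ‖(p : K)‖ < 1) (hi : i ^ 2 = -1) (hr : r ^ 2 = 5) {m n : ℤ}
    (hmn : m ^ 2 + 5 * n ^ 2 = p) (hs : ‖(m : K) + n * (i * r)‖ < 1)
    (hA : ‖ea (cx i r) ^ p - ea (cx i r)‖ ≤ ‖(p : K)‖) :
    ‖tn ((p - 1) / 2) (ea (cx i r)) (eb (cx i r)) ^ 2 - ((m : K) - n * (i * r)) ^ 2‖ ≤
        ‖(p : K)‖ ∧
      ‖tn ((p - 1) / 2) (ea (cx i r)) (eb (cx i r)) ^ 4 -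
        ((m : K) - n * (i * r)) ^ 4 * (1 - 8 * cx i r) ^ (p - 1)‖ ≤ ‖(p : K)‖ ^ 2 := by
  have h2 : ‖(2 : K)‖ = 1 := by
    have := hk 2 (by norm_num) (by omega)
    simpa using this
  obtain ⟨ni, nr, nx, nea, neb, nb⟩ := cx_norm h2 hi hr
  obtain ⟨ux, ub, uea, -⟩ := cx_units hp h5 hk hi hr
  set x : K := cx i r with hx
  set A : K := ea x with hA'
  set B : K := eb x with hB'
  set c : K := tn ((p - 1) / 2) A B with hc
  set mu : K := (m : K) + n * (i * r) with hmu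
  set P : K := (m : K) - n * (i * r) with hP
  have hpi : (p : ℤ) = m ^ 2 + 5 * n ^ 2 := hmn.symm
  have hprod : mu * P = (p : K) := by
    have e1 : mu * P = (m : K) ^ 2 - (n : K) ^ 2 * (i ^ 2 * r ^ 2) := by rw [hmu, hP]; ring
    rw [e1, hi, hr]
    have := congrArg (Int.cast : ℤ → K) hmn
    push_cast at this
    rw [← this]
    ring
  have hp0 : (p : K) ≠ 0 := by exact_mod_cast hp.ne_zero
  have hmu0 : mu ≠ 0 := by
    rintro h
    rw [h, zero_mul] at hprod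
    exact hp0 hprod.symm
  -- the prime does not divide `m`
  have hpm : ¬ (p : ℤ) ∣ m := by
    intro hd
    have hpp : Prime (p : ℤ) := Nat.prime_iff_prime_int.1 hp
    have e1 : (p : ℤ) ∣ 5 * n ^ 2 := by
      have e2 : 5 * n ^ 2 = (p : ℤ) - m ^ 2 := by linarith
      rw [e2]
      exact dvd_sub dvd_rfl (hd.trans (dvd_pow_self m two_ne_zero))
    have e3 : (p : ℤ) ∣ n := by
      rcases hpp.dvd_or_dvd e1 with h | h
      · have e4 : (p : ℤ) ≤ 5 := Int.le_of_dvd (by norm_num) h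
        omega
      · exact hpp.dvd_of_dvd_pow h
    obtain ⟨a, ha⟩ := hd
    obtain ⟨b, hb⟩ := e3
    have e5 : (p : ℤ) * ((a ^ 2 + 5 * b ^ 2) * p - 1) = 0 := by
      have : (p : ℤ) = (p : ℤ) ^ 2 * (a ^ 2 + 5 * b ^ 2) := by
        conv_lhs => rw [hpi]
        rw [ha, hb]
        ring
      linarith
    have e6 : (a ^ 2 + 5 * b ^ 2) * (p : ℤ) - 1 = 0 :=
      (mul_eq_zero.1 e5).resolve_left (by exact_mod_cast hp.ne_zero)
    have e7 : (p : ℤ) ∣ 1 := ⟨a ^ 2 + 5 * b ^ 2, by linarith⟩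
    have e8 : (p : ℤ) ≤ 1 := Int.le_of_dvd one_pos e7
    omega
  have hum : ‖(m : K)‖ = 1 := B18b_unit hp hk h1 hpm
  have hns : ‖(n : K) * (i * r)‖ ≤ 1 := by
    rw [norm_mul, norm_mul]
    exact mul_le_one₀ (IsUltrametricDist.norm_intCast_le_one K n)
      (mul_nonneg (norm_nonneg _) (norm_nonneg _)) (mul_le_one₀ ni (norm_nonneg _) nr)
  have hPle : ‖P‖ ≤ 1 := B18b_sub hum.le hns
  have hP1 : ‖P‖ = 1 := by
    refine le_antisymm hPle ?_
    by_contra hcon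
    push Not at hcon
    have e1 : (2 : K) * m = P - (-mu) := by rw [hP, hmu]; ring
    have e2 : ‖(2 : K) * m‖ < 1 := by
      rw [e1]
      exact B18b_sub_lt hcon (by rwa [norm_neg])
    rw [norm_mul, h2, hum] at e2
    norm_num at e2
  have hmun : ‖mu‖ = ‖(p : K)‖ := by
    rw [← hprod, norm_mul, hP1, mul_one]
  -- parity
  have hodd : Odd (m + n) := by
    have h3 : Odd (p : ℤ) := by
      have := hp.odd_of_ne_two (by omega)
      exact_mod_cast this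
    rw [hpi] at h3
    have h4 : Odd (m ^ 2 + 5 * n ^ 2 + 2 * (m * n - 2 * n ^ 2)) :=
      h3.add_even (even_two_mul _)
    have h6 : m ^ 2 + 5 * n ^ 2 + 2 * (m * n - 2 * n ^ 2) = (m + n) ^ 2 := by ring
    rw [h6] at h4
    by_contra hcon
    rw [Int.not_odd_iff_even] at hcon
    have h7 : Even ((m + n) ^ 2) := hcon.pow_of_ne_zero two_ne_zero
    exact (Int.not_odd_iff_even.2 h7) h4
  obtain ⟨k, hdeg, hkp⟩ := deg_end hi hr (om_cx i r) hodd
  have hkp' : k = p := by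
    have : (k : ℤ) = p := by rw [hkp, hpi]
    exact_mod_cast this
  rw [hkp'] at hdeg
  have hint := int_end h2 hi hr m n
  have hsq := ea_sq x
  rw [← hA', ← hB'] at hsq
  obtain ⟨β, hβ⟩ := IsAlgClosed.exists_pow_nat_eq (A ^ 2 - 4 * B) (n := 2) (by norm_num)
  obtain ⟨ν, v1, v2, v3, v4⟩ := coeff_of_isogeny (A1 := A) (B1 := B) (A2 := A) (B2 := B)
    (mu := mu) (β1 := β) (β2 := β) hp (by omega) hk h1 nea neb nea neb (by rw [hsq]; exact ub)
    (by rw [hsq]; exact ub) hβ hβ hmun (by rw [hsq]; exact hdeg) (by rw [hsq]; exact hint)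
  have hpmu : (p : K) / mu = P := by
    rw [← hprod]
    field_simp
  rw [hpmu, ← hc] at v1
  have hb0 : 1 - 8 * x ≠ 0 := by
    intro h
    rw [h, norm_zero] at ub
    exact zero_ne_one ub
  have v5 : ν ^ 4 = (1 - 8 * x) ^ (p - 1) := by
    rw [hsq] at v2
    have e1 : (1 - 8 * x) ^ p = (1 - 8 * x) ^ (p - 1) * (1 - 8 * x) := by
      rw [← pow_succ]
      congr 1
      have := hp.pos
      omega
    rw [e1] at v2
    exact mul_right_cancel₀ hb0 v2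
  have v6 : ‖ν ^ 2 - 1‖ ≤ ‖(p : K)‖ := by
    have e1 : ‖A * (ν ^ 2 - 1)‖ ≤ ‖(p : K)‖ := by
      have e2 : A * (ν ^ 2 - 1) = (A * ν ^ 2 - A ^ p) + (A ^ p - A) := by ring
      rw [e2]
      exact B18b_add v3 hA
    rwa [norm_mul, uea, one_mul] at e1
  have hpsq : ‖(p : K)‖ ^ 2 ≤ ‖(p : K)‖ := by
    have h0 := norm_nonneg (p : K)
    nlinarith
  have hPν : ‖P * ν‖ = 1 := by rw [norm_mul, hP1, v4, one_mul]
  have hcle : ‖c‖ ≤ 1 := by
    have e1 : c = (c - P * ν) + P * ν := by ring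
    rw [e1]
    exact B18b_add (v1.trans (hpsq.trans h1.le)) hPν.le
  have hsum : ‖c + P * ν‖ ≤ 1 := B18b_add hcle hPν.le
  have hdiff : ‖c ^ 2 - (P * ν) ^ 2‖ ≤ ‖(p : K)‖ ^ 2 := by
    have e1 : c ^ 2 - (P * ν) ^ 2 = (c - P * ν) * (c + P * ν) := by ring
    rw [e1, norm_mul]
    calc ‖c - P * ν‖ * ‖c + P * ν‖ ≤ ‖(p : K)‖ ^ 2 * 1 :=
          mul_le_mul v1 hsum (norm_nonneg _) (by positivity)
      _ = _ := mul_one _
  constructor
  · have e1 : c ^ 2 - P ^ 2 = (c ^ 2 - (P * ν) ^ 2) + P ^ 2 * (ν ^ 2 - 1) := by ring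
    rw [e1]
    refine B18b_add (hdiff.trans hpsq) ?_
    rw [norm_mul, norm_pow, hP1, one_pow, one_mul]
    exact v6
  · rw [← v5]
    have e1 : c ^ 4 - P ^ 4 * ν ^ 4 = (c ^ 2 - (P * ν) ^ 2) * (c ^ 2 + (P * ν) ^ 2) := by ring
    rw [e1, norm_mul]
    have e2 : ‖c ^ 2 + (P * ν) ^ 2‖ ≤ 1 := by
      refine B18b_add ?_ ?_
      · rw [norm_pow]; exact pow_le_one₀ (norm_nonneg _) hcle
      · rw [norm_pow, hPν, one_pow]
    calc ‖c ^ 2 - (P * ν) ^ 2‖ * ‖c ^ 2 + (P * ν) ^ 2‖ ≤ ‖(p : K)‖ ^ 2 * 1 :=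
          mul_le_mul hdiff e2 (norm_nonneg _) (by positivity)
      _ = _ := mul_one _

end Pool.Agent.Lib.MP_d4c4f0_nt
end

section

/-!
# D03: case (i) in `PadicAlgCl p`

`K = PadicAlgCl p`, `i, r ∈ K` with `i^2 = -1`, `r^2 = 5` (algebraically closed), all of `i`, `r`, `q = 1/4`, `ω = 1/16` in `OK K`
(norm `1`). `p = m^2 + 5n^2 = (m+ns)(m-ns)`, `s = ir`: one of the factors has norm `< 1` (product of norms `‖p‖ < 1`); replacing
`n` by `-n` we may assume `‖m+ns‖ < 1`. `P = m - ns` has norm `1` (sum `2m`, `p ∤ m`), so it is a unit of `OK K`. `case_i` is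
applied to `(i', r')` for the four sign choices, with `n' = ± n` such that `n' i' r' = n i r`; the hypothesis `hA` by `frob_ea`,
`frob_cxr`, `frob_i_one`, `frob_r_pos` in `Rq K p 1` (`quot_eq_iff`); note `cx i r = cxr (1/4) i r`. Let
`S = Rq K p 2`; by `quot_eq_iff` and `exists_mul_p` all hypotheses of `final_i` hold in `S` (`map_tn`, `map_ea`, ... for
`Ideal.Quotient.mk`); `hx`: `x^p ≡ x` mod `p` and `x` is a unit (`cx_units`), `x^(p-1) - 1 = x⁻¹ (x^p - x)`; `hE` similarly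
with `frob_E`. So `Z = P^2` in `S`, i.e. `‖Z - P^2‖ ≤ ‖p‖^2`; and `P^2 + (m+ns)^2 = 2m^2 - 10n^2 = 4m^2 - 2p`,
`‖m+ns‖ = ‖p‖`. (`(vr j : K) / 16^j = vr j * (1/16)^j`.)
-/

set_option autoImplicit false

open Finset

namespace Pool.Agent.Lib.MP_d4c4f0_nt

section Gen

variable {K : Type*} [NormedField K] [IsUltrametricDist K] [CharZero K] [IsAlgClosed K] {p : ℕ}

/-- The hypotheses of `final_i` for one pair `(i, r)`. -/
private theorem hyp_i (hp : p.Prime) (h5 : 5 < p)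
    (hk : ∀ k : ℕ, 0 < k → k < p → ‖(k : K)‖ = 1) (h1 : ‖(p : K)‖ < 1)
    (h4 : p % 4 = 1) (h5' : p % 5 = 1 ∨ p % 5 = 4)
    {q i r : OK K} (hq : 4 * q = 1) (hi : i ^ 2 = -1) (hr : r ^ 2 = 5) {m n : ℤ}
    (hmn : m ^ 2 + 5 * n ^ 2 = p) (hs : ‖(m : K) + n * ((i : K) * (r : K))‖ < 1) :
    tn ((p - 1) / 2) (ea (cxr (rd K p 2 q) (rd K p 2 i) (rd K p 2 r)))
        (eb (cxr (rd K p 2 q) (rd K p 2 i) (rd K p 2 r))) ^ 4 =
      rd K p 2 ((m : OK K) - n * (i * r)) ^ 4 *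
        (1 - 8 * cxr (rd K p 2 q) (rd K p 2 i) (rd K p 2 r)) ^ (p - 1) ∧
    ∃ z : Rq K p 2, tn ((p - 1) / 2) (ea (cxr (rd K p 2 q) (rd K p 2 i) (rd K p 2 r)))
        (eb (cxr (rd K p 2 q) (rd K p 2 i) (rd K p 2 r))) ^ 2 -
      rd K p 2 ((m : OK K) - n * (i * r)) ^ 2 = (p : Rq K p 2) * z := by
  have hx := coe_cxr (K := K) (i := i) (r := r) hq
  have hA : ‖ea (cx (i : K) (r : K)) ^ p - ea (cx (i : K) (r : K))‖ ≤ ‖(p : K)‖ := by
    have h : rd K p 1 (ea (cxr q i r)) ^ p = rd K p 1 (ea (cxr q i r)) := by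
      rw [map_ea, frob_ea hp rd_p_one, frob_cx_i hp h5 h4 h5' hq hi hr]
    have := frob_norm hp.pos h
    rwa [coe_ea, hx] at this
  obtain ⟨c1, c2⟩ := case_i hp h5 hk h1 (coe_sq_neg_one hi) (coe_sq_five hr) hmn hs hA
  have e1 : ((tn ((p - 1) / 2) (ea (cxr q i r)) (eb (cxr q i r)) : OK K) : K) =
      tn ((p - 1) / 2) (ea (cx (i : K) (r : K))) (eb (cx (i : K) (r : K))) := by
    rw [coe_tn, coe_ea, coe_eb, hx]
  have e2 : rd K p 2 (tn ((p - 1) / 2) (ea (cxr q i r)) (eb (cxr q i r))) =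
      tn ((p - 1) / 2) (ea (cxr (rd K p 2 q) (rd K p 2 i) (rd K p 2 r)))
        (eb (cxr (rd K p 2 q) (rd K p 2 i) (rd K p 2 r))) := by
    rw [map_tn, map_ea, map_eb, map_cxr]
  have e3 : (((m : OK K) - n * (i * r) : OK K) : K) = (m : K) - n * ((i : K) * (r : K)) := by
    push_cast; rfl
  have e4 : rd K p 2 (1 - 8 * cxr q i r) =
      1 - 8 * cxr (rd K p 2 q) (rd K p 2 i) (rd K p 2 r) := by
    rw [← map_cxr]; simp [map_ofNat]
  constructor
  · rw [← e2, ← e4, ← map_pow, ← map_pow, ← map_pow, ← map_mul, rd_eq_iff hp.pos]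
    push_cast
    rw [e1, hx, coe_OK_ofNat]
    exact c2
  · rw [← e2, ← map_pow, ← map_pow]
    apply exists_mul_rd hp.pos
    push_cast
    rw [e1]
    exact c1

private theorem gen_i' (hp : p.Prime) (h5 : 5 < p)
    (hk : ∀ k : ℕ, 0 < k → k < p → ‖(k : K)‖ = 1) (h1 : ‖(p : K)‖ < 1)
    (h4 : p % 4 = 1) (h5' : p % 5 = 1 ∨ p % 5 = 4)
    {q i r : OK K} (hq : 4 * q = 1) (hi : i ^ 2 = -1) (hr : r ^ 2 = 5) {m n : ℤ}
    (hmn : m ^ 2 + 5 * n ^ 2 = p) (hs : ‖(m : K) + n * ((i : K) * (r : K))‖ < 1) :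
    ‖(∑ j ∈ range p, (vr j : K) / 16 ^ j) - (4 * (m : K) ^ 2 - 2 * p)‖ ≤ ‖(p : K)‖ ^ 2 := by
  have hq' : 4 * rd K p 2 q = 1 := by
    have := congrArg (rd K p 2) hq
    simpa [map_ofNat] using this
  have hi' : rd K p 2 i ^ 2 = -1 := by rw [← map_pow, hi]; simp
  have hr' : rd K p 2 r ^ 2 = 5 := by rw [← map_pow, hr]; simp [map_ofNat]
  have hω : 16 * (rd K p 2 q ^ 2) = 1 := by linear_combination (4 * rd K p 2 q + 1) * hq'
  have hs2 : ((i : K) * (r : K)) ^ 2 = -5 := by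
    rw [mul_pow, coe_sq_neg_one hi, coe_sq_five hr]; norm_num
  obtain ⟨hP1, hQ1⟩ := norm_factors (c := 1) hp h5 hk h1 hs2 one_pos (by omega)
    (by rw [hmn]; push_cast; ring) hs
  have ePc : (((m : OK K) - n * (i * r) : OK K) : K) = (m : K) - n * ((i : K) * (r : K)) := by
    push_cast; rfl
  have hPu : IsUnit ((m : OK K) - n * (i * r)) := isUnit_OK (by rw [ePc]; exact hP1)
  have hP : IsUnit (rd K p 2 ((m : OK K) - n * (i * r))) := hPu.map _
  have hu := cx_units hp h5 hk (coe_sq_neg_one hi) (coe_sq_five hr)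
  have hx := coe_cxr (K := K) (i := i) (r := r) hq
  have hfr := frob_cx_i hp h5 h4 h5' hq hi hr
  have hS := quot_pow_zero (K := K) (p := p) (n := 2)
  have hpp : p = (p - 1) + 1 := by have := hp.pos; omega
  have main := final_i (S := Rq K p 2) (q := rd K p 2 q) (i := rd K p 2 i) (r := rd K p 2 r)
    (P := rd K p 2 ((m : OK K) - n * (i * r))) (ω := rd K p 2 q ^ 2) hp h5 hS hq' hi' hr' hω hP
    (by
      intro i' r' hi1 hr1
      have nh : ∀ x : OK K, rd K p 2 (-x) = - rd K p 2 x := fun x => map_neg _ x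
      rcases hi1 with rfl | rfl <;> rcases hr1 with rfl | rfl
      · exact hyp_i hp h5 hk h1 h4 h5' hq hi hr hmn hs
      · have hr2 : (-r) ^ 2 = (5 : OK K) := by rw [neg_sq]; exact hr
        have := hyp_i (m := m) (n := -n) hp h5 hk h1 h4 h5' hq hi hr2
          (by rw [neg_sq]; exact hmn)
          (by
            rw [show (m : K) + ((-n : ℤ) : K) * ((i : K) * ((-r : OK K) : K)) =
              (m : K) + n * ((i : K) * (r : K)) by push_cast; ring]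
            exact hs)
        rw [nh r, show (m : OK K) - ((-n : ℤ) : OK K) * (i * -r) = (m : OK K) - n * (i * r) by
          push_cast; ring] at this
        exact this
      · have hi2 : (-i) ^ 2 = (-1 : OK K) := by rw [neg_sq]; exact hi
        have := hyp_i (m := m) (n := -n) hp h5 hk h1 h4 h5' hq hi2 hr
          (by rw [neg_sq]; exact hmn)
          (by
            rw [show (m : K) + ((-n : ℤ) : K) * (((-i : OK K) : K) * (r : K)) =
              (m : K) + n * ((i : K) * (r : K)) by push_cast; ring]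
            exact hs)
        rw [nh i, show (m : OK K) - ((-n : ℤ) : OK K) * (-i * r) = (m : OK K) - n * (i * r) by
          push_cast; ring] at this
        exact this
      · have hi2 : (-i) ^ 2 = (-1 : OK K) := by rw [neg_sq]; exact hi
        have hr2 : (-r) ^ 2 = (5 : OK K) := by rw [neg_sq]; exact hr
        have := hyp_i (m := m) (n := n) hp h5 hk h1 h4 h5' hq hi2 hr2 hmn
          (by
            rw [show (m : K) + (n : K) * (((-i : OK K) : K) * ((-r : OK K) : K)) =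
              (m : K) + n * ((i : K) * (r : K)) by push_cast; ring]
            exact hs)
        rw [nh i, nh r, show (m : OK K) - (n : OK K) * (-i * -r) = (m : OK K) - n * (i * r) by
          ring] at this
        exact this)
    (by
      rw [← map_cxr, ← map_pow, ← map_one (rd K p 2)]
      apply exists_mul_rd hp.pos
      have h := frob_norm hp.pos hfr
      have e : ((cxr q i r : OK K) : K) ^ p - (cxr q i r : OK K) =
          ((cxr q i r : OK K) : K) * (((cxr q i r : OK K) : K) ^ (p - 1) - 1) := by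
        conv_lhs => rw [hpp]
        rw [pow_succ]; ring
      rw [e, norm_mul, hx, hu.1, one_mul] at h
      push_cast
      rw [hx]
      exact h)
    (by
      have e8 : rd K p 2 (1 + 8 * cxr q i r ^ 2) =
          1 + 8 * cxr (rd K p 2 q) (rd K p 2 i) (rd K p 2 r) ^ 2 := by
        rw [← map_cxr]; simp [map_ofNat]
      rw [← e8, ← map_pow, ← map_one (rd K p 2)]
      apply exists_mul_rd hp.pos
      have hfE : rd K p 1 (1 + 8 * cxr q i r ^ 2) ^ p = rd K p 1 (1 + 8 * cxr q i r ^ 2) := by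
        have e9 : rd K p 1 (1 + 8 * cxr q i r ^ 2) =
            1 + 8 * rd K p 1 (cxr q i r) ^ 2 := by
          simp [map_ofNat]
        rw [e9, frob_E hp rd_p_one, hfr]
      have h := frob_norm hp.pos hfE
      have e10 : ((1 + 8 * cxr q i r ^ 2 : OK K) : K) = 1 + 8 * cx (i : K) (r : K) ^ 2 := by
        push_cast
        rw [hx, coe_OK_ofNat]
      rw [e10] at h
      have e : (1 + 8 * cx (i : K) (r : K) ^ 2) ^ p - (1 + 8 * cx (i : K) (r : K) ^ 2) =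
          (1 + 8 * cx (i : K) (r : K) ^ 2) * ((1 + 8 * cx (i : K) (r : K) ^ 2) ^ (p - 1) - 1) := by
        conv_lhs => rw [hpp]
        rw [pow_succ]; ring
      rw [e, norm_mul, hu.2.2.2, one_mul] at h
      have e11 : (((1 + 8 * cxr q i r ^ 2) ^ (p - 1) : OK K) : K) =
          (1 + 8 * cx (i : K) (r : K) ^ 2) ^ (p - 1) := by
        rw [← e10]; push_cast; rfl
      rw [e11]
      push_cast
      exact h)
  obtain ⟨s1, s2⟩ := sum_rd (p := p) hq p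
  rw [← s1, ← map_pow, rd_eq_iff hp.pos, s2] at main
  push_cast at main
  have hQ2 : ‖((m : K) + n * ((i : K) * (r : K))) ^ 2‖ = ‖(p : K)‖ ^ 2 := by
    rw [norm_pow, hQ1]
  have e12 : (∑ j ∈ range p, (vr j : K) / 16 ^ j) - (4 * (m : K) ^ 2 - 2 * p) =
      ((∑ j ∈ range p, (vr j : K) / 16 ^ j) - ((m : K) - n * ((i : K) * (r : K))) ^ 2) +
        -(((m : K) + n * ((i : K) * (r : K))) ^ 2) := by
    have h := congrArg (fun z : ℤ => (z : K)) hmn
    push_cast at h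
    linear_combination -2 * h + 2 * (n : K) ^ 2 * hs2
  rw [e12]
  refine (IsUltrametricDist.norm_add_le_max _ _).trans (max_le main ?_)
  rw [norm_neg, hQ2]

private theorem gen_i (hp : p.Prime) (h5 : 5 < p)
    (hk : ∀ k : ℕ, 0 < k → k < p → ‖(k : K)‖ = 1) (h1 : ‖(p : K)‖ < 1)
    (h4 : p % 4 = 1) (h5' : p % 5 = 1 ∨ p % 5 = 4) {m n : ℤ}
    (hmn : m ^ 2 + 5 * n ^ 2 = p) :
    ‖(∑ j ∈ range p, (vr j : K) / 16 ^ j) - (4 * (m : K) ^ 2 - 2 * p)‖ ≤ ‖(p : K)‖ ^ 2 := by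
  have h2 : ‖(2 : K)‖ = 1 := by have := hk 2 (by norm_num) (by omega); exact_mod_cast this
  have h55 : ‖(5 : K)‖ = 1 := by have := hk 5 (by norm_num) (by omega); exact_mod_cast this
  obtain ⟨q, hq⟩ := exists_four h2
  obtain ⟨i, r, hi, hr⟩ := exists_ir (K := K) h55
  by_cases hs : ‖(m : K) + n * ((i : K) * (r : K))‖ < 1
  · exact gen_i' hp h5 hk h1 h4 h5' hq hi hr hmn hs
  · have hs2 : ((i : K) * (r : K)) ^ 2 = -5 := by
      rw [mul_pow, coe_sq_neg_one hi, coe_sq_five hr]; norm_num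
    have hprod : ((m : K) + n * ((i : K) * (r : K))) * ((m : K) - n * ((i : K) * (r : K))) =
        (p : K) := by
      have h := congrArg (fun z : ℤ => (z : K)) hmn
      push_cast at h
      linear_combination h - (n : K) ^ 2 * hs2
    have hs' : ‖(m : K) + ((-n : ℤ) : K) * ((i : K) * (r : K))‖ < 1 := by
      have e : (m : K) + ((-n : ℤ) : K) * ((i : K) * (r : K)) =
          (m : K) - n * ((i : K) * (r : K)) := by push_cast; ring
      rw [e]
      by_contra hcon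
      have := congrArg norm hprod
      rw [norm_mul] at this
      rw [← this] at h1
      have := one_le_mul_of_one_le_of_one_le (not_lt.1 hs) (not_lt.1 hcon)
      linarith
    exact gen_i' hp h5 hk h1 h4 h5' hq hi hr (n := -n) (by rw [neg_sq]; exact hmn) hs'

end Gen

theorem K_case_i {p : ℕ} [hp : Fact p.Prime] (h5 : 5 < p) (hmod : p % 20 = 1 ∨ p % 20 = 9)
    {m n : ℤ} (hmn : (p : ℤ) = m ^ 2 + 5 * n ^ 2) :
    ‖(∑ j ∈ range p, (vr j : PadicAlgCl p) / 16 ^ j) - (4 * (m : PadicAlgCl p) ^ 2 - 2 * p)‖ ≤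
      ‖(p : PadicAlgCl p)‖ ^ 2 :=
  gen_i hp.out h5 (fun k h0 hk => norm_small h0 hk) norm_p_lt (by omega) (by omega) hmn.symm

end Pool.Agent.Lib.MP_d4c4f0_nt
end
end

section

section

/-!
# C05a: the square of the truncated sum at a CM point, case (ii)

`x = cxr q i r`, `x3 = cxr q i (-r)`, `y = cxr q (-i) (-r)`, `y3 = cxr q (-i) r`; `b = 1-8x`, `b3 = 1-8x3`, `b' = 1-8y`, `b3' = 1-8y3`;
`b b3 = 9`, `b' b3' = 9` (`cxr_b3`, also for `(-i,-r)`, note `-(-r) = r`). `α = FA p x`, `c = tn .. (x)`, `c3 = tn .. (x3)`. The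
hypothesis `hc` for `(i, r)` and `(i, -r)`: `c^4 b' = (2ρy)^4 b^p`, `c3^4 b3' = (2ρy3)^4 b3^p`. `cm_eight`:
`α^8 b^(3p-3) c3^4 = c^12 b3^(p-1)`. Multiply by `b'^3 b3'`:
   `α^8 b^(3p-3) b'^3 (2ρy3)^4 b3^p = b3' (2ρy)^12 b^(3p) b3^(p-1)`; cancel the units `b^(3p-3)`, `b3^(p-1)`:
   `α^8 b'^3 b3 (2ρy3)^4 = b3' b^3 (2ρy)^12`.
From `cxr_w3`: `x3 b = -(1+x)`, `cxr_b2`: `b' x = 1 + x`, so `x3 b = -b' x`; multiply by `8 y y3` and use `8 x y = -1`,
`8 x3 y3 = -1` (`cxr_w2`): `-y b = b' y3`, so `(y b)^4 = (y3 b')^4`. Multiply the relation by `b b'`: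
`α^8 b'^4 (b b3) (2ρy3)^4 = (b' b3') b^4 (2ρy)^12`, i.e. `9 α^8 (2ρ)^4 (y3 b')^4 = 9 (2ρ)^12 (y b)^4 y^8`. Cancel the units
`9`, `2ρ`, `y b`: `α^8 = (2ρ)^8 y^8`, `(α^2)^4 = ((2ρy)^2)^4`. With `α^2 - (2ρy)^2 ∈ (p)` (`tn_mod'` and the second part of `hc`):
`four_root` gives `α^2 = (2ρy)^2`.
-/

set_option autoImplicit false

open Finset

namespace Pool.Agent.Lib.MP_d4c4f0_nt

variable {S : Type*} [CommRing S] {q i r ρ : S} {p : ℕ}

theorem alpha_sq_ii (hp : p.Prime) (h5 : 5 < p) (hS : (p : S) ^ 2 = 0) (hq : 4 * q = 1)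
    (hi : i ^ 2 = -1) (hr : r ^ 2 = 5) (hρ : IsUnit ρ)
    (hc : ∀ r' : S, (r' = r ∨ r' = -r) →
      tn ((p - 1) / 2) (ea (cxr q i r')) (eb (cxr q i r')) ^ 4 *
          (1 - 8 * cxr q (-i) (-r')) =
        (2 * ρ * cxr q (-i) (-r')) ^ 4 * (1 - 8 * cxr q i r') ^ p ∧
      ∃ z : S, tn ((p - 1) / 2) (ea (cxr q i r')) (eb (cxr q i r')) ^ 2 -
        (2 * ρ * cxr q (-i) (-r')) ^ 2 = (p : S) * z) :
    FA p (cxr q i r) ^ 2 = (2 * ρ * cxr q (-i) (-r)) ^ 2 := by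
  have hi' : (-i) ^ 2 = -1 := by rw [neg_sq]; exact hi
  have hr' : (-r) ^ 2 = 5 := by rw [neg_sq]; exact hr
  have u2 : IsUnit (2 : S) := by
    have := isUnit_of_prime_gt (S := S) hp hS (k := 2) (by norm_num) (by omega)
    exact_mod_cast this
  have u3 : IsUnit (3 : S) := by
    have := isUnit_of_prime_gt (S := S) hp hS (k := 3) (by norm_num) (by omega)
    exact_mod_cast this
  have u4 : IsUnit (4 : S) := by
    have : (4 : S) = 2 * 2 := by norm_num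
    rw [this]
    exact u2.mul u2
  have u9 : IsUnit (9 : S) := by
    have : (9 : S) = 3 * 3 := by norm_num
    rw [this]
    exact u3.mul u3
  obtain ⟨c1, z1, hz1⟩ := hc r (Or.inl rfl)
  obtain ⟨c2, -⟩ := hc (-r) (Or.inr rfl)
  have h8 := cm_eight hp (by omega) hS hq hi hr
  obtain ⟨z2, hz2⟩ := tn_mod' hp (by omega) (cxr q i r)
  have g1 := cxr_b3 hq hi hr
  have g2 := cxr_b3 hq hi' hr'
  have g3 := cxr_w3 hq hi hr
  have g4 := cxr_b2 hq hi hr
  have g5 := cxr_w2 hq hi hr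
  have g6 := cxr_w2 hq hi hr'
  rw [neg_neg] at c2 g2 g6
  set x := cxr q i r with hxdef
  set x3 := cxr q i (-r)
  set y := cxr q (-i) (-r)
  set y3 := cxr q (-i) r
  set c := tn ((p - 1) / 2) (ea x) (eb x)
  set c3 := tn ((p - 1) / 2) (ea x3) (eb x3)
  set α := FA p x
  have ub : IsUnit (1 - 8 * x) := isUnit_of_mul_isUnit_left (by rw [g1]; exact u9)
  have ub3 : IsUnit (1 - 8 * x3) := isUnit_of_mul_isUnit_right (by rw [g1]; exact u9)
  have uy : IsUnit y := by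
    have h1 : IsUnit (8 * x * y) := by rw [g5]; exact isUnit_one.neg
    exact isUnit_of_mul_isUnit_right h1
  have e1 : (1 - 8 * x) ^ p = (1 - 8 * x) ^ (p - 1) * (1 - 8 * x) := by
    rw [← pow_succ]
    congr 1
    omega
  have e2 : (1 - 8 * x3) ^ p = (1 - 8 * x3) ^ (p - 1) * (1 - 8 * x3) := by
    rw [← pow_succ]
    congr 1
    omega
  rw [e1] at c1
  rw [e2] at c2
  have uB : IsUnit ((1 - 8 * x) ^ (p - 1)) := ub.pow _
  have uB3 : IsUnit ((1 - 8 * x3) ^ (p - 1)) := ub3.pow _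
  set B := (1 - 8 * x) ^ (p - 1)
  set B3 := (1 - 8 * x3) ^ (p - 1)
  set b := 1 - 8 * x with hb
  set b3 := 1 - 8 * x3
  set b' := 1 - 8 * y
  set b3' := 1 - 8 * y3
  -- the relation after cancelling
  have k1 : (B ^ 3 * B3) * (α ^ 8 * b' ^ 3 * b3 * (2 * ρ * y3) ^ 4) =
      (B ^ 3 * B3) * ((2 * ρ * y) ^ 12 * b ^ 3 * b3') := by
    have s1 : α ^ 8 * B ^ 3 * b' ^ 3 * (c3 ^ 4 * b3') = (c ^ 4 * b') ^ 3 * b3' * B3 := by
      linear_combination b' ^ 3 * b3' * h8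
    rw [c1, c2] at s1
    linear_combination s1
  have k2 := ((uB.pow 3).mul uB3).mul_left_cancel k1
  have k3 : b' * y3 = -(y * b) := by
    have s1 : b * x3 = -(b' * x) := by rw [g4]; exact g3
    linear_combination -8 * y * y3 * s1 + b * y * g6 + b' * y3 * g5
  have k4 : (9 * (2 * ρ) ^ 4 * (y * b) ^ 4) * (α ^ 2) ^ 4 =
      (9 * (2 * ρ) ^ 4 * (y * b) ^ 4) * ((2 * ρ * y) ^ 2) ^ 4 := by
    have s2 : (b' * y3) ^ 4 = (y * b) ^ 4 := by rw [k3]; ring
    have s3 : α ^ 8 * (2 * ρ) ^ 4 * (b' * y3) ^ 4 * (b * b3) =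
        (2 * ρ * y) ^ 12 * b ^ 4 * (b' * b3') := by
      linear_combination b * b' * k2
    rw [s2, g1, g2] at s3
    linear_combination s3
  have k5 := ((u9.mul ((u2.mul hρ).pow 4)).mul ((uy.mul ub).pow 4)).mul_left_cancel k4
  have k6 : α ^ 2 - (2 * ρ * y) ^ 2 = (p : S) * (z1 - z2 * (c + α)) := by
    linear_combination hz1 - (c + α) * hz2
  exact four_root hS k6 (((u2.mul hρ).mul uy).pow 2) u4 k5

end Pool.Agent.Lib.MP_d4c4f0_nt
end

section

/-!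
# C05: case (ii) in a ring with `p^2 = 0`

`x = cxr q i r`, `y = cxr q (-i) (-r)`, `E = 1+8x^2`, `8xy = -1`.
1. `alpha_sq_ii` for `(i, r)`: `FA p x ^ 2 = (2ρy)^2`; for `(-i, -r)`: `FA p y ^ 2 = (2ρx)^2`.
2. `w = -x y`, `B = FH p (-w) x = x^(p-1) FA p y`, `B^2 = 4ρ^2 x^(2p)`. Put
   `e = 64 x^(2p+2)`, `e - 1 ∈ (p)` (hypothesis `hx`), `4 y^2 = 1/(16x^2)`: `16 x^2 * Hp / ρ^2 = 2E^p - 1 - 16x^(2p) + 8 x^(2p) e`, and
   `64 x^2 x^(2p) = e`, `e^2 = 2e - 1`: multiply by `8x^2`: `8x^2 (2E^p - 1) - 2e + e^2 = 8x^2 (2E^p - 1) - 1 = 16x^2E^p - E`.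
   With `f = 8x^2 E^(p-1)`, `f - 1 ∈ (p)` (hypothesis `hE`): `16x^2E^p - E = E(2f - 1) = E f^2 = 64 x^4 E^(2p-1)`.
   So `128 x^4 Hp = ρ^2 64 x^4 E^(2p-1)`, `2 Hp = ρ^2 E^(2p-1)`, and `Hp = Gp = E^(2p-1) Z`: `2Z = ρ^2`.
-/

set_option autoImplicit false

open Finset

namespace Pool.Agent.Lib.MP_d4c4f0_nt

variable {S : Type*} [CommRing S] {q i r ρ ω : S} {p : ℕ}

theorem final_ii (hp : p.Prime) (h5 : 5 < p) (hS : (p : S) ^ 2 = 0) (hq : 4 * q = 1)
    (hi : i ^ 2 = -1) (hr : r ^ 2 = 5) (hω : 16 * ω = 1) (hρ : IsUnit ρ)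
    (hc : ∀ i' r' : S, (i' = i ∨ i' = -i) → (r' = r ∨ r' = -r) →
      tn ((p - 1) / 2) (ea (cxr q i' r')) (eb (cxr q i' r')) ^ 4 *
          (1 - 8 * cxr q (-i') (-r')) =
        (2 * ρ * cxr q (-i') (-r')) ^ 4 * (1 - 8 * cxr q i' r') ^ p ∧
      ∃ z : S, tn ((p - 1) / 2) (ea (cxr q i' r')) (eb (cxr q i' r')) ^ 2 -
        (2 * ρ * cxr q (-i') (-r')) ^ 2 = (p : S) * z)
    (hx : ∃ z : S, 64 * cxr q i r ^ (2 * p + 2) - 1 = (p : S) * z)
    (hE : ∃ z : S, 8 * cxr q i r ^ 2 * (1 + 8 * cxr q i r ^ 2) ^ (p - 1) - 1 = (p : S) * z) :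
    2 * ∑ n ∈ range p, (vr n : S) * ω ^ n = ρ ^ 2 := by
  have h3p : 3 < p := by omega
  have hi' : (-i) ^ 2 = -1 := by rw [neg_sq, hi]
  have hr' : (-r) ^ 2 = 5 := by rw [neg_sq, hr]
  have hA : FA p (cxr q i r) ^ 2 = (2 * ρ * cxr q (-i) (-r)) ^ 2 :=
    alpha_sq_ii hp h5 hS hq hi hr hρ fun r' h => hc i r' (Or.inl rfl) h
  have hB : FA p (cxr q (-i) (-r)) ^ 2 = (2 * ρ * cxr q i r) ^ 2 := by
    have h := alpha_sq_ii (q := q) (i := -i) (r := -r) hp h5 hS hq hi' hr' hρ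
      fun r' h => by
        have h' : r' = r ∨ r' = -r := by
          rcases h with h | h
          · exact Or.inr h
          · exact Or.inl (by rw [h, neg_neg])
        have := hc (-i) r' (Or.inr rfl) h'
        rwa [neg_neg] at this ⊢
    rwa [neg_neg, neg_neg] at h
  have hxy := cxr_w2 hq hi hr
  have hw : 8 * (-(cxr q i r * cxr q (-i) (-r))) = (1 : S) := by
    linear_combination -hxy
  have hG := Gp_eq_Hp hp h3p hS hw (cxr q i r)
  rw [Gp_eq hω (cxr_quartic hq hi hr), Hp, neg_neg,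
    FH_eq (y := cxr q (-i) (-r)) rfl, mul_pow, hA, hB] at hG
  generalize cxr q i r = x at *
  generalize cxr q (-i) (-r) = y at *
  obtain ⟨z1, hz1⟩ := hx
  obtain ⟨z2, hz2⟩ := hE
  have he := two_step hS hz1
  have hf := two_step hS hz2
  have hux : IsUnit x := IsUnit.of_mul_eq_one (-8 * y) (by linear_combination -hxy)
  have hu4 : IsUnit (4 : S) := IsUnit.of_mul_eq_one q hq
  have huf : IsUnit (8 * x ^ 2 * (1 + 8 * x ^ 2) ^ (p - 1)) := by
    refine IsUnit.of_mul_eq_one (1 - (p : S) * z2) ?_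
    have : 8 * x ^ 2 * (1 + 8 * x ^ 2) ^ (p - 1) = 1 + (p : S) * z2 := by
      linear_combination hz2
    rw [this]
    linear_combination -(z2 ^ 2) * hS
  have huE : IsUnit (1 + 8 * x ^ 2) := by
    have h1 := isUnit_of_mul_isUnit_right huf
    obtain ⟨k, hk⟩ : ∃ k, p - 1 = k + 1 := ⟨p - 2, by omega⟩
    rw [hk, pow_succ] at h1
    exact isUnit_of_mul_isUnit_right h1
  obtain ⟨k, hk⟩ : ∃ k, p = k + 1 := ⟨p - 1, by omega⟩
  have hk1 : p - 1 = k := by omega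
  have hk2 : 2 * p - 1 = 2 * k + 1 := by omega
  have hk3 : 2 * p + 2 = 2 * k + 4 := by omega
  have hk4 : 2 * p = 2 * k + 2 := by omega
  rw [hk1, hk2, hk4] at hG
  rw [hk3] at he
  rw [hk1] at hf
  set Z : S := ∑ n ∈ range p, (vr n : S) * ω ^ n with hZ
  clear_value Z
  clear hz1 hz2 hc
  subst hk
  have hx2 : x ^ (2 * k + 2) = (x ^ k) ^ 2 * x ^ 2 := by rw [← pow_mul, mul_comm k 2, ← pow_add]
  have hx4 : x ^ (2 * k + 4) = (x ^ k) ^ 2 * x ^ 4 := by rw [← pow_mul, mul_comm k 2, ← pow_add]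
  have hE2 : (1 + 8 * x ^ 2) ^ (2 * k + 1) = ((1 + 8 * x ^ 2) ^ k) ^ 2 * (1 + 8 * x ^ 2) := by
    rw [← pow_mul, mul_comm k 2, ← pow_succ]
  have hE1 : (1 + 8 * x ^ 2) ^ (k + 1) = (1 + 8 * x ^ 2) ^ k * (1 + 8 * x ^ 2) := pow_succ _ _
  rw [hx2, hE2, hE1] at hG
  rw [hx4] at he
  have huEk : IsUnit (((1 + 8 * x ^ 2) ^ k) ^ 2 * (1 + 8 * x ^ 2)) := by
    exact ((huE.pow k).pow 2).mul huE
  have hu64 : IsUnit (4 ^ 3 * x ^ 4) := (hu4.pow 3).mul (hux.pow 4)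
  apply (hu64.mul huEk).mul_left_cancel
  generalize (1 + 8 * x ^ 2) ^ k = F at *
  generalize x ^ k = T at *
  have h64 : 64 * x ^ 2 * y ^ 2 = 1 := by
    linear_combination (8 * x * y - 1) * hxy
  linear_combination 128 * x ^ 4 * hG +
    ρ ^ 2 * (8 * x ^ 2) * (2 * (F * (1 + 8 * x ^ 2)) - 1 - 16 * (T ^ 2 * x ^ 2)) * h64 +
    ρ ^ 2 * he - (1 + 8 * x ^ 2) * ρ ^ 2 * hf

end Pool.Agent.Lib.MP_d4c4f0_nt
end

section

/-!
# B18c: the CM value of the Legendre type polynomial, case (ii)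

`x = cx i r`, `s = i r`, `c = tn ((p-1)/2) (ea x) (eb x)`; `K` algebraically closed (for the square roots `β1`, `β2`), `‖k‖ = 1` for
`0 < k < p`; in particular `‖2‖ = ‖3‖ = ‖5‖ = 1`; `‖k‖ ≤ 1` for integers, `‖k‖ = 1` if `p ∤ k` (Bezout or `k % p`).
* case (ii): `u^2 + 5v^2 = 2p`, `‖u + v s‖ < 1`; `u, v` odd. `mu = 2x (u + v s) = m P + n P'` with `m = (u+v)/2`, `n = (u-v)/2`,
  `m + n = u` odd; degree `3m^2 - 4mn + 3n^2 = (u^2+5v^2)/2 = p`. `‖u - v s‖ = 1` as above (`p ∤ u`), `‖2x‖ = 1`,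
  `(u+vs)(u-vs) = 2p`, so `‖mu‖ = ‖p‖` and `p / mu = (u - v s)/(4x) =: Q`, `y = cx (-i) (-r)`: `coeff_of_isogeny` with
  `A2 = ea y`, `B2 = eb y`; hypothesis `‖(ea x)^p - ea y‖ ≤ ‖p‖`; `ν^4 (1-8y) = (1-8x)^p`.
-/

set_option autoImplicit false

namespace Pool.Agent.Lib.MP_d4c4f0_nt

open PowerSeries

variable {K : Type*} [NormedField K] [IsUltrametricDist K] [CharZero K] [IsAlgClosed K]
  {i r : K} {p : ℕ}

private theorem b18c_int_le {K : Type*} [NormedField K] [IsUltrametricDist K] (u : ℤ) :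
    ‖(u : K)‖ ≤ 1 := by
  obtain ⟨n, h | h⟩ := u.eq_nat_or_neg
  · rw [h, Int.cast_natCast]
    exact norm_natCast_le n
  · rw [h, Int.cast_neg, Int.cast_natCast, norm_neg]
    exact norm_natCast_le n

private theorem b18c_int_unit {K : Type*} [NormedField K] [IsUltrametricDist K] {p : ℕ}
    (hp0 : 0 < p) (hk : ∀ k : ℕ, 0 < k → k < p → ‖(k : K)‖ = 1) (h1 : ‖(p : K)‖ < 1) {u : ℤ}
    (hu : ¬ (p : ℤ) ∣ u) : ‖(u : K)‖ = 1 := by
  have hpZ : (0 : ℤ) < p := by exact_mod_cast hp0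
  have e1 := Int.emod_add_mul_ediv u p
  have e2 : 0 ≤ u % p := Int.emod_nonneg _ hpZ.ne'
  have e3 : u % p < p := Int.emod_lt_of_pos _ hpZ
  have e4 : u % p ≠ 0 := fun h => hu (Int.dvd_of_emod_eq_zero h)
  obtain ⟨k, hk'⟩ := Int.eq_ofNat_of_zero_le e2
  have e5 : ‖((u % p : ℤ) : K)‖ = 1 := by
    rw [hk', Int.cast_natCast]
    exact hk k (by omega) (by omega)
  have e6 : ‖((p * (u / p) : ℤ) : K)‖ < 1 := by
    rw [Int.cast_mul, norm_mul, Int.cast_natCast]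
    calc ‖(p : K)‖ * ‖((u / p : ℤ) : K)‖ ≤ ‖(p : K)‖ * 1 :=
          mul_le_mul_of_nonneg_left (b18c_int_le _) (norm_nonneg _)
      _ < 1 := by rwa [mul_one]
  have e7 : (u : K) = ((u % p : ℤ) : K) + ((p * (u / p) : ℤ) : K) := by
    rw [← Int.cast_add, e1]
  rw [e7, IsUltrametricDist.norm_add_eq_max_of_norm_ne_norm (by rw [e5]; exact e6.ne'), e5,
    max_eq_left e6.le]

theorem case_ii (hp : p.Prime) (h5 : 5 < p) (hk : ∀ k : ℕ, 0 < k → k < p → ‖(k : K)‖ = 1)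
    (h1 : ‖(p : K)‖ < 1) (hi : i ^ 2 = -1) (hr : r ^ 2 = 5) {u v : ℤ}
    (huv : u ^ 2 + 5 * v ^ 2 = 2 * p) (hs : ‖(u : K) + v * (i * r)‖ < 1)
    (hA : ‖ea (cx i r) ^ p - ea (cx (-i) (-r))‖ ≤ ‖(p : K)‖) :
    ‖tn ((p - 1) / 2) (ea (cx i r)) (eb (cx i r)) ^ 2 -
        (((u : K) - v * (i * r)) / (4 * cx i r)) ^ 2‖ ≤ ‖(p : K)‖ ∧
      ‖tn ((p - 1) / 2) (ea (cx i r)) (eb (cx i r)) ^ 4 * (1 - 8 * cx (-i) (-r)) -
        (((u : K) - v * (i * r)) / (4 * cx i r)) ^ 4 * (1 - 8 * cx i r) ^ p‖ ≤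
        ‖(p : K)‖ ^ 2 := by
  have hp0 : 0 < p := hp.pos
  have hpK : (p : K) ≠ 0 := by exact_mod_cast hp0.ne'
  have hpn : 0 < ‖(p : K)‖ := norm_pos_iff.2 hpK
  have h2 : ‖(2 : K)‖ = 1 := by
    have h := hk 2 (by norm_num) (by omega)
    simpa using h
  have h20 : (2 : K) ≠ 0 := two_ne_zero
  have hi' : (-i) ^ 2 = -1 := by rw [neg_sq, hi]
  have hr' : (-r) ^ 2 = 5 := by rw [neg_sq, hr]
  obtain ⟨ux, ux8, uea, -⟩ := cx_units hp h5 hk hi hr
  obtain ⟨uy, uy8, uey, -⟩ := cx_units hp h5 hk hi' hr'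
  obtain ⟨-, -, -, nA1, nB1, -⟩ := cx_norm h2 hi hr
  obtain ⟨-, -, -, nA2, nB2, -⟩ := cx_norm h2 hi' hr'
  have hx0 : cx i r ≠ 0 := (cx_nz hi hr).1
  -- parity
  have hodd : p % 2 = 1 := by
    rcases hp.eq_two_or_odd with h | h
    · omega
    · exact h
  have huo : u % 2 = 1 ∧ v % 2 = 1 := by
    have hpo : (p : ℤ) % 2 = 1 := by omega
    rcases Int.emod_two_eq_zero_or_one u with hu | hu <;>
      rcases Int.emod_two_eq_zero_or_one v with hv | hv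
    · exfalso
      obtain ⟨a, ha⟩ := Int.dvd_of_emod_eq_zero hu
      obtain ⟨b, hb⟩ := Int.dvd_of_emod_eq_zero hv
      have e : (p : ℤ) = 2 * (a ^ 2 + 5 * b ^ 2) := by
        rw [ha, hb] at huv
        linarith
      omega
    · exfalso
      obtain ⟨a, ha⟩ := Int.dvd_of_emod_eq_zero hu
      obtain ⟨b, hb⟩ : ∃ b, v = 2 * b + 1 := ⟨v / 2, by omega⟩
      have e : 2 * (p : ℤ) = 2 * (2 * a ^ 2 + 10 * b ^ 2 + 10 * b + 2) + 1 := by
        rw [ha, hb] at huv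
        linarith
      omega
    · exfalso
      obtain ⟨a, ha⟩ := Int.dvd_of_emod_eq_zero hv
      obtain ⟨b, hb⟩ : ∃ b, u = 2 * b + 1 := ⟨u / 2, by omega⟩
      have e : 2 * (p : ℤ) = 2 * (10 * a ^ 2 + 2 * b ^ 2 + 2 * b) + 1 := by
        rw [ha, hb] at huv
        linarith
      omega
    · exact ⟨hu, hv⟩
  obtain ⟨m, n, hm, hn⟩ : ∃ m n : ℤ, m + n = u ∧ m - n = v :=
    ⟨(u + v) / 2, (u - v) / 2, by omega, by omega⟩
  have hmn : Odd (m + n) := by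
    rw [hm]
    exact Int.odd_iff.2 huo.1
  have hdeg : 3 * m ^ 2 - 4 * m * n + 3 * n ^ 2 = (p : ℤ) := by
    rw [← hm, ← hn] at huv
    linarith
  -- `p` does not divide `u`
  have hpp : Prime (p : ℤ) := Nat.prime_iff_prime_int.1 hp
  have hpu : ¬ (p : ℤ) ∣ u := by
    intro hu
    have e1 : (p : ℤ) ∣ 5 * v ^ 2 := by
      have e2 : 5 * v ^ 2 = 2 * (p : ℤ) - u * u := by linarith
      rw [e2]
      exact dvd_sub (dvd_mul_left _ _) (hu.mul_right _)
    have e3 : ¬ (p : ℤ) ∣ 5 := by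
      intro h
      have := Int.le_of_dvd (by norm_num) h
      omega
    have e4 : (p : ℤ) ∣ v := hpp.dvd_of_dvd_pow ((hpp.dvd_or_dvd e1).resolve_left e3)
    obtain ⟨a, ha⟩ := hu
    obtain ⟨b, hb⟩ := e4
    have e5 : (p : ℤ) * (p * (a ^ 2 + 5 * b ^ 2)) = p * 2 := by
      rw [ha, hb] at huv
      linarith
    have e6 : (p : ℤ) * (a ^ 2 + 5 * b ^ 2) = 2 := mul_left_cancel₀ hpp.ne_zero e5
    have e7 : (p : ℤ) ∣ 2 := ⟨_, e6.symm⟩
    have := Int.le_of_dvd (by norm_num) e7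
    omega
  have hun : ‖(u : K)‖ = 1 := b18c_int_unit hp0 hk h1 hpu
  -- the norms of `u + v s`, `u - v s`
  have hs2 : (i * r) ^ 2 = -5 := by rw [mul_pow, hi, hr]; norm_num
  have hprod : ((u : K) + v * (i * r)) * ((u : K) - v * (i * r)) = 2 * p := by
    have e1 : (u : K) ^ 2 + 5 * (v : K) ^ 2 = 2 * p := by exact_mod_cast huv
    linear_combination e1 - (v : K) ^ 2 * hs2
  have hminus : ‖(u : K) - v * (i * r)‖ = 1 := by
    have e1 : (u : K) - v * (i * r) = 2 * u - ((u : K) + v * (i * r)) := by ring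
    have e2 : ‖2 * (u : K)‖ = 1 := by rw [norm_mul, h2, hun, one_mul]
    rw [e1, sub_eq_add_neg, IsUltrametricDist.norm_add_eq_max_of_norm_ne_norm (by
      rw [e2, norm_neg]; exact hs.ne'), e2, norm_neg, max_eq_left hs.le]
  have hplus : ‖(u : K) + v * (i * r)‖ = ‖(p : K)‖ := by
    have e1 := congrArg norm hprod
    rw [norm_mul, norm_mul, hminus, h2, mul_one, one_mul] at e1
    exact e1
  have hplus0 : (u : K) + v * (i * r) ≠ 0 := by
    intro h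
    rw [h, norm_zero] at hplus
    exact hpn.ne hplus
  -- the multiplier
  obtain ⟨mu, hmu⟩ : ∃ mu : K, mu =
      (m : K) * (2 * cx i r * (1 + i * r)) + (n : K) * (2 * cx i r * (1 - i * r)) := ⟨_, rfl⟩
  have hmu' : mu = 2 * cx i r * ((u : K) + v * (i * r)) := by
    have e1 : (u : K) = m + n := by rw [← hm]; push_cast; ring
    have e2 : (v : K) = m - n := by rw [← hn]; push_cast; ring
    rw [hmu, e1, e2]
    ring
  have hmun : ‖mu‖ = ‖(p : K)‖ := by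
    rw [hmu', norm_mul, norm_mul, h2, ux, hplus, one_mul, one_mul]
  have hQ : (p : K) / mu = ((u : K) - v * (i * r)) / (4 * cx i r) := by
    rw [hmu', div_eq_div_iff (mul_ne_zero (mul_ne_zero h20 hx0) hplus0)
      (mul_ne_zero (by norm_num) hx0)]
    linear_combination (-2 * cx i r) * hprod
  obtain ⟨k, hd, hk2⟩ := deg_hom hi hr (om_cx i r) hmn
  rw [hdeg] at hk2
  have hkp : k = p := by exact_mod_cast hk2
  rw [hkp, ← hmu] at hd
  have hint := int_hom h2 hi hr m n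
  rw [← hmu] at hint
  have q1 := ea_sq (cx i r)
  have q2 := ea_sq (cx (-i) (-r))
  obtain ⟨β1, hβ1⟩ := IsAlgClosed.exists_pow_nat_eq (1 - 8 * cx i r) (n := 2) (by norm_num)
  obtain ⟨β2, hβ2⟩ := IsAlgClosed.exists_pow_nat_eq (1 - 8 * cx (-i) (-r)) (n := 2) (by norm_num)
  rw [← q2] at hd hint
  obtain ⟨ν, c1, c2, c3, c4⟩ := coeff_of_isogeny hp (by omega) hk h1 nA1 nB1 nA2 nB2
    (by rw [q1]; exact ux8) (by rw [q2]; exact uy8) (by rw [q1]; exact hβ1)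
    (by rw [q2]; exact hβ2) hmun hd hint
  rw [q1, q2] at c2
  rw [hQ] at c1
  obtain ⟨c, hc⟩ : ∃ c : K, c = tn ((p - 1) / 2) (ea (cx i r)) (eb (cx i r)) := ⟨_, rfl⟩
  obtain ⟨Q, hQd⟩ : ∃ Q : K, Q = ((u : K) - v * (i * r)) / (4 * cx i r) := ⟨_, rfl⟩
  rw [← hc, ← hQd] at c1 ⊢
  have h4 : ‖(4 : K)‖ = 1 := by
    have e : (4 : K) = 2 * 2 := by norm_num
    rw [e, norm_mul, h2, one_mul]
  have hQn : ‖Q‖ = 1 := by
    rw [hQd, norm_div, norm_mul, hminus, h4, ux, one_mul, div_one]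
  have hνn : ‖Q * ν‖ = 1 := by rw [norm_mul, hQn, c4, one_mul]
  have hp2 : ‖(p : K)‖ ^ 2 ≤ ‖(p : K)‖ := by
    calc ‖(p : K)‖ ^ 2 = ‖(p : K)‖ * ‖(p : K)‖ := sq _
      _ ≤ ‖(p : K)‖ * 1 := mul_le_mul_of_nonneg_left h1.le (norm_nonneg _)
      _ = _ := mul_one _
  have hcn : ‖c‖ ≤ 1 := by
    have e : c = (c - Q * ν) + Q * ν := by ring
    rw [e]
    refine (IsUltrametricDist.norm_add_le_max _ _).trans (max_le ?_ hνn.le)
    exact c1.trans (hp2.trans h1.le)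
  have hcp : ‖c + Q * ν‖ ≤ 1 :=
    (IsUltrametricDist.norm_add_le_max _ _).trans (max_le hcn hνn.le)
  have hcp2 : ‖c ^ 2 + (Q * ν) ^ 2‖ ≤ 1 := by
    refine (IsUltrametricDist.norm_add_le_max _ _).trans (max_le ?_ ?_)
    · rw [norm_pow]
      exact pow_le_one₀ (norm_nonneg _) hcn
    · rw [norm_pow, hνn, one_pow]
  have hν2 : ‖ν ^ 2 - 1‖ ≤ ‖(p : K)‖ := by
    have e1 : ea (cx (-i) (-r)) * (ν ^ 2 - 1) =
        (ea (cx (-i) (-r)) * ν ^ 2 - ea (cx i r) ^ p) +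
          (ea (cx i r) ^ p - ea (cx (-i) (-r))) := by ring
    have e2 : ‖ea (cx (-i) (-r)) * (ν ^ 2 - 1)‖ ≤ ‖(p : K)‖ := by
      rw [e1]
      exact (IsUltrametricDist.norm_add_le_max _ _).trans (max_le c3 hA)
    rwa [norm_mul, uey, one_mul] at e2
  refine ⟨?_, ?_⟩
  · have e1 : c ^ 2 - Q ^ 2 = (c - Q * ν) * (c + Q * ν) + Q ^ 2 * (ν ^ 2 - 1) := by ring
    rw [e1]
    refine (IsUltrametricDist.norm_add_le_max _ _).trans (max_le ?_ ?_)
    · rw [norm_mul]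
      calc ‖c - Q * ν‖ * ‖c + Q * ν‖ ≤ ‖(p : K)‖ ^ 2 * 1 :=
            mul_le_mul c1 hcp (norm_nonneg _) (by positivity)
        _ ≤ _ := by rw [mul_one]; exact hp2
    · rw [norm_mul, norm_pow, hQn, one_pow, one_mul]
      exact hν2
  · have e1 : c ^ 4 * (1 - 8 * cx (-i) (-r)) - Q ^ 4 * (1 - 8 * cx i r) ^ p =
        (1 - 8 * cx (-i) (-r)) * ((c - Q * ν) * ((c + Q * ν) * (c ^ 2 + (Q * ν) ^ 2))) := by
      rw [← c2]
      ring
    rw [e1, norm_mul, uy8, one_mul, norm_mul, norm_mul]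
    calc ‖c - Q * ν‖ * (‖c + Q * ν‖ * ‖c ^ 2 + (Q * ν) ^ 2‖) ≤ ‖(p : K)‖ ^ 2 * (1 * 1) := by
          refine mul_le_mul c1 (mul_le_mul hcp hcp2 (norm_nonneg _) zero_le_one) ?_ (by positivity)
          exact mul_nonneg (norm_nonneg _) (norm_nonneg _)
      _ = _ := by ring

end Pool.Agent.Lib.MP_d4c4f0_nt
end

section

/-!
# D04: case (ii) in `PadicAlgCl p`

As D03: `2p = u^2 + 5v^2 = (u+vs)(u-vs)`; WLOG `‖u+vs‖ < 1` (replace `v` by `-v`), `ρ = u - vs` of norm `1` (sum `2u`, `p ∤ u`).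
`p % 20 = 3, 7`: `i^p = -i`, `r^p = -r` modulo `p`, so `(cx i' r')^p ≡ cx (-i') (-r')` (`frob_cxr`), `hA` by `frob_ea`. `case_ii` for the
four sign choices with `v' = ±v`, `v' i' r' = v i r`. `1/(4x') = -2y'` (`cx_w2`), so `(ρ/(4x'))^2 = (2ρy')^2`. Hypotheses of
`final_ii` in `S = Rq K p 2`: `hx`: modulo `p`, `x^(2p+2) = (x^p x)^2 = (y x)^2` and `64 (xy)^2 = 1`; `hE`: modulo `p`,
`E^p = 1 + 8 y^2`, `8x^2 (1 + 8y^2) = 8x^2 + 1 = E` (`64 x^2y^2 = 1`), divide by the unit `E` (`cx_units`).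
So `2Z = ρ^2` in `S`, and `ρ^2 + (u+vs)^2 = 2u^2 - 10 v^2 = 4u^2 - 4p`, `‖u+vs‖ = ‖p‖`; divide by `2`.
-/

set_option autoImplicit false

open Finset

namespace Pool.Agent.Lib.MP_d4c4f0_nt

section Gen

variable {K : Type*} [NormedField K] [IsUltrametricDist K] [CharZero K] [IsAlgClosed K] {p : ℕ}

/-- The hypotheses of `final_ii` for one pair `(i, r)`. -/
private theorem hyp_ii (hp : p.Prime) (h5 : 5 < p)
    (hk : ∀ k : ℕ, 0 < k → k < p → ‖(k : K)‖ = 1) (h1 : ‖(p : K)‖ < 1)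
    (h4 : p % 4 = 3) (h5' : p % 5 = 2 ∨ p % 5 = 3)
    {q i r : OK K} (hq : 4 * q = 1) (hi : i ^ 2 = -1) (hr : r ^ 2 = 5) {u v : ℤ}
    (huv : u ^ 2 + 5 * v ^ 2 = 2 * p) (hs : ‖(u : K) + v * ((i : K) * (r : K))‖ < 1) :
    tn ((p - 1) / 2) (ea (cxr (rd K p 2 q) (rd K p 2 i) (rd K p 2 r)))
        (eb (cxr (rd K p 2 q) (rd K p 2 i) (rd K p 2 r))) ^ 4 *
        (1 - 8 * cxr (rd K p 2 q) (-(rd K p 2 i)) (-(rd K p 2 r))) =
      (2 * rd K p 2 ((u : OK K) - v * (i * r)) *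
        cxr (rd K p 2 q) (-(rd K p 2 i)) (-(rd K p 2 r))) ^ 4 *
        (1 - 8 * cxr (rd K p 2 q) (rd K p 2 i) (rd K p 2 r)) ^ p ∧
    ∃ z : Rq K p 2, tn ((p - 1) / 2) (ea (cxr (rd K p 2 q) (rd K p 2 i) (rd K p 2 r)))
        (eb (cxr (rd K p 2 q) (rd K p 2 i) (rd K p 2 r))) ^ 2 -
      (2 * rd K p 2 ((u : OK K) - v * (i * r)) *
        cxr (rd K p 2 q) (-(rd K p 2 i)) (-(rd K p 2 r))) ^ 2 = (p : Rq K p 2) * z := by
  have hi2 : (-i) ^ 2 = (-1 : OK K) := by rw [neg_sq]; exact hi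
  have hr2 : (-r) ^ 2 = (5 : OK K) := by rw [neg_sq]; exact hr
  have hx := coe_cxr (K := K) (i := i) (r := r) hq
  have hy := coe_cxr (K := K) (i := -i) (r := -r) hq
  have hni : ((-i : OK K) : K) = -(i : K) := by push_cast; rfl
  have hnr : ((-r : OK K) : K) = -(r : K) := by push_cast; rfl
  rw [hni, hnr] at hy
  have hA : ‖ea (cx (i : K) (r : K)) ^ p - ea (cx (-(i : K)) (-(r : K)))‖ ≤ ‖(p : K)‖ := by
    have h : rd K p 1 (ea (cxr q i r)) ^ p = rd K p 1 (ea (cxr q (-i) (-r))) := by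
      rw [map_ea, frob_ea hp rd_p_one, frob_cx_ii hp h5 h4 h5' hq hi hr, ← map_ea]
    have := frob_norm hp.pos h
    rwa [coe_ea, coe_ea, hx, hy] at this
  obtain ⟨c1, c2⟩ := case_ii hp h5 hk h1 (coe_sq_neg_one hi) (coe_sq_five hr) huv hs hA
  have hxy := cx_w2 (coe_sq_neg_one hi) (coe_sq_five hr)
  have hx0 : cx (i : K) (r : K) ≠ 0 := by
    intro h0
    rw [h0] at hxy
    norm_num at hxy
  have hdiv : ((u : K) - v * ((i : K) * (r : K))) / (4 * cx (i : K) (r : K)) =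
      -(2 * ((u : K) - v * ((i : K) * (r : K))) * cx (-(i : K)) (-(r : K))) := by
    field_simp
    linear_combination ((u : K) - v * ((i : K) * (r : K))) * hxy
  rw [hdiv] at c1 c2
  rw [neg_sq] at c1
  rw [show ∀ a : K, (-a) ^ 4 = a ^ 4 by intro a; ring] at c2
  have e1 : ((tn ((p - 1) / 2) (ea (cxr q i r)) (eb (cxr q i r)) : OK K) : K) =
      tn ((p - 1) / 2) (ea (cx (i : K) (r : K))) (eb (cx (i : K) (r : K))) := by
    rw [coe_tn, coe_ea, coe_eb, hx]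
  have e2 : rd K p 2 (tn ((p - 1) / 2) (ea (cxr q i r)) (eb (cxr q i r))) =
      tn ((p - 1) / 2) (ea (cxr (rd K p 2 q) (rd K p 2 i) (rd K p 2 r)))
        (eb (cxr (rd K p 2 q) (rd K p 2 i) (rd K p 2 r))) := by
    rw [map_tn, map_ea, map_eb, map_cxr]
  have e5 : rd K p 2 (cxr q (-i) (-r)) =
      cxr (rd K p 2 q) (-(rd K p 2 i)) (-(rd K p 2 r)) := by
    rw [map_cxr, map_neg, map_neg]
  have e4 : rd K p 2 (1 - 8 * cxr q i r) =
      1 - 8 * cxr (rd K p 2 q) (rd K p 2 i) (rd K p 2 r) := by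
    rw [← map_cxr]; simp [map_ofNat]
  have e6 : rd K p 2 (1 - 8 * cxr q (-i) (-r)) =
      1 - 8 * cxr (rd K p 2 q) (-(rd K p 2 i)) (-(rd K p 2 r)) := by
    rw [← e5]; simp [map_ofNat]
  have e7 : rd K p 2 (2 * ((u : OK K) - v * (i * r)) * cxr q (-i) (-r)) =
      2 * rd K p 2 ((u : OK K) - v * (i * r)) *
        cxr (rd K p 2 q) (-(rd K p 2 i)) (-(rd K p 2 r)) := by
    rw [← e5, map_mul, map_mul, map_ofNat]
  have e8 : ((2 * ((u : OK K) - v * (i * r)) * cxr q (-i) (-r) : OK K) : K) =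
      2 * ((u : K) - v * ((i : K) * (r : K))) * cx (-(i : K)) (-(r : K)) := by
    push_cast
    rw [hy, coe_OK_ofNat]
  constructor
  · rw [← e2, ← e4, ← e6, ← e7, ← map_pow, ← map_pow, ← map_pow, ← map_mul, ← map_mul,
      rd_eq_iff hp.pos]
    rw [Subring.coe_mul, Subring.coe_mul, Subring.coe_pow, Subring.coe_pow, Subring.coe_pow, e1, e8]
    push_cast
    rw [hx, hy, coe_OK_ofNat]
    exact c2
  · rw [← e2, ← e7, ← map_pow, ← map_pow]
    apply exists_mul_rd hp.pos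
    rw [Subring.coe_pow, Subring.coe_pow, e1, e8]
    exact c1

private theorem gen_ii' (hp : p.Prime) (h5 : 5 < p)
    (hk : ∀ k : ℕ, 0 < k → k < p → ‖(k : K)‖ = 1) (h1 : ‖(p : K)‖ < 1)
    (h4 : p % 4 = 3) (h5' : p % 5 = 2 ∨ p % 5 = 3)
    {q i r : OK K} (hq : 4 * q = 1) (hi : i ^ 2 = -1) (hr : r ^ 2 = 5) {u v : ℤ}
    (huv : u ^ 2 + 5 * v ^ 2 = 2 * p) (hs : ‖(u : K) + v * ((i : K) * (r : K))‖ < 1) :
    ‖(∑ j ∈ range p, (vr j : K) / 16 ^ j) - (2 * (u : K) ^ 2 - 2 * p)‖ ≤ ‖(p : K)‖ ^ 2 := by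
  have h2 : ‖(2 : K)‖ = 1 := by have := hk 2 (by norm_num) (by omega); exact_mod_cast this
  have hq' : 4 * rd K p 2 q = 1 := by
    have := congrArg (rd K p 2) hq
    simpa [map_ofNat] using this
  have hq1 : 4 * rd K p 1 q = 1 := by
    have := congrArg (rd K p 1) hq
    simpa [map_ofNat] using this
  have hi' : rd K p 2 i ^ 2 = -1 := by rw [← map_pow, hi]; simp
  have hr' : rd K p 2 r ^ 2 = 5 := by rw [← map_pow, hr]; simp [map_ofNat]
  have hi1' : rd K p 1 i ^ 2 = -1 := by rw [← map_pow, hi]; simp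
  have hr1' : rd K p 1 r ^ 2 = 5 := by rw [← map_pow, hr]; simp [map_ofNat]
  have hω : 16 * (rd K p 2 q ^ 2) = 1 := by linear_combination (4 * rd K p 2 q + 1) * hq'
  have hs2 : ((i : K) * (r : K)) ^ 2 = -5 := by
    rw [mul_pow, coe_sq_neg_one hi, coe_sq_five hr]; norm_num
  obtain ⟨hP1, hQ1⟩ := norm_factors (c := 2) hp h5 hk h1 hs2 two_pos (by omega)
    (by rw [huv]; push_cast; ring) hs
  have ePc : (((u : OK K) - v * (i * r) : OK K) : K) = (u : K) - v * ((i : K) * (r : K)) := by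
    push_cast; rfl
  have hPu : IsUnit ((u : OK K) - v * (i * r)) := isUnit_OK (by rw [ePc]; exact hP1)
  have hP : IsUnit (rd K p 2 ((u : OK K) - v * (i * r))) := hPu.map _
  have hu := cx_units hp h5 hk (coe_sq_neg_one hi) (coe_sq_five hr)
  have hx := coe_cxr (K := K) (i := i) (r := r) hq
  have hfr := frob_cx_ii hp h5 h4 h5' hq hi hr
  have hS := quot_pow_zero (K := K) (p := p) (n := 2)
  have hpp : p = (p - 1) + 1 := by have := hp.pos; omega
  have hxy1 : 8 * rd K p 1 (cxr q i r) * rd K p 1 (cxr q (-i) (-r)) = -1 := by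
    rw [map_cxr, map_cxr, map_neg, map_neg]
    exact cxr_w2 hq1 hi1' hr1'
  have main := final_ii (S := Rq K p 2) (q := rd K p 2 q) (i := rd K p 2 i) (r := rd K p 2 r)
    (ρ := rd K p 2 ((u : OK K) - v * (i * r))) (ω := rd K p 2 q ^ 2) hp h5 hS hq' hi' hr' hω hP
    (by
      intro i' r' hi1 hr1
      have nh : ∀ x : OK K, rd K p 2 (-x) = - rd K p 2 x := fun x => map_neg _ x
      rcases hi1 with rfl | rfl <;> rcases hr1 with rfl | rfl
      · exact hyp_ii hp h5 hk h1 h4 h5' hq hi hr huv hs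
      · have hr2 : (-r) ^ 2 = (5 : OK K) := by rw [neg_sq]; exact hr
        have := hyp_ii (u := u) (v := -v) hp h5 hk h1 h4 h5' hq hi hr2
          (by rw [neg_sq]; exact huv)
          (by
            rw [show (u : K) + ((-v : ℤ) : K) * ((i : K) * ((-r : OK K) : K)) =
              (u : K) + v * ((i : K) * (r : K)) by push_cast; ring]
            exact hs)
        rw [nh r, show (u : OK K) - ((-v : ℤ) : OK K) * (i * -r) = (u : OK K) - v * (i * r) by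
          push_cast; ring] at this
        exact this
      · have hi2 : (-i) ^ 2 = (-1 : OK K) := by rw [neg_sq]; exact hi
        have := hyp_ii (u := u) (v := -v) hp h5 hk h1 h4 h5' hq hi2 hr
          (by rw [neg_sq]; exact huv)
          (by
            rw [show (u : K) + ((-v : ℤ) : K) * (((-i : OK K) : K) * (r : K)) =
              (u : K) + v * ((i : K) * (r : K)) by push_cast; ring]
            exact hs)
        rw [nh i, show (u : OK K) - ((-v : ℤ) : OK K) * (-i * r) = (u : OK K) - v * (i * r) by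
          push_cast; ring] at this
        exact this
      · have hi2 : (-i) ^ 2 = (-1 : OK K) := by rw [neg_sq]; exact hi
        have hr2 : (-r) ^ 2 = (5 : OK K) := by rw [neg_sq]; exact hr
        have := hyp_ii (u := u) (v := v) hp h5 hk h1 h4 h5' hq hi2 hr2 huv
          (by
            rw [show (u : K) + (v : K) * (((-i : OK K) : K) * ((-r : OK K) : K)) =
              (u : K) + v * ((i : K) * (r : K)) by push_cast; ring]
            exact hs)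
        rw [nh i, nh r, show (u : OK K) - (v : OK K) * (-i * -r) = (u : OK K) - v * (i * r) by
          ring] at this
        exact this)
    (by
      have e1 : rd K p 2 (64 * cxr q i r ^ (2 * p + 2)) =
          64 * cxr (rd K p 2 q) (rd K p 2 i) (rd K p 2 r) ^ (2 * p + 2) := by
        rw [← map_cxr]; simp [map_ofNat]
      rw [← e1, ← map_one (rd K p 2)]
      apply exists_mul_rd hp.pos
      have e2 : rd K p 1 (64 * cxr q i r ^ (2 * p + 2)) = rd K p 1 1 := by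
        have e3 : rd K p 1 (64 * cxr q i r ^ (2 * p + 2)) =
            64 * (rd K p 1 (cxr q i r) ^ p * rd K p 1 (cxr q i r)) ^ 2 := by
          rw [map_mul, map_pow, map_ofNat]; ring
        rw [e3, hfr, map_one]
        linear_combination (8 * rd K p 1 (cxr q i r) * rd K p 1 (cxr q (-i) (-r)) - 1) * hxy1
      have := (rd_eq_iff hp.pos _ _).1 e2
      rwa [pow_one] at this)
    (by
      have e8 : rd K p 2 (8 * cxr q i r ^ 2 * (1 + 8 * cxr q i r ^ 2) ^ (p - 1)) =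
          8 * cxr (rd K p 2 q) (rd K p 2 i) (rd K p 2 r) ^ 2 *
            (1 + 8 * cxr (rd K p 2 q) (rd K p 2 i) (rd K p 2 r) ^ 2) ^ (p - 1) := by
        rw [← map_cxr]; simp [map_ofNat]
      rw [← e8, ← map_one (rd K p 2)]
      apply exists_mul_rd hp.pos
      have hfE : rd K p 1 (8 * cxr q i r ^ 2 * (1 + 8 * cxr q i r ^ 2) ^ p) =
          rd K p 1 (1 + 8 * cxr q i r ^ 2) := by
        have e9 : rd K p 1 (8 * cxr q i r ^ 2 * (1 + 8 * cxr q i r ^ 2) ^ p) =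
            8 * rd K p 1 (cxr q i r) ^ 2 * (1 + 8 * rd K p 1 (cxr q i r) ^ 2) ^ p := by
          simp [map_ofNat]
        have e10 : rd K p 1 (1 + 8 * cxr q i r ^ 2) = 1 + 8 * rd K p 1 (cxr q i r) ^ 2 := by
          simp [map_ofNat]
        rw [e9, e10, frob_E hp rd_p_one, hfr]
        linear_combination (8 * rd K p 1 (cxr q i r) * rd K p 1 (cxr q (-i) (-r)) - 1) * hxy1
      have h := (rd_eq_iff hp.pos _ _).1 hfE
      rw [pow_one] at h
      have e10 : ((1 + 8 * cxr q i r ^ 2 : OK K) : K) = 1 + 8 * cx (i : K) (r : K) ^ 2 := by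
        push_cast
        rw [hx, coe_OK_ofNat]
      have e11 : ((8 * cxr q i r ^ 2 * (1 + 8 * cxr q i r ^ 2) ^ p : OK K) : K) -
          ((1 + 8 * cxr q i r ^ 2 : OK K) : K) = (1 + 8 * cx (i : K) (r : K) ^ 2) *
          (((8 * cxr q i r ^ 2 * (1 + 8 * cxr q i r ^ 2) ^ (p - 1) : OK K) : K) -
            ((1 : OK K) : K)) := by
        have : (1 + 8 * cxr q i r ^ 2 : OK K) ^ p =
            (1 + 8 * cxr q i r ^ 2) * (1 + 8 * cxr q i r ^ 2) ^ (p - 1) := by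
          conv_lhs => rw [hpp]
          rw [pow_succ]; ring
        rw [this]
        push_cast
        rw [hx, coe_OK_ofNat]
        ring
      rw [e11, norm_mul, hu.2.2.2, one_mul] at h
      exact h)
  obtain ⟨s1, s2⟩ := sum_rd (p := p) hq p
  have h22 : (2 : Rq K p 2) = rd K p 2 2 := (map_ofNat _ 2).symm
  rw [← s1, ← map_pow, h22, ← map_mul, rd_eq_iff hp.pos, Subring.coe_mul, s2,
    coe_OK_ofNat] at main
  push_cast at main
  have hQ2 : ‖((u : K) + v * ((i : K) * (r : K))) ^ 2‖ = ‖(p : K)‖ ^ 2 := by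
    rw [norm_pow, hQ1]
  have e12 : 2 * ((∑ j ∈ range p, (vr j : K) / 16 ^ j) - (2 * (u : K) ^ 2 - 2 * p)) =
      (2 * (∑ j ∈ range p, (vr j : K) / 16 ^ j) - ((u : K) - v * ((i : K) * (r : K))) ^ 2) +
        -(((u : K) + v * ((i : K) * (r : K))) ^ 2) := by
    have h := congrArg (fun z : ℤ => (z : K)) huv
    push_cast at h
    linear_combination -2 * h + 2 * (v : K) ^ 2 * hs2
  have e13 : ‖(∑ j ∈ range p, (vr j : K) / 16 ^ j) - (2 * (u : K) ^ 2 - 2 * p)‖ =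
      ‖2 * ((∑ j ∈ range p, (vr j : K) / 16 ^ j) - (2 * (u : K) ^ 2 - 2 * p))‖ := by
    rw [norm_mul, h2, one_mul]
  rw [e13, e12]
  refine (IsUltrametricDist.norm_add_le_max _ _).trans (max_le main ?_)
  rw [norm_neg, hQ2]

private theorem gen_ii (hp : p.Prime) (h5 : 5 < p)
    (hk : ∀ k : ℕ, 0 < k → k < p → ‖(k : K)‖ = 1) (h1 : ‖(p : K)‖ < 1)
    (h4 : p % 4 = 3) (h5' : p % 5 = 2 ∨ p % 5 = 3) {u v : ℤ}
    (huv : u ^ 2 + 5 * v ^ 2 = 2 * p) :
    ‖(∑ j ∈ range p, (vr j : K) / 16 ^ j) - (2 * (u : K) ^ 2 - 2 * p)‖ ≤ ‖(p : K)‖ ^ 2 := by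
  have h2 : ‖(2 : K)‖ = 1 := by have := hk 2 (by norm_num) (by omega); exact_mod_cast this
  have h55 : ‖(5 : K)‖ = 1 := by have := hk 5 (by norm_num) (by omega); exact_mod_cast this
  obtain ⟨q, hq⟩ := exists_four h2
  obtain ⟨i, r, hi, hr⟩ := exists_ir (K := K) h55
  by_cases hs : ‖(u : K) + v * ((i : K) * (r : K))‖ < 1
  · exact gen_ii' hp h5 hk h1 h4 h5' hq hi hr huv hs
  · have hs2 : ((i : K) * (r : K)) ^ 2 = -5 := by
      rw [mul_pow, coe_sq_neg_one hi, coe_sq_five hr]; norm_num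
    have hprod : ((u : K) + v * ((i : K) * (r : K))) * ((u : K) - v * ((i : K) * (r : K))) =
        2 * (p : K) := by
      have h := congrArg (fun z : ℤ => (z : K)) huv
      push_cast at h
      linear_combination h - (v : K) ^ 2 * hs2
    have hs' : ‖(u : K) + ((-v : ℤ) : K) * ((i : K) * (r : K))‖ < 1 := by
      have e : (u : K) + ((-v : ℤ) : K) * ((i : K) * (r : K)) =
          (u : K) - v * ((i : K) * (r : K)) := by push_cast; ring
      rw [e]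
      by_contra hcon
      have := congrArg norm hprod
      rw [norm_mul, norm_mul, h2, one_mul] at this
      rw [← this] at h1
      have := one_le_mul_of_one_le_of_one_le (not_lt.1 hs) (not_lt.1 hcon)
      linarith
    exact gen_ii' hp h5 hk h1 h4 h5' hq hi hr (v := -v) (by rw [neg_sq]; exact huv) hs'

end Gen

theorem K_case_ii {p : ℕ} [hp : Fact p.Prime] (h5 : 5 < p) (hmod : p % 20 = 3 ∨ p % 20 = 7)
    {u v : ℤ} (huv : 2 * (p : ℤ) = u ^ 2 + 5 * v ^ 2) :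
    ‖(∑ j ∈ range p, (vr j : PadicAlgCl p) / 16 ^ j) - (2 * (u : PadicAlgCl p) ^ 2 - 2 * p)‖ ≤
      ‖(p : PadicAlgCl p)‖ ^ 2 :=
  gen_ii hp.out h5 (fun k h0 hk => norm_small h0 hk) norm_p_lt (by omega) (by omega) huv.symm

end Pool.Agent.Lib.MP_d4c4f0_nt
end
end

section

section

/-!
# C06: the inert case modulo `p`

* `inert_mod` (ring `S` with `p = 0`, `s = ir`, `s^p = -s`): `x = cxr q i r`, `x3 = cxr q i (-r)`, `y = cxr q (-i) (-r)`,
  `n = (p-1)/2`, `α = FA p x`. By `A3_mod` and `FH_eq`, `cxr_w3`: `(1-8x)^(p-1) FA p x3 = (-3)^n α`. By `FB_mod` (`w = -xy`) and `FH_eq`: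
  `x^(p-1) FA p y = α`. By `tn_mod`: `FA p x3 = tn n (ea x3) (eb x3)`, `FA p y = tn n (ea y) (eb y)`. `cxr_scale`, `tn_scale`:
  `3^n FA p x3 = (2i-r)^n FA p y`. So
  `3^n (-3)^n α x^(p-1) = 3^n (1-8x)^(p-1) x^(p-1) FA p x3 = (2i-r)^n (1-8x)^(2n) x^(p-1) FA p y
   = (-36 x^2 (1+s)^2)^n α = (-36)^n x^(p-1) (1+s)^(p-1) α`. Cancel `x^(p-1)` (`8xy = -1`), `(-9)^n` :
  `α = 4^n (1+s)^(p-1) α` and `4^n = 2^(p-1) = 1` (Fermat in `ZMod p`). Multiply by `1+s`: `(1+s) α = (1+s)^p α = (1 + s^p) α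
  = (1-s) α` (`add_pow_char` in characteristic `p`: if `S` is trivial nothing to prove; or use `exists_add_pow_prime_eq`),
  so `2 s α = 0`, and `s^2 = -5`: `10 α = 0`, `α = 0` (`p > 5`).
-/

set_option autoImplicit false

open Finset

namespace Pool.Agent.Lib.MP_d4c4f0_nt

variable {S : Type*} [CommRing S] {q i r : S} {p : ℕ}

theorem inert_mod (hp : p.Prime) (h5 : 5 < p) (hS : (p : S) = 0) (hq : 4 * q = 1)
    (hi : i ^ 2 = -1) (hr : r ^ 2 = 5) (hs : (i * r) ^ p = -(i * r)) : FA p (cxr q i r) = 0 := by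
  haveI : Fact p.Prime := ⟨hp⟩
  obtain ⟨f⟩ := exists_zmod_hom (S := S) hS
  -- units
  have hunit : ∀ k : ℕ, ¬ p ∣ k → IsUnit (k : S) := by
    intro k hk
    have h0 : (k : ZMod p) ≠ 0 := by
      rwa [Ne, ZMod.natCast_eq_zero_iff]
    have h1 := (IsUnit.mk0 _ h0).map f
    rwa [map_natCast] at h1
  have hp2 : ¬ p ∣ 2 := fun h => by have := Nat.le_of_dvd (by norm_num) h; omega
  have hp3 : ¬ p ∣ 3 := fun h => by have := Nat.le_of_dvd (by norm_num) h; omega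
  have hp5 : ¬ p ∣ 5 := fun h => by have := Nat.le_of_dvd (by norm_num) h; omega
  have hu9 : IsUnit (9 : S) := by
    have h := hunit (3 * 3) (fun h => by rcases hp.dvd_mul.mp h with h | h <;> exact hp3 h)
    have h' : ((3 * 3 : ℕ) : S) = 9 := by push_cast; norm_num
    rwa [h'] at h
  have hu10 : IsUnit (10 : S) := by
    have h := hunit (2 * 5) (fun h => by
      rcases hp.dvd_mul.mp h with h | h
      · exact hp2 h
      · exact hp5 h)
    have h' : ((2 * 5 : ℕ) : S) = 10 := by push_cast; norm_num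
    rwa [h'] at h
  have hfer : (2 : S) ^ (p - 1) = 1 := by
    have h0 : ((2 : ℕ) : ZMod p) ≠ 0 := by
      rwa [Ne, ZMod.natCast_eq_zero_iff]
    have h1 := congrArg f (ZMod.pow_card_sub_one_eq_one h0)
    rw [map_pow, map_natCast, map_one] at h1
    exact_mod_cast h1
  obtain ⟨n, hn⟩ : ∃ n, p = 2 * n + 1 := hp.odd_of_ne_two (by omega)
  have hn1 : (p - 1) / 2 = n := by omega
  have hn2 : p - 1 = 2 * n := by omega
  have h3p : 3 < p := by omega
  -- the three relations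
  have e1 : (1 - 8 * cxr q i r) ^ (p - 1) * FA p (cxr q i (-r)) =
      (-3) ^ ((p - 1) / 2) * FA p (cxr q i r) := by
    rw [← A3_mod hp h3p hS, FH_eq (cxr_w3 hq hi hr)]
  have e2 : cxr q i r ^ (p - 1) * FA p (cxr q (-i) (-r)) = FA p (cxr q i r) := by
    have hw : 8 * (-(cxr q i r * cxr q (-i) (-r))) = (1 : S) := by
      linear_combination -cxr_w2 hq hi hr
    have h := FB_mod hp h3p hS hw (cxr q i r)
    rw [neg_neg, FH_eq (y := cxr q (-i) (-r)) rfl] at h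
    exact h
  obtain ⟨s1, s2, s3⟩ := cxr_scale hq hi hr
  have e3 : 3 ^ n * FA p (cxr q i (-r)) = (2 * i - r) ^ n * FA p (cxr q (-i) (-r)) := by
    rw [← tn_mod hp h3p hS, ← tn_mod hp h3p hS, hn1, ← tn_scale, ← tn_scale, s1, ← s2]
    norm_num
  rw [hn1, hn2] at e1
  rw [hn2] at e2
  rw [hn2] at hfer
  have hxy : cxr q i r * (-8 * cxr q (-i) (-r)) = 1 := by
    linear_combination -cxr_w2 hq hi hr
  have hse : (i * r) ^ 2 = -5 := by
    rw [mul_pow, hi, hr]; norm_num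
  generalize cxr q i r = x at *
  generalize cxr q i (-r) = x3 at *
  generalize cxr q (-i) (-r) = y at *
  generalize i * r = s at *
  generalize hα : FA p x = α at *
  have e4 : (9 : S) ^ n * x ^ (2 * n) * α = 9 ^ n * x ^ (2 * n) * ((1 + s) ^ (2 * n) * α) := by
    have h1 : (-1 : S) ^ n * (9 ^ n * x ^ (2 * n) * α) =
        (-1) ^ n * (9 ^ n * x ^ (2 * n) * ((2 : S) ^ (2 * n) * (1 + s) ^ (2 * n) * α)) := by
      calc (-1 : S) ^ n * (9 ^ n * x ^ (2 * n) * α)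
          = 3 ^ n * x ^ (2 * n) * ((-3) ^ n * α) := by
            have : (9 : S) = 3 * 3 := by norm_num
            have h' : (-3 : S) = (-1) * 3 := by norm_num
            rw [this, h', mul_pow, mul_pow]; ring
        _ = x ^ (2 * n) * (1 - 8 * x) ^ (2 * n) * (3 ^ n * FA p x3) := by rw [← e1]; ring
        _ = ((2 * i - r) * (1 - 8 * x) ^ 2) ^ n * (x ^ (2 * n) * FA p y) := by
            rw [e3, mul_pow, ← pow_mul]; ring
        _ = (-36 * x ^ 2 * (1 + s) ^ 2) ^ n * α := by rw [s3, e2]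
        _ = _ := by
            have h' : (-36 : S) * x ^ 2 * (1 + s) ^ 2 = (-1) * (9 * x ^ 2 * (2 ^ 2 * (1 + s) ^ 2)) := by
              ring
            rw [h', mul_pow, mul_pow, mul_pow, mul_pow, ← pow_mul, ← pow_mul, ← pow_mul]
            ring
    rw [hfer, one_mul] at h1
    have h2 : ((-1 : S) ^ n) * (-1) ^ n = 1 := by rw [← mul_pow]; simp
    calc (9 : S) ^ n * x ^ (2 * n) * α
        = ((-1 : S) ^ n * (-1) ^ n) * (9 ^ n * x ^ (2 * n) * α) := by rw [h2, one_mul]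
      _ = (-1 : S) ^ n * ((-1) ^ n * (9 ^ n * x ^ (2 * n) * α)) := by ring
      _ = ((-1 : S) ^ n * (-1) ^ n) * (9 ^ n * x ^ (2 * n) * ((1 + s) ^ (2 * n) * α)) := by
          rw [h1]; ring
      _ = _ := by rw [h2, one_mul]
  have hux : IsUnit x := IsUnit.of_mul_eq_one _ hxy
  have hu : IsUnit ((9 : S) ^ n * x ^ (2 * n)) := (hu9.pow n).mul (hux.pow (2 * n))
  have e5 : α = (1 + s) ^ (2 * n) * α := hu.mul_left_cancel e4
  obtain ⟨t, ht⟩ := exists_add_pow_prime_eq hp (1 : S) s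
  rw [hS, zero_mul, zero_mul, zero_mul, add_zero, one_pow, hs] at ht
  have e6 : (1 + s) * α = (1 - s) * α := by
    calc (1 + s) * α = (1 + s) * ((1 + s) ^ (2 * n) * α) := by rw [← e5]
      _ = (1 + s) ^ (2 * n + 1) * α := by rw [pow_succ]; ring
      _ = (1 - s) * α := by rw [← hn, ht]; ring
  have e7 : (10 : S) * α = 0 := by
    linear_combination 2 * α * hse - s * e6
  exact (hu10.mul_right_eq_zero).mp e7

end Pool.Agent.Lib.MP_d4c4f0_nt
end

section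

/-!
# C06b: case (iii) in a ring with `p^2 = 0`

* `final_iii` (`p^2 = 0`): in `S/(p)` `inert_mod` gives `FA p x ∈ (p)`, so `FA p x ^2 = 0`; `FH p (-w) x ∈ (p)` by `FB_mod'`
  (`w = -xy`), so `Hp p w x = 0`; `Gp_eq_Hp`, `Gp_eq`, `cxr_E`: `∑ = 0`.
-/

set_option autoImplicit false

open Finset

namespace Pool.Agent.Lib.MP_d4c4f0_nt

variable {S : Type*} [CommRing S] {q i r ω : S} {p : ℕ}

theorem final_iii (hp : p.Prime) (h5 : 5 < p) (hS : (p : S) ^ 2 = 0) (hq : 4 * q = 1)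
    (hi : i ^ 2 = -1) (hr : r ^ 2 = 5) (hω : 16 * ω = 1)
    (hs : ∃ z : S, (i * r) ^ p + i * r = (p : S) * z) :
    ∑ n ∈ range p, (vr n : S) * ω ^ n = 0 := by
  obtain ⟨z0, hz0⟩ := hs
  -- reduction modulo p
  have hA : ∃ z1 : S, FA p (cxr q i r) = (p : S) * z1 := by
    have h1 : (Ideal.Quotient.mk (Ideal.span {(p : S)})) (FA p (cxr q i r)) = 0 := by
      have hp0 : ((p : ℕ) : S ⧸ Ideal.span {(p : S)}) = 0 := by
        have := Ideal.Quotient.eq_zero_iff_mem.2 (Ideal.mem_span_singleton_self (p : S))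
        rwa [map_natCast] at this
      have h2 := inert_mod (S := S ⧸ Ideal.span {(p : S)})
        (q := Ideal.Quotient.mk _ q) (i := Ideal.Quotient.mk _ i) (r := Ideal.Quotient.mk _ r)
        hp h5 hp0
        (by rw [← map_ofNat (Ideal.Quotient.mk (Ideal.span {(p : S)})) 4, ← map_mul, hq, map_one])
        (by rw [← map_pow, hi, map_neg, map_one])
        (by rw [← map_pow, hr, map_ofNat])
        (by
          rw [← map_mul, ← map_pow, ← map_neg, eq_comm, ← sub_eq_zero, ← map_sub]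
          have h3 : -(i * r) - (i * r) ^ p = (p : S) * (-z0) := by
            linear_combination (-1 : S) * hz0
          rw [h3, map_mul, map_natCast, hp0, zero_mul])
      rw [map_FA]
      have h4 : (Ideal.Quotient.mk (Ideal.span {(p : S)})) (cxr q i r) =
          cxr (Ideal.Quotient.mk _ q) (Ideal.Quotient.mk _ i) (Ideal.Quotient.mk _ r) := by
        simp [cxr, map_ofNat]
      rw [h4]
      exact h2
    rw [Ideal.Quotient.eq_zero_iff_mem, Ideal.mem_span_singleton] at h1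
    exact h1
  obtain ⟨z1, hz1⟩ := hA
  have hxy := cxr_w2 hq hi hr
  have hw : 8 * -(cxr q i r * cxr q (-i) (-r)) = 1 := by
    linear_combination (-1 : S) * hxy
  obtain ⟨z2, hz2⟩ := FB_mod' (p := p) hp (by omega) hw (cxr q i r)
  have hFA : FA p (cxr q i r) ^ 2 = 0 := by
    rw [hz1]
    linear_combination z1 ^ 2 * hS
  have hFH : FH p (-(-(cxr q i r * cxr q (-i) (-r)))) (cxr q i r) ^ 2 = 0 := by
    have h1 : FH p (-(-(cxr q i r * cxr q (-i) (-r)))) (cxr q i r) = (p : S) * (z1 + z2) := by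
      linear_combination hz2 + hz1
    rw [h1]
    linear_combination (z1 + z2) ^ 2 * hS
  have hG := Gp_eq_Hp hp (by omega) hS hw (cxr q i r)
  have hH : Hp p (-(cxr q i r * cxr q (-i) (-r))) (cxr q i r) = 0 := by
    unfold Hp
    rw [hFA, hFH]
    ring
  rw [hH, Gp_eq hω (cxr_quartic hq hi hr)] at hG
  -- the unit
  have h18 : IsUnit (18 : S) := by
    have h1 : IsCoprime (18 : ℤ) ((p : ℤ) ^ 2) := by
      refine IsCoprime.pow_right ?_
      have h2 : Nat.Coprime 18 p := by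
        rw [Nat.coprime_comm, Nat.Prime.coprime_iff_not_dvd hp]
        intro h3
        have h4 : (18 : ℕ) = 2 * 3 ^ 2 := by norm_num
        rw [h4, hp.dvd_mul] at h3
        rcases h3 with h3 | h3
        · have := Nat.le_of_dvd (by norm_num) h3
          omega
        · have := Nat.le_of_dvd (by norm_num) (hp.dvd_of_dvd_pow h3)
          omega
      exact_mod_cast Nat.isCoprime_iff_coprime.2 h2
    obtain ⟨u, v, huv⟩ := h1
    have h3 : ((u * 18 + v * (p : ℤ) ^ 2 : ℤ) : S) = 1 := by rw [huv]; simp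
    push_cast at h3
    rw [hS, mul_zero, add_zero] at h3
    exact IsUnit.of_mul_eq_one _ (by rw [mul_comm]; exact h3)
  have hE : IsUnit (1 + 8 * cxr q i r ^ 2) := by
    have h1 := cxr_E hq hi hr
    rw [← h1] at h18
    exact isUnit_of_mul_isUnit_left h18
  exact (hE.pow (2 * p - 1)).mul_right_eq_zero.1 hG

end Pool.Agent.Lib.MP_d4c4f0_nt
end

section

/-!
# D05: case (iii) in `PadicAlgCl p`

`p % 20 = 11, 13, 17, 19`: modulo `p`, `(ir)^p = i^p r^p = -ir` (`frob_i_*`, `frob_r_*` in `Rq K p 1`; `11, 19`: `-i`, `r`;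
`13, 17`: `i`, `-r`), hence `hs` of `final_iii` in `S = Rq K p 2` by `quot_eq_iff` and `exists_mul_p`. Conclusion by `quot_eq_iff`.
-/

set_option autoImplicit false

open Finset

namespace Pool.Agent.Lib.MP_d4c4f0_nt

theorem K_case_iii {p : ℕ} [hp : Fact p.Prime] (h5 : 5 < p)
    (hmod : p % 20 = 11 ∨ p % 20 = 13 ∨ p % 20 = 17 ∨ p % 20 = 19) :
    ‖∑ j ∈ range p, (vr j : PadicAlgCl p) / 16 ^ j‖ ≤ ‖(p : PadicAlgCl p)‖ ^ 2 := by
  have hpp : p.Prime := hp.out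
  have hp0 : 0 < p := hpp.pos
  obtain ⟨i, hi⟩ := IsAlgClosed.exists_pow_nat_eq (-1 : PadicAlgCl p) (n := 2) (by norm_num)
  obtain ⟨r, hr⟩ := IsAlgClosed.exists_pow_nat_eq (5 : PadicAlgCl p) (n := 2) (by norm_num)
  have n2 : ‖(2 : PadicAlgCl p)‖ = 1 := by
    have := norm_small (p := p) (k := 2) (by norm_num) (by omega)
    simpa using this
  have n5 : ‖(5 : PadicAlgCl p)‖ = 1 := by
    have := norm_small (p := p) (k := 5) (by norm_num) (by omega)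
    simpa using this
  have ni : ‖i‖ ≤ 1 := by
    have h1 : ‖i‖ ^ 2 = 1 := by rw [← norm_pow, hi, norm_neg, norm_one]
    nlinarith [norm_nonneg i]
  have nr : ‖r‖ ≤ 1 := by
    have h1 : ‖r‖ ^ 2 = 1 := by rw [← norm_pow, hr, n5]
    nlinarith [norm_nonneg r]
  have nq : ‖((2 : PadicAlgCl p)⁻¹) ^ 2‖ ≤ 1 := by
    rw [norm_pow, norm_inv, n2]
    norm_num
  have nw : ‖((2 : PadicAlgCl p)⁻¹) ^ 4‖ ≤ 1 := by
    rw [norm_pow, norm_inv, n2]
    norm_num
  have h20 : (2 : PadicAlgCl p) ≠ 0 := by norm_num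
  let I : OK (PadicAlgCl p) := ⟨i, ni⟩
  let R : OK (PadicAlgCl p) := ⟨r, nr⟩
  let Q : OK (PadicAlgCl p) := ⟨((2 : PadicAlgCl p)⁻¹) ^ 2, nq⟩
  let W : OK (PadicAlgCl p) := ⟨((2 : PadicAlgCl p)⁻¹) ^ 4, nw⟩
  have hI : I ^ 2 = -1 := Subtype.ext hi
  have hR : R ^ 2 = 5 := Subtype.ext hr
  have hQ : 4 * Q = 1 := by
    refine Subtype.ext ?_
    show (4 : PadicAlgCl p) * ((2 : PadicAlgCl p)⁻¹) ^ 2 = 1
    field_simp
    norm_num
  have hW : 16 * W = 1 := by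
    refine Subtype.ext ?_
    show (16 : PadicAlgCl p) * ((2 : PadicAlgCl p)⁻¹) ^ 4 = 1
    field_simp
    norm_num
  -- modulo `p`
  have hmodp : ‖(((I * R) ^ p : OK (PadicAlgCl p)) : PadicAlgCl p) -
      ((-(I * R) : OK (PadicAlgCl p)) : PadicAlgCl p)‖ ≤ ‖(p : PadicAlgCl p)‖ ^ 1 := by
    rw [← quot_eq_iff hp0]
    set π := Ideal.Quotient.mk (Ideal.span {((p : ℕ) : OK (PadicAlgCl p)) ^ 1}) with hπ
    have hS : ((p : ℕ) : Rq (PadicAlgCl p) p 1) = 0 := by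
      have := quot_pow_zero (K := PadicAlgCl p) (p := p) (n := 1)
      rwa [pow_one] at this
    have hi1 : (π I) ^ 2 = -1 := by rw [← map_pow, hI, map_neg, map_one]
    have hr1 : (π R) ^ 2 = 5 := by rw [← map_pow, hR, map_ofNat]
    rw [map_pow, map_mul, mul_pow, map_neg, map_mul]
    rcases hmod with h | h | h | h
    · rw [frob_i_three (p := p) (by omega) hi1,
        frob_r_pos hpp h5 hS (Or.inl (by omega)) hr1]
      ring
    · rw [frob_i_one (p := p) (by omega) hi1,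
        frob_r_neg hpp h5 hS (Or.inr (by omega)) hr1]
      ring
    · rw [frob_i_one (p := p) (by omega) hi1,
        frob_r_neg hpp h5 hS (Or.inl (by omega)) hr1]
      ring
    · rw [frob_i_three (p := p) (by omega) hi1,
        frob_r_pos hpp h5 hS (Or.inr (by omega)) hr1]
      ring
  rw [pow_one] at hmodp
  -- modulo `p ^ 2`
  set π := Ideal.Quotient.mk (Ideal.span {((p : ℕ) : OK (PadicAlgCl p)) ^ 2}) with hπ
  obtain ⟨z, hz⟩ := exists_mul_p (n := 2) hp0 _ _ hmodp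
  have hfin : ∑ n ∈ range p, (vr n : Rq (PadicAlgCl p) p 2) * (π W) ^ n = 0 := by
    refine final_iii (q := π Q) (i := π I) (r := π R) hpp h5 quot_pow_zero ?_ ?_ ?_ ?_ ⟨z, ?_⟩
    · have := congrArg π hQ
      rwa [map_mul, map_ofNat, map_one] at this
    · rw [← map_pow, hI, map_neg, map_one]
    · rw [← map_pow, hR, map_ofNat]
    · have := congrArg π hW
      rwa [map_mul, map_ofNat, map_one] at this
    · rw [← hz, ← hπ, map_pow, map_neg, map_mul, sub_neg_eq_add]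
  have hlift : π (∑ n ∈ range p, (vr n : OK (PadicAlgCl p)) * W ^ n) = π 0 := by
    rw [map_zero, ← hfin, map_sum]
    refine Finset.sum_congr rfl fun n _ => ?_
    rw [map_mul, map_pow, map_natCast]
  have hnorm := (quot_eq_iff hp0 _ _).1 hlift
  have hsum : ((∑ n ∈ range p, (vr n : OK (PadicAlgCl p)) * W ^ n : OK (PadicAlgCl p)) :
      PadicAlgCl p) - ((0 : OK (PadicAlgCl p)) : PadicAlgCl p) =
      ∑ j ∈ range p, (vr j : PadicAlgCl p) / 16 ^ j := by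
    rw [ZeroMemClass.coe_zero, sub_zero, AddSubmonoidClass.coe_finsetSum]
    refine Finset.sum_congr rfl fun n _ => ?_
    rw [div_eq_mul_inv, ← inv_pow]
    have hw : (W : PadicAlgCl p) = (16 : PadicAlgCl p)⁻¹ := by
      show ((2 : PadicAlgCl p)⁻¹) ^ 4 = (16 : PadicAlgCl p)⁻¹
      rw [inv_pow]
      norm_num
    rw [← hw]
    rfl
  rw [← hsum]
  exact hnorm

end Pool.Agent.Lib.MP_d4c4f0_nt
end
end
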