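import Mathlib

/-!
# Definitions for MP_d4c4f0_nt (the sum `Z_p(16)` modulo `p^2`)
-/

set_option autoImplicit false

open Finset

namespace Pool.Agent.Lib.MP_d4c4f0_nt

/-- Franel numbers. -/
def fr (n : ℕ) : ℕ := ∑ k ∈ range (n + 1), n.choose k ^ 3

/-- `C(2n,n) f_n`. -/
def vr (n : ℕ) : ℕ := (2 * n).choose n * fr n

section Ring

variable {S : Type*} [CommRing S]

/-- Truncated generating function of the Franel numbers, homogeneous form:
`FH p u v = ∑_{n<p} f_n u^n v^(p-1-n)`. -/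
def FH (p : ℕ) (u v : S) : S := ∑ n ∈ range p, (fr n : S) * u ^ n * v ^ (p - 1 - n)

/-- `FA p x = ∑_{n<p} f_n x^n`. -/
def FA (p : ℕ) (x : S) : S := ∑ n ∈ range p, (fr n : S) * x ^ n

/-- `tn n A B = [z^n] (z^2 + A z + B)^n = ∑_k C(n,2k) C(2k,k) A^(n-2k) B^k`. -/
def tn (n : ℕ) (A B : S) : S :=
  ∑ k ∈ range (n / 2 + 1), ((n.choose (2 * k) * (2 * k).choose k : ℕ) : S) *
    A ^ (n - 2 * k) * B ^ k

/-- `(1+8x^2)^(2p-1) * ∑_{n<p} v_n T^n` with `T = x(1+x)(1-8x)/(1+8x^2)^2`. -/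
def Gp (p : ℕ) (x : S) : S :=
  ∑ n ∈ range p, (vr n : S) * (x * (1 - 7 * x - 8 * x ^ 2)) ^ n *
    (1 + 8 * x ^ 2) ^ (2 * p - 1 - 2 * n)

/-- The right hand side of the main generic identity; `w` is an inverse of `8`. -/
def Hp (p : ℕ) (w x : S) : S :=
  (2 * (1 + 8 * x ^ 2) ^ p - 1 - 8 * x ^ (2 * p)) * FA p x ^ 2 +
    8 * x ^ (2 * p) * (FH p (-w) x ^ 2 - FA p x ^ 2)

/-- The coefficients of the curve `y^2 = X (X^2 + a X + b)` of parameter `x`. -/
def ea (x : S) : S := 1 - 4 * x - 8 * x ^ 2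

/-- See `ea`. -/
def eb (x : S) : S := 16 * x ^ 3 * (1 + x)

theorem map_FH {S' : Type*} [CommRing S'] (f : S →+* S') (p : ℕ) (u v : S) :
    f (FH p u v) = FH p (f u) (f v) := by
  simp [FH, map_sum]

theorem map_FA {S' : Type*} [CommRing S'] (f : S →+* S') (p : ℕ) (x : S) :
    f (FA p x) = FA p (f x) := by
  simp [FA, map_sum]

theorem map_tn {S' : Type*} [CommRing S'] (f : S →+* S') (n : ℕ) (A B : S) :
    f (tn n A B) = tn n (f A) (f B) := by
  simp [tn, map_sum]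

theorem map_Gp {S' : Type*} [CommRing S'] (f : S →+* S') (p : ℕ) (x : S) :
    f (Gp p x) = Gp p (f x) := by
  simp [Gp, map_sum, map_ofNat]

theorem map_Hp {S' : Type*} [CommRing S'] (f : S →+* S') (p : ℕ) (w x : S) :
    f (Hp p w x) = Hp p (f w) (f x) := by
  simp [Hp, map_FA, map_FH, map_ofNat]

theorem map_ea {S' : Type*} [CommRing S'] (f : S →+* S') (x : S) : f (ea x) = ea (f x) := by
  simp [ea, map_ofNat]

theorem map_eb {S' : Type*} [CommRing S'] (f : S →+* S') (x : S) : f (eb x) = eb (f x) := by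
  simp [eb, map_ofNat]

end Ring

section Series

open PowerSeries

variable {R : Type*} [CommRing R]

/-- `θ = X d/dX`. -/
noncomputable def th : Derivation R R⟦X⟧ R⟦X⟧ := (X : R⟦X⟧) • (d⁄dX R)

theorem coeff_th (f : R⟦X⟧) (n : ℕ) : coeff n (th f) = (n : R) * coeff n f := by
  have h : th f = X * d⁄dX R f := rfl
  rw [h]
  cases n with
  | zero => simp
  | succ n =>
    rw [coeff_succ_X_mul, coeff_derivative]
    push_cast
    ring

/-- `(1+X)(1-8X)`. -/
noncomputable def al : R⟦X⟧ := 1 - 7 * X - 8 * X ^ 2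

/-- `θ al`. -/
noncomputable def be : R⟦X⟧ := -7 * X - 16 * X ^ 2

/-- Constant term of the operator `L2`. -/
noncomputable def ga : R⟦X⟧ := -2 * X - 8 * X ^ 2

/-- `θ be`. -/
noncomputable def be1 : R⟦X⟧ := -7 * X - 32 * X ^ 2

/-- `θ ga`. -/
noncomputable def ga1 : R⟦X⟧ := -2 * X - 16 * X ^ 2

/-- The second order operator of the Franel numbers. -/
noncomputable def L2 (y : R⟦X⟧) : R⟦X⟧ := al * th (th y) + be * th y + ga * y

/-- Its symmetric square (times `al^2`). -/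
noncomputable def MM (y : R⟦X⟧) : R⟦X⟧ :=
  al ^ 2 * th (th (th y)) + 3 * al * be * th (th y) +
    (be ^ 2 + al * be1 + 4 * al * ga) * th y + 2 * (be * ga + al * ga1) * y

theorem th_X : th (X : R⟦X⟧) = X := by
  have h : th (X : R⟦X⟧) = X * d⁄dX R X := rfl
  rw [h, derivative_X, mul_one]

theorem th_ofNat (n : ℕ) [n.AtLeastTwo] : th (ofNat(n) : R⟦X⟧) = 0 := by
  have h : (ofNat(n) : R⟦X⟧) = ((ofNat(n) : ℕ) : R⟦X⟧) := by simp
  rw [h]
  exact Derivation.map_natCast _ _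

theorem th_natCast (n : ℕ) : th (n : R⟦X⟧) = 0 := Derivation.map_natCast _ _

theorem th_one : th (1 : R⟦X⟧) = 0 := Derivation.map_one_eq_zero _

theorem th_mul (f g : R⟦X⟧) : th (f * g) = f * th g + g * th f := by
  rw [Derivation.leibniz]
  simp [smul_eq_mul]

theorem th_pow (f : R⟦X⟧) (n : ℕ) : th (f ^ n) = n * f ^ (n - 1) * th f := by
  rw [Derivation.leibniz_pow]
  simp [smul_eq_mul, nsmul_eq_mul, mul_assoc]

theorem th_al : th (al : R⟦X⟧) = be := by
  simp only [al, be, map_sub, th_mul, th_pow, th_X, th_one, th_ofNat]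
  push_cast
  ring

theorem th_be : th (be : R⟦X⟧) = be1 := by
  simp only [be1, be, map_sub, map_neg, th_mul, th_pow, th_X, th_ofNat]
  push_cast
  ring

theorem th_ga : th (ga : R⟦X⟧) = ga1 := by
  simp only [ga1, ga, map_sub, map_neg, th_mul, th_pow, th_X, th_ofNat]
  push_cast
  ring

end Series

end Pool.Agent.Lib.MP_d4c4f0_nt
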