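import Pool.Agent.Lib.MP_d4c4f0_nt.ZS.D05

/-!
# Final assembly for MP_d4c4f0_nt
-/

set_option autoImplicit false

open Finset

namespace Pool.Agent.Lib.MP_d4c4f0_nt

/-- `Z_p(16)`. -/
def Z16 (p : ℕ) : ℚ := ∑ j ∈ range p, (vr j : ℚ) / 16 ^ j

theorem Z16_cast {p : ℕ} [Fact p.Prime] : ((Z16 p : ℚ) : PadicAlgCl p) =
    ∑ j ∈ range p, (vr j : PadicAlgCl p) / 16 ^ j := by
  unfold Z16
  push_cast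
  rfl

theorem Z16_i {p : ℕ} (hp : p.Prime) (h5 : 5 < p) (hmod : p % 20 = 1 ∨ p % 20 = 9)
    {m n : ℤ} (hmn : (p : ℤ) = m ^ 2 + 5 * n ^ 2) :
    ∃ a b : ℤ, ¬ (p : ℤ) ∣ b ∧
      Z16 p - (4 * (m : ℚ) ^ 2 - 2 * p) = (p : ℚ) ^ 2 * ((a : ℚ) / (b : ℚ)) := by
  haveI := Fact.mk hp
  apply rat_of_norm
  push_cast
  rw [Z16_cast]
  exact K_case_i h5 hmod hmn

theorem Z16_ii {p : ℕ} (hp : p.Prime) (h5 : 5 < p) (hmod : p % 20 = 3 ∨ p % 20 = 7)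
    {u v : ℤ} (huv : 2 * (p : ℤ) = u ^ 2 + 5 * v ^ 2) :
    ∃ a b : ℤ, ¬ (p : ℤ) ∣ b ∧
      Z16 p - (2 * (u : ℚ) ^ 2 - 2 * p) = (p : ℚ) ^ 2 * ((a : ℚ) / (b : ℚ)) := by
  haveI := Fact.mk hp
  apply rat_of_norm
  push_cast
  rw [Z16_cast]
  exact K_case_ii h5 hmod huv

theorem Z16_iii {p : ℕ} (hp : p.Prime) (h5 : 5 < p)
    (hmod : p % 20 = 11 ∨ p % 20 = 13 ∨ p % 20 = 17 ∨ p % 20 = 19) :
    ∃ a b : ℤ, ¬ (p : ℤ) ∣ b ∧ Z16 p = (p : ℚ) ^ 2 * ((a : ℚ) / (b : ℚ)) := by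
  haveI := Fact.mk hp
  apply rat_of_norm
  rw [Z16_cast]
  exact K_case_iii h5 hmod

end Pool.Agent.Lib.MP_d4c4f0_nt
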